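import Pool.Agent.Y118.HP.FI

/-!
# Periods with one moving branch point and general exponents: analyticity
-/

set_option autoImplicit false

open Complex Set MeasureTheory Filter Topology

namespace Pool.Agent.Helper67K9.SE

open Pool.Agent.Y118.HP (ee seg Dm isOpen_Dm InGap mem_Dm_of_im ee_self ee_succAbove ee_im ee_slit seg_slit_lt
  seg_slit_gt continuous_ee differentiable_ee)

variable {n : ℕ}

/-- the factor at the point `e i` of the integrand over the segment `l` -/
noncomputable def fac (κ : Fin (n + 1) → ℝ) (e : Fin (n + 1) → ℂ) (l : Fin n) (i : Fin (n + 1)) (x : ℂ) : ℂ :=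
  if i < l.castSucc then (x - e i) ^ (κ i : ℂ)
  else if l.succ < i then (e i - x) ^ (κ i : ℂ) else 1

/-- the regular part of the integrand -/
noncomputable def ker (κ : Fin (n + 1) → ℝ) (e : Fin (n + 1) → ℂ) (l : Fin n) (j : ℕ) (x : ℂ) : ℂ :=
  x ^ j * ∏ i, fac κ e l i x

/-- the weight -/
noncomputable def wt (κ : Fin (n + 1) → ℝ) (l : Fin n) (s : ℝ) : ℝ := s ^ κ l.castSucc * (1 - s) ^ κ l.succ

/-- the complex period over the segment `l` -/
noncomputable def perC (κ : Fin (n + 1) → ℝ) (e : Fin (n + 1) → ℂ) (l : Fin n) (j : ℕ) : ℂ :=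
  (e l.succ - e l.castSucc) ^ ((κ l.castSucc + κ l.succ + 1 : ℝ) : ℂ) *
    ∫ s in (0 : ℝ)..1, (wt κ l s : ℂ) * ker κ e l j (seg (e l.castSucc) (e l.succ) s)

theorem wt_nonneg (κ : Fin (n + 1) → ℝ) (l : Fin n) {s : ℝ} (h0 : 0 ≤ s) (h1 : s ≤ 1) : 0 ≤ wt κ l s :=
  mul_nonneg (Real.rpow_nonneg h0 _) (Real.rpow_nonneg (by linarith) _)

theorem wt_pos (κ : Fin (n + 1) → ℝ) (l : Fin n) {s : ℝ} (h0 : 0 < s) (h1 : s < 1) : 0 < wt κ l s :=
  mul_pos (Real.rpow_pos_of_pos h0 _) (Real.rpow_pos_of_pos (by linarith) _)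

theorem wt_integrable {κ : Fin (n + 1) → ℝ} (hκ : ∀ i, -1 < κ i) (l : Fin n) :
    IntervalIntegrable (wt κ l) volume 0 1 := by
  have h1 := betaIntegral_convergent (u := ((κ l.castSucc + 1 : ℝ) : ℂ)) (v := ((κ l.succ + 1 : ℝ) : ℂ))
    (by rw [ofReal_re]; linarith [hκ l.castSucc]) (by rw [ofReal_re]; linarith [hκ l.succ])
  have h2 := h1.norm
  rw [intervalIntegrable_iff_integrableOn_Ioo_of_le zero_le_one] at h2 ⊢
  refine h2.congr_fun ?_ measurableSet_Ioo
  intro s hs
  simp only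
  have e1 : ((κ l.castSucc + 1 : ℝ) : ℂ) - 1 = ((κ l.castSucc : ℝ) : ℂ) := by push_cast; ring
  have e2 : ((κ l.succ + 1 : ℝ) : ℂ) - 1 = ((κ l.succ : ℝ) : ℂ) := by push_cast; ring
  have e3 : (1 - (s : ℂ)) = ((1 - s : ℝ) : ℂ) := by push_cast; ring
  rw [norm_mul, e1, e2, e3, norm_cpow_real, norm_cpow_real, norm_real, norm_real, Real.norm_eq_abs, Real.norm_eq_abs,
    abs_of_pos hs.1, abs_of_pos (by linarith [hs.2])]
  rfl

theorem wt_integrableOn {κ : Fin (n + 1) → ℝ} (hκ : ∀ i, -1 < κ i) (l : Fin n) :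
    Integrable (wt κ l) (volume.restrict (Ioo 0 1)) := by
  have h := wt_integrable hκ l
  rwa [intervalIntegrable_iff_integrableOn_Ioo_of_le zero_le_one] at h

/-- the integrand as a function of the parameter `u` of the segment and of `z` -/
noncomputable def KK (κ : Fin (n + 1) → ℝ) (a : Fin n → ℝ) (m : Fin (n + 1)) (l : Fin n) (j : ℕ) (u : ℝ) (z : ℂ) : ℂ :=
  ker κ (ee a m z) l j (seg (ee a m z l.castSucc) (ee a m z l.succ) u)

theorem continuousAt_KK (κ : Fin (n + 1) → ℝ) {a : Fin n → ℝ} (ha : StrictMono a) {m : Fin (n + 1)} (l : Fin n) (j : ℕ)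
    {u : ℝ} (hu0 : 0 ≤ u) (hu1 : u ≤ 1) {z : ℂ} (hz : z ∈ Dm a m) :
    ContinuousAt (fun p : ℝ × ℂ => KK κ a m l j p.1 p.2) (u, z) := by
  unfold KK ker
  have hseg : Continuous fun p : ℝ × ℂ => seg (ee a m p.2 l.castSucc) (ee a m p.2 l.succ) p.1 := by
    unfold seg
    have h1 : Continuous fun p : ℝ × ℂ => ee a m p.2 l.castSucc :=
      (continuous_ee a m l.castSucc).comp continuous_snd
    have h2 : Continuous fun p : ℝ × ℂ => ee a m p.2 l.succ :=
      (continuous_ee a m l.succ).comp continuous_snd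
    have h3 : Continuous fun p : ℝ × ℂ => (p.1 : ℂ) := continuous_ofReal.comp continuous_fst
    exact ((continuous_const.sub h3).mul h1).add (h3.mul h2)
  refine (hseg.continuousAt.pow j).mul ?_
  refine tendsto_finsetProd _ fun i _ => ?_
  have hi : Continuous fun p : ℝ × ℂ => ee a m p.2 i := (continuous_ee a m i).comp continuous_snd
  unfold fac
  split_ifs with h1 h2
  · exact ContinuousAt.cpow (hseg.continuousAt.sub hi.continuousAt) continuousAt_const
      (seg_slit_lt ha hz h1 hu0 hu1)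
  · exact ContinuousAt.cpow (hi.continuousAt.sub hseg.continuousAt) continuousAt_const
      (seg_slit_gt ha hz h2 hu0 hu1)
  · exact continuousAt_const

theorem differentiableAt_KK (κ : Fin (n + 1) → ℝ) {a : Fin n → ℝ} (ha : StrictMono a) {m : Fin (n + 1)} (l : Fin n)
    (j : ℕ) {u : ℝ} (hu0 : 0 ≤ u) (hu1 : u ≤ 1) {z : ℂ} (hz : z ∈ Dm a m) :
    DifferentiableAt ℂ (KK κ a m l j u) z := by
  unfold KK ker
  have hseg : Differentiable ℂ fun z : ℂ => seg (ee a m z l.castSucc) (ee a m z l.succ) u := by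
    unfold seg
    exact ((differentiable_ee a m l.castSucc).const_mul _).add ((differentiable_ee a m l.succ).const_mul _)
  refine (hseg.differentiableAt.pow j).mul ?_
  refine DifferentiableAt.fun_finsetProd fun i _ => ?_
  unfold fac
  split_ifs with h1 h2
  · exact DifferentiableAt.cpow_const (hseg.differentiableAt.sub (differentiable_ee a m i).differentiableAt)
      (seg_slit_lt ha hz h1 hu0 hu1)
  · exact DifferentiableAt.cpow_const ((differentiable_ee a m i).differentiableAt.sub hseg.differentiableAt)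
      (seg_slit_gt ha hz h2 hu0 hu1)
  · exact differentiableAt_const _

theorem perC_eq_Ioo (κ : Fin (n + 1) → ℝ) (e : Fin (n + 1) → ℂ) (l : Fin n) (j : ℕ) : perC κ e l j =
    (e l.succ - e l.castSucc) ^ ((κ l.castSucc + κ l.succ + 1 : ℝ) : ℂ) *
    ∫ s in Ioo (0 : ℝ) 1, (wt κ l s : ℂ) * ker κ e l j (seg (e l.castSucc) (e l.succ) s) := by
  unfold perC
  rw [intervalIntegral.integral_of_le zero_le_one, integral_Ioc_eq_integral_Ioo]

theorem continuousOn_wt (κ : Fin (n + 1) → ℝ) (l : Fin n) : ContinuousOn (wt κ l) (Ioo 0 1) := by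
  intro s hs
  refine ContinuousAt.continuousWithinAt ?_
  unfold wt
  refine ContinuousAt.mul ?_ ?_
  · exact Real.continuousAt_rpow_const s _ (Or.inl hs.1.ne')
  · refine ContinuousAt.rpow_const (by fun_prop) (Or.inl ?_)
    linarith [hs.2]

theorem differentiableOn_int {κ : Fin (n + 1) → ℝ} (hκ : ∀ i, -1 < κ i) {a : Fin n → ℝ} (ha : StrictMono a)
    (m : Fin (n + 1)) (l : Fin n) (j : ℕ) :
    DifferentiableOn ℂ (fun z => ∫ s in Ioo (0 : ℝ) 1, (wt κ l s : ℂ) * KK κ a m l j s z) (Dm a m) := by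
  have hcont : ContinuousOn (fun p : ℝ × ℂ => KK κ a m l j p.1 p.2) (Icc 0 1 ×ˢ Dm a m) := by
    rintro ⟨u, z⟩ ⟨hu, hz⟩
    exact (continuousAt_KK κ ha l j hu.1 hu.2 hz).continuousWithinAt
  intro z0 hz0
  obtain ⟨r, hr, hball⟩ := Metric.nhds_basis_closedBall.mem_iff.1 ((isOpen_Dm a m).mem_nhds hz0)
  obtain ⟨M, hM⟩ := (isCompact_Icc.prod (isCompact_closedBall z0 r)).exists_bound_of_continuousOn
    (hcont.mono (prod_mono le_rfl hball))
  have hpt : ∀ z ∈ Dm a m, ContinuousOn (fun s : ℝ => (wt κ l s : ℂ) * KK κ a m l j s z) (Ioo 0 1) := by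
    intro z hz
    refine (continuous_ofReal.comp_continuousOn (continuousOn_wt κ l)).mul ?_
    intro s hs
    refine ContinuousAt.continuousWithinAt ?_
    have h1 := continuousAt_KK κ ha l j hs.1.le hs.2.le hz
    have h2 : ContinuousAt (fun s : ℝ => (s, z)) s := by fun_prop
    exact ContinuousAt.comp (f := fun s : ℝ => (s, z)) (g := fun p : ℝ × ℂ => KK κ a m l j p.1 p.2) h1 h2
  have key := MP27fa52.diffOn_integral (U := Metric.ball z0 r) Metric.isOpen_ball
    (volume.restrict (Ioo 0 1)) (fun z s => (wt κ l s : ℂ) * KK κ a m l j s z)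
    (fun s => wt κ l s * M) ((wt_integrableOn hκ l).mul_const M)
    (fun z hz => (hpt z (hball (Metric.ball_subset_closedBall hz))).aestronglyMeasurable measurableSet_Ioo)
    (by
      filter_upwards [ae_restrict_mem measurableSet_Ioo] with s hs
      intro z hz
      exact ((differentiableAt_KK κ ha l j hs.1.le hs.2.le
        (hball (Metric.ball_subset_closedBall hz))).const_mul _).differentiableWithinAt)
    (by
      filter_upwards [ae_restrict_mem measurableSet_Ioo] with s hs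
      intro z hz
      rw [norm_mul, norm_real, Real.norm_eq_abs, abs_of_nonneg (wt_nonneg κ l hs.1.le hs.2.le)]
      exact mul_le_mul_of_nonneg_left (hM (s, z) ⟨⟨hs.1.le, hs.2.le⟩, Metric.ball_subset_closedBall hz⟩)
        (wt_nonneg κ l hs.1.le hs.2.le))
  exact ((key z0 (Metric.mem_ball_self hr)).differentiableAt
    (Metric.isOpen_ball.mem_nhds (Metric.mem_ball_self hr))).differentiableWithinAt

theorem differentiableOn_perC {κ : Fin (n + 1) → ℝ} (hκ : ∀ i, -1 < κ i) {a : Fin n → ℝ} (ha : StrictMono a)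
    (m : Fin (n + 1)) (l : Fin n) (j : ℕ) :
    DifferentiableOn ℂ (fun z => perC κ (ee a m z) l j) (Dm a m) := by
  have h3 : (fun z => perC κ (ee a m z) l j) =
      fun z => (ee a m z l.succ - ee a m z l.castSucc) ^ ((κ l.castSucc + κ l.succ + 1 : ℝ) : ℂ) *
        ∫ s in Ioo (0 : ℝ) 1, (wt κ l s : ℂ) * KK κ a m l j s z := funext fun z => perC_eq_Ioo κ _ l j
  rw [h3]
  refine DifferentiableOn.mul ?_ (differentiableOn_int hκ ha m l j)
  intro z hz
  refine DifferentiableAt.differentiableWithinAt ?_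
  exact DifferentiableAt.cpow_const ((differentiable_ee a m l.succ).differentiableAt.sub
    (differentiable_ee a m l.castSucc).differentiableAt) (ee_slit ha hz Fin.castSucc_lt_succ)

theorem conj_rpow {w : ℂ} (hw : w ∈ slitPlane) (x : ℝ) :
    ((starRingEnd ℂ) w) ^ (x : ℂ) = (starRingEnd ℂ) (w ^ (x : ℂ)) := by
  rw [conj_cpow _ _ (mem_slitPlane_iff_arg.1 hw).1, conj_ofReal]

/-- reflection -/
theorem perC_conj (κ : Fin (n + 1) → ℝ) {a : Fin n → ℝ} (ha : StrictMono a) (m : Fin (n + 1)) (l : Fin n) (j : ℕ)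
    {z : ℂ} (hz : z ∈ Dm a m) :
    perC κ (ee a m ((starRingEnd ℂ) z)) l j = (starRingEnd ℂ) (perC κ (ee a m z) l j) := by
  have he : ∀ k, ee a m ((starRingEnd ℂ) z) k = (starRingEnd ℂ) (ee a m z k) := by
    intro k
    rcases Fin.eq_self_or_eq_succAbove m k with rfl | ⟨i', rfl⟩
    · simp only [ee_self]
    · simp only [ee_succAbove, conj_ofReal]
  rw [perC_eq_Ioo, perC_eq_Ioo, map_mul, ← integral_conj]
  congr 1
  · rw [he, he, ← map_sub]
    exact conj_rpow (ee_slit ha hz Fin.castSucc_lt_succ) _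
  refine setIntegral_congr_fun measurableSet_Ioo fun s hs => ?_
  simp only [map_mul, conj_ofReal]
  congr 1
  have hs' : seg (ee a m ((starRingEnd ℂ) z) l.castSucc) (ee a m ((starRingEnd ℂ) z) l.succ) s =
      (starRingEnd ℂ) (seg (ee a m z l.castSucc) (ee a m z l.succ) s) := by
    unfold seg
    simp only [he, map_add, map_mul, map_sub, map_one, conj_ofReal]
  unfold ker
  rw [map_mul, map_pow, map_prod, hs']
  congr 1
  refine Finset.prod_congr rfl fun i _ => ?_
  unfold fac
  split_ifs with h1 h2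
  · rw [he, ← map_sub]
    exact conj_rpow (seg_slit_lt ha hz h1 hs.1.le hs.2.le) _
  · rw [he, ← map_sub]
    exact conj_rpow (seg_slit_gt ha hz h2 hs.1.le hs.2.le) _
  · simp

end Pool.Agent.Helper67K9.SE
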