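import Pool.Agent.Helper67K9.SE.Leg

/-!
# The conditions on the exponents
-/

set_option autoImplicit false

open Complex Set

namespace Pool.Agent.Helper67K9.SE

theorem zt_sq (μ : ℝ) : zt μ ^ 2 = exp (-(2 * Real.pi * μ * I)) := by
  unfold zt
  rw [neg_sq, ← exp_nat_mul]
  congr 1
  push_cast
  ring

theorem zt_inv_sq (μ : ℝ) : (zt μ)⁻¹ ^ 2 = exp (2 * Real.pi * μ * I) := by
  rw [inv_pow, zt_sq, exp_neg, inv_inv]

/-- `exp (2 π i x) = 1` only for integers `x` -/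
theorem exp_eq_one {x : ℝ} (h : exp (2 * Real.pi * x * I) = 1) : ∃ k : ℤ, x = k := by
  rw [Complex.exp_eq_one_iff] at h
  obtain ⟨k, hk⟩ := h
  refine ⟨k, ?_⟩
  have h1 : (2 * Real.pi * I : ℂ) ≠ 0 := by
    have : (Real.pi : ℂ) ≠ 0 := by exact_mod_cast Real.pi_ne_zero
    exact mul_ne_zero (mul_ne_zero two_ne_zero this) I_ne_zero
  have h2 : (2 * Real.pi * I : ℂ) * x = (2 * Real.pi * I) * k := by linear_combination hk
  have h3 := mul_left_cancel₀ h1 h2
  exact_mod_cast h3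

theorem zt_sq_ne {μ : ℝ} (h0 : 0 < μ) (h1 : μ < 1) (h : μ ≠ 1 / 2) : zt μ ^ 2 ≠ -1 := by
  intro h2
  have h3 : exp (2 * Real.pi * ((-μ + 1 / 2 : ℝ) : ℂ) * I) = 1 := by
    have h4 : (2 * Real.pi * ((-μ + 1 / 2 : ℝ) : ℂ) * I : ℂ) = -(2 * Real.pi * μ * I) + Real.pi * I := by
      push_cast
      ring
    rw [h4, exp_add, ← zt_sq, h2, exp_pi_mul_I]
    ring
  obtain ⟨k, hk⟩ := exp_eq_one h3
  have h5 : (-1 : ℝ) < k := by rw [← hk]; linarith
  have h6 : (k : ℝ) < 1 := by rw [← hk]; linarith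
  have h7 : k = 0 := by
    have h5' : (-1 : ℤ) < k := by exact_mod_cast h5
    have h6' : k < 1 := by exact_mod_cast h6
    omega
  rw [h7] at hk
  apply h
  push_cast at hk
  linarith

theorem zt_sum_ne {n : ℕ} (hn : 2 ≤ n) {μ : ℝ} (h : ∀ k : ℤ, (n - 1 : ℝ) * μ ≠ k) :
    ∑ l ∈ Finset.range (n - 1), (((zt μ)⁻¹) ^ 2) ^ (l + 1) ≠ 0 := by
  set q : ℂ := ((zt μ)⁻¹) ^ 2 with hq
  have hq0 : q ≠ 0 := pow_ne_zero _ (inv_ne_zero (zt_ne μ))
  intro h2
  have h3 : ∑ l ∈ Finset.range (n - 1), q ^ (l + 1) = q * ∑ l ∈ Finset.range (n - 1), q ^ l := by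
    rw [Finset.mul_sum]
    refine Finset.sum_congr rfl fun l _ => ?_
    ring
  rw [h3] at h2
  have h4 := (mul_eq_zero.1 h2).resolve_left hq0
  have h5 := geom_sum_mul q (n - 1)
  rw [h4, zero_mul] at h5
  have h6 : q ^ (n - 1) = 1 := (sub_eq_zero.1 h5.symm)
  rw [hq, zt_inv_sq, ← exp_nat_mul] at h6
  have h7 : (((n - 1 : ℕ) : ℂ) * (2 * Real.pi * μ * I)) = 2 * Real.pi * (((n - 1 : ℝ) * μ : ℝ) : ℂ) * I := by
    rw [Nat.cast_sub (by omega)]
    push_cast
    ring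
  rw [h7] at h6
  obtain ⟨k, hk⟩ := exp_eq_one h6
  exact h k hk

theorem sin_inj' {x y : ℝ} (hx0 : 0 < x) (hx1 : x < 1) (hy0 : 0 < y) (hy1 : y < 1)
    (h : Real.sin (Real.pi * x) = Real.sin (Real.pi * y)) : x = y ∨ x + y = 1 := by
  have hpi := Real.pi_pos
  have h1 : Complex.sin (Real.pi * x) = Complex.sin (Real.pi * y) := by
    have := congrArg (fun r : ℝ => (r : ℂ)) h
    simpa using this
  rw [Complex.sin_eq_sin_iff] at h1
  obtain ⟨k, hk | hk⟩ := h1
  · left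
    have h2 : Real.pi * y = 2 * k * Real.pi + Real.pi * x := by exact_mod_cast hk
    have h3 : y = 2 * k + x := by
      have : Real.pi * y = Real.pi * (2 * k + x) := by linarith
      exact mul_left_cancel₀ hpi.ne' this
    have h4 : (-1 : ℝ) < 2 * k := by linarith
    have h5 : (2 * k : ℝ) < 1 := by linarith
    have h6 : k = 0 := by
      have h4' : (-1 : ℤ) < 2 * k := by exact_mod_cast h4
      have h5' : 2 * k < 1 := by exact_mod_cast h5
      omega
    rw [h6] at h3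
    push_cast at h3
    linarith
  · right
    have h2 : Real.pi * y = (2 * k + 1) * Real.pi - Real.pi * x := by exact_mod_cast hk
    have h3 : y = 2 * k + 1 - x := by
      have : Real.pi * y = Real.pi * (2 * k + 1 - x) := by linarith
      exact mul_left_cancel₀ hpi.ne' this
    have h4 : (-1 : ℝ) < 2 * k := by linarith
    have h5 : (2 * k : ℝ) < 1 := by linarith
    have h6 : k = 0 := by
      have h4' : (-1 : ℤ) < 2 * k := by exact_mod_cast h4
      have h5' : 2 * k < 1 := by exact_mod_cast h5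
      omega
    rw [h6] at h3
    push_cast at h3
    linarith

theorem zt_inj {ι : Type} {μ : ι → ℝ} (hμ : ∀ r, 0 < μ r ∧ μ r < 1)
    (h : ∀ r s, r ≠ s → μ r ≠ μ s ∧ μ r + μ s ≠ 1) : Function.Injective fun r => (zt (μ r) - (zt (μ r))⁻¹) ^ 2 := by
  intro r s hrs
  by_contra hne
  obtain ⟨h1, h2⟩ := h r s hne
  simp only [zt_sub_inv] at hrs
  have hr := sin_pos' (hμ r).1 (hμ r).2
  have hs := sin_pos' (hμ s).1 (hμ s).2
  have h3 : Complex.sin (Real.pi * μ r) ^ 2 = Complex.sin (Real.pi * μ s) ^ 2 := by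
    have h4 : (2 * I) ^ 2 * Complex.sin (Real.pi * μ r) ^ 2 = (2 * I) ^ 2 * Complex.sin (Real.pi * μ s) ^ 2 := by
      linear_combination hrs
    exact mul_left_cancel₀ (pow_ne_zero _ (mul_ne_zero two_ne_zero I_ne_zero)) h4
  have h4 : Real.sin (Real.pi * μ r) ^ 2 = Real.sin (Real.pi * μ s) ^ 2 := by
    have : ((Real.sin (Real.pi * μ r) ^ 2 : ℝ) : ℂ) = ((Real.sin (Real.pi * μ s) ^ 2 : ℝ) : ℂ) := by
      push_cast
      exact h3
    exact_mod_cast this
  have h5 : Real.sin (Real.pi * μ r) = Real.sin (Real.pi * μ s) := by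
    rcases sq_eq_sq_iff_eq_or_eq_neg.1 h4 with h | h
    · exact h
    · linarith
  rcases sin_inj' (hμ r).1 (hμ r).2 (hμ s).1 (hμ s).2 h5 with h | h
  · exact h1 h
  · exact h2 h

end Pool.Agent.Helper67K9.SE
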