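import Pool.Agent.Helper67K9.SE.Ana
import Pool.Agent.Y118.HP.Cau

/-!
# Limits of differences of the primitive in the upper half-plane
-/

set_option autoImplicit false

open Complex Set MeasureTheory Filter Topology

namespace Pool.Agent.Helper67K9.SE

open Pool.Agent.Y118.HP (ee seg Dm isOpen_Dm InGap mem_Dm_of_im ee_self ee_succAbove ee_im ee_slit seg_slit_lt
  seg_slit_gt continuous_ee differentiable_ee strip convex_strip isOpen_strip sh sh_mem sh_seg tendsto_sh
  sh_sub_norm_le norm_sh_sub ee_im_mem ee_im_or seg_im_mem)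

variable {n : ℕ}

theorem neg_cpow_pos {w : ℂ} (hw : 0 < w.im) (x : ℝ) :
    (-w) ^ (x : ℂ) = exp (-(Real.pi * x * I)) * w ^ (x : ℂ) := by
  have h0 : w ≠ 0 := by rintro rfl; simp at hw
  have hl : log (-w) = log w - Real.pi * I := by
    unfold log
    rw [norm_neg, arg_neg_eq_arg_sub_pi_of_im_pos hw]
    push_cast; ring
  rw [cpow_def_of_ne_zero (neg_ne_zero.2 h0), cpow_def_of_ne_zero h0, hl, ← exp_add]
  congr 1
  ring

theorem neg_cpow_neg {w : ℂ} (hw : w.im < 0) (x : ℝ) :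
    (-w) ^ (x : ℂ) = exp (Real.pi * x * I) * w ^ (x : ℂ) := by
  have h := neg_cpow_pos (w := -w) (by simpa using hw) x
  rw [neg_neg] at h
  rw [h, ← mul_assoc, ← exp_add, add_neg_cancel, exp_zero, one_mul]

/-- the exponents -/
noncomputable def ex (τ : ℝ) (ν : Fin n → ℝ) (m : Fin (n + 1)) : Fin (n + 1) → ℝ :=
  Fin.insertNth (α := fun _ => ℝ) m τ ν

theorem ex_self (τ : ℝ) (ν : Fin n → ℝ) (m : Fin (n + 1)) : ex τ ν m m = τ := by simp [ex]

theorem ex_succAbove (τ : ℝ) (ν : Fin n → ℝ) (m : Fin (n + 1)) (i : Fin n) : ex τ ν m (m.succAbove i) = ν i := by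
  simp [ex]

/-- the function which is integrated -/
noncomputable def g0 (τ : ℝ) (ν : Fin n → ℝ) (a : Fin n → ℝ) (t : ℂ) (j : ℕ) (x : ℂ) : ℂ :=
  x ^ j * ((x - t) ^ (τ : ℂ) * ∏ i, (x - a i) ^ (ν i : ℂ))

theorem g0_eq (τ : ℝ) (ν : Fin n → ℝ) (a : Fin n → ℝ) (m : Fin (n + 1)) (t : ℂ) (j : ℕ) (x : ℂ) :
    g0 τ ν a t j x = x ^ j * ∏ i, (x - ee a m t i) ^ (ex τ ν m i : ℂ) := by
  unfold g0
  rw [Fin.prod_univ_succAbove _ m]
  simp only [ee_self, ee_succAbove, ex_self, ex_succAbove]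

theorem exists_primitive (τ : ℝ) (ν : Fin n → ℝ) (a : Fin n → ℝ) (t : ℂ) (j : ℕ) :
    ∃ G : ℂ → ℂ, ∀ x ∈ strip t, HasDerivAt G (g0 τ ν a t j x) x := by
  have hd : DifferentiableOn ℂ (g0 τ ν a t j) (strip t) := by
    intro x hx
    refine DifferentiableAt.differentiableWithinAt ?_
    unfold g0
    refine (differentiableAt_id.pow j).mul ((DifferentiableAt.cpow_const ?_ ?_).mul
      (DifferentiableAt.fun_finsetProd fun i _ => DifferentiableAt.cpow_const ?_ ?_))
    · fun_prop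
    · rw [mem_slitPlane_iff]; right
      rw [sub_im]
      have := hx.2
      exact (sub_neg.2 this).ne
    · fun_prop
    · rw [mem_slitPlane_iff]; right
      rw [sub_im, ofReal_im, sub_zero]
      exact hx.1.ne'
  obtain ⟨G, hG⟩ := (convex_strip t).exists_forall_hasDerivWithinAt hd
  exact ⟨G, fun x hx => (hG x hx).hasDerivAt ((isOpen_strip t).mem_nhds hx)⟩

/-- the factors which change the branch -/
noncomputable def cc (κ : Fin (n + 1) → ℝ) (m : Fin (n + 1)) (i : Fin (n + 1)) : ℂ :=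
  if i = m then exp (Real.pi * κ i * I) else exp (-(Real.pi * κ i * I))

/-- the phase of the segment `l` -/
noncomputable def ph (κ : Fin (n + 1) → ℝ) (m : Fin (n + 1)) (l : Fin n) : ℂ :=
  ∏ i, if i ≤ l.castSucc then 1 else cc κ m i

theorem norm_cc (κ : Fin (n + 1) → ℝ) (m : Fin (n + 1)) (i : Fin (n + 1)) : ‖cc κ m i‖ = 1 := by
  unfold cc
  split_ifs
  · have : (Real.pi * κ i * I : ℂ) = ((Real.pi * κ i : ℝ) : ℂ) * I := by push_cast; ring
    rw [this, norm_exp_ofReal_mul_I]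
  · have : (-(Real.pi * κ i * I) : ℂ) = ((-(Real.pi * κ i) : ℝ) : ℂ) * I := by push_cast; ring
    rw [this, norm_exp_ofReal_mul_I]

theorem norm_ph (κ : Fin (n + 1) → ℝ) (m : Fin (n + 1)) (l : Fin n) : ‖ph κ m l‖ = 1 := by
  unfold ph
  rw [norm_prod]
  refine Finset.prod_eq_one fun i _ => ?_
  split_ifs
  · simp
  · exact norm_cc κ m i

theorem ph_ne (κ : Fin (n + 1) → ℝ) (m : Fin (n + 1)) (l : Fin n) : ph κ m l ≠ 0 := by
  intro h
  have := norm_ph κ m l
  rw [h, norm_zero] at this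
  exact zero_ne_one this

theorem prod_full (κ : Fin (n + 1) → ℝ) (e : Fin (n + 1) → ℂ) (l : Fin n) (x : ℂ) :
    ∏ i, (if i ≤ l.castSucc then (x - e i) ^ (κ i : ℂ) else (e i - x) ^ (κ i : ℂ)) =
      (∏ i, fac κ e l i x) * (x - e l.castSucc) ^ (κ l.castSucc : ℂ) * (e l.succ - x) ^ (κ l.succ : ℂ) := by
  classical
  have h : ∀ i, (if i ≤ l.castSucc then (x - e i) ^ (κ i : ℂ) else (e i - x) ^ (κ i : ℂ)) =
      fac κ e l i x * (if i = l.castSucc then (x - e l.castSucc) ^ (κ l.castSucc : ℂ) else 1) *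
        (if i = l.succ then (e l.succ - x) ^ (κ l.succ : ℂ) else 1) := by
    intro i
    unfold fac
    rcases lt_trichotomy i l.castSucc with h1 | h1 | h1
    · have h2 : i ≠ l.succ := (h1.trans Fin.castSucc_lt_succ).ne
      simp [h1, h1.le, h1.ne, h2]
    · subst h1
      have h2 : l.castSucc ≠ l.succ := (Fin.castSucc_lt_succ).ne
      have h3 : ¬ l.succ < l.castSucc := not_lt.2 (Fin.castSucc_lt_succ).le
      simp [h2, h3]
    · have h2 : ¬ i < l.castSucc := not_lt.2 h1.le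
      have h3 : ¬ i ≤ l.castSucc := not_le.2 h1
      have h4 : i ≠ l.castSucc := h1.ne'
      rcases eq_or_ne i l.succ with h5 | h5
      · subst h5
        simp [h2, h3, h4]
      · have h6 : l.succ < i := lt_of_le_of_ne (Fin.castSucc_lt_iff_succ_le.1 h1) (Ne.symm h5)
        simp [h2, h3, h4, h5, h6]
  simp only [h, Finset.prod_mul_distrib, Finset.prod_ite_eq', Finset.mem_univ, if_true]

theorem full_eq (κ : Fin (n + 1) → ℝ) (a : Fin n → ℝ) (m : Fin (n + 1)) (t : ℂ) (l : Fin n) {x : ℂ}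
    (hx : x ∈ strip t) :
    ∏ i, (if i ≤ l.castSucc then (x - ee a m t i) ^ (κ i : ℂ) else (ee a m t i - x) ^ (κ i : ℂ)) =
      ph κ m l * ∏ i, (x - ee a m t i) ^ (κ i : ℂ) := by
  unfold ph
  rw [← Finset.prod_mul_distrib]
  refine Finset.prod_congr rfl fun i _ => ?_
  by_cases h1 : i ≤ l.castSucc
  · simp [h1]
  · simp only [h1, if_false]
    unfold cc
    by_cases h2 : i = m
    · subst h2
      rw [if_pos rfl, ee_self, ← neg_sub x t]
      exact neg_cpow_neg (by rw [sub_im]; exact sub_neg.2 hx.2) _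
    · rw [if_neg h2, ← neg_sub x]
      refine neg_cpow_pos ?_ _
      rw [sub_im, ee_im h2, sub_zero]
      exact hx.1

theorem cpow_mul_real {δ : ℂ} (hδ : δ ≠ 0) {s : ℝ} (hs : 0 < s) (x : ℝ) :
    (δ * (s : ℂ)) ^ (x : ℂ) = δ ^ (x : ℂ) * ((s ^ x : ℝ) : ℂ) := by
  have hs3 : (s : ℂ) ≠ 0 := by exact_mod_cast hs.ne'
  rw [mul_comm, cpow_def_of_ne_zero (mul_ne_zero hs3 hδ), log_ofReal_mul hs hδ,
    cpow_def_of_ne_zero hδ, add_mul, exp_add, mul_comm]
  congr 1
  rw [ofReal_cpow hs.le, cpow_def_of_ne_zero hs3, ofReal_log hs.le]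

/-- The period over the segment `l` is the limit of differences of the primitive. -/
theorem tendsto_period {a : Fin n → ℝ} (ha : StrictMono a) (m : Fin (n + 1)) {t : ℂ} (ht : 0 < t.im)
    (j : ℕ) {τ : ℝ} {ν : Fin n → ℝ} (hκ : ∀ i, -1 < ex τ ν m i) (hκ0 : ∀ i, ex τ ν m i ≤ 0) {G : ℂ → ℂ}
    (hG : ∀ x ∈ strip t, HasDerivAt G (g0 τ ν a t j x) x) (l : Fin n) :
    Tendsto (fun ε : ℝ => ph (ex τ ν m) m l * (G (sh t ε (ee a m t l.succ)) - G (sh t ε (ee a m t l.castSucc))))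
      (𝓝[>] (0 : ℝ)) (𝓝 (perC (ex τ ν m) (ee a m t) l j)) := by
  have htD : t ∈ Dm a m := mem_Dm_of_im a m ht.ne'
  set κ := ex τ ν m with hκd
  set e := ee a m t with he
  set p := e l.castSucc with hp
  set q := e l.succ with hq
  set δ := q - p with hδ
  have hδs : δ ∈ slitPlane := ee_slit ha htD Fin.castSucc_lt_succ
  have hδ0 : δ ≠ 0 := slitPlane_ne_zero hδs
  have hpim := ee_im_mem (a := a) (m := m) ht l.castSucc
  have hqim := ee_im_mem (a := a) (m := m) ht l.succ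
  -- the integrand
  set Φ : ℝ → ℝ → ℂ := fun ε s => ph κ m l * (g0 τ ν a t j (sh t ε (seg p q s)) *
    (sh t ε q - sh t ε p)) with hΦ
  have hxim : ∀ s : ℝ, 0 ≤ s → s ≤ 1 → 0 ≤ (seg p q s).im ∧ (seg p q s).im ≤ t.im :=
    fun s h0 h1 => seg_im_mem hpim hqim h0 h1
  have hmem : ∀ ε : ℝ, 0 < ε → ε ≤ 1 → ∀ s : ℝ, 0 ≤ s → s ≤ 1 → sh t ε (seg p q s) ∈ strip t :=
    fun ε h0 h1 s hs0 hs1 => sh_mem ht h0 h1 (hxim s hs0 hs1).1 (hxim s hs0 hs1).2
  have hg0c : ContinuousOn (g0 τ ν a t j) (strip t) := by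
    intro x hx
    refine ContinuousAt.continuousWithinAt ?_
    unfold g0
    refine (continuousAt_id.pow j).mul ((ContinuousAt.cpow ?_ continuousAt_const ?_).mul
      (tendsto_finsetProd _ fun i _ => ContinuousAt.cpow ?_ continuousAt_const ?_))
    · fun_prop
    · rw [mem_slitPlane_iff]; right
      rw [sub_im]
      have := hx.2
      exact (sub_neg.2 this).ne
    · fun_prop
    · rw [mem_slitPlane_iff]; right
      rw [sub_im, ofReal_im, sub_zero]
      exact hx.1.ne'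
  have hpath : ∀ ε : ℝ, Continuous fun s : ℝ => sh t ε (seg p q s) := by
    intro ε
    have : (fun s : ℝ => sh t ε (seg p q s)) = fun s : ℝ => seg (sh t ε p) (sh t ε q) s := by
      funext s; rw [sh_seg]
    rw [this]
    unfold seg
    fun_prop
  have hΦc : ∀ ε : ℝ, 0 < ε → ε ≤ 1 → ContinuousOn (Φ ε) (Icc 0 1) := by
    intro ε h0 h1
    simp only [hΦ]
    refine continuousOn_const.mul (ContinuousOn.mul ?_ continuousOn_const)
    exact hg0c.comp (hpath ε).continuousOn fun s hs => hmem ε h0 h1 s hs.1 hs.2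
  -- FTC
  have hFTC : ∀ ε : ℝ, 0 < ε → ε ≤ 1 → ∫ s in (0 : ℝ)..1, Φ ε s =
      ph κ m l * (G (sh t ε q) - G (sh t ε p)) := by
    intro ε h0 h1
    have hder : ∀ s ∈ uIcc (0 : ℝ) 1,
        HasDerivAt (fun s : ℝ => ph κ m l * G (sh t ε (seg p q s))) (Φ ε s) s := by
      intro s hs
      rw [uIcc_of_le zero_le_one] at hs
      have h2 : HasDerivAt (fun s : ℝ => sh t ε (seg p q s)) (sh t ε q - sh t ε p) s := by
        have : (fun s : ℝ => sh t ε (seg p q s)) =
            fun s : ℝ => sh t ε p + (s : ℂ) * (sh t ε q - sh t ε p) := by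
          funext s; rw [sh_seg]; unfold seg; ring
        rw [this]
        have h4 := (hasDerivAt_id s).ofReal_comp
        have h5 := (h4.mul_const (sh t ε q - sh t ε p)).const_add (sh t ε p)
        refine h5.congr_deriv ?_
        simp
      have h6 := (hG _ (hmem ε h0 h1 s hs.1 hs.2)).comp s h2
      exact h6.const_mul (ph κ m l)
    have hint : IntervalIntegrable (Φ ε) volume 0 1 := by
      refine ContinuousOn.intervalIntegrable ?_
      rw [uIcc_of_le zero_le_one]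
      exact hΦc ε h0 h1
    rw [intervalIntegral.integral_eq_sub_of_hasDerivAt hder hint]
    simp [seg]
    ring
  -- bounds
  obtain ⟨M, hM⟩ : ∃ M, ∀ s ∈ Icc (0 : ℝ) 1, ‖∏ i, fac κ e l i (seg p q s)‖ ≤ M := by
    have hc : ContinuousOn (fun u : ℝ => ∏ i, fac κ e l i (seg p q u)) (Icc 0 1) := by
      intro u hu
      refine ContinuousAt.continuousWithinAt (tendsto_finsetProd _ fun i _ => ?_)
      have hseg : Continuous fun u : ℝ => seg p q u := by unfold seg; fun_prop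
      unfold fac
      split_ifs with h1 h2
      · exact ContinuousAt.cpow (hseg.continuousAt.sub continuousAt_const) continuousAt_const
          (seg_slit_lt ha htD h1 hu.1 hu.2)
      · exact ContinuousAt.cpow (continuousAt_const.sub hseg.continuousAt) continuousAt_const
          (seg_slit_gt ha htD h2 hu.1 hu.2)
      · exact continuousAt_const
    obtain ⟨M, hM⟩ := isCompact_Icc.exists_bound_of_continuousOn hc
    exact ⟨M, hM⟩
  obtain ⟨R, hR0, hR⟩ : ∃ R : ℝ, 0 ≤ R ∧ ∀ ε : ℝ, 0 < ε → ε ≤ 1 → ∀ s : ℝ, 0 ≤ s → s ≤ 1 →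
      ‖sh t ε (seg p q s)‖ ≤ R := by
    refine ⟨‖p‖ + ‖q‖ + ‖t‖, by positivity, fun ε h0 h1 u hu0 hu1 => ?_⟩
    set x := seg p q u with hx
    have h3 : ‖x‖ ≤ ‖p‖ + ‖q‖ := by
      rw [hx]; unfold seg
      refine (norm_add_le _ _).trans ?_
      rw [norm_mul, norm_mul]
      have h4 : ‖(1 - (u : ℂ))‖ = 1 - u := by
        rw [← ofReal_one, ← ofReal_sub, norm_real, Real.norm_eq_abs, abs_of_nonneg (by linarith)]
      have h5 : ‖(u : ℂ)‖ = u := by
        rw [norm_real, Real.norm_eq_abs, abs_of_nonneg hu0]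
      rw [h4, h5]
      nlinarith [norm_nonneg p, norm_nonneg q]
    have h6 : sh t ε x = (x.re : ℂ) + (((1 - ε) * x.im + ε * (t.im / 2) : ℝ) : ℂ) * I := by
      unfold sh; rw [mk_eq_add_mul_I]
    have hxi := hxim u hu0 hu1
    have h7 : ‖sh t ε x‖ ≤ |x.re| + |(1 - ε) * x.im + ε * (t.im / 2)| := by
      rw [h6]
      refine (norm_add_le _ _).trans ?_
      rw [norm_mul, norm_I, mul_one, norm_real, norm_real, Real.norm_eq_abs, Real.norm_eq_abs]
    have h8 : |(1 - ε) * x.im + ε * (t.im / 2)| ≤ t.im := by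
      have h9 : 0 ≤ (1 - ε) * x.im := mul_nonneg (by linarith) hxi.1
      have h10 : 0 ≤ ε * (t.im / 2) := by positivity
      have h11 : (1 - ε) * x.im ≤ (1 - ε) * t.im := mul_le_mul_of_nonneg_left hxi.2 (by linarith)
      rw [abs_of_nonneg (by linarith)]
      nlinarith
    have h9 := abs_re_le_norm x
    have h10 := (le_abs_self _).trans (abs_im_le_norm t)
    linarith
  have hxp : ∀ s : ℝ, seg p q s - p = δ * (s : ℂ) := by
    intro s; unfold seg; ring
  have hqx : ∀ s : ℝ, q - seg p q s = δ * ((1 - s : ℝ) : ℂ) := by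
    intro s; unfold seg; push_cast; ring
  have hfac0 : ∀ s ∈ Ioo (0 : ℝ) 1, ∀ i, seg p q s - e i ≠ 0 := by
    intro s hs i
    rcases lt_trichotomy i l.castSucc with h1 | h1 | h1
    · exact slitPlane_ne_zero (seg_slit_lt ha htD h1 hs.1.le hs.2.le)
    · rw [h1, ← hp, hxp]
      exact mul_ne_zero hδ0 (by exact_mod_cast hs.1.ne')
    · rcases eq_or_ne i l.succ with h5 | h5
      · rw [h5, ← hq, ← neg_ne_zero, neg_sub, hqx]
        refine mul_ne_zero hδ0 ?_
        exact_mod_cast (by linarith [hs.2] : (0 : ℝ) < 1 - s).ne'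
      · have h6 : l.succ < i := lt_of_le_of_ne (Fin.castSucc_lt_iff_succ_le.1 h1) (Ne.symm h5)
        rw [← neg_ne_zero, neg_sub]
        exact slitPlane_ne_zero (seg_slit_gt ha htD h6 hs.1.le hs.2.le)
  set C2 : ℝ := ∏ i, (2 : ℝ) ^ (-κ i) with hC2
  have hC2n : 0 ≤ C2 := Finset.prod_nonneg fun i _ => by positivity
  set C3 : ℝ := R ^ j * C2 * M * (‖δ‖ ^ κ l.castSucc * ‖δ‖ ^ κ l.succ) * ‖δ‖ with hC3
  have hbound : ∀ ε : ℝ, 0 < ε → ε ≤ 1 / 2 → ∀ s ∈ Ioo (0 : ℝ) 1, ‖Φ ε s‖ ≤ C3 * wt κ l s := by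
    intro ε h0 h1 s hs
    set x := seg p q s with hx
    have hxi := hxim s hs.1.le hs.2.le
    -- the product of the norms
    have hprod : ∏ i, ‖x - e i‖ ^ (κ i) = ‖∏ i, fac κ e l i x‖ *
        ((‖δ‖ ^ κ l.castSucc * ‖δ‖ ^ κ l.succ) * wt κ l s) := by
      have h2 := congrArg (fun z => ‖z‖) (prod_full κ e l x)
      simp only [norm_mul, norm_prod] at h2
      have h3 : ∏ i, ‖(if i ≤ l.castSucc then (x - e i) ^ (κ i : ℂ) else (e i - x) ^ (κ i : ℂ))‖ =
          ∏ i, ‖x - e i‖ ^ (κ i) := by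
        refine Finset.prod_congr rfl fun i _ => ?_
        split_ifs
        · exact norm_cpow_real _ _
        · rw [norm_cpow_real, norm_sub_rev]
      rw [h3, ← norm_prod] at h2
      have h1s : (0 : ℝ) < 1 - s := by linarith [hs.2]
      rw [h2, ← hp, ← hq, hxp, hqx, norm_cpow_real, norm_cpow_real, norm_mul, norm_mul, norm_real, norm_real,
        Real.norm_eq_abs, Real.norm_eq_abs, abs_of_pos hs.1, abs_of_pos h1s,
        Real.mul_rpow (norm_nonneg _) hs.1.le, Real.mul_rpow (norm_nonneg _) h1s.le]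
      unfold wt
      ring
    have h5 : ‖g0 τ ν a t j (sh t ε x)‖ ≤ R ^ j * (C2 * ∏ i, ‖x - e i‖ ^ (κ i)) := by
      rw [g0_eq τ ν a m, norm_mul, norm_pow, norm_prod]
      refine mul_le_mul (pow_le_pow_left₀ (norm_nonneg _) (hR ε h0 (by linarith) s hs.1.le hs.2.le) j) ?_
        (Finset.prod_nonneg fun i _ => norm_nonneg _) (by positivity)
      rw [hC2, ← Finset.prod_mul_distrib]
      refine Finset.prod_le_prod (fun i _ => norm_nonneg _) fun i _ => ?_
      rw [norm_cpow_real]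
      have h7 := norm_sh_sub h0.le (by linarith : ε ≤ 1) hxi.1 hxi.2 (ee_im_or a m t i)
      have h8 : 0 < ‖x - e i‖ := norm_pos_iff.2 (hfac0 s hs i)
      have h9 : (1 / 2) * ‖x - e i‖ ≤ ‖sh t ε x - e i‖ := by
        refine le_trans ?_ h7
        exact mul_le_mul_of_nonneg_right (by linarith) (norm_nonneg _)
      have h10 := Real.rpow_le_rpow_of_nonpos (by positivity : 0 < (1 / 2) * ‖x - e i‖) h9 (hκ0 i)
      refine h10.trans (le_of_eq ?_)
      rw [Real.mul_rpow (by norm_num) (norm_nonneg _)]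
      congr 1
      rw [one_div, Real.inv_rpow (by norm_num), Real.rpow_neg (by norm_num)]
    have h11 : ‖sh t ε q - sh t ε p‖ ≤ ‖δ‖ := sh_sub_norm_le t h0.le (by linarith) p q
    simp only [hΦ]
    rw [norm_mul, norm_ph, one_mul, norm_mul]
    have hP0 : 0 ≤ ∏ i, ‖x - e i‖ ^ (κ i) := Finset.prod_nonneg fun i _ => by positivity
    refine (mul_le_mul h5 h11 (norm_nonneg _) (by positivity)).trans ?_
    rw [hprod]
    have hM' := hM s ⟨hs.1.le, hs.2.le⟩
    have hw := wt_nonneg κ l hs.1.le hs.2.le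
    have h14 : 0 ≤ R ^ j * C2 * ((‖δ‖ ^ κ l.castSucc * ‖δ‖ ^ κ l.succ) * wt κ l s) * ‖δ‖ := by positivity
    have := mul_le_mul_of_nonneg_left hM' h14
    rw [hC3]
    nlinarith
  have hlim : ∀ s ∈ Ioo (0 : ℝ) 1, Tendsto (fun ε => Φ ε s) (𝓝[>] (0 : ℝ))
      (𝓝 (δ ^ ((κ l.castSucc + κ l.succ + 1 : ℝ) : ℂ) * ((wt κ l s : ℂ) * ker κ e l j (seg p q s)))) := by
    intro s hs
    have h1s : (0 : ℝ) < 1 - s := by linarith [hs.2]
    set x := seg p q s with hx
    have hsm : ∀ {r : ℝ}, 0 < r → δ * (r : ℂ) ∈ slitPlane := by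
      intro r hr
      rw [mem_slitPlane_iff] at hδs ⊢
      rw [re_mul_ofReal, im_mul_ofReal]
      rcases hδs with h | h
      · left; positivity
      · right; exact mul_ne_zero h hr.ne'
    have hxps : x - p ∈ slitPlane := by rw [hxp]; exact hsm hs.1
    have hqxs : q - x ∈ slitPlane := by rw [hqx]; exact hsm h1s
    -- the integrand as a function of the point
    have hpt : Tendsto (fun y : ℂ => (y ^ j * ((∏ i, fac κ e l i y) * (y - p) ^ (κ l.castSucc : ℂ) *
        (q - y) ^ (κ l.succ : ℂ)))) (𝓝 x) (𝓝 (x ^ j * ((∏ i, fac κ e l i x) * (x - p) ^ (κ l.castSucc : ℂ) *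
        (q - x) ^ (κ l.succ : ℂ)))) := by
      have h1 : ContinuousAt (fun y : ℂ => ∏ i, fac κ e l i y) x := by
        refine tendsto_finsetProd _ fun i _ => ?_
        unfold fac
        split_ifs with h1 h2
        · exact ContinuousAt.cpow (continuousAt_id.sub continuousAt_const) continuousAt_const
            (seg_slit_lt ha htD h1 hs.1.le hs.2.le)
        · exact ContinuousAt.cpow (continuousAt_const.sub continuousAt_id) continuousAt_const
            (seg_slit_gt ha htD h2 hs.1.le hs.2.le)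
        · exact continuousAt_const
      have h2 : ContinuousAt (fun y : ℂ => (y - p) ^ (κ l.castSucc : ℂ)) x :=
        ContinuousAt.cpow (continuousAt_id.sub continuousAt_const) continuousAt_const hxps
      have h3 : ContinuousAt (fun y : ℂ => (q - y) ^ (κ l.succ : ℂ)) x :=
        ContinuousAt.cpow (continuousAt_const.sub continuousAt_id) continuousAt_const hqxs
      exact ((continuousAt_id.pow j).mul ((h1.mul h2).mul h3))
    have h4 : Tendsto (fun ε : ℝ => ((sh t ε x) ^ j * ((∏ i, fac κ e l i (sh t ε x)) *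
        ((sh t ε x) - p) ^ (κ l.castSucc : ℂ) * (q - (sh t ε x)) ^ (κ l.succ : ℂ))) *
        (sh t ε q - sh t ε p)) (𝓝[>] (0 : ℝ))
        (𝓝 ((x ^ j * ((∏ i, fac κ e l i x) * (x - p) ^ (κ l.castSucc : ℂ) *
        (q - x) ^ (κ l.succ : ℂ))) * (q - p))) := by
      refine (hpt.comp (tendsto_sh t x)).mul ?_
      exact (tendsto_sh t q).sub (tendsto_sh t p)
    have h5 : (x ^ j * ((∏ i, fac κ e l i x) * (x - p) ^ (κ l.castSucc : ℂ) *
        (q - x) ^ (κ l.succ : ℂ))) * (q - p) =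
        δ ^ ((κ l.castSucc + κ l.succ + 1 : ℝ) : ℂ) * ((wt κ l s : ℂ) * ker κ e l j x) := by
      rw [hxp, hqx, cpow_mul_real hδ0 hs.1, cpow_mul_real hδ0 h1s]
      have h6 : δ ^ ((κ l.castSucc + κ l.succ + 1 : ℝ) : ℂ) =
          δ ^ (κ l.castSucc : ℂ) * δ ^ (κ l.succ : ℂ) * δ := by
        push_cast
        rw [cpow_add _ _ hδ0, cpow_add _ _ hδ0, cpow_one]
      rw [h6]
      unfold ker wt
      rw [← hδ]
      push_cast
      ring
    rw [h5] at h4
    refine h4.congr' ?_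
    filter_upwards [Ioc_mem_nhdsGT (show (0 : ℝ) < 1 / 2 by norm_num)] with ε hε
    have h7 := hmem ε hε.1 (by linarith [hε.2]) s hs.1.le hs.2.le
    have h8 := full_eq κ a m t l h7
    rw [← he, prod_full] at h8
    simp only [hΦ]
    rw [g0_eq τ ν a m, ← he, ← hκd, hp, hq, h8]
    ring
  have hfin : Tendsto (fun ε : ℝ => ∫ s in (0 : ℝ)..1, Φ ε s) (𝓝[>] (0 : ℝ))
      (𝓝 (perC κ e l j)) := by
    unfold perC
    rw [← intervalIntegral.integral_const_mul]
    refine intervalIntegral.tendsto_integral_filter_of_dominated_convergence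
      (fun s => C3 * wt κ l s) ?_ ?_ ?_ ?_
    · filter_upwards [Ioc_mem_nhdsGT (show (0 : ℝ) < 1 / 2 by norm_num)] with ε hε
      rw [uIoc_of_le zero_le_one]
      exact ((hΦc ε hε.1 (by linarith [hε.2])).mono Ioc_subset_Icc_self).aestronglyMeasurable measurableSet_Ioc
    · filter_upwards [Ioc_mem_nhdsGT (show (0 : ℝ) < 1 / 2 by norm_num)] with ε hε
      have : ∀ᵐ s : ℝ, s ≠ 1 := by
        rw [ae_iff]; simp
      filter_upwards [this] with s h1 hs
      rw [uIoc_of_le zero_le_one] at hs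
      exact hbound ε hε.1 hε.2 s ⟨hs.1, lt_of_le_of_ne hs.2 h1⟩
    · exact (wt_integrable hκ l).const_mul C3
    · have : ∀ᵐ s : ℝ, s ≠ 1 := by
        rw [ae_iff]; simp
      filter_upwards [this] with s h1 hs
      rw [uIoc_of_le zero_le_one] at hs
      exact hlim s ⟨hs.1, lt_of_le_of_ne hs.2 h1⟩
  refine hfin.congr' ?_
  filter_upwards [Ioc_mem_nhdsGT (show (0 : ℝ) < 1 / 2 by norm_num)] with ε hε
  exact hFTC ε hε.1 (by linarith [hε.2])

end Pool.Agent.Helper67K9.SE
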