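import Pool.Agent.Helper67K9.SE.Cau
import Pool.Agent.Y118.HP.Conn

/-!
# The connection formulas
-/

set_option autoImplicit false

open Complex Set MeasureTheory Filter Topology

namespace Pool.Agent.Helper67K9.SE

open Pool.Agent.Y118.HP (ee seg Dm isOpen_Dm InGap mem_Dm_of_im ee_self ee_succAbove ee_im ee_slit seg_slit_lt
  seg_slit_gt continuous_ee differentiable_ee strip convex_strip isOpen_strip sh sh_mem sh_seg tendsto_sh
  sh_sub_norm_le norm_sh_sub ee_im_mem ee_im_or seg_im_mem ee_castSucc_castSucc ee_castSucc_succ ee_succ_castSucc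
  ee_succ_succ ee_other)

variable {n : ℕ}

/-- the exponents -/
noncomputable def kap (μ : ℝ) (m : Fin (n + 1)) : Fin (n + 1) → ℝ := ex (-μ) (fun _ => μ - 1) m

theorem kap_self (μ : ℝ) (m : Fin (n + 1)) : kap μ m m = -μ := ex_self _ _ _

theorem kap_ne (μ : ℝ) {m i : Fin (n + 1)} (h : i ≠ m) : kap μ m i = μ - 1 := by
  obtain ⟨i', rfl⟩ := Fin.exists_succAbove_eq h
  exact ex_succAbove _ _ _ _

theorem kap_gt {μ : ℝ} (h0 : 0 < μ) (h1 : μ < 1) (m i : Fin (n + 1)) : -1 < kap μ m i := by
  by_cases h : i = m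
  · rw [h, kap_self]; linarith
  · rw [kap_ne μ h]; linarith

theorem kap_le {μ : ℝ} (h0 : 0 < μ) (h1 : μ < 1) (m i : Fin (n + 1)) : kap μ m i ≤ 0 := by
  by_cases h : i = m
  · rw [h, kap_self]; linarith
  · rw [kap_ne μ h]; linarith

/-- the elementary phase -/
noncomputable def zt (μ : ℝ) : ℂ := -exp (-(Real.pi * μ * I))

theorem zt_ne (μ : ℝ) : zt μ ≠ 0 := neg_ne_zero.2 (exp_ne_zero _)

theorem norm_zt (μ : ℝ) : ‖zt μ‖ = 1 := by
  unfold zt
  rw [norm_neg]
  have : (-(Real.pi * μ * I) : ℂ) = ((-(Real.pi * μ) : ℝ) : ℂ) * I := by push_cast; ring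
  rw [this, norm_exp_ofReal_mul_I]

theorem conj_zt (μ : ℝ) : (starRingEnd ℂ) (zt μ) = (zt μ)⁻¹ := by
  have h := norm_zt μ
  rw [Complex.inv_def, Complex.normSq_eq_norm_sq, h]
  simp

theorem cc_eq (μ : ℝ) (m i : Fin (n + 1)) : cc (kap μ m) m i = if i = m then -zt μ else zt μ := by
  unfold cc zt
  split_ifs with h
  · rw [h, kap_self, neg_neg]
    congr 1
    push_cast; ring
  · rw [kap_ne μ h]
    have : (-(Real.pi * ((μ - 1 : ℝ) : ℂ) * I) : ℂ) = -(Real.pi * μ * I) + Real.pi * I := by push_cast; ring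
    rw [this, exp_add, exp_pi_mul_I]
    ring

theorem ph_eq (μ : ℝ) (m : Fin (n + 1)) (l : Fin n) :
    ph (kap μ m) m l = zt μ ^ (n - (l : ℕ)) * (if m ≤ l.castSucc then 1 else -1) := by
  classical
  unfold ph
  simp only [cc_eq]
  have h1 : ∀ i : Fin (n + 1), (if i ≤ l.castSucc then (1 : ℂ) else if i = m then -zt μ else zt μ) =
      (if i ∈ Finset.Ioi l.castSucc then zt μ else 1) *
        (if i = m then (if m ≤ l.castSucc then 1 else -1) else 1) := by
    intro i
    by_cases h : i ≤ l.castSucc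
    · have h' : i ∉ Finset.Ioi l.castSucc := by simpa using h
      simp only [h, h', if_true, if_false, one_mul]
      by_cases h2 : i = m
      · subst h2; simp [h]
      · simp [h2]
    · have h' : i ∈ Finset.Ioi l.castSucc := by simpa using h
      simp only [h, h', if_true, if_false]
      by_cases h2 : i = m
      · subst h2; simp [h]
      · simp [h2]
  simp only [h1, Finset.prod_mul_distrib, Finset.prod_ite_eq', Finset.mem_univ, if_true]
  congr 1
  rw [Finset.prod_ite_mem, Finset.univ_inter, Finset.prod_const, Fin.card_Ioi]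
  congr 1

/-- the period matrix -/
noncomputable def PM (μ : ℝ) (a : Fin n → ℝ) (m : Fin (n + 1)) (z : ℂ) : Matrix (Fin n) (Fin n) ℂ :=
  Matrix.of fun l j => perC (kap μ m) (ee a m z) l (j : ℕ)

/-- the coefficients of the connection matrix -/
noncomputable def cf (k l : Fin n) (α β : ℂ) : ℂ := if (l : ℕ) + 1 = k then α else if (l : ℕ) = k + 1 then β else 0

/-- `a k` is passed by the moving point in the upper half-plane -/
theorem conn_upper {μ : ℝ} (h0 : 0 < μ) (h1' : μ < 1) {a : Fin n → ℝ} (ha : StrictMono a) (k : Fin n) {t : ℂ}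
    (ht : 0 < t.im) (j : ℕ) (l : Fin n) : perC (kap μ k.succ) (ee a k.succ t) l j =
      perC (kap μ k.castSucc) (ee a k.castSucc t) l j +
      cf k l (-zt μ) (zt μ)⁻¹ * perC (kap μ k.castSucc) (ee a k.castSucc t) k j := by
  obtain ⟨G, hG⟩ := exists_primitive (-μ) (fun _ => μ - 1) a t j
  have h1 := tendsto_period ha k.succ ht j (kap_gt h0 h1' _) (kap_le h0 h1' _) hG l
  have h2 := tendsto_period ha k.castSucc ht j (kap_gt h0 h1' _) (kap_le h0 h1' _) hG l
  have h3 := tendsto_period ha k.castSucc ht j (kap_gt h0 h1' _) (kap_le h0 h1' _) hG k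
  rw [show ex (-μ) (fun _ => μ - 1) k.succ = kap μ k.succ from rfl] at h1
  rw [show ex (-μ) (fun _ => μ - 1) k.castSucc = kap μ k.castSucc from rfl] at h2 h3
  have hl := l.2
  have hk := k.2
  have hz := zt_ne μ
  refine tendsto_nhds_unique (h1.congr fun ε => ?_) (h2.add (h3.const_mul _))
  rw [ph_eq, ph_eq, ph_eq, ee_castSucc_castSucc, ee_castSucc_succ, if_pos (le_refl k.castSucc)]
  unfold cf
  by_cases hA : (l : ℕ) + 1 = k
  · rw [if_pos hA]
    have e1 : l.succ = k.castSucc := Fin.ext (by simpa using hA)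
    have e2 : l.castSucc ≠ k.castSucc := by
      intro hh; have := congrArg Fin.val hh; simp at this; omega
    have e3 : l.castSucc ≠ k.succ := by
      intro hh; have := congrArg Fin.val hh; simp at this; omega
    have e4 : ¬ k.succ ≤ l.castSucc := by
      rw [Fin.le_def]; simp; omega
    have e5 : ¬ k.castSucc ≤ l.castSucc := by
      rw [Fin.le_def]; simp; omega
    rw [e1, ee_succ_castSucc, ee_castSucc_castSucc, ee_other a k t e2 e3, if_neg e4, if_neg e5]
    have e6 : n - (l : ℕ) = (n - k) + 1 := by omega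
    rw [e6, pow_succ]
    ring
  · rw [if_neg hA]
    by_cases hB : (l : ℕ) = k + 1
    · rw [if_pos hB]
      have e1 : l.castSucc = k.succ := Fin.ext (by simpa using hB)
      have e2 : l.succ ≠ k.castSucc := by
        intro hh; have := congrArg Fin.val hh; simp at this; omega
      have e3 : l.succ ≠ k.succ := by
        intro hh; have := congrArg Fin.val hh; simp at this; omega
      have e4 : k.succ ≤ l.castSucc := by
        rw [Fin.le_def]; simp; omega
      have e5 : k.castSucc ≤ l.castSucc := by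
        rw [Fin.le_def]; simp; omega
      rw [if_pos e4, if_pos e5, e1, ee_succ_succ, ee_castSucc_succ, ee_other a k t e2 e3]
      have e6 : n - (k : ℕ) = (n - l) + 1 := by omega
      rw [e6, pow_succ]
      field_simp
      ring
    · rw [if_neg hB, zero_mul, add_zero]
      by_cases h : l = k
      · subst h
        rw [ee_castSucc_castSucc, ee_castSucc_succ, ee_succ_succ, ee_succ_castSucc, if_pos (le_refl l.castSucc),
          if_neg (not_le.2 Fin.castSucc_lt_succ)]
        ring
      · have hne : (l : ℕ) ≠ k := fun hh => h (Fin.ext hh)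
        have e2 : l.castSucc ≠ k.castSucc := by
          intro hh; have := congrArg Fin.val hh; simp at this; omega
        have e3 : l.castSucc ≠ k.succ := by
          intro hh; have := congrArg Fin.val hh; simp at this; omega
        have e4 : l.succ ≠ k.castSucc := by
          intro hh; have := congrArg Fin.val hh; simp at this; omega
        have e5 : l.succ ≠ k.succ := by
          intro hh; have := congrArg Fin.val hh; simp at this; omega
        rw [ee_other a k t e2 e3, ee_other a k t e4 e5]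
        have e6 : (k.succ ≤ l.castSucc) ↔ (k.castSucc ≤ l.castSucc) := by
          rw [Fin.le_def, Fin.le_def]; simp; omega
        simp only [e6]

/-- the same in the lower half-plane -/
theorem conn_lower {μ : ℝ} (h0 : 0 < μ) (h1' : μ < 1) {a : Fin n → ℝ} (ha : StrictMono a) (k : Fin n) {t : ℂ}
    (ht : t.im < 0) (j : ℕ) (l : Fin n) : perC (kap μ k.succ) (ee a k.succ t) l j =
      perC (kap μ k.castSucc) (ee a k.castSucc t) l j +
      cf k l (-(zt μ)⁻¹) (zt μ) * perC (kap μ k.castSucc) (ee a k.castSucc t) k j := by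
  have ht' : 0 < ((starRingEnd ℂ) t).im := by rw [conj_im]; linarith
  have h := conn_upper h0 h1' ha k ht' j l
  have hD1 := mem_Dm_of_im a k.succ ht.ne
  have hD2 := mem_Dm_of_im a k.castSucc ht.ne
  rw [perC_conj _ ha _ _ _ hD1, perC_conj _ ha _ _ _ hD2, perC_conj _ ha _ _ _ hD2] at h
  have h2 := congrArg (starRingEnd ℂ) h
  simp only [map_add, map_mul, conj_conj] at h2
  rw [h2]
  congr 2
  unfold cf
  split_ifs
  · rw [map_neg, conj_zt]
  · rw [map_inv₀, conj_zt, inv_inv]
  · simp

/-! ### The basis of the paths from the points `a i` to the moving point -/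

/-- the integrals from `a i` to the moving point, in the upper half-plane -/
noncomputable def FF (μ : ℝ) (a : Fin n → ℝ) (z : ℂ) : Matrix (Fin n) (Fin n) ℂ :=
  Matrix.of fun i j => -∑ l, if l ≤ i then (ph (kap μ 0) 0 l)⁻¹ * perC (kap μ 0) (ee a 0 z) l (j : ℕ) else 0

/-- the connection matrix -/
noncomputable def LL (μ : ℝ) (m : Fin (n + 1)) : Matrix (Fin n) (Fin n) ℂ :=
  Matrix.of fun l i => ph (kap μ m) m l *
    ((if m.succAbove i = l.castSucc then 1 else 0) - (if m.succAbove i = l.succ then 1 else 0))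

theorem tele (f : Fin (n + 1) → ℂ) (i : Fin n) :
    ∑ l : Fin n, (if l ≤ i then f l.succ - f l.castSucc else 0) = f i.succ - f 0 := by
  obtain ⟨i, hi⟩ := i
  induction i with
  | zero =>
    rw [Finset.sum_eq_single (⟨0, hi⟩ : Fin n)]
    · rw [if_pos le_rfl]
      rfl
    · intro l _ hl
      rw [if_neg]
      intro h
      apply hl
      apply Fin.ext
      exact Nat.le_zero.1 h
    · intro h
      exact absurd (Finset.mem_univ _) h
  | succ i ih =>
    have h1 := ih (by omega)
    have h2 : ∀ l : Fin n, (if l ≤ (⟨i + 1, hi⟩ : Fin n) then f l.succ - f l.castSucc else 0) =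
        (if l ≤ (⟨i, by omega⟩ : Fin n) then f l.succ - f l.castSucc else 0) +
        (if l = (⟨i + 1, hi⟩ : Fin n) then f l.succ - f l.castSucc else 0) := by
      intro l
      by_cases hl : l = (⟨i + 1, hi⟩ : Fin n)
      · rw [if_pos hl, if_pos hl.le, if_neg, zero_add]
        rw [hl, not_le]
        exact Nat.lt_succ_self i
      · rw [if_neg hl, add_zero]
        by_cases hl2 : l ≤ (⟨i, by omega⟩ : Fin n)
        · rw [if_pos hl2, if_pos]
          exact hl2.trans (Nat.le_succ i)
        · rw [if_neg hl2, if_neg]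
          intro h3
          have h4 : (l : ℕ) ≤ i + 1 := h3
          have h5 : ¬ (l : ℕ) ≤ i := hl2
          apply hl
          apply Fin.ext
          show (l : ℕ) = i + 1
          omega
    rw [Finset.sum_congr rfl fun l _ => h2 l, Finset.sum_add_distrib, h1, Finset.sum_ite_eq' Finset.univ,
      if_pos (Finset.mem_univ _)]
    have e : (⟨i, by omega⟩ : Fin n).succ = (⟨i + 1, hi⟩ : Fin n).castSucc := rfl
    rw [e]
    ring

theorem ee_zero_zero (a : Fin n → ℝ) (z : ℂ) : ee a 0 z 0 = z := ee_self a 0 z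

theorem ee_zero_succ (a : Fin n → ℝ) (z : ℂ) (i : Fin n) : ee a 0 z i.succ = a i := by
  have h := ee_succAbove a 0 z i
  rwa [Fin.succAbove_zero] at h

theorem tendsto_FF {μ : ℝ} (h0 : 0 < μ) (h1 : μ < 1) {a : Fin n → ℝ} (ha : StrictMono a) {t : ℂ} (ht : 0 < t.im)
    (j : Fin n) {G : ℂ → ℂ} (hG : ∀ x ∈ strip t, HasDerivAt G (g0 (-μ) (fun _ => μ - 1) a t (j : ℕ) x) x)
    (i : Fin n) : Tendsto (fun ε : ℝ => G (sh t ε t) - G (sh t ε (a i))) (𝓝[>] (0 : ℝ)) (𝓝 (FF μ a t i j)) := by
  have h2 : ∀ l : Fin n, Tendsto (fun ε : ℝ => if l ≤ i then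
      G (sh t ε (ee a 0 t l.succ)) - G (sh t ε (ee a 0 t l.castSucc)) else 0) (𝓝[>] (0 : ℝ))
      (𝓝 (if l ≤ i then (ph (kap μ 0) 0 l)⁻¹ * perC (kap μ 0) (ee a 0 t) l (j : ℕ) else 0)) := by
    intro l
    split_ifs
    · have h3 := (tendsto_period ha 0 ht j (kap_gt h0 h1 _) (kap_le h0 h1 _) hG l).const_mul (ph (kap μ 0) 0 l)⁻¹
      refine h3.congr fun ε => ?_
      rw [← mul_assoc]
      have h4 : (ph (kap μ 0) 0 l)⁻¹ * ph (ex (-μ) (fun _ => μ - 1) 0) 0 l = 1 :=
        inv_mul_cancel₀ (ph_ne (kap μ 0) 0 l)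
      rw [h4, one_mul]
    · exact tendsto_const_nhds
  have h3 := (tendsto_finsetSum Finset.univ fun l _ => h2 l).neg
  unfold FF
  rw [Matrix.of_apply]
  refine h3.congr fun ε => ?_
  rw [tele (fun k => G (sh t ε (ee a 0 t k))) i, ee_zero_zero, ee_zero_succ]
  ring

/-- all period matrices in terms of the basis of paths -/
theorem PM_upper {μ : ℝ} (h0 : 0 < μ) (h1 : μ < 1) {a : Fin n → ℝ} (ha : StrictMono a) (m : Fin (n + 1)) {z : ℂ}
    (hz : 0 < z.im) : PM μ a m z = LL μ m * FF μ a z := by
  classical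
  ext l j
  obtain ⟨G, hG⟩ := exists_primitive (-μ) (fun _ => μ - 1) a z (j : ℕ)
  have h2 := tendsto_period ha m hz j (kap_gt h0 h1 _) (kap_le h0 h1 _) hG l
  have h3 : ∀ k : Fin (n + 1), Tendsto (fun ε : ℝ => G (sh z ε z) - G (sh z ε (ee a m z k))) (𝓝[>] (0 : ℝ))
      (𝓝 (∑ i, if m.succAbove i = k then FF μ a z i j else 0)) := by
    intro k
    rcases Fin.eq_self_or_eq_succAbove m k with rfl | ⟨i', rfl⟩
    · simp only [ee_self, sub_self]
      have : ∀ i, (if k.succAbove i = k then FF μ a z i j else 0) = 0 := fun i => if_neg (Fin.succAbove_ne k i)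
      simp only [this, Finset.sum_const_zero]
      exact tendsto_const_nhds
    · simp only [ee_succAbove]
      have : ∀ i, (if m.succAbove i = m.succAbove i' then FF μ a z i j else 0) =
          if i = i' then FF μ a z i j else 0 := by
        intro i
        simp only [Fin.succAbove_right_inj]
      simp only [this, Finset.sum_ite_eq', Finset.mem_univ, if_true]
      exact tendsto_FF h0 h1 ha hz j hG i'
  have h4 := ((h3 l.castSucc).sub (h3 l.succ)).const_mul (ph (kap μ m) m l)
  have h5 : PM μ a m z l j = perC (ex (-μ) (fun _ => μ - 1) m) (ee a m z) l (j : ℕ) := rfl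
  rw [h5]
  refine tendsto_nhds_unique h2 ?_
  have h6 : (LL μ m * FF μ a z) l j = ph (kap μ m) m l * ((∑ i, if m.succAbove i = l.castSucc then FF μ a z i j else 0) -
      ∑ i, if m.succAbove i = l.succ then FF μ a z i j else 0) := by
    rw [Matrix.mul_apply, ← Finset.sum_sub_distrib, Finset.mul_sum]
    refine Finset.sum_congr rfl fun i _ => ?_
    unfold LL
    rw [Matrix.of_apply]
    split_ifs <;> ring
  rw [h6]
  refine h4.congr fun ε => ?_
  have h7 : ph (ex (-μ) (fun _ => μ - 1) m) m l = ph (kap μ m) m l := rfl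
  rw [h7]
  ring

theorem LL_det (μ : ℝ) (m : Fin (n + 1)) : (LL μ m).det ≠ 0 := by
  classical
  intro h
  obtain ⟨x, hx0, hx⟩ := Matrix.exists_mulVec_eq_zero_iff.2 h
  apply hx0
  set f : Fin (n + 1) → ℂ := fun k => ∑ i, if m.succAbove i = k then x i else 0 with hf
  have h1 : ∀ l : Fin n, f l.castSucc = f l.succ := by
    intro l
    have h2 := congrFun hx l
    rw [Matrix.mulVec, dotProduct, Pi.zero_apply] at h2
    have h3 : ∑ i, LL μ m l i * x i = ph (kap μ m) m l * (f l.castSucc - f l.succ) := by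
      rw [hf, ← Finset.sum_sub_distrib, Finset.mul_sum]
      refine Finset.sum_congr rfl fun i _ => ?_
      unfold LL
      rw [Matrix.of_apply]
      split_ifs <;> ring
    rw [h3] at h2
    have h4 := (mul_eq_zero.1 h2).resolve_left (ph_ne _ _ _)
    exact sub_eq_zero.1 h4
  have h5 : ∀ k, f k = f 0 := by
    intro k
    induction k using Fin.induction with
    | zero => rfl
    | succ k ih => rw [← h1, ih]
  have h6 : f m = 0 := Finset.sum_eq_zero fun i _ => if_neg (Fin.succAbove_ne m i)
  funext i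
  have h7 : f (m.succAbove i) = x i := by
    rw [hf]
    simp only [Fin.succAbove_right_inj, Finset.sum_ite_eq', Finset.mem_univ, if_true]
  rw [← h7, h5, ← h5 m, h6, Pi.zero_apply]

end Pool.Agent.Helper67K9.SE
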