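import Pool.Agent.Helper67K9.SE.Det

/-!
# The determinant of real periods with general exponents (Dixon-Anderson), I
-/

set_option autoImplicit false

open Set MeasureTheory Filter Topology

namespace Pool.Agent.Helper67K9.SE

variable {n : ℕ}

/-- the density of the periods over the segment `l` -/
noncomputable def WR (κ : Fin (n + 1) → ℝ) (e : Fin (n + 1) → ℝ) (l : Fin n) (s : ℝ) : ℝ :=
  (e l.succ - e l.castSucc) * ∏ i, |xr e l s - e i| ^ κ i

theorem xr_sub_left (e : Fin (n + 1) → ℝ) (l : Fin n) (s : ℝ) :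
    xr e l s - e l.castSucc = s * (e l.succ - e l.castSucc) := by
  unfold xr; ring

theorem xr_sub_right (e : Fin (n + 1) → ℝ) (l : Fin n) (s : ℝ) :
    xr e l s - e l.succ = -((1 - s) * (e l.succ - e l.castSucc)) := by
  unfold xr; ring

theorem xr_ne {e : Fin (n + 1) → ℝ} (he : StrictMono e) (l : Fin n) {s : ℝ} (hs : s ∈ Ioo (0 : ℝ) 1)
    (i : Fin (n + 1)) : xr e l s - e i ≠ 0 := by
  have h1 := xr_mem' he l hs.1 hs.2
  rcases le_or_gt i l.castSucc with h | h
  · have := he.monotone h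
    intro h2
    linarith
  · have := he.monotone (Fin.castSucc_lt_iff_succ_le.1 h)
    intro h2
    linarith

theorem WR_pos {κ : Fin (n + 1) → ℝ} {e : Fin (n + 1) → ℝ} (he : StrictMono e) (l : Fin n) {s : ℝ}
    (hs : s ∈ Ioo (0 : ℝ) 1) : 0 < WR κ e l s :=
  mul_pos (sub_pos.2 (he Fin.castSucc_lt_succ)) (Finset.prod_pos fun i _ =>
    Real.rpow_pos_of_pos (abs_pos.2 (xr_ne he l hs i)) _)

theorem WR_eq {κ : Fin (n + 1) → ℝ} {e : Fin (n + 1) → ℝ} (he : StrictMono e) (l : Fin n) {s : ℝ}
    (hs : s ∈ Ioo (0 : ℝ) 1) :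
    WR κ e l s = (e l.succ - e l.castSucc) ^ (κ l.castSucc + κ l.succ + 1) * om κ e l s := by
  have hD : 0 < e l.succ - e l.castSucc := sub_pos.2 (he Fin.castSucc_lt_succ)
  have hs1 : 0 < 1 - s := by linarith [hs.2]
  have hne : l.castSucc ≠ l.succ := (Fin.castSucc_lt_succ (i := l)).ne
  unfold WR om wt
  rw [← Finset.mul_prod_erase Finset.univ _ (Finset.mem_univ l.castSucc),
    ← Finset.mul_prod_erase (Finset.univ.erase l.castSucc) _
      (Finset.mem_erase.2 ⟨hne.symm, Finset.mem_univ l.succ⟩),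
    ← Finset.mul_prod_erase Finset.univ (fun i => rfk κ e l i (xr e l s)) (Finset.mem_univ l.castSucc),
    ← Finset.mul_prod_erase (Finset.univ.erase l.castSucc) (fun i => rfk κ e l i (xr e l s))
      (Finset.mem_erase.2 ⟨hne.symm, Finset.mem_univ l.succ⟩)]
  have e1 : rfk κ e l l.castSucc (xr e l s) = 1 := by
    unfold rfk
    rw [if_neg (lt_irrefl _), if_neg]
    exact (Fin.castSucc_lt_succ (i := l)).le.not_gt
  have e2 : rfk κ e l l.succ (xr e l s) = 1 := by
    unfold rfk
    rw [if_neg (Fin.castSucc_lt_succ (i := l)).le.not_gt, if_neg (lt_irrefl _)]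
  have e3 : ∏ i ∈ (Finset.univ.erase l.castSucc).erase l.succ, |xr e l s - e i| ^ κ i =
      ∏ i ∈ (Finset.univ.erase l.castSucc).erase l.succ, rfk κ e l i (xr e l s) := by
    refine Finset.prod_congr rfl fun i hi => ?_
    rw [Finset.mem_erase, Finset.mem_erase] at hi
    have h1 := xr_mem' he l hs.1 hs.2
    unfold rfk
    rcases lt_trichotomy i l.castSucc with h | h | h
    · have := he h
      rw [if_pos h, abs_of_pos (by linarith)]
    · exact absurd h hi.2.1
    · have h5 : l.succ ≤ i := Fin.castSucc_lt_iff_succ_le.1 h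
      have h6 : l.succ < i := lt_of_le_of_ne h5 (Ne.symm hi.1)
      have := he h6
      rw [if_neg h.not_gt, if_pos h6, abs_of_neg (by linarith), neg_sub]
  rw [e1, e2, e3, xr_sub_left, xr_sub_right, abs_neg, abs_mul, abs_mul, abs_of_pos hD, abs_of_pos hs.1,
    abs_of_pos hs1, Real.mul_rpow hs.1.le hD.le, Real.mul_rpow hs1.le hD.le, Real.rpow_add hD, Real.rpow_add hD,
    Real.rpow_one]
  ring

theorem continuousOn_rfk (κ : Fin (n + 1) → ℝ) {e : Fin (n + 1) → ℝ} (he : StrictMono e) (l : Fin n)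
    (i : Fin (n + 1)) : ContinuousOn (fun s => rfk κ e l i (xr e l s)) (Icc 0 1) := by
  unfold rfk
  split_ifs with h1 h2
  · refine ContinuousOn.rpow_const ((continuous_xr e l).continuousOn.sub continuousOn_const) fun s hs => Or.inl ?_
    have := he h1
    have := (xr_mem he l hs.1 hs.2).1
    exact ne_of_gt (by linarith)
  · refine ContinuousOn.rpow_const (continuousOn_const.sub (continuous_xr e l).continuousOn) fun s hs => Or.inl ?_
    have := he h2
    have := (xr_mem he l hs.1 hs.2).2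
    exact ne_of_gt (by linarith)
  · exact continuousOn_const

theorem om_int {κ : Fin (n + 1) → ℝ} (hκ : ∀ i, -1 < κ i) {e : Fin (n + 1) → ℝ} (he : StrictMono e) (l : Fin n)
    {g : ℝ → ℝ} (hg : ContinuousOn g (Icc 0 1)) :
    Integrable (fun s => om κ e l s * g s) (volume.restrict (Ioo 0 1)) := by
  have h1 : IntegrableOn (wt κ l) (Icc 0 1) := by
    rw [integrableOn_Icc_iff_integrableOn_Ioo]
    exact wt_integrableOn hκ l
  have h2 : ContinuousOn (fun s => (∏ i, rfk κ e l i (xr e l s)) * g s) (Icc 0 1) :=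
    (continuousOn_finsetProd _ fun i _ => continuousOn_rfk κ he l i).mul hg
  have h3 := h1.mul_continuousOn h2 isCompact_Icc
  have h4 : IntegrableOn (fun s => om κ e l s * g s) (Icc 0 1) := by
    refine h3.congr_fun (fun s _ => ?_) measurableSet_Icc
    unfold om
    ring
  exact h4.mono_set Ioo_subset_Icc_self

theorem WR_int {κ : Fin (n + 1) → ℝ} (hκ : ∀ i, -1 < κ i) {e : Fin (n + 1) → ℝ} (he : StrictMono e) (l : Fin n)
    {g : ℝ → ℝ} (hg : ContinuousOn g (Icc 0 1)) :
    Integrable (fun s => WR κ e l s * g s) (volume.restrict (Ioo 0 1)) := by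
  refine ((om_int hκ he l hg).const_mul ((e l.succ - e l.castSucc) ^ (κ l.castSucc + κ l.succ + 1))).congr ?_
  filter_upwards [ae_restrict_mem measurableSet_Ioo] with s hs
  rw [WR_eq he l hs]
  ring

/-- the periods in terms of the densities -/
theorem perC_WR {κ : Fin (n + 1) → ℝ} {e : Fin (n + 1) → ℝ} (he : StrictMono e) (l : Fin n) (j : ℕ) :
    perC κ (fun k => (e k : ℂ)) l j = ((∫ s in Ioo (0 : ℝ) 1, WR κ e l s * xr e l s ^ j : ℝ) : ℂ) := by
  rw [perC_real he l j, ← integral_const_mul]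
  congr 1
  refine setIntegral_congr_fun measurableSet_Ioo fun s hs => ?_
  rw [WR_eq he l hs]
  ring

/-! ### The exact form -/

/-- the polynomial of the exact form, centred at `c` -/
noncomputable def SP (κ : Fin (n + 1) → ℝ) (e : Fin (n + 1) → ℝ) (c : ℝ) : Polynomial ℝ :=
  ∑ i, Polynomial.C (κ i + 1) * ∏ j ∈ Finset.univ.erase i, (Polynomial.X - Polynomial.C (e j - c))

theorem SP_eval (κ : Fin (n + 1) → ℝ) (e : Fin (n + 1) → ℝ) (c x : ℝ) :
    (SP κ e c).eval (x - c) = ∑ i, (κ i + 1) * ∏ j ∈ Finset.univ.erase i, (x - e j) := by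
  unfold SP
  rw [Polynomial.eval_finsetSum]
  refine Finset.sum_congr rfl fun i _ => ?_
  rw [Polynomial.eval_mul, Polynomial.eval_C, Polynomial.eval_prod]
  congr 1
  refine Finset.prod_congr rfl fun j _ => ?_
  rw [Polynomial.eval_sub, Polynomial.eval_X, Polynomial.eval_C]
  ring

theorem SP_degree (κ : Fin (n + 1) → ℝ) (e : Fin (n + 1) → ℝ) (c : ℝ) : (SP κ e c).natDegree ≤ n := by
  unfold SP
  refine Polynomial.natDegree_sum_le_of_forall_le _ _ fun i _ => ?_
  refine (Polynomial.natDegree_C_mul_le _ _).trans ?_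
  rw [Polynomial.natDegree_prod_of_monic _ _ fun j _ => Polynomial.monic_X_sub_C _]
  simp only [Polynomial.natDegree_X_sub_C, Finset.sum_const, smul_eq_mul, mul_one, Finset.card_erase_of_mem
    (Finset.mem_univ i), Finset.card_univ, Fintype.card_fin]
  exact le_rfl

theorem SP_lead (κ : Fin (n + 1) → ℝ) (e : Fin (n + 1) → ℝ) (c : ℝ) :
    (SP κ e c).coeff n = ∑ i, (κ i + 1) := by
  unfold SP
  rw [Polynomial.finsetSum_coeff]
  refine Finset.sum_congr rfl fun i _ => ?_
  rw [Polynomial.coeff_C_mul]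
  have h1 : (∏ j ∈ Finset.univ.erase i, (Polynomial.X - Polynomial.C (e j - c))).Monic :=
    Polynomial.monic_prod_of_monic _ _ fun j _ => Polynomial.monic_X_sub_C _
  have h2 : (∏ j ∈ Finset.univ.erase i, (Polynomial.X - Polynomial.C (e j - c))).natDegree = n := by
    rw [Polynomial.natDegree_prod_of_monic _ _ fun j _ => Polynomial.monic_X_sub_C _]
    simp only [Polynomial.natDegree_X_sub_C, Finset.sum_const, smul_eq_mul, mul_one, Finset.card_erase_of_mem
      (Finset.mem_univ i), Finset.card_univ, Fintype.card_fin, Nat.add_sub_cancel]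
  have h3 := h1.coeff_natDegree
  rw [h2] at h3
  rw [h3, mul_one]

theorem SP_zero (κ : Fin (n + 1) → ℝ) (e : Fin (n + 1) → ℝ) (k : Fin (n + 1)) :
    (SP κ e (e k)).coeff 0 = (κ k + 1) * ∏ j ∈ Finset.univ.erase k, (e k - e j) := by
  rw [Polynomial.coeff_zero_eq_eval_zero]
  have h1 := SP_eval κ e (e k) (e k)
  rw [sub_self] at h1
  rw [h1, Finset.sum_eq_single k]
  · intro i _ hi
    have h2 : ∏ j ∈ Finset.univ.erase i, (e k - e j) = 0 :=
      Finset.prod_eq_zero (Finset.mem_erase.2 ⟨hi.symm, Finset.mem_univ k⟩) (sub_self _)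
    rw [h2, mul_zero]
  · intro h
    exact absurd (Finset.mem_univ _) h

/-- the primitive -/
noncomputable def FR (κ : Fin (n + 1) → ℝ) (e : Fin (n + 1) → ℝ) (l : Fin n) (s : ℝ) : ℝ :=
  ∏ i, |xr e l s - e i| ^ (κ i + 1)

/-- the sign of `x - e i` on the segment `l` -/
def sg (l : Fin n) (i : Fin (n + 1)) : ℝ := if i ≤ l.castSucc then 1 else -1

theorem abs_eq_sg {e : Fin (n + 1) → ℝ} (he : StrictMono e) (l : Fin n) {s : ℝ} (hs : s ∈ Ioo (0 : ℝ) 1)
    (i : Fin (n + 1)) : |xr e l s - e i| = sg l i * (xr e l s - e i) := by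
  have h1 := xr_mem' he l hs.1 hs.2
  unfold sg
  split_ifs with h
  · have := he.monotone h
    rw [abs_of_pos (by linarith), one_mul]
  · have := he.monotone (Fin.castSucc_lt_iff_succ_le.1 (not_le.1 h))
    rw [abs_of_neg (by linarith)]
    ring

theorem hasDerivAt_FR (κ : Fin (n + 1) → ℝ) {e : Fin (n + 1) → ℝ} (he : StrictMono e) (l : Fin n) {s : ℝ}
    (hs : s ∈ Ioo (0 : ℝ) 1) (c : ℝ) :
    HasDerivAt (FR κ e l) ((∏ i, sg l i) * (WR κ e l s * (SP κ e c).eval (xr e l s - c))) s := by
  set D := e l.succ - e l.castSucc with hD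
  have hx : ∀ s, HasDerivAt (xr e l) D s := by
    intro s
    unfold xr
    have h1 := (((hasDerivAt_id s).const_sub 1).mul_const (e l.castSucc)).add ((hasDerivAt_id s).mul_const (e l.succ))
    refine h1.congr_deriv ?_
    rw [hD]
    ring
  have hfac : ∀ i, HasDerivAt (fun s => |xr e l s - e i| ^ (κ i + 1))
      (|xr e l s - e i| ^ (κ i + 1) * ((κ i + 1) * D / (xr e l s - e i))) s := by
    intro i
    have hne := xr_ne he l hs i
    have h1 : HasDerivAt (fun s => Real.exp (Real.log (xr e l s - e i) * (κ i + 1)))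
        (Real.exp (Real.log (xr e l s - e i) * (κ i + 1)) * (D / (xr e l s - e i) * (κ i + 1))) s :=
      ((((hx s).sub_const (e i)).log hne).mul_const (κ i + 1)).exp
    have h2 : (fun s => |xr e l s - e i| ^ (κ i + 1)) =ᶠ[𝓝 s]
        fun s => Real.exp (Real.log (xr e l s - e i) * (κ i + 1)) := by
      filter_upwards [isOpen_Ioo.mem_nhds hs] with u hu
      rw [Real.rpow_def_of_pos (abs_pos.2 (xr_ne he l hu i)), Real.log_abs]
    refine (h1.congr_of_eventuallyEq h2).congr_deriv ?_
    rw [← h2.eq_of_nhds]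
    ring
  have h1 : HasDerivAt (FR κ e l) (∑ i, (∏ j ∈ Finset.univ.erase i, |xr e l s - e j| ^ (κ j + 1)) •
      (|xr e l s - e i| ^ (κ i + 1) * ((κ i + 1) * D / (xr e l s - e i)))) s := by
    unfold FR
    exact HasDerivAt.fun_finsetProd fun i _ => hfac i
  refine h1.congr_deriv ?_
  rw [SP_eval, Finset.mul_sum, Finset.mul_sum]
  refine Finset.sum_congr rfl fun i _ => ?_
  have hne := xr_ne he l hs i
  have h2 : ∀ j, |xr e l s - e j| ^ (κ j + 1) = |xr e l s - e j| ^ κ j * (sg l j * (xr e l s - e j)) := by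
    intro j
    rw [Real.rpow_add_one (abs_pos.2 (xr_ne he l hs j)).ne', ← abs_eq_sg he l hs j]
  rw [smul_eq_mul, ← mul_assoc, mul_comm (∏ j ∈ Finset.univ.erase i, |xr e l s - e j| ^ (κ j + 1)),
    Finset.mul_prod_erase Finset.univ (fun j => |xr e l s - e j| ^ (κ j + 1)) (Finset.mem_univ i)]
  simp only [h2]
  rw [Finset.prod_mul_distrib, Finset.prod_mul_distrib]
  unfold WR
  rw [← hD, ← Finset.mul_prod_erase Finset.univ (fun j => xr e l s - e j) (Finset.mem_univ i)]
  field_simp

theorem exact_int {κ : Fin (n + 1) → ℝ} (hκ : ∀ i, -1 < κ i) {e : Fin (n + 1) → ℝ} (he : StrictMono e) (l : Fin n)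
    (c : ℝ) : ∫ s in Ioo (0 : ℝ) 1, WR κ e l s * (SP κ e c).eval (xr e l s - c) = 0 := by
  have hpc : ContinuousOn (fun s => (SP κ e c).eval (xr e l s - c)) (Icc 0 1) :=
    ((SP κ e c).continuous.comp ((continuous_xr e l).sub continuous_const)).continuousOn
  have hint := WR_int hκ he l hpc
  have hFc : ContinuousOn (FR κ e l) (Icc 0 1) := by
    refine Continuous.continuousOn ?_
    unfold FR
    refine continuous_finsetProd _ fun i _ => ?_
    exact (((continuous_xr e l).sub continuous_const).abs).rpow_const fun s => Or.inr (by linarith [hκ i])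
  have h1 := intervalIntegral.integral_eq_sub_of_hasDerivAt_of_le (zero_le_one' ℝ) hFc
    (fun s hs => hasDerivAt_FR κ he l hs c) (by
      rw [intervalIntegrable_iff_integrableOn_Ioo_of_le zero_le_one]
      exact hint.const_mul _)
  have hF0 : FR κ e l 0 = 0 := by
    unfold FR
    refine Finset.prod_eq_zero (Finset.mem_univ l.castSucc) ?_
    rw [xr_sub_left, zero_mul, abs_zero, Real.zero_rpow (by linarith [hκ l.castSucc])]
  have hF1 : FR κ e l 1 = 0 := by
    unfold FR
    refine Finset.prod_eq_zero (Finset.mem_univ l.succ) ?_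
    rw [xr_sub_right, sub_self, zero_mul, neg_zero, abs_zero, Real.zero_rpow (by linarith [hκ l.succ])]
  rw [hF0, hF1, sub_zero, intervalIntegral.integral_of_le zero_le_one, integral_Ioc_eq_integral_Ioo,
    integral_const_mul] at h1
  refine (mul_eq_zero.1 h1).resolve_left ?_
  refine Finset.prod_ne_zero_iff.2 fun i _ => ?_
  unfold sg
  split_ifs <;> norm_num

end Pool.Agent.Helper67K9.SE
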