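import Pool.Agent.Helper67K9.SE.DA1

/-!
# The determinant of real periods with general exponents (Dixon-Anderson), II
-/

set_option autoImplicit false

open Set MeasureTheory Filter Topology

namespace Pool.Agent.Helper67K9.SE

variable {n : ℕ}

/-- the measure on the cube -/
noncomputable def cube (n : ℕ) : Measure (Fin n → ℝ) := Measure.pi fun _ => volume.restrict (Ioo (0 : ℝ) 1)

/-- a determinant of integrals is an integral of determinants -/
theorem det_integral {g : Fin n → Fin n → ℝ → ℝ} (hg : ∀ l j, Integrable (g l j) (volume.restrict (Ioo 0 1))) :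
    (Matrix.of fun l j : Fin n => ∫ s in Ioo (0 : ℝ) 1, g l j s).det =
      ∫ x, (Matrix.of fun l j : Fin n => g l j (x l)).det ∂(cube n) ∧
    Integrable (fun x => (Matrix.of fun l j : Fin n => g l j (x l)).det) (cube n) := by
  classical
  have h1 : ∀ M : Matrix (Fin n) (Fin n) ℝ, M.det = ∑ σ : Equiv.Perm (Fin n), (Equiv.Perm.sign σ : ℝ) * ∏ i, M i (σ i) := by
    intro M
    rw [← Matrix.det_transpose, Matrix.det_apply']
    rfl
  have h2 : ∀ σ : Equiv.Perm (Fin n), Integrable (fun x : Fin n → ℝ => ∏ i, g i (σ i) (x i)) (cube n) := fun σ =>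
    Integrable.fintype_prod_dep fun i => hg i (σ i)
  have h3 : ∀ σ : Equiv.Perm (Fin n), ∏ i, ∫ s in Ioo (0 : ℝ) 1, g i (σ i) s =
      ∫ x, ∏ i, g i (σ i) (x i) ∂(cube n) := fun σ =>
    (integral_fintype_prod_eq_prod (μ := fun _ : Fin n => volume.restrict (Ioo (0 : ℝ) 1)) fun i => g i (σ i)).symm
  constructor
  · rw [h1]
    simp only [h1, Matrix.of_apply, h3]
    rw [integral_finsetSum _ fun σ _ => (h2 σ).const_mul _]
    refine Finset.sum_congr rfl fun σ _ => ?_
    rw [integral_const_mul]
  · simp only [h1, Matrix.of_apply]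
    exact integrable_finsetSum _ fun σ _ => (h2 σ).const_mul _

/-- the integrand -/
noncomputable def ig (κ : Fin (n + 1) → ℝ) (e : Fin (n + 1) → ℝ) (x : Fin n → ℝ) : ℝ :=
  (∏ l, WR κ e l (x l)) * (Matrix.vandermonde fun l => xr e l (x l)).det

/-- the integral -/
noncomputable def DI (κ : Fin (n + 1) → ℝ) (e : Fin (n + 1) → ℝ) : ℝ := ∫ x, ig κ e x ∂(cube n)

theorem det_poly {κ : Fin (n + 1) → ℝ} (hκ : ∀ i, -1 < κ i) {e : Fin (n + 1) → ℝ} (he : StrictMono e)
    (p : Fin n → Polynomial ℝ) (hd : ∀ i, (p i).natDegree = i) (hm : ∀ i, (p i).Monic) :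
    (Matrix.of fun l j : Fin n => ∫ s in Ioo (0 : ℝ) 1, WR κ e l s * (p j).eval (xr e l s)).det = DI κ e ∧
    Integrable (ig κ e) (cube n) := by
  obtain ⟨h1, h2⟩ := det_integral (g := fun l j s => WR κ e l s * (p j).eval (xr e l s)) fun l j =>
    WR_int hκ he l ((p j).continuous.comp (continuous_xr e l)).continuousOn
  have h3 : ∀ x : Fin n → ℝ, (Matrix.of fun l j : Fin n => WR κ e l (x l) * (p j).eval (xr e l (x l))).det =
      ig κ e x := by
    intro x
    unfold ig
    rw [Matrix.det_eval_matrixOfPolynomials_eq_det_vandermonde (fun l => xr e l (x l)) p hd hm]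
    exact Matrix.det_mul_column (fun l => WR κ e l (x l)) (Matrix.of fun l j => (p j).eval (xr e l (x l)))
  simp only [h3] at h1 h2
  exact ⟨h1, h2⟩

theorem ig_int {κ : Fin (n + 1) → ℝ} (hκ : ∀ i, -1 < κ i) {e : Fin (n + 1) → ℝ} (he : StrictMono e) :
    Integrable (ig κ e) (cube n) :=
  (det_poly hκ he (fun i => Polynomial.X ^ (i : ℕ)) (fun _ => Polynomial.natDegree_X_pow _)
    fun _ => Polynomial.monic_X_pow _).2

theorem det_shift {κ : Fin (n + 1) → ℝ} (hκ : ∀ i, -1 < κ i) {e : Fin (n + 1) → ℝ} (he : StrictMono e) (c : ℝ) :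
    (Matrix.of fun l j : Fin n => ∫ s in Ioo (0 : ℝ) 1, WR κ e l s * (xr e l s - c) ^ (j : ℕ)).det = DI κ e := by
  have h1 := (det_poly hκ he (fun i => (Polynomial.X - Polynomial.C c) ^ (i : ℕ))
    (fun i => by rw [Polynomial.natDegree_pow, Polynomial.natDegree_X_sub_C, mul_one])
    fun i => (Polynomial.monic_X_sub_C c).pow _).1
  rw [← h1]
  congr 1
  ext l j
  rw [Matrix.of_apply, Matrix.of_apply]
  simp

/-! ### Linear algebra -/

/-- the shift of the columns modulo a relation -/
theorem det_cyc {n : ℕ} (c : ℕ → Fin n → ℝ) (s : ℕ → ℝ) (hs : s n ≠ 0)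
    (h : ∀ l, ∑ i ∈ Finset.range (n + 1), c i l * s i = 0) :
    (Matrix.of fun l j : Fin n => c (j + 1) l).det =
      (-1) ^ n * (s 0 / s n) * (Matrix.of fun l j : Fin n => c j l).det := by
  rcases n with _ | M
  · simp [div_self hs]
  · set C : Matrix (Fin (M + 1)) (Fin (M + 1)) ℝ := Matrix.of fun i j =>
      if j = Fin.last M then -(s i / s (M + 1)) else if (i : ℕ) = j + 1 then 1 else 0 with hC
    have h1 : (Matrix.of fun l j : Fin (M + 1) => c (j + 1) l) = (Matrix.of fun l j : Fin (M + 1) => c j l) * C := by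
      ext l j
      rw [Matrix.mul_apply, Matrix.of_apply]
      simp only [Matrix.of_apply, hC]
      by_cases hj : j = Fin.last M
      · simp only [hj, if_true, Fin.val_last]
        have h2 := h l
        rw [Finset.sum_range_succ, Finset.sum_range] at h2
        have h3 : ∑ x : Fin (M + 1), c x l * -(s x / s (M + 1)) =
            -((∑ x : Fin (M + 1), c x l * s x) / s (M + 1)) := by
          rw [Finset.sum_div, ← Finset.sum_neg_distrib]
          refine Finset.sum_congr rfl fun x _ => ?_
          ring
        rw [h3]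
        field_simp
        linarith
      · simp only [hj, if_false]
        have hj' : (j : ℕ) + 1 < M + 1 := by
          have h2 : (j : ℕ) ≠ M := fun h => hj (Fin.ext h)
          have := j.2
          omega
        rw [Finset.sum_eq_single (⟨j + 1, hj'⟩ : Fin (M + 1))]
        · simp
        · intro i _ hi
          rw [if_neg, mul_zero]
          intro h2
          exact hi (Fin.ext h2)
        · intro h2
          exact absurd (Finset.mem_univ _) h2
    have h2 : C.det = (-1) ^ (M + 1) * (s 0 / s (M + 1)) := by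
      rw [Matrix.det_succ_row_zero, Finset.sum_eq_single (Fin.last M)]
      · have h3 : C.submatrix Fin.succ (Fin.last M).succAbove = 1 := by
          ext i j
          rw [Matrix.submatrix_apply, hC, Matrix.of_apply, Fin.succAbove_last, Matrix.one_apply,
            if_neg (Fin.castSucc_lt_last j).ne]
          simp only [Fin.val_succ, Fin.val_castSucc]
          by_cases hij : i = j
          · simp [hij]
          · rw [if_neg hij, if_neg]
            intro h4
            exact hij (Fin.ext (by omega))
        rw [h3, Matrix.det_one, hC, Matrix.of_apply, if_pos rfl, Fin.val_last, Fin.val_zero]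
        ring
      · intro j _ hj
        have h3 : C 0 j = 0 := by
          rw [hC, Matrix.of_apply, if_neg hj, if_neg]
          simp
        rw [h3, mul_zero, zero_mul]
      · intro h3
        exact absurd (Finset.mem_univ _) h3
    rw [h1, Matrix.det_mul, h2]
    ring

/-- the product of the distances to a point -/
noncomputable def qd (e : Fin (n + 1) → ℝ) (k : Fin (n + 1)) : ℝ := ∏ l : Fin n, |e k - e (k.succAbove l)|

theorem qd_pos {e : Fin (n + 1) → ℝ} (he : StrictMono e) (k : Fin (n + 1)) : 0 < qd e k := by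
  unfold qd
  refine Finset.prod_pos fun l _ => abs_pos.2 (sub_ne_zero.2 ?_)
  intro h
  exact Fin.succAbove_ne k l (he.injective h.symm)

theorem prod_erase_succAbove (k : Fin (n + 1)) (f : Fin (n + 1) → ℝ) :
    ∏ j ∈ Finset.univ.erase k, f j = ∏ l : Fin n, f (k.succAbove l) := by
  have h1 : Finset.univ.erase k = Finset.univ.image k.succAbove := by
    ext j
    simp only [Finset.mem_erase, Finset.mem_univ, and_true, Finset.mem_image, true_and]
    constructor
    · intro h
      exact Fin.exists_succAbove_eq h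
    · rintro ⟨l, rfl⟩
      exact Fin.succAbove_ne k l
  rw [h1, Finset.prod_image fun a _ b _ h => Fin.succAbove_right_injective h]

/-- **The shift of an exponent by one.** -/
theorem DI_shift {κ : Fin (n + 1) → ℝ} (hκ : ∀ i, -1 < κ i) {e : Fin (n + 1) → ℝ} (he : StrictMono e)
    (k : Fin (n + 1)) : DI (Function.update κ k (κ k + 1)) e =
      (κ k + 1) / (∑ i, (κ i + 1)) * qd e k * DI κ e := by
  classical
  set κ' := Function.update κ k (κ k + 1) with hκ'd
  have hκ' : ∀ i, -1 < κ' i := by
    intro i
    by_cases h : i = k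
    · rw [h, hκ'd, Function.update_self]
      linarith [hκ k]
    · rw [hκ'd, Function.update_of_ne h]
      exact hκ i
  have hW : ∀ l, ∀ s ∈ Ioo (0 : ℝ) 1, WR κ' e l s = sg l k * (WR κ e l s * (xr e l s - e k)) := by
    intro l s hs
    unfold WR
    have h1 : ∏ i, |xr e l s - e i| ^ κ' i = (∏ i, |xr e l s - e i| ^ κ i) * |xr e l s - e k| := by
      rw [← Finset.mul_prod_erase Finset.univ _ (Finset.mem_univ k),
        ← Finset.mul_prod_erase Finset.univ (fun i => |xr e l s - e i| ^ κ i) (Finset.mem_univ k)]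
      have h2 : ∏ i ∈ Finset.univ.erase k, |xr e l s - e i| ^ κ' i =
          ∏ i ∈ Finset.univ.erase k, |xr e l s - e i| ^ κ i := by
        refine Finset.prod_congr rfl fun i hi => ?_
        rw [hκ'd, Function.update_of_ne (Finset.ne_of_mem_erase hi)]
      rw [h2, hκ'd, Function.update_self, Real.rpow_add_one (abs_pos.2 (xr_ne he l hs k)).ne']
      ring
    rw [h1, abs_eq_sg he l hs k]
    ring
  set S := SP κ e (e k) with hS
  set c : ℕ → Fin n → ℝ := fun i l => ∫ s in Ioo (0 : ℝ) 1, WR κ e l s * (xr e l s - e k) ^ i with hc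
  have hint : ∀ l i, Integrable (fun s => WR κ e l s * (xr e l s - e k) ^ i) (volume.restrict (Ioo 0 1)) :=
    fun l i => WR_int hκ he l (((continuous_xr e l).sub continuous_const).pow i).continuousOn
  have hrel : ∀ l, ∑ i ∈ Finset.range (n + 1), c i l * S.coeff i = 0 := by
    intro l
    have h1 := exact_int hκ he l (e k)
    rw [← hS] at h1
    have h2 : ∀ i ∈ Finset.range (n + 1), c i l * S.coeff i =
        ∫ s in Ioo (0 : ℝ) 1, WR κ e l s * (xr e l s - e k) ^ i * S.coeff i := fun i _ =>
      (integral_mul_const _ _).symm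
    rw [Finset.sum_congr rfl h2]
    refine (integral_finsetSum (μ := volume.restrict (Ioo (0 : ℝ) 1)) (Finset.range (n + 1))
      (f := fun i s => WR κ e l s * (xr e l s - e k) ^ i * S.coeff i)
      fun i _ => (hint l i).mul_const _).symm.trans (Eq.trans ?_ h1)
    refine integral_congr_ae (Eventually.of_forall fun s => ?_)
    simp only
    rw [Polynomial.eval_eq_sum_range' (Nat.lt_succ_of_le (SP_degree κ e (e k))), Finset.mul_sum]
    refine Finset.sum_congr rfl fun i _ => ?_
    ring
  have hlead : S.coeff n ≠ 0 := by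
    rw [hS, SP_lead]
    refine (Finset.sum_pos (fun i _ => ?_) Finset.univ_nonempty).ne'
    linarith [hκ i]
  have h1 := det_cyc c (fun i => S.coeff i) hlead hrel
  have h2 := det_shift hκ' he (e k)
  have h3 := det_shift hκ he (e k)
  have h4 : (Matrix.of fun l j : Fin n => ∫ s in Ioo (0 : ℝ) 1, WR κ' e l s * (xr e l s - e k) ^ (j : ℕ)) =
      Matrix.of fun l j : Fin n => sg l k * (Matrix.of fun l j : Fin n => c (j + 1) l) l j := by
    ext l j
    rw [Matrix.of_apply, Matrix.of_apply, Matrix.of_apply, hc, ← integral_const_mul]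
    refine setIntegral_congr_fun measurableSet_Ioo fun s hs => ?_
    rw [hW l s hs]
    ring
  rw [← h2, h4, Matrix.det_mul_column (fun l => sg l k), h1, h3, hS, SP_lead, SP_zero, prod_erase_succAbove]
  have h5 : (∏ l : Fin n, sg l k) * ((-1) ^ n * ∏ l : Fin n, (e k - e (k.succAbove l))) = qd e k := by
    have h6 : ((-1 : ℝ)) ^ n = ∏ l : Fin n, (-1 : ℝ) := by simp
    rw [h6, ← Finset.prod_mul_distrib, ← Finset.prod_mul_distrib]
    unfold qd
    refine Finset.prod_congr rfl fun l _ => ?_
    unfold sg
    by_cases hl : k ≤ l.castSucc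
    · have h7 : k < k.succAbove l := (Fin.lt_succAbove_iff_le_castSucc _ _).2 hl
      have := he h7
      rw [if_pos hl, abs_of_neg (by linarith)]
      ring
    · have h7 : k.succAbove l < k := (Fin.succAbove_lt_iff_castSucc_lt _ _).2 (not_le.1 hl)
      have := he h7
      rw [if_neg hl, abs_of_pos (by linarith)]
      ring
  rw [← h5]
  ring

end Pool.Agent.Helper67K9.SE
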