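import Pool.Agent.Helper67K9.SE.DA2

/-!
# The determinant of real periods with general exponents (Dixon-Anderson), III
-/

set_option autoImplicit false

open Set MeasureTheory Filter Topology

namespace Pool.Agent.Helper67K9.SE

variable {n : ℕ}

theorem cube_eq (n : ℕ) : cube n = (volume : Measure (Fin n → ℝ)).restrict (Set.univ.pi fun _ => Ioo (0 : ℝ) 1) := by
  unfold cube
  rw [volume_pi, Measure.restrict_pi_pi]

theorem ae_cube (n : ℕ) : ∀ᵐ x ∂(cube n), ∀ l, x l ∈ Ioo (0 : ℝ) 1 := by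
  rw [cube_eq]
  filter_upwards [ae_restrict_mem (MeasurableSet.univ_pi fun _ => measurableSet_Ioo)] with x hx
  exact fun l => hx l (Set.mem_univ l)

theorem cube_univ (n : ℕ) : cube n Set.univ = 1 := by
  unfold cube
  rw [Measure.pi_univ]
  simp

theorem vdm_pos {e : Fin (n + 1) → ℝ} (he : StrictMono e) {x : Fin n → ℝ} (hx : ∀ l, x l ∈ Ioo (0 : ℝ) 1) :
    0 < (Matrix.vandermonde fun l => xr e l (x l)).det := by
  rw [Matrix.det_vandermonde]
  refine Finset.prod_pos fun i _ => Finset.prod_pos fun j hj => ?_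
  rw [Finset.mem_Ioi] at hj
  have h1 := (xr_mem' he i (hx i).1 (hx i).2).2
  have h2 := (xr_mem' he j (hx j).1 (hx j).2).1
  have h3 : e i.succ ≤ e j.castSucc := he.monotone (Fin.castSucc_lt_iff_succ_le.1 (Fin.castSucc_lt_castSucc_iff.2 hj))
  linarith

theorem ig_pos (κ : Fin (n + 1) → ℝ) {e : Fin (n + 1) → ℝ} (he : StrictMono e) {x : Fin n → ℝ}
    (hx : ∀ l, x l ∈ Ioo (0 : ℝ) 1) : 0 < ig κ e x :=
  mul_pos (Finset.prod_pos fun l _ => WR_pos he l (hx l)) (vdm_pos he hx)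

theorem DI_pos {κ : Fin (n + 1) → ℝ} (hκ : ∀ i, -1 < κ i) {e : Fin (n + 1) → ℝ} (he : StrictMono e) :
    0 < DI κ e := by
  have h1 : ∀ᵐ x ∂(cube n), 0 < ig κ e x := by
    filter_upwards [ae_cube n] with x hx
    exact ig_pos κ he hx
  have h2 : 0 ≤ᵐ[cube n] ig κ e := by
    filter_upwards [h1] with x hx
    exact hx.le
  unfold DI
  rw [integral_pos_iff_support_of_nonneg_ae h2 (ig_int hκ he)]
  have h3 : cube n (Function.support (ig κ e)) = cube n Set.univ := by
    refine measure_congr ?_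
    filter_upwards [h1] with x hx
    refine propext ⟨fun _ => trivial, fun _ => ?_⟩
    exact hx.ne'
  rw [h3, cube_univ]
  exact one_pos

/-- the exponent at `k` replaced -/
noncomputable def up (κ : Fin (n + 1) → ℝ) (k : Fin (n + 1)) (x : ℝ) : Fin (n + 1) → ℝ := Function.update κ k (x - 1)

theorem up_gt {κ : Fin (n + 1) → ℝ} (hκ : ∀ i, -1 < κ i) (k : Fin (n + 1)) {x : ℝ} (hx : 0 < x) :
    ∀ i, -1 < up κ k x i := by
  intro i
  unfold up
  by_cases h : i = k
  · rw [h, Function.update_self]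
    linarith
  · rw [Function.update_of_ne h]
    exact hκ i

theorem up_up (κ : Fin (n + 1) → ℝ) (k : Fin (n + 1)) (x : ℝ) :
    Function.update (up κ k x) k (up κ k x k + 1) = up κ k (x + 1) := by
  unfold up
  rw [Function.update_idem, Function.update_self]
  congr 1
  ring

theorem WR_up (κ : Fin (n + 1) → ℝ) {e : Fin (n + 1) → ℝ} (he : StrictMono e) (k : Fin (n + 1)) (l : Fin n) {s : ℝ}
    (hs : s ∈ Ioo (0 : ℝ) 1) (x : ℝ) : WR (up κ k x) e l s = WR (up κ k 1) e l s * |xr e l s - e k| ^ (x - 1) := by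
  unfold WR
  rw [← Finset.mul_prod_erase Finset.univ _ (Finset.mem_univ k),
    ← Finset.mul_prod_erase Finset.univ (fun i => |xr e l s - e i| ^ up κ k 1 i) (Finset.mem_univ k)]
  have h2 : ∏ i ∈ Finset.univ.erase k, |xr e l s - e i| ^ up κ k x i =
      ∏ i ∈ Finset.univ.erase k, |xr e l s - e i| ^ up κ k 1 i := by
    refine Finset.prod_congr rfl fun i hi => ?_
    unfold up
    rw [Function.update_of_ne (Finset.ne_of_mem_erase hi), Function.update_of_ne (Finset.ne_of_mem_erase hi)]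
  rw [h2]
  unfold up
  rw [Function.update_self, Function.update_self, sub_self, Real.rpow_zero]
  ring

theorem ig_up (κ : Fin (n + 1) → ℝ) {e : Fin (n + 1) → ℝ} (he : StrictMono e) (k : Fin (n + 1)) {s : Fin n → ℝ}
    (hs : ∀ l, s l ∈ Ioo (0 : ℝ) 1) (x : ℝ) :
    ig (up κ k x) e s = ig (up κ k 1) e s * (∏ l, |xr e l (s l) - e k|) ^ (x - 1) := by
  unfold ig
  rw [Finset.prod_congr rfl fun l _ => WR_up κ he k l (hs l) x, Finset.prod_mul_distrib,
    Real.finsetProd_rpow _ _ fun l _ => abs_nonneg _]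
  ring

/-- log-convexity -/
theorem DI_hoelder {κ : Fin (n + 1) → ℝ} (hκ : ∀ i, -1 < κ i) {e : Fin (n + 1) → ℝ} (he : StrictMono e)
    (k : Fin (n + 1)) {x y p q : ℝ} (hx : 0 < x) (hy : 0 < y) (hp : 0 < p) (hq : 0 < q) (hpq : p + q = 1) :
    DI (up κ k (p * x + q * y)) e ≤ DI (up κ k x) e ^ p * DI (up κ k y) e ^ q := by
  have hxy : 0 < p * x + q * y := by positivity
  have hpos : ∀ z : ℝ, 0 < z → 0 < DI (up κ k z) e := fun z hz => DI_pos (up_gt hκ k hz) he
  have hnn : ∀ z : ℝ, 0 ≤ᵐ[cube n] ig (up κ k z) e := by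
    intro z
    filter_upwards [ae_cube n] with s hs
    exact (ig_pos _ he hs).le
  have hlin : ∀ z : ℝ, 0 < z → ENNReal.ofReal (DI (up κ k z) e) = ∫⁻ s, ENNReal.ofReal (ig (up κ k z) e s) ∂(cube n) :=
    fun z hz => ofReal_integral_eq_lintegral_ofReal (ig_int (up_gt hκ k hz) he) (hnn z)
  have hmeas : ∀ z : ℝ, 0 < z → AEMeasurable (fun s => ENNReal.ofReal (ig (up κ k z) e s)) (cube n) := fun z hz =>
    (ig_int (up_gt hκ k hz) he).aestronglyMeasurable.aemeasurable.ennreal_ofReal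
  have h1 : ∫⁻ s, ENNReal.ofReal (ig (up κ k (p * x + q * y)) e s) ∂(cube n) =
      ∫⁻ s, ENNReal.ofReal (ig (up κ k x) e s) ^ p * ENNReal.ofReal (ig (up κ k y) e s) ^ q ∂(cube n) := by
    refine lintegral_congr_ae ?_
    filter_upwards [ae_cube n] with s hs
    have g1 := ig_pos (up κ k 1) he hs
    have g2 : 0 < ∏ l, |xr e l (s l) - e k| := Finset.prod_pos fun l _ => abs_pos.2 (xr_ne he l (hs l) k)
    rw [ENNReal.ofReal_rpow_of_pos (ig_pos _ he hs), ENNReal.ofReal_rpow_of_pos (ig_pos _ he hs),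
      ← ENNReal.ofReal_mul (Real.rpow_nonneg (ig_pos _ he hs).le _)]
    congr 1
    rw [ig_up κ he k hs, ig_up κ he k hs x, ig_up κ he k hs y, Real.mul_rpow g1.le (Real.rpow_nonneg g2.le _),
      Real.mul_rpow g1.le (Real.rpow_nonneg g2.le _), ← Real.rpow_mul g2.le, ← Real.rpow_mul g2.le]
    have h3 : ig (up κ k 1) e s = ig (up κ k 1) e s ^ p * ig (up κ k 1) e s ^ q := by
      rw [← Real.rpow_add g1, hpq, Real.rpow_one]
    have h4 : (∏ l, |xr e l (s l) - e k|) ^ (p * x + q * y - 1) =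
        (∏ l, |xr e l (s l) - e k|) ^ ((x - 1) * p) * (∏ l, |xr e l (s l) - e k|) ^ ((y - 1) * q) := by
      rw [← Real.rpow_add g2]
      congr 1
      linear_combination hpq
    rw [h4]
    nth_rewrite 1 [h3]
    ring
  have h2 := ENNReal.lintegral_mul_norm_pow_le (hmeas x hx) (hmeas y hy) hp.le hq.le hpq
  rw [← h1, ← hlin _ hxy, ← hlin _ hx, ← hlin _ hy, ENNReal.ofReal_rpow_of_pos (hpos x hx),
    ENNReal.ofReal_rpow_of_pos (hpos y hy), ← ENNReal.ofReal_mul (Real.rpow_nonneg (hpos x hx).le _)] at h2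
  exact (ENNReal.ofReal_le_ofReal_iff (mul_nonneg (Real.rpow_nonneg (hpos x hx).le _)
    (Real.rpow_nonneg (hpos y hy).le _))).1 h2

theorem DI_convex {κ : Fin (n + 1) → ℝ} (hκ : ∀ i, -1 < κ i) {e : Fin (n + 1) → ℝ} (he : StrictMono e)
    (k : Fin (n + 1)) : ConvexOn ℝ (Ioi 0) fun x => Real.log (DI (up κ k x) e) := by
  refine convexOn_iff_forall_pos.mpr ⟨convex_Ioi _, fun x hx y hy p q hp hq hpq => ?_⟩
  have hpos : ∀ z : ℝ, 0 < z → 0 < DI (up κ k z) e := fun z hz => DI_pos (up_gt hκ k hz) he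
  simp only [smul_eq_mul]
  simp only [mem_Ioi] at hx hy
  rw [← Real.log_rpow (hpos x hx), ← Real.log_rpow (hpos y hy), ← Real.log_mul
    (Real.rpow_pos_of_pos (hpos x hx) _).ne' (Real.rpow_pos_of_pos (hpos y hy) _).ne']
  refine Real.log_le_log (hpos _ (by positivity)) ?_
  exact DI_hoelder hκ he k hx hy hp hq hpq

/-- **The dependence on one exponent.** -/
theorem DI_step {κ : Fin (n + 1) → ℝ} (hκ : ∀ i, -1 < κ i) {e : Fin (n + 1) → ℝ} (he : StrictMono e)
    (k : Fin (n + 1)) {x : ℝ} (hx : 0 < x) :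
    DI (up κ k x) e * Real.Gamma (x + ∑ i ∈ Finset.univ.erase k, (κ i + 1)) =
      Real.Gamma x * qd e k ^ (x - 1) * (DI (up κ k 1) e * Real.Gamma (1 + ∑ i ∈ Finset.univ.erase k, (κ i + 1))) := by
  set s : ℝ := ∑ i ∈ Finset.univ.erase k, (κ i + 1) with hs
  have hs0 : 0 ≤ s := Finset.sum_nonneg fun i _ => by linarith [hκ i]
  have hq := qd_pos he k
  have hpos : ∀ z : ℝ, 0 < z → 0 < DI (up κ k z) e := fun z hz => DI_pos (up_gt hκ k hz) he
  set A : ℝ := DI (up κ k 1) e * Real.Gamma (1 + s) * qd e k ^ (-1 : ℝ) with hA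
  have hA0 : 0 < A := mul_pos (mul_pos (hpos 1 one_pos) (Real.Gamma_pos_of_pos (by linarith))) (Real.rpow_pos_of_pos hq _)
  set f : ℝ → ℝ := fun x => DI (up κ k x) e * Real.Gamma (x + s) * qd e k ^ (-x) * A⁻¹ with hf
  have hfpos : ∀ {y : ℝ}, 0 < y → 0 < f y := fun {y} hy =>
    mul_pos (mul_pos (mul_pos (hpos y hy) (Real.Gamma_pos_of_pos (by linarith))) (Real.rpow_pos_of_pos hq _))
      (inv_pos.2 hA0)
  have hfeq : ∀ {y : ℝ}, 0 < y → f (y + 1) = y * f y := by
    intro y hy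
    have h1 := DI_shift (up_gt hκ k hy) he k
    rw [up_up] at h1
    have h2 : up κ k y k = y - 1 := by
      unfold up
      rw [Function.update_self]
    have h3 : ∑ i, (up κ k y i + 1) = y + s := by
      rw [← Finset.add_sum_erase Finset.univ _ (Finset.mem_univ k), h2, hs]
      congr 1
      · ring
      · refine Finset.sum_congr rfl fun i hi => ?_
        unfold up
        rw [Function.update_of_ne (Finset.ne_of_mem_erase hi)]
    rw [h2, h3, sub_add_cancel] at h1
    have h4 : Real.Gamma (y + 1 + s) = (y + s) * Real.Gamma (y + s) := by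
      rw [← Real.Gamma_add_one (by linarith)]
      congr 1
      ring
    have h5 : qd e k * qd e k ^ (-(y + 1)) = qd e k ^ (-y) := by
      rw [← Real.rpow_one_add' hq.le (by linarith)]
      congr 1
      ring
    have h6 : y + s ≠ 0 := by linarith
    simp only [hf]
    rw [h1, h4, ← h5]
    field_simp
  have hf1 : f 1 = 1 := by
    simp only [hf]
    rw [← hA, mul_inv_cancel₀ hA0.ne']
  have hconv : ConvexOn ℝ (Ioi 0) (Real.log ∘ f) := by
    have g1 := DI_convex hκ he k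
    have g2 : ConvexOn ℝ (Ioi 0) fun x => Real.log (Real.Gamma (x + s)) := by
      have g3 := Real.convexOn_log_Gamma.translate_left s
      refine g3.subset ?_ (convex_Ioi 0)
      intro x hx
      rw [mem_Ioi] at hx
      show 0 < s + x
      linarith
    have g4 : ConvexOn ℝ (Ioi 0) fun x : ℝ => x * (-Real.log (qd e k)) - Real.log A := by
      refine ConvexOn.sub ?_ (concaveOn_const _ (convex_Ioi 0))
      refine ⟨convex_Ioi 0, fun x _ y _ a b _ _ _ => le_of_eq ?_⟩
      simp only [smul_eq_mul]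
      ring
    refine ((g1.add g2).add g4).congr ?_
    intro x hx
    rw [mem_Ioi] at hx
    have h1 : 0 < Real.Gamma (x + s) := Real.Gamma_pos_of_pos (by linarith)
    simp only [Function.comp_apply, Pi.add_apply, hf]
    rw [Real.log_mul (mul_pos (mul_pos (hpos x hx) h1) (Real.rpow_pos_of_pos hq _)).ne' (inv_pos.2 hA0).ne',
      Real.log_mul (mul_pos (hpos x hx) h1).ne' (Real.rpow_pos_of_pos hq _).ne',
      Real.log_mul (hpos x hx).ne' h1.ne', Real.log_rpow hq, Real.log_inv]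
    ring
  have h1 : f x = Real.Gamma x := Real.eq_Gamma_of_log_convex hconv hfeq hfpos hf1 hx
  rw [← h1]
  simp only [hf]
  rw [hA]
  have h2 : qd e k ^ (-x) * qd e k ^ (x - 1) * (qd e k ^ (-1 : ℝ))⁻¹ = 1 := by
    rw [← Real.rpow_add hq, ← Real.rpow_neg hq.le, ← Real.rpow_add hq]
    have : -x + (x - 1) + - -1 = 0 := by ring
    rw [this, Real.rpow_zero]
  have h3 := (hpos 1 one_pos).ne'
  have h4 : Real.Gamma (1 + s) ≠ 0 := (Real.Gamma_pos_of_pos (by linarith)).ne'
  rw [mul_inv, mul_inv]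
  calc DI (up κ k x) e * Real.Gamma (x + s) = DI (up κ k x) e * Real.Gamma (x + s) *
        (qd e k ^ (-x) * qd e k ^ (x - 1) * (qd e k ^ (-1 : ℝ))⁻¹) * (DI (up κ k 1) e * (DI (up κ k 1) e)⁻¹) *
        (Real.Gamma (1 + s) * (Real.Gamma (1 + s))⁻¹) := by
        rw [h2, mul_inv_cancel₀ h3, mul_inv_cancel₀ h4]
        ring
    _ = _ := by ring

end Pool.Agent.Helper67K9.SE
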