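import Pool.Agent.Helper67K9.SE.DA3

/-!
# The determinant of real periods with general exponents (Dixon-Anderson), IV
-/

set_option autoImplicit false

open Set MeasureTheory Filter Topology

namespace Pool.Agent.Helper67K9.SE

open Pool.Agent.Y118.HP (ee seg Dm isOpen_Dm InGap mem_Dm_of_im ee_self ee_succAbove er er_strictMono ee_ofReal)

variable {n : ℕ}

/-! ### All exponents zero -/

theorem int_zero (e : Fin (n + 1) → ℝ) (l : Fin n) (j : ℕ) :
    ∫ s in Ioo (0 : ℝ) 1, WR (0 : Fin (n + 1) → ℝ) e l s * (xr e l s - 0) ^ j =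
      ((j : ℝ) + 1)⁻¹ * (e l.succ ^ (j + 1) - e l.castSucc ^ (j + 1)) := by
  have hj : ((j : ℝ) + 1) ≠ 0 := by positivity
  have hx : ∀ s, HasDerivAt (xr e l) (e l.succ - e l.castSucc) s := by
    intro s
    unfold xr
    have h1 := (((hasDerivAt_id s).const_sub 1).mul_const (e l.castSucc)).add ((hasDerivAt_id s).mul_const (e l.succ))
    refine h1.congr_deriv ?_
    ring
  have h1 : ∀ s ∈ uIcc (0 : ℝ) 1, HasDerivAt (fun s => ((j : ℝ) + 1)⁻¹ * xr e l s ^ (j + 1))
      ((e l.succ - e l.castSucc) * xr e l s ^ j) s := by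
    intro s _
    refine (((hx s).pow (j + 1)).const_mul _).congr_deriv ?_
    rw [Nat.add_sub_cancel]
    push_cast
    field_simp
  have h2 := intervalIntegral.integral_eq_sub_of_hasDerivAt h1 (by
    refine Continuous.intervalIntegrable ?_ _ _
    exact continuous_const.mul ((continuous_xr e l).pow j))
  have h3 : ∀ s, WR (0 : Fin (n + 1) → ℝ) e l s * (xr e l s - 0) ^ j = (e l.succ - e l.castSucc) * xr e l s ^ j := by
    intro s
    unfold WR
    simp
  simp only [h3]
  rw [← integral_Ioc_eq_integral_Ioo, ← intervalIntegral.integral_of_le zero_le_one, h2]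
  unfold xr
  ring

theorem det_diff (e : Fin (n + 1) → ℝ) :
    (Matrix.of fun l j : Fin n => (e l.succ ^ ((j : ℕ) + 1) - e l.castSucc ^ ((j : ℕ) + 1))).det =
      (Matrix.vandermonde e).det := by
  set Bm : Matrix (Fin (n + 1)) (Fin (n + 1)) ℝ := Matrix.of fun i j =>
    if h : i = 0 then Matrix.vandermonde e i j else
      Matrix.vandermonde e i j - Matrix.vandermonde e (i.pred h).castSucc j with hB
  have h1 : (Matrix.vandermonde e).det = Bm.det := by
    refine Matrix.det_eq_of_forall_row_eq_smul_add_pred (fun _ => 1) (fun j => ?_) fun i j => ?_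
    · rw [hB, Matrix.of_apply, dif_pos rfl]
    · rw [hB, Matrix.of_apply, dif_neg (Fin.succ_ne_zero i), Fin.pred_succ]
      ring
  rw [h1, Matrix.det_succ_column_zero, Finset.sum_eq_single 0]
  · have h2 : Bm 0 0 = 1 := by
      rw [hB, Matrix.of_apply, dif_pos rfl, Matrix.vandermonde_apply]
      simp
    rw [h2, Fin.val_zero, pow_zero, one_mul, one_mul]
    congr 1
  · intro i _ hi
    have h2 : Bm i 0 = 0 := by
      rw [hB, Matrix.of_apply, dif_neg hi, Matrix.vandermonde_apply, Matrix.vandermonde_apply]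
      simp
    rw [h2, mul_zero, zero_mul]
  · intro h
    exact absurd (Finset.mem_univ _) h

theorem DI_zero {e : Fin (n + 1) → ℝ} (he : StrictMono e) :
    DI (0 : Fin (n + 1) → ℝ) e * Real.Gamma (n + 1) = (Matrix.vandermonde e).det := by
  have h1 := det_shift (κ := (0 : Fin (n + 1) → ℝ)) (fun i => by simp) he 0
  simp only [int_zero] at h1
  have h2 := Matrix.det_mul_row (fun j : Fin n => ((j : ℝ) + 1)⁻¹)
    (Matrix.of fun l j : Fin n => (e l.succ ^ ((j : ℕ) + 1) - e l.castSucc ^ ((j : ℕ) + 1)))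
  simp only [Matrix.of_apply] at h2
  rw [h2, det_diff] at h1
  rw [← h1, Real.Gamma_nat_eq_factorial, Finset.prod_inv_distrib]
  have h3 : ∏ j : Fin n, ((j : ℝ) + 1) = (Nat.factorial n : ℝ) := by
    rw [← Finset.prod_range_add_one_eq_factorial, Finset.prod_range]
    push_cast
    rfl
  rw [h3]
  have h4 : (Nat.factorial n : ℝ) ≠ 0 := by exact_mod_cast Nat.factorial_ne_zero n
  field_simp

/-- **The formula of Dixon and Anderson (Varchenko).** -/
theorem DI_formula {e : Fin (n + 1) → ℝ} (he : StrictMono e) {κ : Fin (n + 1) → ℝ} (hκ : ∀ i, -1 < κ i) :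
    DI κ e * Real.Gamma (∑ i, (κ i + 1)) =
      (∏ i, Real.Gamma (κ i + 1)) * (∏ i, qd e i ^ κ i) * (Matrix.vandermonde e).det := by
  classical
  have key : ∀ (S : Finset (Fin (n + 1))), ∀ κ : Fin (n + 1) → ℝ, (∀ i, -1 < κ i) → (∀ i, i ∉ S → κ i = 0) →
      DI κ e * Real.Gamma (∑ i, (κ i + 1)) =
        (∏ i, Real.Gamma (κ i + 1)) * (∏ i, qd e i ^ κ i) * (Matrix.vandermonde e).det := by
    intro S
    induction S using Finset.induction_on with
    | empty =>
      intro κ _ h0
      have h1 : κ = 0 := funext fun i => h0 i (Finset.notMem_empty i)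
      subst h1
      simp only [Pi.zero_apply, zero_add, Real.Gamma_one, Finset.prod_const_one, Real.rpow_zero, one_mul,
        Finset.sum_const, Finset.card_univ, Fintype.card_fin, nsmul_eq_mul, mul_one, Nat.cast_add, Nat.cast_one]
      exact DI_zero he
    | insert k S hk ih =>
      intro κ hκ h0
      have hx : 0 < κ k + 1 := by linarith [hκ k]
      have e1 : up κ k (κ k + 1) = κ := by
        unfold up
        rw [add_sub_cancel_right, Function.update_eq_self]
      have h1 := DI_step hκ he k hx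
      rw [e1] at h1
      have h2 := ih (up κ k 1) (up_gt hκ k one_pos) fun i hi => by
        unfold up
        by_cases h : i = k
        · rw [h, Function.update_self, sub_self]
        · rw [Function.update_of_ne h]
          exact h0 i (by rw [Finset.mem_insert]; push Not; exact ⟨h, hi⟩)
      have e2 : ∀ i ∈ Finset.univ.erase k, up κ k 1 i = κ i := fun i hi => by
        unfold up
        rw [Function.update_of_ne (Finset.ne_of_mem_erase hi)]
      have e3 : up κ k 1 k = 0 := by
        unfold up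
        rw [Function.update_self, sub_self]
      have s1 : ∑ i, (up κ k 1 i + 1) = 1 + ∑ i ∈ Finset.univ.erase k, (κ i + 1) := by
        rw [← Finset.add_sum_erase Finset.univ _ (Finset.mem_univ k), e3, zero_add]
        congr 1
        exact Finset.sum_congr rfl fun i hi => by rw [e2 i hi]
      have s2 : ∏ i, Real.Gamma (up κ k 1 i + 1) = ∏ i ∈ Finset.univ.erase k, Real.Gamma (κ i + 1) := by
        rw [← Finset.mul_prod_erase Finset.univ _ (Finset.mem_univ k), e3, zero_add, Real.Gamma_one, one_mul]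
        exact Finset.prod_congr rfl fun i hi => by rw [e2 i hi]
      have s3 : ∏ i, qd e i ^ up κ k 1 i = ∏ i ∈ Finset.univ.erase k, qd e i ^ κ i := by
        rw [← Finset.mul_prod_erase Finset.univ _ (Finset.mem_univ k), e3, Real.rpow_zero, one_mul]
        exact Finset.prod_congr rfl fun i hi => by rw [e2 i hi]
      rw [s1, s2, s3] at h2
      rw [← Finset.add_sum_erase Finset.univ _ (Finset.mem_univ k),
        ← Finset.mul_prod_erase Finset.univ (fun i => Real.Gamma (κ i + 1)) (Finset.mem_univ k),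
        ← Finset.mul_prod_erase Finset.univ (fun i => qd e i ^ κ i) (Finset.mem_univ k), h1, h2,
        add_sub_cancel_right]
      ring
  exact key Finset.univ κ hκ fun i hi => absurd (Finset.mem_univ i) hi

/-! ### Products of differences -/

/-- all the pairs -/
noncomputable def RR {N : ℕ} (e : Fin N → ℝ) : ℝ := ∏ i, ∏ j, if i = j then 1 else |e i - e j|

theorem RR_sq {N : ℕ} {e : Fin N → ℝ} (he : StrictMono e) : RR e = (Matrix.vandermonde e).det ^ 2 := by
  classical
  rw [Matrix.det_vandermonde]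
  unfold RR
  have h1 : ∀ i : Fin N, ∏ j, (if i = j then (1 : ℝ) else |e i - e j|) =
      (∏ j ∈ Finset.Ioi i, |e i - e j|) * ∏ j ∈ Finset.Iio i, |e i - e j| := by
    intro i
    rw [← Finset.prod_erase (a := i) Finset.univ (by simp)]
    have h2 : Finset.univ.erase i = Finset.Ioi i ∪ Finset.Iio i := by
      ext j
      simp only [Finset.mem_erase, Finset.mem_univ, and_true, Finset.mem_union, Finset.mem_Ioi, Finset.mem_Iio]
      exact ⟨fun h => (lt_or_gt_of_ne h).symm, fun h => h.elim (fun h => h.ne') fun h => h.ne⟩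
    rw [h2, Finset.prod_union]
    · congr 1
      · refine Finset.prod_congr rfl fun j hj => ?_
        rw [if_neg (Finset.mem_Ioi.1 hj).ne]
      · refine Finset.prod_congr rfl fun j hj => ?_
        rw [if_neg (Finset.mem_Iio.1 hj).ne']
    · rw [Finset.disjoint_left]
      intro j hj hj'
      exact absurd (Finset.mem_Ioi.1 hj) (Finset.mem_Iio.1 hj').not_gt
  rw [Finset.prod_congr rfl fun i _ => h1 i, Finset.prod_mul_distrib]
  have h2 : ∏ i : Fin N, ∏ j ∈ Finset.Iio i, |e i - e j| = ∏ i : Fin N, ∏ j ∈ Finset.Ioi i, |e j - e i| := by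
    refine Finset.prod_comm' fun i j => ?_
    simp
  have h3 : ∏ i : Fin N, ∏ j ∈ Finset.Ioi i, |e i - e j| = ∏ i : Fin N, ∏ j ∈ Finset.Ioi i, (e j - e i) := by
    refine Finset.prod_congr rfl fun i _ => Finset.prod_congr rfl fun j hj => ?_
    have := he (Finset.mem_Ioi.1 hj)
    rw [abs_of_neg (by linarith)]
    ring
  have h4 : ∏ i : Fin N, ∏ j ∈ Finset.Ioi i, |e j - e i| = ∏ i : Fin N, ∏ j ∈ Finset.Ioi i, (e j - e i) := by
    refine Finset.prod_congr rfl fun i _ => Finset.prod_congr rfl fun j hj => ?_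
    have := he (Finset.mem_Ioi.1 hj)
    rw [abs_of_pos (by linarith)]
  rw [h2, h3, h4, sq]

theorem RR_qd (e : Fin (n + 1) → ℝ) : RR e = ∏ i, qd e i := by
  unfold RR qd
  refine Finset.prod_congr rfl fun i _ => ?_
  rw [Fin.prod_univ_succAbove _ i, if_pos rfl, one_mul]
  refine Finset.prod_congr rfl fun l _ => ?_
  rw [if_neg (Fin.succAbove_ne i l).symm]

theorem RR_succAbove (e : Fin (n + 1) → ℝ) (m : Fin (n + 1)) : RR e = qd e m ^ 2 * RR (fun i => e (m.succAbove i)) := by
  unfold RR
  rw [Fin.prod_univ_succAbove _ m]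
  have h1 : ∏ j, (if m = j then (1 : ℝ) else |e m - e j|) = qd e m := by
    rw [Fin.prod_univ_succAbove _ m, if_pos rfl, one_mul]
    unfold qd
    refine Finset.prod_congr rfl fun l _ => ?_
    rw [if_neg (Fin.succAbove_ne m l).symm]
  have h2 : ∀ i : Fin n, ∏ j, (if m.succAbove i = j then (1 : ℝ) else |e (m.succAbove i) - e j|) =
      |e m - e (m.succAbove i)| * ∏ j : Fin n, (if i = j then 1 else |e (m.succAbove i) - e (m.succAbove j)|) := by
    intro i
    rw [Fin.prod_univ_succAbove _ m, if_neg (Fin.succAbove_ne m i), abs_sub_comm]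
    congr 1
    refine Finset.prod_congr rfl fun j _ => ?_
    simp only [Fin.succAbove_right_inj]
  rw [h1, Finset.prod_congr rfl fun i _ => h2 i, Finset.prod_mul_distrib]
  unfold qd
  ring

theorem vdm_strict_pos {N : ℕ} {e : Fin N → ℝ} (he : StrictMono e) : 0 < (Matrix.vandermonde e).det := by
  rw [Matrix.det_vandermonde]
  refine Finset.prod_pos fun i _ => Finset.prod_pos fun j hj => ?_
  exact sub_pos.2 (he (Finset.mem_Ioi.1 hj))

theorem vdm_succAbove {e : Fin (n + 1) → ℝ} (he : StrictMono e) (m : Fin (n + 1)) :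
    (Matrix.vandermonde e).det = qd e m * (Matrix.vandermonde fun i => e (m.succAbove i)).det := by
  have hs : StrictMono fun i => e (m.succAbove i) := he.comp (Fin.strictMono_succAbove m)
  have h1 := RR_succAbove e m
  rw [RR_sq he, RR_sq hs, ← mul_pow] at h1
  exact (pow_left_inj₀ (vdm_strict_pos he).le (mul_pos (qd_pos he m) (vdm_strict_pos hs)).le two_ne_zero).1 h1

/-- **The determinant of the period matrix.** -/
theorem det_PM {μ : ℝ} (h0 : 0 < μ) (h1' : μ < 1) {a : Fin n → ℝ} (ha : StrictMono a) (hn : 2 ≤ n)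
    (m : Fin (n + 1)) {z : ℂ} (hz : z ∈ Dm a m) : (PM μ a m z).det =
      ((Real.Gamma μ ^ n * Real.Gamma (1 - μ) / Real.Gamma (1 + (n - 1) * μ) *
        (Matrix.vandermonde a).det ^ (2 * μ - 1) : ℝ) : ℂ) := by
  obtain ⟨c, hc⟩ := det_const h0 h1' ha hn m
  obtain ⟨t, ht⟩ := Pool.Agent.Y118.HP.exists_inGap ha m
  rw [hc z hz, ← hc t ht.mem_Dm]
  have he := er_strictMono ha ht
  set e := er a m t with hed
  set κ := kap μ m with hκd
  have hκ : ∀ i, -1 < κ i := kap_gt h0 h1' m
  have hPM : PM μ a m t = (Matrix.of fun l j : Fin n => ∫ s in Ioo (0 : ℝ) 1, WR κ e l s * (xr e l s - 0) ^ (j : ℕ)).map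
      (fun r : ℝ => (r : ℂ)) := by
    ext l j
    have h2 : PM μ a m t l j = perC (kap μ m) (ee a m t) l (j : ℕ) := rfl
    rw [h2, ee_ofReal, Matrix.map_apply, Matrix.of_apply]
    have h3 := perC_WR (κ := κ) he l (j : ℕ)
    simp only [sub_zero]
    exact h3
  have hdet : (PM μ a m t).det = (DI κ e : ℂ) := by
    rw [hPM, ← det_shift hκ he 0]
    exact (RingHom.map_det Complex.ofRealHom _).symm
  rw [hdet]
  congr 1
  have h2 := DI_formula he hκ
  have hsA : (fun i => e (m.succAbove i)) = a := by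
    funext i
    rw [hed]
    unfold er
    simp
  have hκm : κ m = -μ := kap_self μ m
  have hκs : ∀ i : Fin n, κ (m.succAbove i) = μ - 1 := fun i => kap_ne μ (Fin.succAbove_ne m i)
  have hV := vdm_succAbove he m
  rw [hsA] at hV
  have hq := qd_pos he m
  have hVa := vdm_strict_pos ha
  have s1 : ∑ i, (κ i + 1) = 1 + (n - 1) * μ := by
    rw [Fin.sum_univ_succAbove _ m, hκm]
    simp only [hκs, Finset.sum_const, Finset.card_univ, Fintype.card_fin, nsmul_eq_mul]
    ring
  have s2 : ∏ i, Real.Gamma (κ i + 1) = Real.Gamma μ ^ n * Real.Gamma (1 - μ) := by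
    rw [Fin.prod_univ_succAbove _ m, hκm]
    simp only [hκs, sub_add_cancel, Finset.prod_const, Finset.card_univ, Fintype.card_fin]
    rw [mul_comm]
    congr 2
    ring
  have s4 : ∏ i : Fin n, qd e (m.succAbove i) = qd e m * (Matrix.vandermonde a).det ^ 2 := by
    have h3 := RR_qd e
    rw [RR_succAbove e m, hsA, RR_sq ha, Fin.prod_univ_succAbove _ m] at h3
    have h4 : qd e m * (qd e m * (Matrix.vandermonde a).det ^ 2) = qd e m * ∏ i : Fin n, qd e (m.succAbove i) := by
      rw [← h3]
      ring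
    exact (mul_left_cancel₀ hq.ne' h4).symm
  have s3 : (∏ i, qd e i ^ κ i) * (Matrix.vandermonde e).det = (Matrix.vandermonde a).det ^ (2 * μ - 1) := by
    rw [Fin.prod_univ_succAbove _ m, hκm]
    simp only [hκs]
    rw [Real.finsetProd_rpow _ _ fun i _ => (qd_pos he _).le, s4, hV, Real.mul_rpow hq.le (by positivity)]
    have h5 : ((Matrix.vandermonde a).det ^ 2 : ℝ) ^ (μ - 1) = (Matrix.vandermonde a).det ^ (2 * (μ - 1)) := by
      rw [← Real.rpow_natCast, ← Real.rpow_mul hVa.le]
      norm_num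
    rw [h5]
    have h6 : qd e m ^ (-μ) * qd e m ^ (μ - 1) * qd e m = 1 := by
      rw [← Real.rpow_add hq, ← Real.rpow_add_one hq.ne']
      have : -μ + (μ - 1) + 1 = 0 := by ring
      rw [this, Real.rpow_zero]
    have h7 : (Matrix.vandermonde a).det ^ (2 * (μ - 1)) * (Matrix.vandermonde a).det =
        (Matrix.vandermonde a).det ^ (2 * μ - 1) := by
      rw [← Real.rpow_add_one hVa.ne']
      congr 1
      ring
    rw [← h7]
    linear_combination ((Matrix.vandermonde a).det ^ (2 * (μ - 1)) * (Matrix.vandermonde a).det) * h6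
  have hG : Real.Gamma (1 + (n - 1) * μ) ≠ 0 := by
    have h8 : (1 : ℝ) < n := by exact_mod_cast (show 1 < n by omega)
    refine (Real.Gamma_pos_of_pos ?_).ne'
    nlinarith
  rw [s1, s2, mul_assoc, s3] at h2
  rw [div_mul_eq_mul_div, eq_div_iff hG]
  exact h2

end Pool.Agent.Helper67K9.SE
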