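import Pool.Agent.H463R3.PSLn
import Pool.Agent.Y890.SP.Fin

/-!
# The algebraic points are dense in products of special linear groups
-/

set_option autoImplicit false
set_option linter.unusedSectionVars false

open Matrix

namespace Pool.Agent.Helper67K9.SE

open Pool.Agent.Y890.SP (Qbar)

/-- tuples of matrices of different sizes -/
abbrev TD (J : Type) (n : J → ℕ) (R : Type) : Type := ∀ j : J, Matrix (Fin (n j)) (Fin (n j)) R

/-- the coordinates -/
abbrev CD (J : Type) (n : J → ℕ) : Type := Σ j : J, Fin (n j) × Fin (n j)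

variable {J : Type} {n : J → ℕ}

/-- the value of a polynomial at a tuple -/
noncomputable def pv (P : MvPolynomial (CD J n) ℂ) (g : TD J n ℂ) : ℂ :=
  MvPolynomial.eval (fun q : CD J n => g q.1 q.2.1 q.2.2) P

/-- tuples with algebraic entries and determinants one -/
def GQ (J : Type) (n : J → ℕ) : Set (TD J n ℂ) :=
  {g | ∃ γ : TD J n Qbar, (∀ j, (γ j).det = 1) ∧ g = fun j => (γ j).map (algebraMap Qbar ℂ)}

/-- the elements which preserve the closure -/
def Gd (g : TD J n ℂ) : Prop :=
  ∀ P : MvPolynomial (CD J n) ℂ, (∀ γ ∈ GQ J n, pv P γ = 0) → ∀ γ ∈ GQ J n, pv P (g * γ) = 0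

theorem Gd_mul {g h : TD J n ℂ} (hg : Gd g) (hh : Gd h) : Gd (g * h) := by
  intro P hP γ hγ
  set P' : MvPolynomial (CD J n) ℂ := MvPolynomial.aeval (fun q : CD J n =>
    ∑ k, MvPolynomial.C (g q.1 q.2.1 k) * MvPolynomial.X (⟨q.1, (k, q.2.2)⟩ : CD J n)) P with hP'
  have hev : ∀ x : TD J n ℂ, pv P' x = pv P (g * x) := by
    intro x
    unfold pv
    have h1 : (MvPolynomial.eval (fun q : CD J n => x q.1 q.2.1 q.2.2)).comp
        (MvPolynomial.aeval (R := ℂ) (fun q : CD J n =>
          ∑ k, MvPolynomial.C (g q.1 q.2.1 k) * MvPolynomial.X (⟨q.1, (k, q.2.2)⟩ : CD J n))).toRingHom =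
        MvPolynomial.eval (fun q : CD J n => (g * x) q.1 q.2.1 q.2.2) := by
      refine MvPolynomial.ringHom_ext (fun c => ?_) (fun q => ?_)
      · simp
      · simp [Matrix.mul_apply]
    exact congrArg (fun f => f P) h1
  have h2 : ∀ γ ∈ GQ J n, pv P' γ = 0 := by
    intro γ hγ
    rw [hev]
    exact hg P hP γ hγ
  have h3 := hh P' h2 γ hγ
  rw [hev] at h3
  rw [mul_assoc]
  exact h3

variable [DecidableEq J]

theorem update_one_mul (j0 : J) (A B : Matrix (Fin (n j0)) (Fin (n j0)) ℂ) :
    (Function.update (1 : TD J n ℂ) j0 (A * B) : TD J n ℂ) =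
      (Function.update (1 : TD J n ℂ) j0 A : TD J n ℂ) * (Function.update (1 : TD J n ℂ) j0 B : TD J n ℂ) := by
  funext j
  rw [Pi.mul_apply]
  by_cases h : j = j0
  · subst h
    simp
  · simp [Function.update_of_ne h]

theorem Gd_transvection (j0 : J) (a b : Fin (n j0)) (hab : a ≠ b) (s : ℂ) :
    Gd (Function.update (1 : TD J n ℂ) j0 (1 + Matrix.single a b s) : TD J n ℂ) := by
  intro P hP γ hγ
  obtain ⟨γ', hγ1, rfl⟩ := hγ
  set γc : TD J n ℂ := fun j => (γ' j).map (algebraMap Qbar ℂ) with hγc
  set Nt : TD J n ℂ := (Function.update (0 : TD J n ℂ) j0 (Matrix.single a b (1 : ℂ)) : TD J n ℂ) * γc with hNt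
  have hform : ∀ t : ℂ, (Function.update (1 : TD J n ℂ) j0 (1 + Matrix.single a b t) : TD J n ℂ) * γc =
      γc + t • Nt := by
    intro t
    funext j
    rw [Pi.mul_apply, Pi.add_apply, Pi.smul_apply, hNt, Pi.mul_apply]
    by_cases h : j = j0
    · subst h
      rw [Function.update_self, Function.update_self, add_mul, one_mul, ← smul_mul_assoc, Matrix.smul_single,
        smul_eq_mul, mul_one]
    · rw [Function.update_of_ne h, Function.update_of_ne h]
      simp
  set p : Polynomial ℂ := MvPolynomial.eval₂ Polynomial.C (fun q : CD J n =>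
    Polynomial.C (γc q.1 q.2.1 q.2.2) + Polynomial.X * Polynomial.C (Nt q.1 q.2.1 q.2.2)) P with hp
  have hpe : ∀ t : ℂ, p.eval t = pv P (γc + t • Nt) := by
    intro t
    unfold pv
    have h1 : (Polynomial.evalRingHom t).comp (MvPolynomial.eval₂Hom Polynomial.C (fun q : CD J n =>
        Polynomial.C (γc q.1 q.2.1 q.2.2) + Polynomial.X * Polynomial.C (Nt q.1 q.2.1 q.2.2))) =
        MvPolynomial.eval (fun q : CD J n => (γc + t • Nt) q.1 q.2.1 q.2.2) := by
      refine MvPolynomial.ringHom_ext (fun c => ?_) (fun q => ?_)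
      · simp
      · simp
        ring
    exact congrArg (fun f => f P) h1
  have hzero : ∀ t : Qbar, p.eval (algebraMap Qbar ℂ t) = 0 := by
    intro t
    rw [hpe, ← hform]
    refine hP _ ⟨fun j => (Function.update (1 : TD J n Qbar) j0 (1 + Matrix.single a b t) : TD J n Qbar) j * γ' j, ?_, ?_⟩
    · intro j
      rw [Matrix.det_mul, hγ1, mul_one]
      by_cases h : j = j0
      · subst h
        rw [Function.update_self]
        have h2 := Matrix.det_transvection_of_ne a b hab t
        exact h2
      · rw [Function.update_of_ne h, Pi.one_apply, Matrix.det_one]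
    · funext j
      rw [Pi.mul_apply, Matrix.map_mul]
      congr 1
      by_cases h : j = j0
      · subst h
        rw [Function.update_self, Function.update_self]
        ext x y
        rw [Matrix.map_apply, Matrix.add_apply, Matrix.add_apply, map_add, Matrix.one_apply, Matrix.one_apply,
          Matrix.single_apply, Matrix.single_apply]
        split_ifs <;> simp
      · rw [Function.update_of_ne h, Function.update_of_ne h, Pi.one_apply, Pi.one_apply]
        ext x y
        rw [Matrix.map_apply, Matrix.one_apply, Matrix.one_apply]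
        split_ifs <;> simp
  have hp0 : p = 0 := by
    refine Polynomial.eq_zero_of_infinite_isRoot p ?_
    refine Set.infinite_of_injective_forall_mem (f := fun k : ℕ => (k : ℂ)) Nat.cast_injective fun k => ?_
    have h3 := hzero (k : Qbar)
    rw [map_natCast] at h3
    exact h3
  rw [hform, ← hpe, hp0, Polynomial.eval_zero]

theorem Gd_update (hn : ∀ j, 2 ≤ n j) (j0 : J) (A : Matrix (Fin (n j0)) (Fin (n j0)) ℂ) (hA : A.det = 1) :
    Gd (Function.update (1 : TD J n ℂ) j0 A : TD J n ℂ) := by
  have : Nontrivial (Fin (n j0)) := Fin.nontrivial_iff_two_le.2 (hn j0)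
  have key : ∀ A : Matrix.SpecialLinearGroup (Fin (n j0)) ℂ,
      Gd (Function.update (1 : TD J n ℂ) j0 (A : Matrix (Fin (n j0)) (Fin (n j0)) ℂ) : TD J n ℂ) := by
    intro A
    induction A using Pool.Agent.H463R3.PSLn.transvection_induction with
    | htransvec i j hij c =>
      rw [Matrix.SpecialLinearGroup.transvection_coe]
      exact Gd_transvection j0 i j hij c
    | hmul A B hA hB =>
      rw [Matrix.SpecialLinearGroup.coe_mul, update_one_mul]
      exact Gd_mul hA hB
  exact key ⟨A, hA⟩

/-- **Density.** -/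
theorem dense_sl [Fintype J] (hn : ∀ j, 2 ≤ n j) (P : MvPolynomial (CD J n) ℂ) (hP : ∀ γ ∈ GQ J n, pv P γ = 0)
    (g : TD J n ℂ) (hg : ∀ j, (g j).det = 1) : pv P g = 0 := by
  classical
  have hone : (1 : TD J n ℂ) ∈ GQ J n := by
    refine ⟨fun j => 1, fun j => Matrix.det_one, ?_⟩
    funext j
    have e : (1 : Matrix (Fin (n j)) (Fin (n j)) Qbar).map (algebraMap Qbar ℂ) = 1 :=
      Matrix.map_one _ (map_zero _) (map_one _)
    exact e.symm
  have key : ∀ A : Finset J, Gd (fun j => if j ∈ A then g j else 1 : TD J n ℂ) := by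
    intro A
    induction A using Finset.induction_on with
    | empty =>
      intro P hP γ hγ
      have e : (fun j => if j ∈ (∅ : Finset J) then g j else 1 : TD J n ℂ) = 1 := by
        funext j
        simp
      rw [e, one_mul]
      exact hP γ hγ
    | insert j0 A hj0 ih =>
      have e : (fun j => if j ∈ insert j0 A then g j else 1 : TD J n ℂ) =
          (Function.update (1 : TD J n ℂ) j0 (g j0) : TD J n ℂ) * (fun j => if j ∈ A then g j else 1 : TD J n ℂ) := by
        funext j
        rw [Pi.mul_apply]
        by_cases h : j = j0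
        · subst h
          rw [Function.update_self, if_pos (Finset.mem_insert_self _ _), if_neg hj0, mul_one]
        · rw [Function.update_of_ne h, Pi.one_apply, one_mul]
          simp only [Finset.mem_insert, h, false_or]
      rw [e]
      exact Gd_mul (Gd_update hn j0 (g j0) (hg j0)) ih
  have h1 := key Finset.univ P hP 1 hone
  rw [mul_one] at h1
  simpa using h1

end Pool.Agent.Helper67K9.SE
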