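import Pool.Agent.Helper67K9.SE.Ode4
import Pool.Agent.Y118.HP.Real

/-!
# The determinants of the periods do not vanish
-/

set_option autoImplicit false

open Complex Set MeasureTheory Filter Topology

namespace Pool.Agent.Helper67K9.SE

open Pool.Agent.Y118.HP (ee seg Dm isOpen_Dm InGap mem_Dm_of_im ee_self ee_succAbove ee_im ee_slit seg_slit_lt
  seg_slit_gt continuous_ee differentiable_ee eq_zero_of_open isPreconnected_Dm er er_strictMono ee_ofReal)

variable {n : ℕ}

/-- the real factors -/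
noncomputable def rfk (κ : Fin (n + 1) → ℝ) (e : Fin (n + 1) → ℝ) (l : Fin n) (i : Fin (n + 1)) (x : ℝ) : ℝ :=
  if i < l.castSucc then (x - e i) ^ κ i
  else if l.succ < i then (e i - x) ^ κ i else 1

/-- the parametrisation of the segment -/
noncomputable def xr (e : Fin (n + 1) → ℝ) (l : Fin n) (s : ℝ) : ℝ := (1 - s) * e l.castSucc + s * e l.succ

/-- the real weight -/
noncomputable def om (κ : Fin (n + 1) → ℝ) (e : Fin (n + 1) → ℝ) (l : Fin n) (s : ℝ) : ℝ :=
  wt κ l s * ∏ i, rfk κ e l i (xr e l s)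

theorem xr_mem {e : Fin (n + 1) → ℝ} (he : StrictMono e) (l : Fin n) {s : ℝ} (h0 : 0 ≤ s) (h1 : s ≤ 1) :
    e l.castSucc ≤ xr e l s ∧ xr e l s ≤ e l.succ := by
  have h := he (Fin.castSucc_lt_succ (i := l))
  unfold xr
  constructor <;> nlinarith

theorem xr_mem' {e : Fin (n + 1) → ℝ} (he : StrictMono e) (l : Fin n) {s : ℝ} (h0 : 0 < s) (h1 : s < 1) :
    e l.castSucc < xr e l s ∧ xr e l s < e l.succ := by
  have h := he (Fin.castSucc_lt_succ (i := l))
  unfold xr
  constructor <;> nlinarith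

theorem continuous_xr (e : Fin (n + 1) → ℝ) (l : Fin n) : Continuous (xr e l) := by
  unfold xr; fun_prop

theorem rfk_pos {κ : Fin (n + 1) → ℝ} {e : Fin (n + 1) → ℝ} (he : StrictMono e) (l : Fin n) (i : Fin (n + 1)) {x : ℝ}
    (h1 : e l.castSucc ≤ x) (h2 : x ≤ e l.succ) : 0 < rfk κ e l i x := by
  unfold rfk
  split_ifs with h3 h4
  · have := he h3; exact Real.rpow_pos_of_pos (by linarith) _
  · have := he h4; exact Real.rpow_pos_of_pos (by linarith) _
  · exact one_pos

theorem om_pos {κ : Fin (n + 1) → ℝ} {e : Fin (n + 1) → ℝ} (he : StrictMono e) (l : Fin n) {s : ℝ}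
    (h0 : 0 < s) (h1 : s < 1) : 0 < om κ e l s :=
  mul_pos (wt_pos κ l h0 h1) (Finset.prod_pos fun i _ =>
    rfk_pos he l i (xr_mem he l h0.le h1.le).1 (xr_mem he l h0.le h1.le).2)

theorem fac_real {κ : Fin (n + 1) → ℝ} {e : Fin (n + 1) → ℝ} (he : StrictMono e) (l : Fin n) (i : Fin (n + 1)) {x : ℝ}
    (h1 : e l.castSucc ≤ x) (h2 : x ≤ e l.succ) : fac κ (fun k => (e k : ℂ)) l i x = (rfk κ e l i x : ℂ) := by
  unfold fac rfk
  split_ifs with h3 h4
  · have := he h3
    rw [ofReal_cpow (by linarith), ofReal_sub]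
  · have := he h4
    rw [ofReal_cpow (by linarith), ofReal_sub]
  · simp

theorem seg_real (e : Fin (n + 1) → ℝ) (l : Fin n) (s : ℝ) :
    seg (e l.castSucc : ℂ) (e l.succ : ℂ) s = (xr e l s : ℂ) := by
  unfold seg xr
  push_cast
  ring

/-- the periods are real for real points -/
theorem perC_real {κ : Fin (n + 1) → ℝ} {e : Fin (n + 1) → ℝ} (he : StrictMono e) (l : Fin n) (j : ℕ) :
    perC κ (fun k => (e k : ℂ)) l j = (((e l.succ - e l.castSucc) ^ (κ l.castSucc + κ l.succ + 1) *
      ∫ s in Ioo (0 : ℝ) 1, om κ e l s * xr e l s ^ j : ℝ) : ℂ) := by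
  have h := he (Fin.castSucc_lt_succ (i := l))
  rw [perC_eq_Ioo, ofReal_mul, ofReal_cpow (by linarith), ofReal_sub, ← integral_complex_ofReal]
  congr 1
  refine setIntegral_congr_fun measurableSet_Ioo fun s hs => ?_
  have h1 := xr_mem he l hs.1.le hs.2.le
  simp only [seg_real]
  unfold ker om
  rw [Finset.prod_congr rfl fun i _ => fac_real he l i h1.1 h1.2]
  push_cast
  ring

/-- the main point: a real polynomial of degree less than `n` cannot be orthogonal to all the weights -/
theorem ortho {κ : Fin (n + 1) → ℝ} (hκ : ∀ i, -1 < κ i) {e : Fin (n + 1) → ℝ} (he : StrictMono e) (w : Fin n → ℝ)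
    (hint : ∀ l : Fin n, ∀ j : ℕ, Integrable (fun s => om κ e l s * xr e l s ^ j) (volume.restrict (Ioo 0 1)))
    (h : ∀ l, ∑ j : Fin n, w j * ∫ s in Ioo (0 : ℝ) 1, om κ e l s * xr e l s ^ (j : ℕ) = 0) : w = 0 := by
  classical
  set G : Polynomial ℝ := ∑ j : Fin n, Polynomial.C (w j) * Polynomial.X ^ (j : ℕ) with hG
  have hGe : ∀ x : ℝ, G.eval x = ∑ j : Fin n, w j * x ^ (j : ℕ) := by
    intro x
    rw [hG, Polynomial.eval_finsetSum]
    simp
  have hGi : ∀ l : Fin n, Integrable (fun s => om κ e l s * G.eval (xr e l s)) (volume.restrict (Ioo 0 1)) := by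
    intro l
    have h1 : Integrable (fun s => ∑ j : Fin n, w j * (om κ e l s * xr e l s ^ (j : ℕ)))
        (volume.restrict (Ioo 0 1)) := integrable_finsetSum _ fun j _ => (hint l j).const_mul _
    refine h1.congr (Eventually.of_forall fun s => ?_)
    simp only
    rw [hGe, Finset.mul_sum]
    refine Finset.sum_congr rfl fun j _ => ?_
    ring
  have hGz : ∀ l : Fin n, ∫ s in Ioo (0 : ℝ) 1, om κ e l s * G.eval (xr e l s) = 0 := by
    intro l
    refine Eq.trans ?_ (h l)
    have h1 : ∀ j : Fin n, w j * ∫ s in Ioo (0 : ℝ) 1, om κ e l s * xr e l s ^ (j : ℕ) =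
        ∫ s in Ioo (0 : ℝ) 1, w j * (om κ e l s * xr e l s ^ (j : ℕ)) := fun j => (integral_const_mul _ _).symm
    rw [Finset.sum_congr rfl fun j _ => h1 j,
      ← integral_finsetSum (f := fun (j : Fin n) s => w j * (om κ e l s * xr e l s ^ (j : ℕ))) _
        fun j _ => (hint l j).const_mul _]
    refine integral_congr_ae (Eventually.of_forall fun s => ?_)
    simp only
    rw [hGe, Finset.mul_sum]
    refine Finset.sum_congr rfl fun j _ => ?_
    ring
  -- zeros
  have hzero : ∀ l : Fin n, ∃ s ∈ Ioo (0 : ℝ) 1, G.eval (xr e l s) = 0 := by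
    intro l
    by_contra hcon
    push Not at hcon
    have hc : ContinuousOn (fun s => G.eval (xr e l s)) (Ioo 0 1) :=
      (G.continuous.comp (continuous_xr e l)).continuousOn
    have hhalf : (1 / 2 : ℝ) ∈ Ioo (0 : ℝ) 1 := by constructor <;> norm_num
    have hII : IntervalIntegrable (fun s => om κ e l s * G.eval (xr e l s)) volume 0 1 := by
      rw [intervalIntegrable_iff_integrableOn_Ioo_of_le zero_le_one]
      exact hGi l
    have hI0 : ∫ s in (0 : ℝ)..1, om κ e l s * G.eval (xr e l s) = 0 := by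
      rw [intervalIntegral.integral_of_le zero_le_one, integral_Ioc_eq_integral_Ioo]
      exact hGz l
    rcases lt_or_gt_of_ne (hcon _ hhalf) with hneg | hpos
    · have h2 : ∀ s ∈ Ioo (0 : ℝ) 1, 0 < -(om κ e l s * G.eval (xr e l s)) := by
        intro s hs
        have h3 : G.eval (xr e l s) < 0 := by
          by_contra h4
          have h5 := isPreconnected_Ioo.intermediate_value hhalf hs hc
          obtain ⟨u, hu, hu0⟩ := h5 ⟨hneg.le, not_lt.1 h4⟩
          exact hcon u hu hu0
        have h4 := om_pos (κ := κ) he l hs.1 hs.2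
        nlinarith
      have h3 := intervalIntegral.intervalIntegral_pos_of_pos_on hII.neg h2 one_pos
      have h4 : ∫ s in (0 : ℝ)..1, -(om κ e l s * G.eval (xr e l s)) = 0 := by
        rw [intervalIntegral.integral_neg, hI0, neg_zero]
      exact h3.ne' h4
    · have h2 : ∀ s ∈ Ioo (0 : ℝ) 1, 0 < om κ e l s * G.eval (xr e l s) := by
        intro s hs
        have h3 : 0 < G.eval (xr e l s) := by
          by_contra h4
          have h5 := isPreconnected_Ioo.intermediate_value hs hhalf hc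
          obtain ⟨u, hu, hu0⟩ := h5 ⟨not_lt.1 h4, hpos.le⟩
          exact hcon u hu hu0
        exact mul_pos (om_pos he l hs.1 hs.2) h3
      have h3 := intervalIntegral.intervalIntegral_pos_of_pos_on hII h2 one_pos
      exact h3.ne' hI0
  choose s hs hsz using hzero
  have hmono : StrictMono fun l => xr e l (s l) := by
    intro l l' hll
    have h1 := (xr_mem' he l (hs l).1 (hs l).2).2
    have h2 := (xr_mem' he l' (hs l').1 (hs l').2).1
    have h3 : e l.succ ≤ e l'.castSucc := he.monotone (Fin.castSucc_lt_iff_succ_le.1 (Fin.castSucc_lt_castSucc_iff.2 hll))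
    simp only
    linarith
  have hdeg : G = 0 := by
    rcases Nat.eq_zero_or_pos n with hn | hn
    · subst hn
      simp [hG]
    refine Polynomial.eq_zero_of_natDegree_lt_card_of_eval_eq_zero G hmono.injective (fun l => hsz l) ?_
    rw [Fintype.card_fin]
    have h1 : G.natDegree ≤ n - 1 := by
      rw [hG]
      refine Polynomial.natDegree_sum_le_of_forall_le _ _ fun j _ => ?_
      refine (Polynomial.natDegree_C_mul_X_pow_le _ _).trans ?_
      have := j.2
      omega
    omega
  funext j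
  have h1 : G.coeff j = w j := by
    rw [hG, Polynomial.finsetSum_coeff]
    simp only [Polynomial.coeff_C_mul, Polynomial.coeff_X_pow]
    rw [Finset.sum_eq_single j]
    · simp
    · intro k _ hk
      rw [if_neg fun h => hk (Fin.ext h.symm), mul_zero]
    · intro h
      exact absurd (Finset.mem_univ _) h
  rw [← h1, hdeg, Polynomial.coeff_zero, Pi.zero_apply]

/-- **The determinants of the periods do not vanish.** -/
theorem det_ne {μ : ℝ} (h0 : 0 < μ) (h1' : μ < 1) {a : Fin n → ℝ} (ha : StrictMono a) (hn : 2 ≤ n)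
    (m : Fin (n + 1)) {z : ℂ} (hz : z ∈ Dm a m) : (PM μ a m z).det ≠ 0 := by
  obtain ⟨c, hc⟩ := det_const h0 h1' ha hn m
  obtain ⟨t, ht⟩ := Pool.Agent.Y118.HP.exists_inGap ha m
  rw [hc z hz, ← hc t ht.mem_Dm]
  have he := er_strictMono ha ht
  set e := er a m t with hed
  set κ := kap μ m with hκd
  have hκ : ∀ i, -1 < κ i := kap_gt h0 h1' m
  intro hdet
  obtain ⟨v, hv0, hv⟩ := Matrix.exists_mulVec_eq_zero_iff.2 hdet
  have hPM : ∀ l j : Fin n, PM μ a m t l j = (((e l.succ - e l.castSucc) ^ (κ l.castSucc + κ l.succ + 1) *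
      ∫ s in Ioo (0 : ℝ) 1, om κ e l s * xr e l s ^ (j : ℕ) : ℝ) : ℂ) := by
    intro l j
    rw [← perC_real he l j]
    have h2 : PM μ a m t l j = perC (kap μ m) (ee a m t) l (j : ℕ) := rfl
    rw [h2, ee_ofReal]
  have hint : ∀ l : Fin n, ∀ j : ℕ, Integrable (fun s => om κ e l s * xr e l s ^ j) (volume.restrict (Ioo 0 1)) := by
    intro l j
    have h2 := (int_KK (l := l) h0 h1' ha ht.mem_Dm j).norm
    refine (int_KK (l := l) h0 h1' ha ht.mem_Dm j).re.congr ?_
    filter_upwards [ae_restrict_mem measurableSet_Ioo] with s hs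
    have h3 := xr_mem he l hs.1.le hs.2.le
    rw [KK_eq]
    unfold FP
    rw [ee_ofReal]
    simp only [seg_real]
    rw [Finset.prod_congr rfl fun i _ => fac_real he l i h3.1 h3.2]
    have h4 : ((wt (kap μ m) l s : ℂ) * (((xr e l s : ℝ) : ℂ) ^ j * ∏ i, ((rfk κ e l i (xr e l s) : ℝ) : ℂ))) =
        ((om κ e l s * xr e l s ^ j : ℝ) : ℂ) := by
      unfold om
      push_cast
      ring
    have h5 := congrArg Complex.re h4
    rw [ofReal_re] at h5
    exact h5
  have hrow : ∀ l, ∑ j : Fin n, (((∫ s in Ioo (0 : ℝ) 1, om κ e l s * xr e l s ^ (j : ℕ)) : ℝ) : ℂ) * v j = 0 := by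
    intro l
    have h2 := congrFun hv l
    rw [Matrix.mulVec, dotProduct, Pi.zero_apply] at h2
    have h3 : ∑ j, PM μ a m t l j * v j = (((e l.succ - e l.castSucc) ^ (κ l.castSucc + κ l.succ + 1) : ℝ) : ℂ) *
        ∑ j : Fin n, (((∫ s in Ioo (0 : ℝ) 1, om κ e l s * xr e l s ^ (j : ℕ)) : ℝ) : ℂ) * v j := by
      rw [Finset.mul_sum]
      refine Finset.sum_congr rfl fun j _ => ?_
      rw [hPM, ofReal_mul]
      ring
    rw [h3] at h2
    refine (mul_eq_zero.1 h2).resolve_left (ofReal_ne_zero.2 ?_)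
    exact (Real.rpow_pos_of_pos (sub_pos.2 (he Fin.castSucc_lt_succ)) _).ne'
  have hre := ortho hκ he (fun j => (v j).re) hint fun l => by
    have h2 := congrArg Complex.re (hrow l)
    rw [re_sum, zero_re] at h2
    refine Eq.trans ?_ h2
    refine Finset.sum_congr rfl fun j _ => ?_
    rw [re_ofReal_mul]
    ring
  have him := ortho hκ he (fun j => (v j).im) hint fun l => by
    have h2 := congrArg Complex.im (hrow l)
    rw [im_sum, zero_im] at h2
    refine Eq.trans ?_ h2
    refine Finset.sum_congr rfl fun j _ => ?_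
    rw [im_ofReal_mul]
    ring
  apply hv0
  funext j
  exact Complex.ext (congrFun hre j) (congrFun him j)

end Pool.Agent.Helper67K9.SE
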