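import Pool.Agent.Helper67K9.SE.Main

/-!
# The periods as integrals over segments
-/

set_option autoImplicit false

open Complex Set MeasureTheory

namespace Pool.Agent.Helper67K9.SE

open Pool.Agent.Y118.HP (ee seg Dm ee_slit)

variable {n : ℕ}

theorem pos_mul_cpow {s : ℝ} (hs : 0 < s) {D : ℂ} (hD : D ≠ 0) (c : ℝ) :
    ((s : ℂ) * D) ^ (c : ℂ) = ((s ^ c : ℝ) : ℂ) * D ^ (c : ℂ) := by
  have hs' : (s : ℂ) ≠ 0 := ofReal_ne_zero.2 hs.ne'
  rw [cpow_def_of_ne_zero (mul_ne_zero hs' hD), cpow_def_of_ne_zero hD, log_ofReal_mul hs hD, add_mul, exp_add]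
  congr 1
  rw [Real.rpow_def_of_pos hs, ofReal_exp]
  push_cast
  rfl

/-- the integrand of the period over the segment `l` -/
noncomputable def itg (κ : Fin (n + 1) → ℝ) (e : Fin (n + 1) → ℂ) (l : Fin n) (j : ℕ) (x : ℂ) : ℂ :=
  x ^ j * ∏ i, if i ≤ l.castSucc then (x - e i) ^ (κ i : ℂ) else (e i - x) ^ (κ i : ℂ)

theorem perC_eq_seg (κ : Fin (n + 1) → ℝ) (e : Fin (n + 1) → ℂ) (l : Fin n) (j : ℕ)
    (hD : e l.succ - e l.castSucc ≠ 0) : perC κ e l j =
    ∫ s in (0 : ℝ)..1, (e l.succ - e l.castSucc) * itg κ e l j ((1 - s) * e l.castSucc + s * e l.succ) := by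
  set p := e l.castSucc with hp
  set q := e l.succ with hq
  unfold perC
  rw [← hp, ← hq, intervalIntegral.integral_of_le zero_le_one, intervalIntegral.integral_of_le zero_le_one,
    integral_Ioc_eq_integral_Ioo, integral_Ioc_eq_integral_Ioo, ← integral_const_mul]
  refine setIntegral_congr_fun measurableSet_Ioo fun s hs => ?_
  unfold ker itg
  have hx : seg p q s = (1 - s) * p + s * q := rfl
  rw [hx]
  set x : ℂ := (1 - s) * p + s * q with hxd
  have hs1 : 0 < 1 - s := by linarith [hs.2]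
  have h1 : (x - p) ^ (κ l.castSucc : ℂ) = ((s ^ κ l.castSucc : ℝ) : ℂ) * (q - p) ^ (κ l.castSucc : ℂ) := by
    rw [← pos_mul_cpow hs.1 hD]
    congr 1
    rw [hxd]
    ring
  have h2 : (q - x) ^ (κ l.succ : ℂ) = (((1 - s) ^ κ l.succ : ℝ) : ℂ) * (q - p) ^ (κ l.succ : ℂ) := by
    rw [← pos_mul_cpow hs1 hD]
    congr 1
    rw [hxd]
    push_cast
    ring
  have h3 : (q - p) ^ ((κ l.castSucc + κ l.succ + 1 : ℝ) : ℂ) =
      (q - p) ^ (κ l.castSucc : ℂ) * (q - p) ^ (κ l.succ : ℂ) * (q - p) := by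
    push_cast
    rw [cpow_add _ _ hD, cpow_add _ _ hD, cpow_one]
  have hne : l.castSucc ≠ l.succ := (Fin.castSucc_lt_succ (i := l)).ne
  have h4 : ∏ i, (if i ≤ l.castSucc then (x - e i) ^ (κ i : ℂ) else (e i - x) ^ (κ i : ℂ)) =
      (x - p) ^ (κ l.castSucc : ℂ) * ((q - x) ^ (κ l.succ : ℂ) * ∏ i, fac κ e l i x) := by
    rw [← Finset.mul_prod_erase Finset.univ _ (Finset.mem_univ l.castSucc),
      ← Finset.mul_prod_erase (Finset.univ.erase l.castSucc) _
        (Finset.mem_erase.2 ⟨hne.symm, Finset.mem_univ l.succ⟩),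
      ← Finset.mul_prod_erase Finset.univ (fun i => fac κ e l i x) (Finset.mem_univ l.castSucc),
      ← Finset.mul_prod_erase (Finset.univ.erase l.castSucc) (fun i => fac κ e l i x)
        (Finset.mem_erase.2 ⟨hne.symm, Finset.mem_univ l.succ⟩)]
    have e1 : fac κ e l l.castSucc x = 1 := by
      unfold fac
      rw [if_neg (lt_irrefl _), if_neg]
      exact (Fin.castSucc_lt_succ (i := l)).le.not_gt
    have e2 : fac κ e l l.succ x = 1 := by
      unfold fac
      rw [if_neg (Fin.castSucc_lt_succ (i := l)).le.not_gt, if_neg (lt_irrefl _)]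
    have e3 : ¬ l.succ ≤ l.castSucc := not_le.2 Fin.castSucc_lt_succ
    rw [e1, e2, if_pos le_rfl, if_neg e3, one_mul, one_mul]
    congr 2
    refine Finset.prod_congr rfl fun i hi => ?_
    rw [Finset.mem_erase, Finset.mem_erase] at hi
    unfold fac
    rcases lt_trichotomy i l.castSucc with h | h | h
    · rw [if_pos h.le, if_pos h]
    · exact absurd h hi.2.1
    · have h5 : l.succ ≤ i := Fin.castSucc_lt_iff_succ_le.1 h
      have h6 : l.succ < i := lt_of_le_of_ne h5 (Ne.symm hi.1)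
      rw [if_neg (not_le.2 h), if_neg h.not_gt, if_pos h6]
  rw [h4, h1, h2, h3]
  unfold wt
  push_cast
  ring

theorem PM_eq_seg {μ : ℝ} {a : Fin n → ℝ} (ha : StrictMono a) {m : Fin (n + 1)} {z : ℂ} (hz : z ∈ Dm a m)
    (l j : Fin n) : PM μ a m z l j = ∫ s in (0 : ℝ)..1, (ee a m z l.succ - ee a m z l.castSucc) *
      itg (kap μ m) (ee a m z) l j ((1 - s) * ee a m z l.castSucc + s * ee a m z l.succ) := by
  have h1 := slitPlane_ne_zero (ee_slit ha hz (Fin.castSucc_lt_succ (i := l)))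
  exact perC_eq_seg _ _ l j h1

theorem zt_add_inv (μ : ℝ) : zt μ + (zt μ)⁻¹ = -(2 * Real.cos (Real.pi * μ) : ℝ) := by
  unfold zt
  rw [inv_neg, ← exp_neg, neg_neg]
  push_cast
  rw [Complex.cos]
  have e1 : -((Real.pi : ℂ) * μ) * I = -((Real.pi : ℂ) * μ * I) := by ring
  rw [e1]
  ring

end Pool.Agent.Helper67K9.SE
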