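import Pool.Agent.Helper67K9.SE.DA4
import Pool.Agent.Helper67K9.SE.Seg
import Pool.Agent.H340R2.LW

/-! # The torsor for three finite branch points -/

set_option autoImplicit false
set_option linter.unusedSectionVars false

open Matrix

namespace Pool.Agent.Helper67K9.SE

/-- the value of the determinants of the period matrices -/
noncomputable def dv {n : ℕ} (a : Fin n → ℝ) (μ : ℝ) : ℝ :=
  Real.Gamma μ ^ n * Real.Gamma (1 - μ) / Real.Gamma (1 + (n - 1) * μ) * (Matrix.vandermonde a).det ^ (2 * μ - 1)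

theorem dv_pos {n : ℕ} {a : Fin n → ℝ} {μ : ℝ} (h0 : 0 < μ) (h1 : μ < 1) (ha : StrictMono a) (hn : 2 ≤ n) :
    0 < dv a μ := by
  have h8 : (1 : ℝ) < n := by exact_mod_cast (show 1 < n by omega)
  have h2 := Real.Gamma_pos_of_pos h0
  have h3 := Real.Gamma_pos_of_pos (show 0 < 1 - μ by linarith)
  have h4 := Real.Gamma_pos_of_pos (show 0 < 1 + (n - 1) * μ by nlinarith)
  exact mul_pos (div_pos (mul_pos (pow_pos h2 n) h3) h4) (Real.rpow_pos_of_pos (vdm_strict_pos ha) _)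

theorem dv_two {a : Fin 2 → ℝ} {μ : ℝ} (h0 : 0 < μ) (h1 : μ < 1) :
    dv a μ = Real.pi / (μ * Real.sin (Real.pi * μ)) * (Matrix.vandermonde a).det ^ (2 * μ - 1) := by
  unfold dv
  congr 1
  have h2 := Real.Gamma_mul_Gamma_one_sub μ
  have h3 := Real.Gamma_add_one h0.ne'
  have h4 : (1 : ℝ) + ((2 : ℕ) - 1) * μ = μ + 1 := by
    push_cast
    ring
  have h5 : Real.Gamma μ ≠ 0 := (Real.Gamma_pos_of_pos h0).ne'
  have h6 : Real.sin (Real.pi * μ) ≠ 0 := by
    refine (Real.sin_pos_of_pos_of_lt_pi (by positivity) ?_).ne'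
    nlinarith [Real.pi_pos]
  rw [h4, h3, pow_two, mul_assoc, h2]
  field_simp

/-- the torsor relations at `(t, c j * t)`, `t` transcendental, hold at all `(lam, c j * lam)` -/
theorem aeval_line {J : Type} {t : ℂ} (ht : Transcendental ℚ t) {c : J → ℂ} (hc : ∀ j, IsAlgebraic ℚ (c j))
    (q : MvPolynomial (Option J) (algebraicClosure ℚ ℂ))
    (hq : MvPolynomial.aeval (fun o : Option J => o.elim t fun j => c j * t) q = 0) (lam : ℂ) :
    MvPolynomial.aeval (fun o : Option J => o.elim lam fun j => c j * lam) q = 0 := by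
  let c' : J → algebraicClosure ℚ ℂ := fun j => ⟨c j, mem_algebraicClosure_iff.2 (hc j)⟩
  let Q : Polynomial (algebraicClosure ℚ ℂ) :=
    MvPolynomial.aeval (fun o : Option J => o.elim Polynomial.X fun j => Polynomial.C (c' j) * Polynomial.X) q
  have h1 : ∀ s : ℂ, Polynomial.aeval s Q = MvPolynomial.aeval (fun o : Option J => o.elim s fun j => c j * s) q := by
    intro s
    have h2 : (Polynomial.aeval s).comp (MvPolynomial.aeval (R := algebraicClosure ℚ ℂ)
        (fun o : Option J => o.elim (Polynomial.X : Polynomial (algebraicClosure ℚ ℂ))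
          fun j => Polynomial.C (c' j) * Polynomial.X)) =
        MvPolynomial.aeval (fun o : Option J => o.elim s fun j => c j * s) := by
      refine MvPolynomial.algHom_ext fun o => ?_
      rw [AlgHom.comp_apply, MvPolynomial.aeval_X, MvPolynomial.aeval_X]
      rcases o with _ | j
      · exact Polynomial.aeval_X s
      · change Polynomial.aeval s (Polynomial.C (c' j) * Polynomial.X) = c j * s
        rw [map_mul, Polynomial.aeval_X, Polynomial.aeval_C]
        rfl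
    exact DFunLike.congr_fun h2 q
  have h3 : Transcendental (algebraicClosure ℚ ℂ) t := ht.algebraicClosure
  have h4 : Q = 0 := by
    by_contra h5
    exact h3 ⟨Q, h5, (h1 t).trans hq⟩
  rw [← h1, h4, map_zero]

theorem isAlgebraic_sin {q : ℚ} : IsAlgebraic ℚ (Complex.sin (Real.pi * (q : ℝ))) := by
  have hI : IsAlgebraic ℚ Complex.I := ⟨Polynomial.X ^ 2 + 1, by
    intro h
    have := congrArg (Polynomial.eval 0) h
    simp at this, by simp⟩
  have hz : ∀ s : ℤ, IsAlgebraic ℚ (Complex.exp (s * (Real.pi * (q : ℝ)) * Complex.I)) := by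
    intro s
    have hd : (q.den : ℂ) ≠ 0 := by exact_mod_cast q.den_ne_zero
    have h1 : Complex.exp (s * (Real.pi * (q : ℝ)) * Complex.I) ^ (2 * q.den) = 1 := by
      rw [← Complex.exp_nat_mul, Complex.exp_eq_one_iff]
      refine ⟨s * q.num, ?_⟩
      have h2 : ((q : ℝ) : ℂ) = q.num / q.den := by
        rw [Complex.ofReal_ratCast]
        exact_mod_cast (Rat.num_div_den q).symm
      rw [h2]
      push_cast
      field_simp
    refine ⟨Polynomial.X ^ (2 * q.den) - 1, ?_, ?_⟩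
    · exact Polynomial.X_pow_sub_C_ne_zero (Nat.mul_pos two_pos q.den_pos) 1
    · rw [map_sub, map_pow, Polynomial.aeval_X, map_one, h1, sub_self]
  have h3 : Complex.sin (Real.pi * (q : ℝ)) =
      (Complex.exp (((-1 : ℤ) : ℂ) * (Real.pi * (q : ℝ)) * Complex.I) -
        Complex.exp (((1 : ℤ) : ℂ) * (Real.pi * (q : ℝ)) * Complex.I)) * Complex.I / 2 := by
    rw [Complex.sin]
    push_cast
    simp only [one_mul, neg_mul]
  rw [h3]
  have h2 : IsAlgebraic ℚ (2 : ℂ) := isAlgebraic_algebraMap (2 : ℚ)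
  rw [div_eq_mul_inv]
  exact (((hz (-1)).sub (hz 1)).mul hI).mul (IsAlgebraic.inv_iff.2 h2)

theorem isAlgebraic_rpow {V : ℝ} (hV : 0 < V) (hVa : IsAlgebraic ℚ V) (q : ℚ) : IsAlgebraic ℚ (V ^ (q : ℝ)) := by
  have h1 : (V ^ (q : ℝ)) ^ q.den = V ^ q.num := by
    rw [← Real.rpow_natCast, ← Real.rpow_mul hV.le, ← Real.rpow_intCast]
    congr 1
    have : (q : ℝ) * (q.den : ℝ) = q.num := by exact_mod_cast Rat.mul_den_eq_num q
    exact this
  refine IsAlgebraic.of_pow q.den_pos ?_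
  rw [h1]
  rcases q.num with k | k
  · rw [Int.ofNat_eq_natCast, zpow_natCast]
    exact hVa.pow k
  · rw [zpow_negSucc]
    exact IsAlgebraic.inv_iff.2 (hVa.pow _)

/-- the ratio of the determinants to `2 π i` for three finite branch points -/
noncomputable def cv {n : ℕ} (a : Fin n → ℝ) (μ : ℝ) : ℂ :=
  ((Matrix.vandermonde a).det ^ (2 * μ - 1) : ℝ) / (2 * Complex.I * μ * Complex.sin (Real.pi * μ))

theorem dv_eq_cv {a : Fin 2 → ℝ} {μ : ℝ} (h0 : 0 < μ) (h1 : μ < 1) :
    (dv a μ : ℂ) = cv a μ * (2 * Real.pi * Complex.I) := by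
  rw [dv_two h0 h1]
  unfold cv
  have h6 : Real.sin (Real.pi * μ) ≠ 0 := by
    refine (Real.sin_pos_of_pos_of_lt_pi (by positivity) ?_).ne'
    nlinarith [Real.pi_pos]
  have h7 : Complex.sin (Real.pi * μ) ≠ 0 := by exact_mod_cast h6
  have h8 : (μ : ℂ) ≠ 0 := by exact_mod_cast h0.ne'
  rw [Complex.ofReal_mul, Complex.ofReal_div, Complex.ofReal_mul, Complex.ofReal_sin]
  rw [Complex.ofReal_mul]
  field_simp

theorem isAlgebraic_cv {a : Fin 2 → ℝ} (ha : StrictMono a) (haA : ∀ i, IsAlgebraic ℚ (a i : ℂ)) {μ : ℝ}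
    (hμ : ∃ q : ℚ, μ = q) : IsAlgebraic ℚ (cv a μ) := by
  obtain ⟨q, rfl⟩ := hμ
  unfold cv
  have hI : IsAlgebraic ℚ Complex.I := ⟨Polynomial.X ^ 2 + 1, by
    intro h
    have := congrArg (Polynomial.eval 0) h
    simp at this, by simp⟩
  have h2 : IsAlgebraic ℚ (2 : ℂ) := isAlgebraic_algebraMap (2 : ℚ)
  have hq : IsAlgebraic ℚ (((q : ℝ) : ℂ)) := by
    rw [Complex.ofReal_ratCast]
    exact isAlgebraic_algebraMap q
  have hR : ∀ x : ℝ, IsAlgebraic ℚ (x : ℂ) ↔ IsAlgebraic ℚ x := fun x =>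
    isAlgebraic_algebraMap_iff (R := ℚ) (A := ℂ) (a := x) Complex.ofReal_injective
  have hV : IsAlgebraic ℚ (Matrix.vandermonde a).det := by
    rw [Matrix.det_vandermonde]
    have h3 : ∀ i, IsAlgebraic ℚ (a i) := fun i => (hR _).1 (haA i)
    rw [Fin.prod_univ_two]
    have h4 : Finset.Ioi (0 : Fin 2) = {1} := by decide
    have h5 : Finset.Ioi (1 : Fin 2) = ∅ := by decide
    rw [h4, h5, Finset.prod_singleton, Finset.prod_empty, mul_one]
    exact (h3 1).sub (h3 0)
  have h3 : (2 * (q : ℝ) - 1) = ((2 * q - 1 : ℚ) : ℝ) := by push_cast; ring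
  rw [div_eq_mul_inv, h3]
  refine ((hR _).2 (isAlgebraic_rpow (vdm_strict_pos ha) hV _)).mul (IsAlgebraic.inv_iff.2 ?_)
  exact ((h2.mul hI).mul hq).mul isAlgebraic_sin

theorem dv_eq_cv' {n : ℕ} (hn : n = 2) {a : Fin n → ℝ} {μ : ℝ} (h0 : 0 < μ) (h1 : μ < 1) :
    (dv a μ : ℂ) = cv a μ * (2 * Real.pi * Complex.I) := by
  subst hn
  exact dv_eq_cv h0 h1

theorem isAlgebraic_cv' {n : ℕ} (hn : n = 2) {a : Fin n → ℝ} (ha : StrictMono a)
    (haA : ∀ i, IsAlgebraic ℚ (a i : ℂ)) {μ : ℝ} (hμ : ∃ q : ℚ, μ = q) : IsAlgebraic ℚ (cv a μ) := by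
  subst hn
  exact isAlgebraic_cv ha haA hμ

theorem trans_tp : Transcendental ℚ (2 * Real.pi * Complex.I : ℂ) := by
  intro h
  have hI : IsAlgebraic ℚ Complex.I := ⟨Polynomial.X ^ 2 + 1, by
    intro h
    have := congrArg (Polynomial.eval 0) h
    simp at this, by simp⟩
  have h2 : IsAlgebraic ℚ (2 : ℂ) := isAlgebraic_algebraMap (2 : ℚ)
  refine H340R2.LW.transcendental_pi_complex ?_
  have h3 : (Real.pi : ℂ) = (2 * Real.pi * Complex.I) * (2 * Complex.I)⁻¹ := by
    have := Complex.I_ne_zero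
    field_simp
  rw [h3]
  exact h.mul (IsAlgebraic.inv_iff.2 (h2.mul hI))

end Pool.Agent.Helper67K9.SE
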