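import Pool.Agent.Helper67K9.SE.Dense

/-!
# From the actual constants to their closure over the algebraic numbers
-/

set_option autoImplicit false
set_option linter.unusedSectionVars false

open Matrix

namespace Pool.Agent.Helper67K9.SE

open Pool.Agent.Y890.SP (Qbar)

section dg

variable {n : ℕ} {R S : Type} [CommRing R] [CommRing S]

/-- the diagonal matrix with determinant `d` -/
def Dg (i0 : Fin n) (d : R) : Matrix (Fin n) (Fin n) R := Matrix.diagonal fun i => if i = i0 then d else 1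

/-- its adjugate -/
def Dg' (i0 : Fin n) (d : R) : Matrix (Fin n) (Fin n) R := Matrix.diagonal fun i => if i = i0 then 1 else d

theorem Dg_det (i0 : Fin n) (d : R) : (Dg i0 d).det = d := by
  unfold Dg
  rw [Matrix.det_diagonal, Finset.prod_ite_eq', if_pos (Finset.mem_univ _)]

theorem Dg_mul (i0 : Fin n) (d : R) : Dg i0 d * Dg' i0 d = d • 1 := by
  unfold Dg Dg'
  rw [Matrix.diagonal_mul_diagonal, Matrix.smul_one_eq_diagonal]
  congr 1
  funext i
  split_ifs <;> simp

theorem Dg_mul' (i0 : Fin n) (d : R) : Dg' i0 d * Dg i0 d = d • 1 := by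
  unfold Dg Dg'
  rw [Matrix.diagonal_mul_diagonal, Matrix.smul_one_eq_diagonal]
  congr 1
  funext i
  split_ifs <;> simp

theorem Dg_map (i0 : Fin n) (d : R) (ψ : R →+* S) : (Dg i0 d).map ψ = Dg i0 (ψ d) := by
  unfold Dg
  rw [Matrix.diagonal_map (map_zero ψ)]
  congr 1
  funext i
  split_ifs <;> simp

theorem Dg'_map (i0 : Fin n) (d : R) (ψ : R →+* S) : (Dg' i0 d).map ψ = Dg' i0 (ψ d) := by
  unfold Dg'
  rw [Matrix.diagonal_map (map_zero ψ)]
  congr 1
  funext i
  split_ifs <;> simp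

end dg

variable {J σ : Type} {n : J → ℕ} [Fintype σ] [DecidableEq σ]

section fn

variable {R S : Type} [CommRing R] [CommRing S]

/-- the matrices with given determinants -/
def Am (i0 : ∀ j, Fin (n j)) (d : J → R) (g : TD J n R) : TD J n R := fun j => g j * Dg (i0 j) (d j)

/-- the dual matrices, multiplied by the determinants -/
noncomputable def Zm (θ : Qbar →+* R) (i0 : ∀ j, Fin (n j)) (K E : TD J n Qbar) (d : J → R) (lam : R) (g : TD J n R) :
    TD J n R := fun j => (((K j).map θ).adjugate * Dg' (i0 j) (d j) * (g j).adjugate *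
      ((θ ((K j).det)⁻¹ * lam) • (E j).map θ)).transpose

/-- the factors -/
noncomputable def Ts (δ : ℕ) (d : J → R) (A Z : TD J n R) (k : ℕ) : CD J n ⊕ CD J n → R
  | Sum.inl q => (A q.1 q.2.1 q.2.2) ^ k
  | Sum.inr q => (Z q.1 q.2.1 q.2.2) ^ k * (d q.1) ^ (δ - k)

/-- the relation, multiplied by a power of the determinants -/
noncomputable def Fn {δ h : ℕ} (θ : Qbar →+* R) (co : σ → CD J n ⊕ CD J n) (i0 : ∀ j, Fin (n j)) (K E : TD J n Qbar)
    (w : (σ → Fin (δ + 1)) → Fin h → Qbar) (d : J → R) (lam : R) (g : TD J n R) : R :=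
  ∑ l : σ → Fin (δ + 1), (∑ a : Fin h, lam ^ (a : ℕ) * θ (w l a)) *
    ∏ s, Ts δ d (Am i0 d g) (Zm θ i0 K E d lam g) (l s) (co s)

theorem Am_map (i0 : ∀ j, Fin (n j)) (d : J → R) (g : TD J n R) (ψ : R →+* S) (j : J) :
    (Am i0 d g j).map ψ = Am i0 (fun j => ψ (d j)) (fun j => (g j).map ψ) j := by
  unfold Am
  rw [Matrix.map_mul, Dg_map]

theorem Zm_map (θ : Qbar →+* R) (i0 : ∀ j, Fin (n j)) (K E : TD J n Qbar) (d : J → R) (lam : R) (g : TD J n R)
    (ψ : R →+* S) (j : J) : (Zm θ i0 K E d lam g j).map ψ =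
      Zm (ψ.comp θ) i0 K E (fun j => ψ (d j)) (ψ lam) (fun j => (g j).map ψ) j := by
  unfold Zm
  have e1 : ∀ M : Matrix (Fin (n j)) (Fin (n j)) R, (M.adjugate).map ψ = (M.map ψ).adjugate := fun M =>
    RingHom.map_adjugate ψ M
  have e2 : ((θ ((K j).det)⁻¹ * lam) • (E j).map θ).map ψ =
      ((ψ.comp θ) ((K j).det)⁻¹ * ψ lam) • (E j).map (ψ.comp θ) := by
    ext a b
    rw [Matrix.map_apply, Matrix.smul_apply, Matrix.smul_apply, Matrix.map_apply, Matrix.map_apply, smul_eq_mul,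
      smul_eq_mul, map_mul, map_mul]
    rfl
  rw [Matrix.transpose_map, Matrix.map_mul, Matrix.map_mul, Matrix.map_mul, e1, e1, e2, Dg'_map, Matrix.map_map]
  rfl

theorem Fn_map {δ h : ℕ} (θ : Qbar →+* R) (co : σ → CD J n ⊕ CD J n) (i0 : ∀ j, Fin (n j)) (K E : TD J n Qbar)
    (w : (σ → Fin (δ + 1)) → Fin h → Qbar) (d : J → R) (lam : R) (g : TD J n R) (ψ : R →+* S) :
    ψ (Fn θ co i0 K E w d lam g) = Fn (ψ.comp θ) co i0 K E w (fun j => ψ (d j)) (ψ lam) (fun j => (g j).map ψ) := by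
  unfold Fn
  rw [map_sum]
  refine Finset.sum_congr rfl fun l _ => ?_
  rw [map_mul, map_sum, map_prod]
  congr 1
  · refine Finset.sum_congr rfl fun a _ => ?_
    rw [map_mul, map_pow]
    rfl
  · refine Finset.prod_congr rfl fun s _ => ?_
    rcases co s with q | q
    · show ψ ((Am i0 d g q.1 q.2.1 q.2.2) ^ (l s : ℕ)) = _
      rw [map_pow]
      have h1 := congrFun (congrFun (Am_map i0 d g ψ q.1) q.2.1) q.2.2
      rw [Matrix.map_apply] at h1
      rw [h1]
      rfl
    · show ψ ((Zm θ i0 K E d lam g q.1 q.2.1 q.2.2) ^ (l s : ℕ) * (d q.1) ^ (δ - (l s : ℕ))) = _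
      rw [map_mul, map_pow, map_pow]
      have h1 := congrFun (congrFun (Zm_map θ i0 K E d lam g ψ q.1) q.2.1) q.2.2
      rw [Matrix.map_apply] at h1
      rw [h1]
      rfl

end fn

/-- the coordinates of a pair of tuples -/
def crd {R : Type} (Y Y' : TD J n R) : CD J n ⊕ CD J n → R :=
  Sum.elim (fun q => Y q.1 q.2.1 q.2.2) (fun q => Y' q.1 q.2.1 q.2.2)

/-- the value of the relation -/
noncomputable def rel {δ h : ℕ} (co : σ → CD J n ⊕ CD J n) (w : (σ → Fin (δ + 1)) → Fin h → ℂ) (lam : ℂ)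
    (Y Y' : TD J n ℂ) : ℂ :=
  ∑ l : σ → Fin (δ + 1), (∑ a : Fin h, lam ^ (a : ℕ) * w l a) * ∏ s, crd Y Y' (co s) ^ (l s : ℕ)

/-- comparison -/
theorem Fn_eq {δ h : ℕ} (co : σ → CD J n ⊕ CD J n) (i0 : ∀ j, Fin (n j)) (K E : TD J n Qbar)
    (w : (σ → Fin (δ + 1)) → Fin h → Qbar) {d : J → ℂ} (hd : ∀ j, d j ≠ 0) (lam : ℂ) (g : TD J n ℂ) :
    Fn (algebraMap Qbar ℂ) co i0 K E w d lam g =
      (∏ s, Sum.elim (fun _ => 1) (fun q : CD J n => (d q.1) ^ δ) (co s)) *
      rel co (fun l a => algebraMap Qbar ℂ (w l a)) lam (Am i0 d g)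
        (fun j => (d j)⁻¹ • Zm (algebraMap Qbar ℂ) i0 K E d lam g j) := by
  unfold Fn rel
  rw [Finset.mul_sum]
  refine Finset.sum_congr rfl fun l _ => ?_
  rw [mul_left_comm, ← Finset.prod_mul_distrib]
  congr 1
  refine Finset.prod_congr rfl fun s _ => ?_
  have hl : (l s : ℕ) ≤ δ := Nat.lt_succ_iff.1 (l s).2
  rcases co s with q | q
  · simp only [Ts, crd, Sum.elim_inl, one_mul]
  · simp only [Ts, crd, Sum.elim_inr, Matrix.smul_apply, smul_eq_mul]
    have h1 : (d q.1) ^ δ = (d q.1) ^ (l s : ℕ) * (d q.1) ^ (δ - (l s : ℕ)) := by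
      rw [← pow_add]
      congr 1
      omega
    have h2 : (d q.1) ^ (l s : ℕ) * ((d q.1)⁻¹) ^ (l s : ℕ) = 1 := by
      rw [← mul_pow, mul_inv_cancel₀ (hd q.1), one_pow]
    rw [h1, mul_pow]
    linear_combination (-(Zm (algebraMap Qbar ℂ) i0 K E d lam g q.1 q.2.1 q.2.2) ^ (l s : ℕ) *
      (d q.1) ^ (δ - (l s : ℕ))) * h2

/-- the pairs are in the torsor -/
theorem pair_mem (i0 : ∀ j, Fin (n j)) {K E : TD J n Qbar} (hK : ∀ j, (K j).det ≠ 0) {d : J → ℂ}
    (hd : ∀ j, d j ≠ 0) (lam : ℂ) {g : TD J n ℂ} (hg : ∀ j, (g j).det = 1) (j : J) :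
    (Am i0 d g j).det = d j ∧ Am i0 d g j * (K j).map (algebraMap Qbar ℂ) *
      ((d j)⁻¹ • Zm (algebraMap Qbar ℂ) i0 K E d lam g j).transpose = lam • (E j).map (algebraMap Qbar ℂ) := by
  unfold Am Zm
  refine ⟨?_, ?_⟩
  · rw [Matrix.det_mul, hg, Dg_det, one_mul]
  · set φ : Qbar →+* ℂ := algebraMap Qbar ℂ with hφ
    have hKd : ((K j).map φ).det = φ (K j).det := (RingHom.map_det φ (K j)).symm
    have h1 : (K j).map φ * ((K j).map φ).adjugate = (φ (K j).det) • (1 : Matrix (Fin (n j)) (Fin (n j)) ℂ) := by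
      rw [Matrix.mul_adjugate, hKd]
    have h2 : (g j) * (g j).adjugate = 1 := by
      rw [Matrix.mul_adjugate, hg, one_smul]
    have h3 : φ (K j).det * φ ((K j).det)⁻¹ = 1 := by
      rw [← map_mul, mul_inv_cancel₀ (hK j), map_one]
    rw [Matrix.transpose_smul, Matrix.transpose_transpose, Matrix.mul_smul]
    have h4 : g j * Dg (i0 j) (d j) * (K j).map φ * (((K j).map φ).adjugate * Dg' (i0 j) (d j) * (g j).adjugate *
        ((φ ((K j).det)⁻¹ * lam) • (E j).map φ)) =
        g j * Dg (i0 j) (d j) * ((K j).map φ * ((K j).map φ).adjugate) * Dg' (i0 j) (d j) * (g j).adjugate *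
        ((φ ((K j).det)⁻¹ * lam) • (E j).map φ) := by
      simp only [Matrix.mul_assoc]
    have h5 : g j * Dg (i0 j) (d j) * ((φ (K j).det) • (1 : Matrix (Fin (n j)) (Fin (n j)) ℂ)) * Dg' (i0 j) (d j) *
        (g j).adjugate = (φ (K j).det * d j) • (1 : Matrix (Fin (n j)) (Fin (n j)) ℂ) := by
      calc g j * Dg (i0 j) (d j) * ((φ (K j).det) • (1 : Matrix (Fin (n j)) (Fin (n j)) ℂ)) * Dg' (i0 j) (d j) *
          (g j).adjugate = (φ (K j).det) • (g j * (Dg (i0 j) (d j) * Dg' (i0 j) (d j)) * (g j).adjugate) := by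
            simp only [Matrix.mul_smul, Matrix.smul_mul, Matrix.mul_one, Matrix.mul_assoc]
        _ = _ := by
            rw [Dg_mul]
            simp only [Matrix.mul_smul, Matrix.smul_mul, Matrix.mul_one, h2, smul_smul]
    rw [h4, h1, h5, Matrix.smul_mul, Matrix.one_mul, smul_smul, smul_smul]
    congr 1
    calc (d j)⁻¹ * (φ (K j).det * d j) * (φ ((K j).det)⁻¹ * lam) =
        ((d j)⁻¹ * d j) * (φ (K j).det * φ ((K j).det)⁻¹) * lam := by ring
      _ = lam := by rw [inv_mul_cancel₀ (hd j), h3]; ring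

/-- all pairs of the torsor are obtained -/
theorem pair_exists (i0 : ∀ j, Fin (n j)) {K E : TD J n Qbar} (hK : ∀ j, (K j).det ≠ 0) {Y Y' : TD J n ℂ} {lam : ℂ}
    (hY : ∀ j, (Y j).det ≠ 0 ∧ Y j * (K j).map (algebraMap Qbar ℂ) * (Y' j).transpose =
      lam • (E j).map (algebraMap Qbar ℂ)) :
    ∃ g : TD J n ℂ, (∀ j, (g j).det = 1) ∧ Y = Am i0 (fun j => (Y j).det) g ∧
      Y' = fun j => ((Y j).det)⁻¹ • Zm (algebraMap Qbar ℂ) i0 K E (fun j => (Y j).det) lam g j := by
  set φ : Qbar →+* ℂ := algebraMap Qbar ℂ with hφ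
  set d : J → ℂ := fun j => (Y j).det with hd
  have hd0 : ∀ j, d j ≠ 0 := fun j => (hY j).1
  set g : TD J n ℂ := fun j => (d j)⁻¹ • (Y j * Dg' (i0 j) (d j)) with hg
  have hgD : ∀ j, g j * Dg (i0 j) (d j) = Y j := by
    intro j
    rw [hg]
    simp only
    rw [Matrix.smul_mul, Matrix.mul_assoc, Dg_mul', Matrix.mul_smul, Matrix.mul_one, smul_smul,
      inv_mul_cancel₀ (hd0 j), one_smul]
  have hgdet : ∀ j, (g j).det = 1 := by
    intro j
    have h1 := congrArg Matrix.det (hgD j)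
    rw [Matrix.det_mul, Dg_det] at h1
    have h2 : (g j).det * d j = 1 * d j := by rw [h1, one_mul]
    exact mul_right_cancel₀ (hd0 j) h2
  refine ⟨g, hgdet, ?_, ?_⟩
  · funext j
    exact (hgD j).symm
  · funext j
    have h1 := (pair_mem i0 (E := E) hK hd0 lam hgdet j).2
    have h2 : Am i0 d g j = Y j := hgD j
    rw [h2] at h1
    have h3 := (hY j).2
    have hYu : IsUnit (Y j).det := isUnit_iff_ne_zero.2 (hY j).1
    have hKu : IsUnit ((K j).map φ).det := by
      have hKd : ((K j).map φ).det = φ (K j).det := (RingHom.map_det φ (K j)).symm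
      rw [hKd]
      exact isUnit_iff_ne_zero.2 ((map_ne_zero φ).2 (hK j))
    have h4 : ∀ M N : Matrix (Fin (n j)) (Fin (n j)) ℂ, Y j * (K j).map φ * M = Y j * (K j).map φ * N → M = N := by
      intro M N h
      have h5 := congrArg (fun X => ((K j).map φ)⁻¹ * ((Y j)⁻¹ * X)) h
      simp only [Matrix.mul_assoc] at h5
      rw [Matrix.nonsing_inv_mul_cancel_left _ _ hYu, Matrix.nonsing_inv_mul_cancel_left _ _ hYu,
        Matrix.nonsing_inv_mul_cancel_left _ _ hKu, Matrix.nonsing_inv_mul_cancel_left _ _ hKu] at h5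
      exact h5
    have h5 := h4 _ _ (h3.trans h1.symm)
    have h6 := congrArg Matrix.transpose h5
    rw [Matrix.transpose_transpose, Matrix.transpose_transpose] at h6
    exact h6

variable [Fintype J] [DecidableEq J]

/-- **From the actual constants to their closure.** -/
theorem full_gen (hn : ∀ j, 2 ≤ n j) {δ h : ℕ} (co : σ → CD J n ⊕ CD J n) {K E : TD J n Qbar}
    (hK : ∀ j, (K j).det ≠ 0) {c0 : J → ℂ} (hc0 : ∀ j, c0 j ≠ 0) (tau : ℂ) (w : (σ → Fin (δ + 1)) → Fin h → Qbar)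
    (H : ∀ Y Y' : TD J n ℂ, (∀ j, (Y j).det = c0 j ∧ Y j * (K j).map (algebraMap Qbar ℂ) * (Y' j).transpose =
      tau • (E j).map (algebraMap Qbar ℂ)) → rel co (fun l a => algebraMap Qbar ℂ (w l a)) tau Y Y' = 0)
    {Y Y' : TD J n ℂ} {lam : ℂ}
    (hY : ∀ j, (Y j).det ≠ 0 ∧ Y j * (K j).map (algebraMap Qbar ℂ) * (Y' j).transpose =
      lam • (E j).map (algebraMap Qbar ℂ))
    (hS : ∀ q : MvPolynomial (Option J) Qbar, MvPolynomial.aeval (fun o : Option J => o.elim tau c0) q = 0 →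
      MvPolynomial.aeval (fun o : Option J => o.elim lam fun j => (Y j).det) q = 0) :
    rel co (fun l a => algebraMap Qbar ℂ (w l a)) lam Y Y' = 0 := by
  set i0 : ∀ j, Fin (n j) := fun j => ⟨0, by have := hn j; omega⟩ with hi0
  obtain ⟨g, hg, hYg, hY'g⟩ := pair_exists i0 hK hY
  set d : J → ℂ := fun j => (Y j).det with hd
  have hd0 : ∀ j, d j ≠ 0 := fun j => (hY j).1
  -- the polynomial in `g`
  set P : MvPolynomial (CD J n) ℂ := Fn ((MvPolynomial.C).comp (algebraMap Qbar ℂ)) co i0 K E w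
    (fun j => MvPolynomial.C (d j)) (MvPolynomial.C lam) (fun j => Matrix.of fun a b => MvPolynomial.X ⟨j, (a, b)⟩) with hP
  have hPe : ∀ x : TD J n ℂ, pv P x = Fn (algebraMap Qbar ℂ) co i0 K E w d lam x := by
    intro x
    unfold pv
    rw [hP, Fn_map]
    have e1 : (MvPolynomial.eval fun q : CD J n => x q.1 q.2.1 q.2.2).comp
        ((MvPolynomial.C).comp (algebraMap Qbar ℂ)) = algebraMap Qbar ℂ := by
      ext t
      simp
    have e2 : (fun j => (Matrix.of fun a b => (MvPolynomial.X ⟨j, (a, b)⟩ : MvPolynomial (CD J n) ℂ)).map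
        (MvPolynomial.eval fun q : CD J n => x q.1 q.2.1 q.2.2)) = x := by
      funext j
      ext a b
      simp
    simp only [MvPolynomial.eval_C, e1, e2]
  have hPQ : ∀ γ ∈ GQ J n, pv P γ = 0 := by
    rintro _ ⟨γ, hγ, rfl⟩
    rw [hPe]
    set q : MvPolynomial (Option J) Qbar := Fn MvPolynomial.C co i0 K E w (fun j => MvPolynomial.X (some j))
      (MvPolynomial.X none) (fun j => (γ j).map MvPolynomial.C) with hq
    have hqe : ∀ (x : Option J → ℂ), MvPolynomial.aeval x q = Fn (algebraMap Qbar ℂ) co i0 K E w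
        (fun j => x (some j)) (x none) (fun j => (γ j).map (algebraMap Qbar ℂ)) := by
      intro x
      have e0 : MvPolynomial.aeval x q = (MvPolynomial.aeval x : MvPolynomial (Option J) Qbar →ₐ[Qbar] ℂ).toRingHom q :=
        rfl
      rw [e0, hq, Fn_map]
      have e1 : ((MvPolynomial.aeval x : MvPolynomial (Option J) Qbar →ₐ[Qbar] ℂ).toRingHom).comp MvPolynomial.C =
          algebraMap Qbar ℂ := by
        ext t
        simp
      have e2 : (fun j => ((γ j).map MvPolynomial.C).map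
          (MvPolynomial.aeval x : MvPolynomial (Option J) Qbar →ₐ[Qbar] ℂ).toRingHom) =
          fun j => (γ j).map (algebraMap Qbar ℂ) := by
        funext j
        ext a b
        simp
      rw [e1, e2]
      simp
    have h1 : MvPolynomial.aeval (fun o : Option J => o.elim tau c0) q = 0 := by
      rw [hqe]
      have h2 := Fn_eq co i0 K E w hc0 tau (fun j => (γ j).map (algebraMap Qbar ℂ))
      have hγ1 : ∀ j, ((fun j => (γ j).map (algebraMap Qbar ℂ) : TD J n ℂ) j).det = 1 := by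
        intro j
        have h3 : ((γ j).map (algebraMap Qbar ℂ)).det = algebraMap Qbar ℂ (γ j).det :=
          (RingHom.map_det (algebraMap Qbar ℂ) (γ j)).symm
        simp only
        rw [h3, hγ, map_one]
      have h3 := H _ _ fun j => pair_mem i0 (E := E) hK hc0 tau hγ1 j
      rw [h3, mul_zero] at h2
      exact h2
    have h2 := hS q h1
    rw [hqe] at h2
    exact h2
  have h1 := dense_sl hn P hPQ g hg
  rw [hPe, Fn_eq co i0 K E w hd0 lam g, ← hYg, ← hY'g] at h1
  refine (mul_eq_zero.1 h1).resolve_left ?_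
  refine Finset.prod_ne_zero_iff.2 fun s _ => ?_
  rcases co s with q | q
  · simp
  · exact pow_ne_zero _ (hd0 q.1)

end Pool.Agent.Helper67K9.SE
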