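import Pool.Agent.Helper67K9.SE.Prod

/-!
# The torsor with all multipliers and determinants
-/

set_option autoImplicit false
set_option linter.unusedSectionVars false

open Matrix

namespace Pool.Agent.Helper67K9.SE

open Pool.Agent.Y118.HP (ee seg Dm isOpen_Dm InGap mem_Dm_of_im isPreconnected_Dm)
open Pool.Agent.Y890.MV (evX evM evM_eq TorM USig fSig TSig pj USig_open fSig_an)
open Pool.Agent.Y890.SP (Qbar ioQ ioQ_coe)

/-! ### Algebraic numbers -/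

/-- algebraic complex numbers -/
def Al (z : ℂ) : Prop := ∃ w : Qbar, algebraMap Qbar ℂ w = z

theorem Al_iff {z : ℂ} : Al z ↔ IsAlgebraic ℚ z := by
  constructor
  · rintro ⟨w, rfl⟩
    have h1 : ((w : ℂ)) ∈ algebraicClosure ℚ ℂ := w.2
    rw [mem_algebraicClosure_iff] at h1
    exact h1
  · intro h
    exact ⟨⟨z, mem_algebraicClosure_iff.2 h⟩, rfl⟩

theorem Al_add {x y : ℂ} (hx : Al x) (hy : Al y) : Al (x + y) := by
  obtain ⟨x, rfl⟩ := hx
  obtain ⟨y, rfl⟩ := hy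
  exact ⟨x + y, map_add _ _ _⟩

theorem Al_sub {x y : ℂ} (hx : Al x) (hy : Al y) : Al (x - y) := by
  obtain ⟨x, rfl⟩ := hx
  obtain ⟨y, rfl⟩ := hy
  exact ⟨x - y, map_sub _ _ _⟩

theorem Al_mul {x y : ℂ} (hx : Al x) (hy : Al y) : Al (x * y) := by
  obtain ⟨x, rfl⟩ := hx
  obtain ⟨y, rfl⟩ := hy
  exact ⟨x * y, map_mul _ _ _⟩

theorem Al_neg {x : ℂ} (hx : Al x) : Al (-x) := by
  obtain ⟨x, rfl⟩ := hx
  exact ⟨-x, map_neg _ _⟩

theorem Al_inv {x : ℂ} (hx : Al x) : Al x⁻¹ := by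
  obtain ⟨x, rfl⟩ := hx
  exact ⟨x⁻¹, map_inv₀ _ _⟩

theorem Al_nat (k : ℕ) : Al (k : ℂ) := ⟨k, map_natCast _ _⟩

theorem Al_one : Al 1 := ⟨1, map_one _⟩

theorem Al_zero : Al 0 := ⟨0, map_zero _⟩

theorem Al_rat (q : ℚ) : Al ((q : ℝ) : ℂ) := by
  refine Al_iff.2 ?_
  have h1 : ((q : ℝ) : ℂ) = algebraMap ℚ ℂ q := by
    rw [eq_ratCast]
    norm_cast
  rw [h1]
  exact isAlgebraic_algebraMap _

theorem Al_pow {x : ℂ} (hx : Al x) (k : ℕ) : Al (x ^ k) := by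
  obtain ⟨x, rfl⟩ := hx
  exact ⟨x ^ k, map_pow _ _ _⟩

/-- a polynomial with algebraic roots has algebraic coefficients -/
theorem Al_Pa {n : ℕ} {a : Fin n → ℝ} (ha : ∀ i, Al (a i)) (k : ℕ) : Al ((Pa a).coeff k) := by
  choose w hw using ha
  refine ⟨(∏ i, (Polynomial.X - Polynomial.C (w i))).coeff k, ?_⟩
  rw [← Polynomial.coeff_map]
  congr 1
  unfold Pa
  rw [Polynomial.map_prod]
  refine Finset.prod_congr rfl fun i _ => ?_
  rw [Polynomial.map_sub, Polynomial.map_X, Polynomial.map_C, hw]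

theorem Al_zt {μ : ℝ} (h : ∃ q : ℚ, μ = q) : Al (zt μ) := by
  obtain ⟨q, rfl⟩ := h
  unfold zt
  refine Al_neg (Al_iff.2 ?_)
  have h1 : (Complex.exp (-(Real.pi * ((q : ℝ) : ℂ) * Complex.I))) ^ (2 * q.den) = 1 := by
    rw [← Complex.exp_nat_mul, Complex.exp_eq_one_iff]
    refine ⟨-q.num, ?_⟩
    have h2 : ((q : ℝ) : ℂ) * (q.den : ℂ) = q.num := by
      have h3 : q * q.den = q.num := Rat.mul_den_eq_num q
      have h4 : ((q * q.den : ℚ) : ℂ) = ((q.num : ℚ) : ℂ) := by rw [h3]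
      push_cast at h4
      exact_mod_cast h4
    push_cast
    push_cast at h2
    linear_combination (-(2 * Real.pi * Complex.I)) * h2
  have h2 : 0 < 2 * q.den := by have := q.den_pos; omega
  refine IsAlgebraic.of_pow h2 ?_
  rw [h1]
  exact isAlgebraic_one

/-- matrices of algebraic numbers -/
theorem exists_mat {n : ℕ} {M : Matrix (Fin n) (Fin n) ℂ} (h : ∀ i j, Al (M i j)) :
    ∃ M' : Matrix (Fin n) (Fin n) Qbar, M'.map (algebraMap Qbar ℂ) = M := by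
  choose w hw using h
  refine ⟨Matrix.of w, ?_⟩
  ext i j
  exact hw i j

theorem Al_KM {n : ℕ} {μ : ℝ} (h : ∃ q : ℚ, μ = q) {a : Fin n → ℝ} (ha : ∀ i, Al (a i)) {z : ℂ} (hz : Al z)
    (i j : Fin n) : Al (KM μ a z i j) := by
  obtain ⟨q, rfl⟩ := h
  unfold KM kq
  rw [Matrix.of_apply]
  refine Al_sub (Al_mul (Al_sub (Al_mul (Al_rat q) (Al_add (Al_nat _) (Al_nat _))) (Al_nat _)) (Al_Pa ha _))
    (Al_mul hz (Al_mul (Al_sub (Al_sub (Al_mul (Al_rat q) (Al_add (Al_add (Al_nat _) (Al_nat _)) ?_)) (Al_nat _))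
      Al_one) (Al_Pa ha _)))
  exact_mod_cast Al_nat 2

theorem Al_EC {n : ℕ} {ζ : ℂ} (h : Al ζ) (m : Fin (n + 1)) (i j : Fin n) : Al (EC ζ m i j) := by
  unfold EC TT
  rw [Matrix.of_apply]
  refine Al_neg (Al_mul (Al_pow (Al_neg Al_one) _) ?_)
  split_ifs
  · exact Al_one
  · exact Al_add h (Al_inv h)
  · exact Al_zero

variable {B : Type} [Fintype B] [DecidableEq B] (F : B → Fam)

/-- the number `2 π i` -/
noncomputable def tp : ℂ := 2 * Real.pi * Complex.I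

theorem tp_ne : tp ≠ 0 := by
  unfold tp
  have : (Real.pi : ℂ) ≠ 0 := by exact_mod_cast Real.pi_ne_zero
  exact mul_ne_zero (mul_ne_zero two_ne_zero this) Complex.I_ne_zero

/-- the indices of the exponents -/
abbrev Jx : Type := Σ b, Fin (F b).e

/-- the coordinates of a pair of tuples of matrices -/
def pt (Y Y' : ∀ b, Fin (F b).e → Matrix (Fin (F b).n) (Fin (F b).n) ℂ) : Ix F → ℂ
  | ⟨b, Sum.inl q⟩ => Y b q.1 q.2.1 q.2.2
  | ⟨b, Sum.inr q⟩ => Y' b q.1 q.2.1 q.2.2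

/-- the coordinates as coordinates of tuples -/
def cof : Ix F → CD (Jx F) (fun j => (F j.1).n) ⊕ CD (Jx F) (fun j => (F j.1).n)
  | ⟨b, Sum.inl q⟩ => Sum.inl ⟨⟨b, q.1⟩, q.2⟩
  | ⟨b, Sum.inr q⟩ => Sum.inr ⟨⟨b, q.1⟩, q.2⟩

theorem crd_cof (Y Y' : TD (Jx F) (fun j => (F j.1).n) ℂ) (y : Ix F) :
    crd Y Y' (cof F y) = pt F (fun b r => Y ⟨b, r⟩) (fun b r => Y' ⟨b, r⟩) y := by
  obtain ⟨b, q | q⟩ := y <;> rfl

theorem EC_det (f : Fam) (r : Fin f.e) : (EC (zt (f.μ r)) f.m).det ≠ 0 := by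
  have h1 := legendre (f.good.unit r).1 (f.good.unit r).2 f.mono f.two f.m (I_mem f)
  have h2 := congrArg Matrix.det h1
  rw [Matrix.det_mul, Matrix.det_mul, Matrix.det_transpose, Matrix.det_smul] at h2
  have h3 : (PM (f.μ r) f.a f.m Complex.I).det ≠ 0 := det_ne (f.good.unit r).1 (f.good.unit r).2 f.mono f.two f.m (I_mem f)
  have h4 : (PM (1 - f.μ r) f.a f.m Complex.I).det ≠ 0 := by
    have := f.good.unit r
    exact det_ne (by linarith) (by linarith) f.mono f.two f.m (I_mem f)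
  have h5 : (KM (f.μ r) f.a Complex.I).det ≠ 0 := f.good.det f.a Complex.I r
  intro h0
  rw [h0, mul_zero] at h2
  exact mul_ne_zero (mul_ne_zero h3 h5) h4 h2

theorem zt_sub_ne (f : Fam) (r : Fin f.e) : zt (f.μ r) - (zt (f.μ r))⁻¹ ≠ 0 :=
  zt_sub_inv_ne (f.good.unit r).1 (f.good.unit r).2

theorem Fam.E_eq (f : Fam) (r : Fin f.e) :
    f.E r = (tp / (zt (f.μ r) - (zt (f.μ r))⁻¹)) • EC (zt (f.μ r)) f.m := by
  unfold Fam.E tp
  rw [pi_div_sin (f.good.unit r).1 (f.good.unit r).2]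

/-- **From the actual constants to their closure, for products of families.** -/
theorem full_F (hA : ∀ b i, Al ((F b).a i)) (hμ : ∀ b r, ∃ q : ℚ, (F b).μ r = q) {K : Type} [Field K] [NumberField K]
    (io : K →+* ℂ) (x : B → K) {δ h : ℕ} (c : (Ix F → Fin (δ + 1)) → Fin h → K)
    (H : ∀ Y ∈ TF F (fun b => io (x b)),
      ∑ l : Ix F → Fin (δ + 1), (∑ a : Fin h, tp ^ (a : ℕ) * io (c l a)) * ∏ y, Y y ^ (l y : ℕ) = 0)
    {Y Y' : ∀ b, Fin (F b).e → Matrix (Fin (F b).n) (Fin (F b).n) ℂ} {lam : ℂ} (hlam : lam ≠ 0)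
    (hY : ∀ b r, Y b r * KM ((F b).μ r) (F b).a (io (x b)) * (Y' b r).transpose =
      (lam / (zt ((F b).μ r) - (zt ((F b).μ r))⁻¹)) • EC (zt ((F b).μ r)) (F b).m)
    (hS : ∀ q : MvPolynomial (Option (Jx F)) Qbar,
      MvPolynomial.aeval (fun o : Option (Jx F) => o.elim tp fun j => (F j.1).c j.2) q = 0 →
      MvPolynomial.aeval (fun o : Option (Jx F) => o.elim lam fun j => (Y j.1 j.2).det) q = 0) :
    ∑ l : Ix F → Fin (δ + 1), (∑ a : Fin h, lam ^ (a : ℕ) * io (c l a)) * ∏ y, pt F Y Y' y ^ (l y : ℕ) = 0 := by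
  classical
  set φ : Qbar →+* ℂ := algebraMap Qbar ℂ with hφ
  have hx : ∀ b, Al (io (x b)) := fun b => ⟨ioQ io (x b), rfl⟩
  choose K0 hK0 using fun j : Jx F => exists_mat (M := KM ((F j.1).μ j.2) (F j.1).a (io (x j.1)))
    fun i k => Al_KM (hμ j.1 j.2) (hA j.1) (hx j.1) i k
  choose E0 hE0 using fun j : Jx F =>
    exists_mat (M := (zt ((F j.1).μ j.2) - (zt ((F j.1).μ j.2))⁻¹)⁻¹ • EC (zt ((F j.1).μ j.2)) (F j.1).m)
      fun i k => by
        have h1 := Al_zt (hμ j.1 j.2)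
        rw [Matrix.smul_apply, smul_eq_mul]
        exact Al_mul (Al_inv (Al_sub h1 (Al_inv h1))) (Al_EC h1 _ _ _)
  have hKd : ∀ j, (K0 j).det ≠ 0 := by
    intro j h0
    have h1 : ((K0 j).map φ).det = φ (K0 j).det := (RingHom.map_det φ (K0 j)).symm
    rw [hK0, h0, map_zero] at h1
    exact (F j.1).good.det (F j.1).a (io (x j.1)) j.2 h1
  have hdet : ∀ b r, (Y b r).det ≠ 0 := by
    intro b r h0
    have h1 := congrArg Matrix.det (hY b r)
    rw [Matrix.det_mul, Matrix.det_mul, h0, zero_mul, zero_mul, Matrix.det_smul] at h1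
    exact mul_ne_zero (pow_ne_zero _ (div_ne_zero hlam (zt_sub_ne (F b) r))) (EC_det (F b) r) h1.symm
  have key := full_gen (J := Jx F) (n := fun j => (F j.1).n) (fun j => (F j.1).two) (δ := δ) (h := h) (cof F)
    (K := K0) (E := E0) hKd (c0 := fun j => (F j.1).c j.2) (fun j => (F j.1).c_ne j.2) tp
    (fun l a => ioQ io (c l a)) ?_ (Y := fun j => Y j.1 j.2) (Y' := fun j => Y' j.1 j.2) (lam := lam) ?_ hS
  · unfold rel at key
    simp only [crd_cof, ioQ_coe] at key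
    exact key
  · intro Z Z' hZ
    unfold rel
    simp only [crd_cof, ioQ_coe]
    refine H _ ?_
    intro b r
    obtain ⟨h1, h2⟩ := hZ ⟨b, r⟩
    have e1 : mtr (fun q : Fin (F b).e × Fin (F b).n × Fin (F b).n =>
        (fun s => pt F (fun b r => Z ⟨b, r⟩) (fun b r => Z' ⟨b, r⟩) ⟨b, s⟩) (Sum.inl q)) r = Z ⟨b, r⟩ := by
      ext i j
      rfl
    have e2 : mtr (fun q : Fin (F b).e × Fin (F b).n × Fin (F b).n =>
        (fun s => pt F (fun b r => Z ⟨b, r⟩) (fun b r => Z' ⟨b, r⟩) ⟨b, s⟩) (Sum.inr q)) r = Z' ⟨b, r⟩ := by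
      ext i j
      rfl
    rw [e1, e2]
    refine ⟨h1, ?_⟩
    rw [hK0, hE0] at h2
    rw [h2, Fam.E_eq, smul_smul]
    rfl
  · intro j
    refine ⟨hdet j.1 j.2, ?_⟩
    rw [hK0, hE0, hY j.1 j.2, smul_smul]
    rfl

end Pool.Agent.Helper67K9.SE
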