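import Pool.Agent.Helper67K9.SE.Rel
import Pool.Agent.Helper67K9.SE.Conn

/-!
# Monodromy: the relations of the periods are invariant under the special linear groups
-/

set_option autoImplicit false

open Complex Set MeasureTheory Filter Topology

namespace Pool.Agent.Helper67K9.SE

open Pool.Agent.Y118.HP (ee Dm isOpen_Dm InGap mem_Dm_of_im eq_zero_of_open)
open Pool.Agent.Y890.MV (evX)

variable {n : ℕ} {ι : Type}

theorem differentiableOn_ev' {U : Set ℂ} {Y : ℂ → Tup ι n} (hY : ∀ r l j, DifferentiableOn ℂ (fun z => Y z r l j) U)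
    (p : Pl ι n) : DifferentiableOn ℂ (fun z => ev p z (Y z)) U := by
  induction p using MvPolynomial.induction_on with
  | C a =>
    have h1 : (fun z => ev (MvPolynomial.C a) z (Y z)) = fun z => MvPolynomial.eval (fun _ : Unit => z) a := by
      funext z
      rw [ev_eq, MvPolynomial.eval₂Hom_C]
    rw [h1]
    induction a using MvPolynomial.induction_on with
    | C c => simp only [MvPolynomial.eval_C]; exact differentiableOn_const _
    | add p q hp hq => simp only [map_add]; exact hp (by funext z; rw [ev_eq, MvPolynomial.eval₂Hom_C]) |>.add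
                        (hq (by funext z; rw [ev_eq, MvPolynomial.eval₂Hom_C]))
    | mul_X p i hp => simp only [map_mul, MvPolynomial.eval_X]; exact (hp (by funext z; rw [ev_eq, MvPolynomial.eval₂Hom_C])).mul differentiableOn_id
  | add p q hp hq =>
    have h1 : (fun z => ev (p + q) z (Y z)) = fun z => ev p z (Y z) + ev q z (Y z) := by
      funext z
      rw [ev_eq, map_add]
      rfl
    rw [h1]
    exact hp.add hq
  | mul_X p q hp =>
    have h1 : (fun z => ev (p * MvPolynomial.X q) z (Y z)) = fun z => ev p z (Y z) * Y z q.1 q.2.1 q.2.2 := by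
      funext z
      rw [ev_eq, map_mul, MvPolynomial.eval₂Hom_X']
      rfl
    rw [h1]
    exact hp.mul (hY _ _ _)

/-- the tuple of the period matrices -/
noncomputable def PMt (μ : ι → ℝ) (a : Fin n → ℝ) (m : Fin (n + 1)) (z : ℂ) : Tup ι n := fun r => PM (μ r) a m z

/-- the tuple of the matrices of the paths -/
noncomputable def FFt (μ : ι → ℝ) (a : Fin n → ℝ) (z : ℂ) : Tup ι n := fun r => FF (μ r) a z

/-- the graph of the periods -/
def SD (μ : ι → ℝ) (a : Fin n → ℝ) (m : Fin (n + 1)) : Set (ℂ × Tup ι n) := {x | x.1 ∈ Dm a m ∧ x.2 = PMt μ a m x.1}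

/-- the graph of the integrals over the paths, in the upper half-plane -/
def SU (μ : ι → ℝ) (a : Fin n → ℝ) : Set (ℂ × Tup ι n) := {x | 0 < x.1.im ∧ x.2 = FFt μ a x.1}

theorem mem_Rl_SD {μ : ι → ℝ} {a : Fin n → ℝ} {m : Fin (n + 1)} {p : Pl ι n} :
    p ∈ Rl (SD μ a m) ↔ ∀ z ∈ Dm a m, ev p z (PMt μ a m z) = 0 := by
  constructor
  · intro h z hz
    exact h (z, PMt μ a m z) ⟨hz, rfl⟩
  · rintro h ⟨z, Y⟩ ⟨hz, hY⟩
    simp only at hz hY
    subst hY
    exact h z hz

theorem mem_Rl_SU {μ : ι → ℝ} {a : Fin n → ℝ} {p : Pl ι n} :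
    p ∈ Rl (SU μ a) ↔ ∀ z : ℂ, 0 < z.im → ev p z (FFt μ a z) = 0 := by
  constructor
  · intro h z hz
    exact h (z, FFt μ a z) ⟨hz, rfl⟩
  · rintro h ⟨z, Y⟩ ⟨hz, hY⟩
    simp only at hz hY
    subst hY
    exact h z hz

theorem differentiableOn_ev {μ : ι → ℝ} (hμ : ∀ r, 0 < μ r ∧ μ r < 1) {a : Fin n → ℝ} (ha : StrictMono a)
    (m : Fin (n + 1)) (p : Pl ι n) : DifferentiableOn ℂ (fun z => ev p z (PMt μ a m z)) (Dm a m) :=
  differentiableOn_ev' (fun r l j => differentiableOn_perC (kap_gt (hμ r).1 (hμ r).2 m) ha m l j) p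

theorem mem_of_upper {μ : ι → ℝ} (hμ : ∀ r, 0 < μ r ∧ μ r < 1) {a : Fin n → ℝ} (ha : StrictMono a) (m : Fin (n + 1))
    {p : Pl ι n} (h : ∀ z : ℂ, 0 < z.im → ev p z (PMt μ a m z) = 0) : p ∈ Rl (SD μ a m) :=
  mem_Rl_SD.2 (eq_zero_of_open ha m (differentiableOn_ev hμ ha m p) (V := {z : ℂ | 0 < z.im})
    (isOpen_lt continuous_const continuous_im) (z0 := I) (by simp) (mem_Dm_of_im a m (by simp)) h)

theorem mem_of_lower {μ : ι → ℝ} (hμ : ∀ r, 0 < μ r ∧ μ r < 1) {a : Fin n → ℝ} (ha : StrictMono a) (m : Fin (n + 1))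
    {p : Pl ι n} (h : ∀ z : ℂ, z.im < 0 → ev p z (PMt μ a m z) = 0) : p ∈ Rl (SD μ a m) :=
  mem_Rl_SD.2 (eq_zero_of_open ha m (differentiableOn_ev hμ ha m p) (V := {z : ℂ | z.im < 0})
    (isOpen_lt continuous_im continuous_const) (z0 := -I) (by simp) (mem_Dm_of_im a m (by simp)) h)

/-- the matrix with one column -/
noncomputable def Nab (k : Fin n) (α β : ℂ) : Matrix (Fin n) (Fin n) ℂ :=
  Matrix.of fun l c => if c = k then cf k l α β else 0

theorem Nab_mul (k : Fin n) (α β : ℂ) (X : Matrix (Fin n) (Fin n) ℂ) (l j : Fin n) :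
    (Nab k α β * X) l j = cf k l α β * X k j := by
  rw [Matrix.mul_apply]
  unfold Nab
  simp only [Matrix.of_apply]
  simp

theorem cf_self (k : Fin n) (α β : ℂ) : cf k k α β = 0 := by
  unfold cf
  rw [if_neg (by omega), if_neg (by omega)]

theorem Nab_mul_Nab (k : Fin n) (α β α' β' : ℂ) : Nab k α β * Nab k α' β' = 0 := by
  ext l j
  rw [Nab_mul]
  unfold Nab
  rw [Matrix.of_apply, cf_self]
  simp

theorem cf_add (k l : Fin n) (α β α' β' : ℂ) : cf k l α β + cf k l α' β' = cf k l (α + α') (β + β') := by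
  unfold cf
  split_ifs <;> simp

theorem cf_smul (k l : Fin n) (c α β : ℂ) : cf k l (c * α) (c * β) = c * cf k l α β := by
  unfold cf
  split_ifs <;> simp

theorem Nab_add (k : Fin n) (α β α' β' : ℂ) : Nab k α β + Nab k α' β' = Nab k (α + α') (β + β') := by
  ext l j
  rw [Matrix.add_apply]
  unfold Nab
  simp only [Matrix.of_apply]
  split_ifs
  · exact cf_add _ _ _ _ _ _
  · simp

theorem Nab_smul (k : Fin n) (c α β : ℂ) : Nab k (c * α) (c * β) = c • Nab k α β := by
  ext l j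
  rw [Matrix.smul_apply]
  unfold Nab
  simp only [Matrix.of_apply]
  split_ifs
  · exact cf_smul _ _ _ _ _
  · simp

/-- the transvections -/
noncomputable def Tv (k : Fin n) (α β : ι → ℂ) : Tup ι n := fun r => 1 + Nab k (α r) (β r)

theorem Tv_mul (k : Fin n) (α β α' β' : ι → ℂ) : Tv k α β * Tv k α' β' = Tv k (α + α') (β + β') := by
  funext r
  simp only [Tv, Pi.mul_apply, Pi.add_apply]
  rw [mul_add, add_mul, add_mul, mul_one, one_mul, mul_one, Nab_mul_Nab, ← Nab_add]
  abel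

theorem Tv_zero (k : Fin n) : Tv (ι := ι) k 0 0 = 1 := by
  funext r
  have h : Nab k 0 0 = 0 := by
    have := Nab_smul k 0 0 0
    rwa [mul_zero, zero_smul] at this
  simp only [Tv, Pi.zero_apply, Pi.one_apply, h, add_zero]

theorem PMt_upper {μ : ι → ℝ} (hμ : ∀ r, 0 < μ r ∧ μ r < 1) {a : Fin n → ℝ} (ha : StrictMono a) (k : Fin n) {z : ℂ}
    (hz : 0 < z.im) : PMt μ a k.succ z =
      Tv k (fun r => -zt (μ r)) (fun r => (zt (μ r))⁻¹) * PMt μ a k.castSucc z := by
  funext r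
  ext l j
  rw [Pi.mul_apply]
  simp only [Tv]
  rw [add_mul, one_mul, Matrix.add_apply, Nab_mul]
  exact conn_upper (hμ r).1 (hμ r).2 ha k hz j l

theorem PMt_lower {μ : ι → ℝ} (hμ : ∀ r, 0 < μ r ∧ μ r < 1) {a : Fin n → ℝ} (ha : StrictMono a) (k : Fin n) {z : ℂ}
    (hz : z.im < 0) : PMt μ a k.succ z =
      Tv k (fun r => -(zt (μ r))⁻¹) (fun r => zt (μ r)) * PMt μ a k.castSucc z := by
  funext r
  ext l j
  rw [Pi.mul_apply]
  simp only [Tv]
  rw [add_mul, one_mul, Matrix.add_apply, Nab_mul]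
  exact conn_lower (hμ r).1 (hμ r).2 ha k hz j l

/-- monodromy around `a k`, starting at the left -/
theorem mono_left {μ : ι → ℝ} (hμ : ∀ r, 0 < μ r ∧ μ r < 1) {a : Fin n → ℝ} (ha : StrictMono a) (k : Fin n) :
    Tv k (fun r => zt (μ r) - (zt (μ r))⁻¹) (fun r => zt (μ r) - (zt (μ r))⁻¹) ∈ Mo (SD μ a k.castSucc) := by
  intro p hp
  have h1 : sb (Tv k (fun r => zt (μ r)) (fun r => -(zt (μ r))⁻¹)) p ∈ Rl (SD μ a k.succ) :=
    mem_of_upper hμ ha _ fun z hz => by
      rw [ev_sb, PMt_upper hμ ha k hz, ← mul_assoc, Tv_mul]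
      have e : Tv (ι := ι) k ((fun r => zt (μ r)) + fun r => -zt (μ r)) ((fun r => -(zt (μ r))⁻¹) + fun r => (zt (μ r))⁻¹) = 1 := by
        rw [← Tv_zero k]
        congr 1
        · funext r; simp
        · funext r; simp
      rw [e, one_mul]
      exact mem_Rl_SD.1 hp z (mem_Dm_of_im _ _ hz.ne')
  refine mem_of_lower hμ ha _ fun z hz => ?_
  have h2 := mem_Rl_SD.1 h1 z (mem_Dm_of_im _ _ hz.ne)
  rw [ev_sb, PMt_lower hμ ha k hz, ← mul_assoc, Tv_mul] at h2
  rw [ev_sb]
  have e : Tv (ι := ι) k ((fun r => zt (μ r)) + fun r => -(zt (μ r))⁻¹) ((fun r => -(zt (μ r))⁻¹) + fun r => zt (μ r)) =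
      Tv k (fun r => zt (μ r) - (zt (μ r))⁻¹) (fun r => zt (μ r) - (zt (μ r))⁻¹) := by
    congr 1
    funext r
    simp only [Pi.add_apply]
    ring
  rw [e] at h2
  exact h2

/-- the tuple of the connection matrices -/
noncomputable def LLt (μ : ι → ℝ) (m : Fin (n + 1)) : Tup ι n := fun r => LL (μ r) m

/-- the inverse -/
noncomputable def LLi (μ : ι → ℝ) (m : Fin (n + 1)) : Tup ι n := fun r => (LL (μ r) m)⁻¹

theorem LLi_mul (μ : ι → ℝ) (m : Fin (n + 1)) : LLi μ m * LLt μ m = 1 := by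
  funext r
  exact Matrix.nonsing_inv_mul _ (isUnit_iff_ne_zero.2 (LL_det _ _))

theorem LLt_mul (μ : ι → ℝ) (m : Fin (n + 1)) : LLt μ m * LLi μ m = 1 := by
  funext r
  exact Matrix.mul_nonsing_inv _ (isUnit_iff_ne_zero.2 (LL_det _ _))

theorem PMt_eq {μ : ι → ℝ} (hμ : ∀ r, 0 < μ r ∧ μ r < 1) {a : Fin n → ℝ} (ha : StrictMono a) (m : Fin (n + 1)) {z : ℂ}
    (hz : 0 < z.im) : PMt μ a m z = LLt μ m * FFt μ a z :=
  funext fun r => PM_upper (hμ r).1 (hμ r).2 ha m hz

theorem Mo_SU_of_SD {μ : ι → ℝ} (hμ : ∀ r, 0 < μ r ∧ μ r < 1) {a : Fin n → ℝ} (ha : StrictMono a) (m : Fin (n + 1))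
    {g g' : Tup ι n} (hg : g ∈ Mo (SD μ a m)) (hgg : LLt μ m * g' = g * LLt μ m) : g' ∈ Mo (SU μ a) := by
  intro p hp
  have h1 : sb (LLi μ m) p ∈ Rl (SD μ a m) := mem_of_upper hμ ha m fun z hz => by
    rw [ev_sb, PMt_eq hμ ha m hz, ← mul_assoc, LLi_mul, one_mul]
    exact mem_Rl_SU.1 hp z hz
  rw [mem_Rl_SU]
  intro z hz
  have h2 := mem_Rl_SD.1 (hg _ h1) z (mem_Dm_of_im _ _ hz.ne')
  rw [ev_sb, ev_sb, PMt_eq hμ ha m hz, ← mul_assoc g, ← hgg, ← mul_assoc, ← mul_assoc, LLi_mul, one_mul] at h2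
  rw [ev_sb]
  exact h2

theorem Mo_SD_of_SU {μ : ι → ℝ} (hμ : ∀ r, 0 < μ r ∧ μ r < 1) {a : Fin n → ℝ} (ha : StrictMono a) (m : Fin (n + 1))
    {g g' : Tup ι n} (hg : g' ∈ Mo (SU μ a)) (hgg : LLt μ m * g' = g * LLt μ m) : g ∈ Mo (SD μ a m) := by
  intro p hp
  have h1 : sb (LLt μ m) p ∈ Rl (SU μ a) := mem_Rl_SU.2 fun z hz => by
    rw [ev_sb, ← PMt_eq hμ ha m hz]
    exact mem_Rl_SD.1 hp z (mem_Dm_of_im _ _ hz.ne')
  refine mem_of_upper hμ ha m fun z hz => ?_
  have h2 := mem_Rl_SU.1 (hg _ h1) z hz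
  rw [ev_sb, ev_sb, ← mul_assoc, hgg, mul_assoc, ← PMt_eq hμ ha m hz] at h2
  rw [ev_sb]
  exact h2

theorem wv_sum (ζ : ℂ) (k : Fin n) (p : Fin (n + 1)) :
    ∑ i, (if k.castSucc.succAbove i = p then wv ζ k i else 0) =
      if p < k.castSucc then ζ⁻¹ else if p ≤ k.succ then 0 else ζ := by
  rcases Fin.eq_self_or_eq_succAbove k.castSucc p with rfl | ⟨i, rfl⟩
  · rw [if_neg (lt_irrefl _), if_pos (Fin.castSucc_lt_succ).le]
    exact Finset.sum_eq_zero fun i _ => if_neg (Fin.succAbove_ne _ i)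
  · simp only [Fin.succAbove_right_inj, Finset.sum_ite_eq', Finset.mem_univ, if_true]
    rcases lt_trichotomy i k with h | h | h
    · rw [if_pos, wv_lt ζ h]
      rw [Fin.succAbove_lt_iff_castSucc_lt]
      exact h
    · subst h
      rw [wv_self, if_neg, if_pos]
      · rw [Fin.succAbove_castSucc_self]
      · rw [Fin.succAbove_castSucc_self, not_lt]
        exact (Fin.castSucc_lt_succ).le
    · have e : k.castSucc.succAbove i = i.succ := Fin.succAbove_of_le_castSucc _ _ (by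
        rw [Fin.le_def]; exact (Nat.le_of_lt h))
      rw [e, wv_gt ζ h, if_neg, if_neg]
      · rw [not_le]; exact Fin.succ_lt_succ_iff.2 h
      · rw [not_lt, Fin.le_def]
        have : (k : ℕ) < i := h
        simp only [Fin.val_castSucc, Fin.val_succ]
        omega

/-- the nilpotent matrix in the basis of paths -/
theorem LL_Mr (μ : ℝ) (k : Fin n) : LL μ k.castSucc * Mr (zt μ) k k = Nab k 1 1 * LL μ k.castSucc := by
  ext l j
  have hz := zt_ne μ
  have hl := l.2
  have hk := k.2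
  rw [Nab_mul]
  have h1 : (LL μ k.castSucc * Mr (zt μ) k k) l j = (if j = k then 1 else 0) * (ph (kap μ k.castSucc) k.castSucc l *
      ((∑ i, if k.castSucc.succAbove i = l.castSucc then wv (zt μ) k i else 0) -
        ∑ i, if k.castSucc.succAbove i = l.succ then wv (zt μ) k i else 0)) := by
    rw [Matrix.mul_apply, ← Finset.sum_sub_distrib, Finset.mul_sum, Finset.mul_sum]
    refine Finset.sum_congr rfl fun i _ => ?_
    unfold LL Mr
    rw [Matrix.of_apply, Matrix.vecMulVec_apply, Pi.single_apply]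
    split_ifs <;> ring
  have h2 : LL μ k.castSucc k j = if j = k then -ph (kap μ k.castSucc) k.castSucc k else 0 := by
    unfold LL
    rw [Matrix.of_apply, if_neg (Fin.succAbove_ne _ j)]
    by_cases h : j = k
    · subst h
      rw [if_pos (Fin.succAbove_castSucc_self j), if_pos rfl]
      ring
    · rw [if_neg, if_neg h]
      · ring
      · intro h'
        apply h
        rw [← Fin.succAbove_castSucc_self k] at h'
        exact Fin.succAbove_right_injective h'
  rw [h1, h2, wv_sum, wv_sum]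
  by_cases hj : j = k
  · rw [if_pos hj, if_pos hj, one_mul, ph_eq, ph_eq, if_pos (le_refl k.castSucc)]
    unfold cf
    by_cases hA : (l : ℕ) + 1 = k
    · have e1 : l.castSucc < k.castSucc := by rw [Fin.lt_def]; simp only [Fin.val_castSucc]; omega
      have e2 : ¬ l.succ < k.castSucc := by rw [Fin.lt_def]; simp only [Fin.val_castSucc, Fin.val_succ]; omega
      have e3 : l.succ ≤ k.succ := by rw [Fin.le_def]; simp only [Fin.val_succ]; omega
      have e4 : ¬ k.castSucc ≤ l.castSucc := not_le.2 e1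
      have e6 : n - (l : ℕ) = (n - k) + 1 := by omega
      rw [if_pos e1, if_neg e2, if_pos e3, if_neg e4, if_pos hA, e6, pow_succ]
      field_simp
      ring
    · rw [if_neg hA]
      by_cases hB : (l : ℕ) = k + 1
      · have e1 : ¬ l.castSucc < k.castSucc := by rw [Fin.lt_def]; simp only [Fin.val_castSucc]; omega
        have e2 : l.castSucc ≤ k.succ := by rw [Fin.le_def]; simp only [Fin.val_castSucc, Fin.val_succ]; omega
        have e3 : ¬ l.succ < k.castSucc := by rw [Fin.lt_def]; simp only [Fin.val_castSucc, Fin.val_succ]; omega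
        have e4 : ¬ l.succ ≤ k.succ := by rw [Fin.le_def]; simp only [Fin.val_succ]; omega
        have e5 : k.castSucc ≤ l.castSucc := not_lt.1 e1
        have e6 : n - (k : ℕ) = (n - l) + 1 := by omega
        rw [if_neg e1, if_pos e2, if_neg e3, if_neg e4, if_pos e5, if_pos hB, e6, pow_succ]
        ring
      · rw [if_neg hB, zero_mul]
        by_cases hC : (l : ℕ) = k
        · have e0 : l = k := Fin.ext hC
          subst e0
          have e7 : ¬ l.succ < l.castSucc := not_lt.2 (Fin.castSucc_lt_succ).le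
          rw [if_neg (lt_irrefl _), if_pos (Fin.castSucc_lt_succ).le, if_neg e7]
          simp
        · by_cases hD : (l : ℕ) < k
          · have e1 : l.castSucc < k.castSucc := by rw [Fin.lt_def]; simp only [Fin.val_castSucc]; omega
            have e2 : l.succ < k.castSucc := by rw [Fin.lt_def]; simp only [Fin.val_castSucc, Fin.val_succ]; omega
            rw [if_pos e1, if_pos e2]
            ring
          · have e1 : ¬ l.castSucc < k.castSucc := by rw [Fin.lt_def]; simp only [Fin.val_castSucc]; omega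
            have e2 : ¬ l.castSucc ≤ k.succ := by rw [Fin.le_def]; simp only [Fin.val_castSucc, Fin.val_succ]; omega
            have e3 : ¬ l.succ < k.castSucc := by rw [Fin.lt_def]; simp only [Fin.val_castSucc, Fin.val_succ]; omega
            have e4 : ¬ l.succ ≤ k.succ := by rw [Fin.le_def]; simp only [Fin.val_succ]; omega
            rw [if_neg e1, if_neg e2, if_neg e3, if_neg e4]
            ring
  · rw [if_neg hj, if_neg hj]
    ring

/-- the local monodromy in the basis of paths -/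
theorem Li_SU {μ : ι → ℝ} (hμ : ∀ r, 0 < μ r ∧ μ r < 1) {a : Fin n → ℝ} (ha : StrictMono a) (k : Fin n) :
    (fun r => (zt (μ r) - (zt (μ r))⁻¹) • Mr (zt (μ r)) k k) ∈ Li (SU μ a) := by
  set N : Tup ι n := fun r => (zt (μ r) - (zt (μ r))⁻¹) • Mr (zt (μ r)) k k with hN
  have hN2 : N * N = 0 := by
    funext r
    rw [Pi.mul_apply, hN]
    simp only
    rw [smul_mul_assoc, mul_smul_comm, Mr_mul, wv_self, zero_smul, smul_zero, smul_zero]
    rfl
  refine Li_of_Mo hN2 (Mo_SU_of_SD hμ ha k.castSucc (mono_left hμ ha k) ?_)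
  funext r
  rw [Pi.mul_apply, Pi.mul_apply, Pi.add_apply, Pi.one_apply, hN]
  simp only [Tv, LLt]
  have e : Nab k (zt (μ r) - (zt (μ r))⁻¹) (zt (μ r) - (zt (μ r))⁻¹) = (zt (μ r) - (zt (μ r))⁻¹) • Nab k 1 1 := by
    rw [← Nab_smul, mul_one]
  rw [e, mul_add, add_mul, mul_one, one_mul, mul_smul_comm, smul_mul_assoc, LL_Mr]

/-- **The relations of the periods are invariant under the special linear groups.** -/
theorem Mo_SD [Fintype ι] [DecidableEq ι] {μ : ι → ℝ} (hμ : ∀ r, 0 < μ r ∧ μ r < 1) {a : Fin n → ℝ}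
    (ha : StrictMono a) (hn : 2 ≤ n) (h1 : ∀ r, zt (μ r) - (zt (μ r))⁻¹ ≠ 0) (h2 : 3 ≤ n → ∀ r, zt (μ r) ^ 2 ≠ -1)
    (hS : ∀ r, ∑ l ∈ Finset.range (n - 1), (((zt (μ r))⁻¹) ^ 2) ^ (l + 1) ≠ 0)
    (hinj : Function.Injective fun r => (zt (μ r) - (zt (μ r))⁻¹) ^ 2) (m : Fin (n + 1)) (g : Tup ι n)
    (hg : ∀ r, (g r).det = 1) : g ∈ Mo (SD μ a m) := by
  have h3 := Mo_of_det (S := SU μ a) hn (fun r i j hij =>
    sl_gen_tuple (fun r => zt_ne (μ r)) hn h1 h2 hS hinj (Li (SU μ a)) (fun X hX Y hY => Li_bracket X hX Y hY)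
      (fun k => Li_SU hμ ha k) r i j hij) (LLi μ m * g * LLt μ m) (fun r => by
    rw [Pi.mul_apply, Pi.mul_apply, Matrix.det_mul, Matrix.det_mul, hg, mul_one, ← Matrix.det_mul]
    have h4 := congrFun (LLi_mul μ m) r
    rw [Pi.mul_apply] at h4
    rw [h4, Pi.one_apply, Matrix.det_one])
  refine Mo_SD_of_SU hμ ha m h3 ?_
  rw [← mul_assoc, ← mul_assoc, LLt_mul, one_mul]

end Pool.Agent.Helper67K9.SE
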