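import Pool.Agent.Helper67K9.SE.Pol
import Pool.Agent.Helper67K9.SE.Mono

/-!
# The bilinear relations: the constants up to one factor
-/

set_option autoImplicit false

open Complex Set MeasureTheory Filter Topology

namespace Pool.Agent.Helper67K9.SE

open Pool.Agent.Y118.HP (ee seg Dm isOpen_Dm InGap mem_Dm_of_im ee_self ee_succAbove ee_im ee_slit seg_slit_lt
  seg_slit_gt continuous_ee differentiable_ee eq_zero_of_open isPreconnected_Dm er er_strictMono ee_ofReal)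

variable {n : ℕ}

theorem zt_one_sub (μ : ℝ) : zt (1 - μ) = -(zt μ)⁻¹ := by
  unfold zt
  rw [inv_neg, neg_neg, ← exp_neg, neg_neg]
  have : (-(Real.pi * ((1 - μ : ℝ) : ℂ) * I) : ℂ) = Real.pi * μ * I - Real.pi * I := by push_cast; ring
  rw [this, exp_sub, exp_pi_mul_I]
  ring

/-- the polarisation is nondegenerate -/
theorem KM_det {μ : ℝ} (hμ : ∀ d : ℕ, d < n → μ * (n - 1 : ℝ) ≠ d) (a : Fin n → ℝ) (z : ℂ) : (KM μ a z).det ≠ 0 := by
  set σ : Equiv.Perm (Fin n) := Fin.revPerm with hσ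
  set B : Matrix (Fin n) (Fin n) ℂ := (KM μ a z).submatrix id σ with hB
  have h1 : B.det = Equiv.Perm.sign σ * (KM μ a z).det := Matrix.det_permute' σ _
  have h2 : B.BlockTriangular id := by
    intro i j hij
    have hij' : (j : ℕ) < i := hij
    have hj := j.2
    rw [hB, Matrix.submatrix_apply, id]
    have h3 : ((σ j : Fin n) : ℕ) = n - 1 - j := by
      rw [hσ, Fin.revPerm_apply, Fin.val_rev]
      omega
    unfold KM kq
    rw [Matrix.of_apply, h3, Pa_coeff_zero a (by omega), Pa_coeff_zero a (by omega)]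
    ring
  have h3 : ∀ i, B i i ≠ 0 := by
    intro i
    have hi := i.2
    rw [hB, Matrix.submatrix_apply, id]
    have h3 : ((σ i : Fin n) : ℕ) = n - 1 - i := by
      rw [hσ, Fin.revPerm_apply, Fin.val_rev]
      omega
    have h4 : (Pa a).coeff n = 1 := by
      have := Pa_monic a
      rw [Polynomial.Monic, Polynomial.leadingCoeff, Pa_natDegree] at this
      exact this
    unfold KM kq
    rw [Matrix.of_apply, h3, Pa_coeff_zero a (i := (i : ℕ) + (n - 1 - i) + 2) (by omega),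
      show (i : ℕ) + (n - 1 - i) + 1 = n by omega, h4, mul_zero, mul_zero, sub_zero, mul_one]
    have h5 : ((i : ℕ) : ℂ) + ((n - 1 - i : ℕ) : ℂ) = ((n - 1 : ℝ) : ℂ) := by
      have : (i : ℕ) + (n - 1 - i) + 1 = n := by omega
      have h6 : (((i : ℕ) + (n - 1 - i) + 1 : ℕ) : ℂ) = n := by rw [this]
      push_cast at h6 ⊢
      linear_combination h6
    rw [h5, ← ofReal_mul]
    intro h6
    apply hμ (n - 1 - i) (by omega)
    have h7 : ((μ * (n - 1 : ℝ) : ℝ) : ℂ) = (((n - 1 - i : ℕ) : ℝ) : ℂ) := by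
      rw [ofReal_natCast]
      exact sub_eq_zero.1 h6
    exact ofReal_inj.1 h7
  intro h4
  rw [h4, mul_zero, Matrix.det_of_isUpperTriangular h2, Finset.prod_eq_zero_iff] at h1
  obtain ⟨i, _, hi⟩ := h1
  exact h3 i hi

/-- the pairing of the paths -/
noncomputable def EF (μ : ℝ) (a : Fin n → ℝ) (z : ℂ) : Matrix (Fin n) (Fin n) ℂ :=
  FF μ a z * KM μ a z * (FF (1 - μ) a z).transpose

theorem EE_upper {μ : ℝ} (h0 : 0 < μ) (h1 : μ < 1) {a : Fin n → ℝ} (ha : StrictMono a) (m : Fin (n + 1)) {z : ℂ}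
    (hz : 0 < z.im) : EE μ a m z = LL μ m * EF μ a z * (LL (1 - μ) m).transpose := by
  unfold EE EF
  rw [PM_upper h0 h1 ha m hz, PM_upper (by linarith) (by linarith) ha m hz, Matrix.transpose_mul]
  simp only [Matrix.mul_assoc]

theorem LL_cancel {μ : ℝ} {m : Fin (n + 1)} {X Y : Matrix (Fin n) (Fin n) ℂ}
    (h : LL μ m * X * (LL (1 - μ) m).transpose = LL μ m * Y * (LL (1 - μ) m).transpose) : X = Y := by
  have h1 : IsUnit (LL μ m).det := isUnit_iff_ne_zero.2 (LL_det _ _)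
  have h2 : IsUnit (LL (1 - μ) m).transpose.det := by
    rw [Matrix.det_transpose]
    exact isUnit_iff_ne_zero.2 (LL_det _ _)
  have h3 : LL μ m * X = LL μ m * Y := by
    have h4 := congrArg (fun M => M * ((LL (1 - μ) m).transpose)⁻¹) h
    simp only [Matrix.mul_assoc, Matrix.mul_nonsing_inv _ h2, Matrix.mul_one] at h4
    exact h4
  have h4 := congrArg (fun M => (LL μ m)⁻¹ * M) h3
  simp only [← Matrix.mul_assoc, Matrix.nonsing_inv_mul _ h1, Matrix.one_mul] at h4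
  exact h4

theorem PM_succ_upper {μ : ℝ} (h0 : 0 < μ) (h1 : μ < 1) {a : Fin n → ℝ} (ha : StrictMono a) (k : Fin n) {z : ℂ}
    (hz : 0 < z.im) : PM μ a k.succ z = (1 + Nab k (-zt μ) (zt μ)⁻¹) * PM μ a k.castSucc z := by
  ext l j
  rw [add_mul, one_mul, Matrix.add_apply, Nab_mul]
  exact conn_upper h0 h1 ha k hz j l

theorem PM_succ_lower {μ : ℝ} (h0 : 0 < μ) (h1 : μ < 1) {a : Fin n → ℝ} (ha : StrictMono a) (k : Fin n) {z : ℂ}
    (hz : z.im < 0) : PM μ a k.succ z = (1 + Nab k (-(zt μ)⁻¹) (zt μ)) * PM μ a k.castSucc z := by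
  ext l j
  rw [add_mul, one_mul, Matrix.add_apply, Nab_mul]
  exact conn_lower h0 h1 ha k hz j l

theorem Nab_inv (k : Fin n) (α β : ℂ) : (1 + Nab k (-α) (-β)) * (1 + Nab k α β) = 1 := by
  rw [mul_add, add_mul, add_mul, mul_one, one_mul, mul_one, Nab_mul_Nab, add_zero]
  have h : Nab k (-α) (-β) + Nab k α β = 0 := by
    rw [Nab_add, neg_add_cancel, neg_add_cancel]
    have := Nab_smul k 0 0 0
    rwa [mul_zero, zero_smul] at this
  rw [add_assoc, h, add_zero]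

/-- invariance of the pairing under the local monodromy, segments -/
theorem inv_seg {μ : ℝ} (h0 : 0 < μ) (h1 : μ < 1) {a : Fin n → ℝ} (ha : StrictMono a) (hn : 2 ≤ n) (k : Fin n)
    {E : Matrix (Fin n) (Fin n) ℂ} (hE : ∀ z ∈ Dm a k.castSucc, EE μ a k.castSucc z = E) :
    (1 - (zt μ - (zt μ)⁻¹) • Nab k 1 1) * E * (1 - (zt μ - (zt μ)⁻¹) • Nab k 1 1).transpose = E := by
  obtain ⟨E', hE'⟩ := EE_const h0 h1 ha hn k.succ
  set ζ := zt μ with hζ
  have hζ' : zt (1 - μ) = -ζ⁻¹ := zt_one_sub μ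
  have hζi : (zt (1 - μ))⁻¹ = -ζ := by rw [hζ', inv_neg, inv_inv]
  have hu : E' = (1 + Nab k (-ζ) ζ⁻¹) * E * (1 + Nab k ζ⁻¹ (-ζ)).transpose := by
    have h2 := hE' I (mem_Dm_of_im _ _ (by simp))
    have h3 := hE I (mem_Dm_of_im _ _ (by simp))
    rw [← h2, ← h3]
    unfold EE
    rw [PM_succ_upper h0 h1 ha k (by simp), PM_succ_upper (by linarith) (by linarith) ha k (by simp), hζi, hζ',
      neg_neg, Matrix.transpose_mul, ← hζ]
    simp only [Matrix.mul_assoc]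
  have hl : E' = (1 + Nab k (-ζ⁻¹) ζ) * E * (1 + Nab k ζ (-ζ⁻¹)).transpose := by
    have h2 := hE' (-I) (mem_Dm_of_im _ _ (by simp))
    have h3 := hE (-I) (mem_Dm_of_im _ _ (by simp))
    rw [← h2, ← h3]
    unfold EE
    rw [PM_succ_lower h0 h1 ha k (by simp), PM_succ_lower (by linarith) (by linarith) ha k (by simp), hζi, hζ',
      neg_neg, Matrix.transpose_mul, ← hζ]
    simp only [Matrix.mul_assoc]
  have e1 : (1 - (ζ - ζ⁻¹) • Nab k 1 1) = (1 + Nab k ζ⁻¹ (-ζ)) * (1 + Nab k (-ζ) ζ⁻¹) := by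
    rw [mul_add, add_mul, add_mul, mul_one, one_mul, mul_one, Nab_mul_Nab, ← Nab_smul, add_zero, add_assoc, Nab_add]
    have h4 : Nab k (ζ⁻¹ + -ζ) (-ζ + ζ⁻¹) = -Nab k ((ζ - ζ⁻¹) * 1) ((ζ - ζ⁻¹) * 1) := by
      have h5 := Nab_smul k (-1) ((ζ - ζ⁻¹) * 1) ((ζ - ζ⁻¹) * 1)
      rw [neg_one_smul] at h5
      rw [← h5]
      congr 1 <;> ring
    rw [h4]
    abel
  have e2 : (1 + Nab k ζ⁻¹ (-ζ)) * (1 + Nab k (-ζ⁻¹) ζ) = 1 := by
    have := Nab_inv k (-ζ⁻¹) ζ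
    rwa [neg_neg] at this
  have e3 : (1 - (ζ - ζ⁻¹) • Nab k 1 1) = (1 + Nab k (-ζ) ζ⁻¹) * (1 + Nab k ζ⁻¹ (-ζ)) := by
    rw [e1]
    rw [mul_add, add_mul, add_mul, mul_one, one_mul, mul_one, Nab_mul_Nab, mul_add, add_mul, add_mul, mul_one, one_mul,
      mul_one, Nab_mul_Nab]
    abel
  have e4 : (1 + Nab k (-ζ) ζ⁻¹) * (1 + Nab k ζ (-ζ⁻¹)) = 1 := by
    have := Nab_inv k ζ (-ζ⁻¹)
    rwa [neg_neg] at this
  have h5 : (1 + Nab k ζ⁻¹ (-ζ)) * E' * (1 + Nab k (-ζ) ζ⁻¹).transpose = E := by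
    rw [hl]
    have h6 : (1 + Nab k ζ (-ζ⁻¹)).transpose * (1 + Nab k (-ζ) ζ⁻¹).transpose = 1 := by
      rw [← Matrix.transpose_mul, e4, Matrix.transpose_one]
    have h7 : (1 + Nab k ζ⁻¹ (-ζ)) * ((1 + Nab k (-ζ⁻¹) ζ) * E * (1 + Nab k ζ (-ζ⁻¹)).transpose) *
        (1 + Nab k (-ζ) ζ⁻¹).transpose = ((1 + Nab k ζ⁻¹ (-ζ)) * (1 + Nab k (-ζ⁻¹) ζ)) * E *
        ((1 + Nab k ζ (-ζ⁻¹)).transpose * (1 + Nab k (-ζ) ζ⁻¹).transpose) := by
      simp only [Matrix.mul_assoc]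
    rw [h7, e2, h6, Matrix.one_mul, Matrix.mul_one]
  rw [hu] at h5
  have h8 : (1 + Nab k ζ⁻¹ (-ζ)) * ((1 + Nab k (-ζ) ζ⁻¹) * E * (1 + Nab k ζ⁻¹ (-ζ)).transpose) *
      (1 + Nab k (-ζ) ζ⁻¹).transpose = ((1 + Nab k ζ⁻¹ (-ζ)) * (1 + Nab k (-ζ) ζ⁻¹)) * E *
      ((1 + Nab k (-ζ) ζ⁻¹) * (1 + Nab k ζ⁻¹ (-ζ))).transpose := by
    rw [Matrix.transpose_mul]
    simp only [Matrix.mul_assoc]
  rw [h8, ← e1, ← e3] at h5
  exact h5

/-- invariance of the pairing under the local monodromy, paths -/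
theorem inv_path {μ : ℝ} (h0 : 0 < μ) (h1 : μ < 1) {a : Fin n → ℝ} (ha : StrictMono a) (hn : 2 ≤ n) (k : Fin n)
    {z : ℂ} (hz : 0 < z.im) :
    (1 - (zt μ - (zt μ)⁻¹) • Mr (zt μ) k k) * EF μ a z *
      (1 - (zt μ - (zt μ)⁻¹) • Mr (zt (1 - μ)) k k).transpose = EF μ a z := by
  obtain ⟨E, hE⟩ := EE_const h0 h1 ha hn k.castSucc
  have h2 := inv_seg h0 h1 ha hn k hE
  have h3 := hE z (mem_Dm_of_im _ _ hz.ne')
  rw [EE_upper h0 h1 ha _ hz] at h3
  rw [← h3] at h2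
  apply LL_cancel (μ := μ) (m := k.castSucc)
  have h4 : LL μ k.castSucc * (1 - (zt μ - (zt μ)⁻¹) • Mr (zt μ) k k) =
      (1 - (zt μ - (zt μ)⁻¹) • Nab k 1 1) * LL μ k.castSucc := by
    rw [mul_sub, sub_mul, mul_one, one_mul, mul_smul_comm, smul_mul_assoc, LL_Mr]
  have h5 : LL (1 - μ) k.castSucc * (1 - (zt μ - (zt μ)⁻¹) • Mr (zt (1 - μ)) k k) =
      (1 - (zt μ - (zt μ)⁻¹) • Nab k 1 1) * LL (1 - μ) k.castSucc := by
    rw [mul_sub, sub_mul, mul_one, one_mul, mul_smul_comm, smul_mul_assoc, LL_Mr]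
  have h6 : LL μ k.castSucc * ((1 - (zt μ - (zt μ)⁻¹) • Mr (zt μ) k k) * EF μ a z *
      (1 - (zt μ - (zt μ)⁻¹) • Mr (zt (1 - μ)) k k).transpose) * (LL (1 - μ) k.castSucc).transpose =
      (LL μ k.castSucc * (1 - (zt μ - (zt μ)⁻¹) • Mr (zt μ) k k)) * EF μ a z *
      (LL (1 - μ) k.castSucc * (1 - (zt μ - (zt μ)⁻¹) • Mr (zt (1 - μ)) k k)).transpose := by
    rw [Matrix.transpose_mul]
    simp only [Matrix.mul_assoc]
  rw [h6, h4, h5, Matrix.transpose_mul]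
  refine Eq.trans ?_ h2
  simp only [Matrix.mul_assoc]

end Pool.Agent.Helper67K9.SE
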