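import Pool.Agent.Helper67K9.SE.Inv

/-!
# The bilinear relations, II: the shape of the constants
-/

set_option autoImplicit false

open Complex Set MeasureTheory Filter Topology

namespace Pool.Agent.Helper67K9.SE

open Pool.Agent.Y118.HP (ee seg Dm isOpen_Dm InGap mem_Dm_of_im ee_self ee_succAbove ee_im ee_slit seg_slit_lt
  seg_slit_gt continuous_ee differentiable_ee eq_zero_of_open isPreconnected_Dm er er_strictMono ee_ofReal)

variable {n : ℕ}

/-- the order form -/
noncomputable def od (ζ : ℂ) (p q : ℕ) : ℂ := if q < p then -ζ else if p < q then -ζ⁻¹ else 0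

theorem EF_form {μ : ℝ} (h0 : 0 < μ) (h1 : μ < 1) {a : Fin n → ℝ} (ha : StrictMono a) (hn : 2 ≤ n)
    {z : ℂ} (hz : 0 < z.im) : ∃ lam : ℂ, ∀ i j : Fin n, EF μ a z i j = lam * od (zt μ) i j := by
  set ζ := zt μ with hζ
  have hζ0 : ζ ≠ 0 := zt_ne μ
  have hζ' : zt (1 - μ) = -ζ⁻¹ := zt_one_sub μ
  have hδ : ζ - ζ⁻¹ ≠ 0 := zt_sub_inv_ne h0 h1
  set X := EF μ a z with hX
  have key : ∀ k i j : Fin n, wv ζ k i * X k j + X i k * wv (-ζ⁻¹) k j =
      (ζ - ζ⁻¹) * (wv ζ k i * X k k * wv (-ζ⁻¹) k j) := by
    intro k i j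
    have h2 := inv_path h0 h1 ha hn k hz
    rw [← hζ, hζ', ← hX] at h2
    have h3 := congrFun (congrFun h2 i) j
    rw [Matrix.transpose_sub, Matrix.transpose_one, Matrix.transpose_smul, Matrix.mul_sub, Matrix.mul_one,
      Matrix.mul_smul, Matrix.sub_mul, Matrix.one_mul, Matrix.smul_mul, Matrix.sub_mul, Matrix.smul_mul,
      Matrix.sub_apply, Matrix.sub_apply, Matrix.smul_apply, Matrix.smul_apply, Matrix.sub_apply,
      Matrix.smul_apply] at h3
    have h4 : ∀ Y : Matrix (Fin n) (Fin n) ℂ, (Mr ζ k k * Y) i j = wv ζ k i * Y k j := by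
      intro Y
      rw [Matrix.mul_apply]
      unfold Mr
      simp [Matrix.vecMulVec_apply, Pi.single_apply]
    have h5 : ∀ (Y : Matrix (Fin n) (Fin n) ℂ) (r : Fin n), (Y * (Mr (-ζ⁻¹) k k).transpose) r j =
        Y r k * wv (-ζ⁻¹) k j := by
      intro Y r
      rw [Matrix.mul_apply]
      unfold Mr
      simp [Matrix.vecMulVec_apply, Pi.single_apply]
    rw [h4, h5, Matrix.mul_assoc, h4, h5] at h3
    simp only [smul_eq_mul] at h3
    have h6 : (ζ - ζ⁻¹) * (wv ζ k i * X k j + X i k * wv (-ζ⁻¹) k j) =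
        (ζ - ζ⁻¹) * ((ζ - ζ⁻¹) * (wv ζ k i * X k k * wv (-ζ⁻¹) k j)) := by
      linear_combination -h3
    exact mul_left_cancel₀ hδ h6
  have hw : ∀ {ξ : ℂ}, ξ ≠ 0 → ∀ {k i : Fin n}, i ≠ k → wv ξ k i ≠ 0 := by
    intro ξ hξ k i hik
    rcases lt_or_gt_of_ne hik with h | h
    · rw [wv_lt _ h]; exact inv_ne_zero hξ
    · rw [wv_gt _ h]; exact hξ
  have hξ : -ζ⁻¹ ≠ 0 := neg_ne_zero.2 (inv_ne_zero hζ0)
  have hex : ∀ k : Fin n, ∃ j : Fin n, j ≠ k := by
    intro k
    have : Nontrivial (Fin n) := Fin.nontrivial_iff_two_le.2 hn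
    exact exists_ne k
  choose jj hjj using hex
  have hkk : ∀ k, X k k = 0 := by
    intro k
    have h2 := key k k (jj k)
    rw [wv_self, zero_mul, zero_mul, zero_mul, mul_zero, zero_add] at h2
    exact (mul_eq_zero.1 h2).resolve_right (hw hξ (hjj k))
  have key2 : ∀ k i j : Fin n, wv ζ k i * X k j = -(X i k * wv (-ζ⁻¹) k j) := by
    intro k i j
    have h2 := key k i j
    rw [hkk, mul_zero, zero_mul, mul_zero] at h2
    linear_combination h2
  set A : Fin n → ℂ := fun k => X k (jj k) / wv (-ζ⁻¹) k (jj k) with hA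
  have hcol : ∀ k i, X i k = -(wv ζ k i * A k) := by
    intro k i
    have h2 := key2 k i (jj k)
    have h3 := hw hξ (hjj k)
    have h4 : X k (jj k) = A k * wv (-ζ⁻¹) k (jj k) := (div_mul_cancel₀ _ h3).symm
    rw [h4] at h2
    have h5 : X i k * wv (-ζ⁻¹) k (jj k) = -(wv ζ k i * A k) * wv (-ζ⁻¹) k (jj k) := by linear_combination h2
    exact mul_right_cancel₀ h3 h5
  have hrow : ∀ k j, X k j = A k * wv (-ζ⁻¹) k j := by
    intro k j
    have h2 := key2 k (jj k) j
    rw [hcol k (jj k)] at h2
    have h3 := hw hζ0 (hjj k)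
    have h4 : wv ζ k (jj k) * X k j = wv ζ k (jj k) * (A k * wv (-ζ⁻¹) k j) := by linear_combination h2
    exact mul_left_cancel₀ h3 h4
  have hAA : ∀ k l, A k = A l := by
    have h3 : ∀ k l, l < k → A k = A l := by
      intro k l hlk
      have h4 := hrow k l
      rw [hcol l k, wv_lt _ hlk, wv_gt _ hlk, inv_neg, inv_inv] at h4
      have h5 : ζ * A k = ζ * A l := by linear_combination h4
      exact mul_left_cancel₀ hζ0 h5
    intro k l
    rcases lt_trichotomy k l with h | h | h
    · exact (h3 l k h).symm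
    · rw [h]
    · exact h3 k l h
  refine ⟨A ⟨0, by omega⟩, fun i j => ?_⟩
  rw [hrow i j, hAA i ⟨0, by omega⟩]
  congr 1
  unfold od
  rcases lt_trichotomy j i with h | h | h
  · rw [wv_lt _ h, if_pos (by exact h), inv_neg, inv_inv]
  · subst h
    rw [wv_self, if_neg (lt_irrefl _), if_neg (lt_irrefl _)]
  · have h' : ¬ (j : ℕ) < i := not_lt.2 (le_of_lt h)
    rw [wv_gt _ h, if_neg h', if_pos (by exact h)]

/-- the form on all points -/
noncomputable def oq (ζ : ℂ) (m p q : ℕ) : ℂ := if p = m ∨ q = m then 0 else od ζ p q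

theorem sum_oq (ζ : ℂ) (m p q : Fin (n + 1)) : ∑ i : Fin n, ∑ j : Fin n, (if m.succAbove i = p then (1 : ℂ) else 0) *
    (od ζ i j * (if m.succAbove j = q then 1 else 0)) = oq ζ m p q := by
  have hmono : StrictMono m.succAbove := Fin.strictMono_succAbove m
  rcases Fin.eq_self_or_eq_succAbove m p with rfl | ⟨i', rfl⟩
  · have : ∀ i : Fin n, p.succAbove i ≠ p := fun i => Fin.succAbove_ne p i
    simp only [this, if_false, zero_mul, Finset.sum_const_zero]
    unfold oq
    rw [if_pos (Or.inl rfl)]
  · rcases Fin.eq_self_or_eq_succAbove m q with rfl | ⟨j', rfl⟩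
    · have : ∀ i : Fin n, q.succAbove i ≠ q := fun i => Fin.succAbove_ne q i
      simp only [this, if_false, mul_zero, Finset.sum_const_zero]
      unfold oq
      rw [if_pos (Or.inr rfl)]
    · simp only [Fin.succAbove_right_inj]
      rw [Finset.sum_eq_single i', Finset.sum_eq_single j']
      · rw [if_pos rfl, if_pos rfl, one_mul, mul_one]
        unfold oq
        have h1 : ¬ (((m.succAbove i' : Fin (n + 1)) : ℕ) = m ∨ ((m.succAbove j' : Fin (n + 1)) : ℕ) = m) := by
          rintro (h | h)
          · exact Fin.succAbove_ne m i' (Fin.ext h)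
          · exact Fin.succAbove_ne m j' (Fin.ext h)
        rw [if_neg h1]
        unfold od
        have h2 : (j' : ℕ) < i' ↔ ((m.succAbove j' : Fin (n + 1)) : ℕ) < (m.succAbove i' : Fin (n + 1)) :=
          (hmono.lt_iff_lt (a := j') (b := i')).symm
        have h3 : (i' : ℕ) < j' ↔ ((m.succAbove i' : Fin (n + 1)) : ℕ) < (m.succAbove j' : Fin (n + 1)) :=
          (hmono.lt_iff_lt (a := i') (b := j')).symm
        simp only [h2, h3]
      · intro j _ hj
        rw [if_neg hj]
        ring
      · intro h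
        exact absurd (Finset.mem_univ _) h
      · intro i _ hi
        refine Finset.sum_eq_zero fun j _ => ?_
        rw [if_neg hi]
        ring
      · intro h
        exact absurd (Finset.mem_univ _) h

/-- the shape of the constant -/
noncomputable def TT (ζ : ℂ) (m l k : ℕ) : ℂ :=
  if k = l + 1 ∨ l = k + 1 then 1 else if l = k ∧ m ≠ l ∧ m ≠ l + 1 then ζ + ζ⁻¹ else 0

theorem comb_oq {ζ : ℂ} (hζ : ζ ≠ 0) {m l k : ℕ} (hl : l < n) (hk : k < n) :
    ζ ^ (n - l) * (if m ≤ l then 1 else -1) * ((-ζ⁻¹) ^ (n - k) * (if m ≤ k then 1 else -1)) *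
      (oq ζ m l k - oq ζ m l (k + 1) - oq ζ m (l + 1) k + oq ζ m (l + 1) (k + 1)) =
    (-1) ^ (n - l) * TT ζ m l k := by
  have hp : ∀ r : ℕ, ζ ^ r * (-ζ⁻¹) ^ r = (-1) ^ r := by
    intro r
    rw [← mul_pow]
    congr 1
    field_simp
  by_cases h1 : k = l + 1
  · subst h1
    obtain ⟨r, hr⟩ : ∃ r, n - l = r + 1 := ⟨n - l - 1, by omega⟩
    have hr' : n - (l + 1) = r := by omega
    have e1 : ζ ^ (n - l) * (-ζ⁻¹) ^ (n - (l + 1)) = -ζ * (-1) ^ (n - l) := by
      rw [hr, hr', pow_succ, pow_succ, ← hp r]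
      ring
    have h2 : (if m ≤ l then (1 : ℂ) else -1) * (if m ≤ l + 1 then 1 else -1) *
        (oq ζ m l (l + 1) - oq ζ m l (l + 1 + 1) - oq ζ m (l + 1) (l + 1) + oq ζ m (l + 1) (l + 1 + 1)) = -ζ⁻¹ := by
      unfold oq od
      rcases lt_trichotomy m l with h | h | h
      · have g1 : ¬ (l = m ∨ l + 1 = m) := by omega
        have g2 : ¬ (l = m ∨ l + 1 + 1 = m) := by omega
        have g3 : ¬ (l + 1 = m ∨ l + 1 = m) := by omega
        have g4 : ¬ (l + 1 = m ∨ l + 1 + 1 = m) := by omega
        simp [g1, g2, g4, h.le, Nat.le_succ_of_le h.le, show ¬ (l + 1 + 1 < l) by omega]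
      · subst h
        simp [show ¬ (m + 1 + 1 = m) by omega]
      · rcases lt_trichotomy m (l + 1) with h' | h' | h'
        · omega
        · subst h'
          simp [show ¬ (l + 1 + 1 < l) by omega]
        · rcases lt_trichotomy m (l + 2) with h'' | h'' | h''
          · omega
          · subst h''
            simp
          · have g1 : ¬ (l = m ∨ l + 1 = m) := by omega
            have g2 : ¬ (l = m ∨ l + 1 + 1 = m) := by omega
            have g3 : ¬ (l + 1 = m ∨ l + 1 = m) := by omega
            have g4 : ¬ (l + 1 = m ∨ l + 1 + 1 = m) := by omega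
            simp [g1, g2, g4, not_le.2 h, not_le.2 h', show ¬ (l + 1 + 1 < l) by omega]
    have h3 : TT ζ m l (l + 1) = 1 := by unfold TT; simp
    rw [h3]
    calc _ = (ζ ^ (n - l) * (-ζ⁻¹) ^ (n - (l + 1))) * ((if m ≤ l then (1 : ℂ) else -1) * (if m ≤ l + 1 then 1 else -1) *
        (oq ζ m l (l + 1) - oq ζ m l (l + 1 + 1) - oq ζ m (l + 1) (l + 1) + oq ζ m (l + 1) (l + 1 + 1))) := by ring
      _ = _ := by
        rw [e1, h2]
        field_simp
  · by_cases h2 : l = k + 1
    · subst h2
      obtain ⟨r, hr⟩ : ∃ r, n - (k + 1) = r := ⟨_, rfl⟩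
      have hr' : n - k = r + 1 := by omega
      have e1 : ζ ^ (n - (k + 1)) * (-ζ⁻¹) ^ (n - k) = -ζ⁻¹ * (-1) ^ (n - (k + 1)) := by
        rw [hr, hr', pow_succ, ← hp r]
        ring
      have h3 : (if m ≤ k + 1 then (1 : ℂ) else -1) * (if m ≤ k then 1 else -1) *
          (oq ζ m (k + 1) k - oq ζ m (k + 1) (k + 1) - oq ζ m (k + 1 + 1) k + oq ζ m (k + 1 + 1) (k + 1)) = -ζ := by
        unfold oq od
        rcases lt_trichotomy m k with h | h | h
        · have g1 : ¬ (k + 1 = m ∨ k = m) := by omega
          have g2 : ¬ (k + 1 + 1 = m ∨ k = m) := by omega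
          have g3 : ¬ (k + 1 = m ∨ k + 1 = m) := by omega
          have g4 : ¬ (k + 1 + 1 = m ∨ k + 1 = m) := by omega
          simp [g1, g2, g4, h.le, Nat.le_succ_of_le h.le]
        · subst h
          simp [show ¬ (m + 1 + 1 = m) by omega]
        · rcases lt_trichotomy m (k + 1) with h' | h' | h'
          · omega
          · subst h'
            simp
          · rcases lt_trichotomy m (k + 2) with h'' | h'' | h''
            · omega
            · subst h''
              simp
            · have g1 : ¬ (k + 1 = m ∨ k = m) := by omega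
              have g2 : ¬ (k + 1 + 1 = m ∨ k = m) := by omega
              have g3 : ¬ (k + 1 = m ∨ k + 1 = m) := by omega
              have g4 : ¬ (k + 1 + 1 = m ∨ k + 1 = m) := by omega
              simp [g1, g2, g4, not_le.2 h, not_le.2 h']
      have h4 : TT ζ m (k + 1) k = 1 := by unfold TT; simp
      rw [h4]
      calc _ = (ζ ^ (n - (k + 1)) * (-ζ⁻¹) ^ (n - k)) * ((if m ≤ k + 1 then (1 : ℂ) else -1) *
          (if m ≤ k then 1 else -1) *
          (oq ζ m (k + 1) k - oq ζ m (k + 1) (k + 1) - oq ζ m (k + 1 + 1) k + oq ζ m (k + 1 + 1) (k + 1))) := by ring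
        _ = _ := by
          rw [e1, h3]
          field_simp
    · by_cases h3 : l = k
      · subst h3
        have h4 : (oq ζ m l l - oq ζ m l (l + 1) - oq ζ m (l + 1) l + oq ζ m (l + 1) (l + 1)) = TT ζ m l l := by
          unfold oq od TT
          by_cases g1 : l = m
          · subst g1
            simp
          · by_cases g2 : l + 1 = m
            · subst g2
              simp
            · have g3 : ¬ (l = m ∨ l + 1 = m) := by omega
              have g4 : ¬ (l + 1 = m ∨ l = m) := by omega
              have g5 : l = l ∧ m ≠ l ∧ m ≠ l + 1 := ⟨rfl, Ne.symm g1, Ne.symm g2⟩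
              simp [g1, g2, Ne.symm g1, Ne.symm g2]
              ring
        rw [h4]
        have h5 : (if m ≤ l then (1 : ℂ) else -1) * (if m ≤ l then 1 else -1) = 1 := by
          split_ifs <;> norm_num
        calc _ = (ζ ^ (n - l) * (-ζ⁻¹) ^ (n - l)) * ((if m ≤ l then (1 : ℂ) else -1) * (if m ≤ l then 1 else -1)) *
              TT ζ m l l := by ring
          _ = _ := by rw [hp, h5, mul_one]
      · have h4 : TT ζ m l k = 0 := by
          unfold TT
          rw [if_neg (by omega), if_neg (by omega)]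
        have h5 : (oq ζ m l k - oq ζ m l (k + 1) - oq ζ m (l + 1) k + oq ζ m (l + 1) (k + 1)) = 0 := by
          rcases lt_or_gt_of_ne h3 with h | h
          · have h' : l + 1 < k := by omega
            have q1 : ∀ p q : ℕ, p ≤ l + 1 → k ≤ q → oq ζ m p q = if p = m then 0 else if q = m then 0 else -ζ⁻¹ := by
              intro p q hp hq
              unfold oq od
              by_cases g1 : p = m
              · rw [if_pos (Or.inl g1), if_pos g1]
              · by_cases g2 : q = m
                · rw [if_pos (Or.inr g2), if_neg g1, if_pos g2]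
                · rw [if_neg (by omega), if_neg g1, if_neg g2, if_neg (by omega), if_pos (by omega)]
            rw [q1 l k (by omega) le_rfl, q1 l (k + 1) (by omega) (by omega), q1 (l + 1) k le_rfl le_rfl,
              q1 (l + 1) (k + 1) le_rfl (by omega)]
            by_cases g1 : l = m
            · have g3 : ¬ k = m := by omega
              have g4 : ¬ k + 1 = m := by omega
              have g5 : ¬ l + 1 = m := by omega
              rw [if_pos g1, if_pos g1, if_neg g5, if_neg g3, if_neg g5, if_neg g4]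
              ring
            · by_cases g2 : l + 1 = m
              · have g3 : ¬ k = m := by omega
                have g4 : ¬ k + 1 = m := by omega
                rw [if_neg g1, if_neg g3, if_neg g1, if_neg g4, if_pos g2]
                ring
              · rw [if_neg g1, if_neg g1, if_neg g2, if_neg g2]
                ring
          · have h' : k + 1 < l := by omega
            have q1 : ∀ p q : ℕ, l ≤ p → q ≤ k + 1 → oq ζ m p q = if p = m then 0 else if q = m then 0 else -ζ := by
              intro p q hp hq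
              unfold oq od
              by_cases g1 : p = m
              · rw [if_pos (Or.inl g1), if_pos g1]
              · by_cases g2 : q = m
                · rw [if_pos (Or.inr g2), if_neg g1, if_pos g2]
                · rw [if_neg (by omega), if_neg g1, if_neg g2, if_pos (by omega)]
            rw [q1 l k le_rfl (by omega), q1 l (k + 1) le_rfl le_rfl, q1 (l + 1) k (by omega) (by omega),
              q1 (l + 1) (k + 1) (by omega) le_rfl]
            by_cases g1 : l = m
            · have g3 : ¬ k = m := by omega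
              have g4 : ¬ k + 1 = m := by omega
              have g5 : ¬ l + 1 = m := by omega
              rw [if_pos g1, if_pos g1, if_neg g5, if_neg g3, if_neg g5, if_neg g4]
              ring
            · by_cases g2 : l + 1 = m
              · have g3 : ¬ k = m := by omega
                have g4 : ¬ k + 1 = m := by omega
                rw [if_neg g1, if_neg g3, if_neg g1, if_neg g4, if_pos g2]
                ring
              · rw [if_neg g1, if_neg g1, if_neg g2, if_neg g2]
                ring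
        rw [h4, h5]
        ring

/-- the shape of the pairings of the segments -/
theorem EE_form {μ : ℝ} (h0 : 0 < μ) (h1 : μ < 1) {a : Fin n → ℝ} (ha : StrictMono a) (hn : 2 ≤ n)
    {z : ℂ} (hz : 0 < z.im) : ∃ lam : ℂ, ∀ (m : Fin (n + 1)) (l k : Fin n),
      EE μ a m z l k = lam * ((-1) ^ (n - (l : ℕ)) * TT (zt μ) m l k) := by
  obtain ⟨lam, hlam⟩ := EF_form h0 h1 ha hn hz
  refine ⟨lam, fun m l k => ?_⟩
  set ζ := zt μ with hζ
  have hζ0 : ζ ≠ 0 := zt_ne μ
  have hζ' : zt (1 - μ) = -ζ⁻¹ := zt_one_sub μ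
  rw [EE_upper h0 h1 ha m hz, Matrix.mul_assoc, Matrix.mul_apply]
  simp only [Matrix.mul_apply, Matrix.transpose_apply, hlam]
  have h2 : ∑ i : Fin n, LL μ m l i * ∑ j : Fin n, lam * od ζ i j * LL (1 - μ) m k j =
      lam * (ph (kap μ m) m l * ph (kap (1 - μ) m) m k *
        (∑ i : Fin n, ∑ j : Fin n, (if m.succAbove i = l.castSucc then (1 : ℂ) else 0) *
          (od ζ i j * (if m.succAbove j = k.castSucc then 1 else 0)) -
        ∑ i : Fin n, ∑ j : Fin n, (if m.succAbove i = l.castSucc then (1 : ℂ) else 0) *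
          (od ζ i j * (if m.succAbove j = k.succ then 1 else 0)) -
        ∑ i : Fin n, ∑ j : Fin n, (if m.succAbove i = l.succ then (1 : ℂ) else 0) *
          (od ζ i j * (if m.succAbove j = k.castSucc then 1 else 0)) +
        ∑ i : Fin n, ∑ j : Fin n, (if m.succAbove i = l.succ then (1 : ℂ) else 0) *
          (od ζ i j * (if m.succAbove j = k.succ then 1 else 0)))) := by
    rw [← Finset.sum_sub_distrib, ← Finset.sum_sub_distrib, ← Finset.sum_add_distrib, Finset.mul_sum, Finset.mul_sum]
    refine Finset.sum_congr rfl fun i _ => ?_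
    rw [← Finset.sum_sub_distrib, ← Finset.sum_sub_distrib, ← Finset.sum_add_distrib, Finset.mul_sum, Finset.mul_sum,
      Finset.mul_sum]
    refine Finset.sum_congr rfl fun j _ => ?_
    unfold LL
    rw [Matrix.of_apply, Matrix.of_apply]
    ring
  rw [h2, sum_oq, sum_oq, sum_oq, sum_oq, ph_eq, ph_eq, ← hζ, hζ']
  congr 1
  have h3 := comb_oq (n := n) hζ0 (m := m) l.2 k.2
  rw [← h3]
  simp only [Fin.le_def, Fin.val_castSucc, Fin.val_succ]

end Pool.Agent.Helper67K9.SE
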