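import Pool.Agent.Helper67K9.SE.Lim3

/-!
# The bilinear relations (twisted Riemann-Legendre relations)
-/

set_option autoImplicit false

open Complex Set MeasureTheory Filter Topology

namespace Pool.Agent.Helper67K9.SE

open Pool.Agent.Y118.HP (ee seg Dm isOpen_Dm InGap mem_Dm_of_im ee_self ee_succAbove ee_im ee_slit seg_slit_lt
  seg_slit_gt continuous_ee differentiable_ee eq_zero_of_open isPreconnected_Dm er er_strictMono ee_ofReal)

variable {n : ℕ}

/-- the constant matrices of the bilinear relations, without the factor `π / sin (π μ)` -/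
noncomputable def EC (ζ : ℂ) (m : Fin (n + 1)) : Matrix (Fin n) (Fin n) ℂ :=
  Matrix.of fun l k => -((-1) ^ (n - (l : ℕ)) * TT ζ m l k)

/-- **The twisted Riemann-Legendre relations.** -/
theorem legendre {μ : ℝ} (h0 : 0 < μ) (h1 : μ < 1) {a : Fin n → ℝ} (ha : StrictMono a) (hn : 2 ≤ n)
    (m : Fin (n + 1)) {z : ℂ} (hz : z ∈ Dm a m) :
    PM μ a m z * KM μ a z * (PM (1 - μ) a m z).transpose = (Real.pi / Complex.sin (Real.pi * μ)) • EC (zt μ) m := by
  obtain ⟨N, rfl⟩ : ∃ N, n = N + 2 := ⟨n - 2, by omega⟩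
  obtain ⟨lam, hlam⟩ := EE_form h0 h1 ha hn (z := I) (by simp)
  have hlv : lam = -(Real.pi / Complex.sin (Real.pi * μ)) := by
    obtain ⟨E, hE⟩ := EE_const h0 h1 ha hn (0 : Fin (N + 3))
    have h2 := hlam 0 0 1
    rw [hE I (mem_Dm_of_im _ _ (by simp))] at h2
    have h3 := (tendsto_E01 h0 h1 ha).const_mul (((a 1 : ℂ) - a 0) ^ ((1 - 2 * μ : ℝ) : ℂ))
    rw [limit_val h0 h1 ha] at h3
    have h4 : Tendsto (fun _ : ℝ => E 0 1) (𝓝[<] (a 0)) (𝓝 ((-1) ^ (N + 1) * (Real.pi / Complex.sin (Real.pi * μ)))) := by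
      refine h3.congr' ?_
      filter_upwards [self_mem_nhdsWithin] with t ht
      have ht' : t < a 0 := ht
      rw [← E01_eq h0 h1 ha (mem_Dm_left ha ht'), hE _ (mem_Dm_left ha ht')]
    have h5 := tendsto_nhds_unique h4 tendsto_const_nhds
    have h6 : TT (zt μ) ((0 : Fin (N + 3)) : ℕ) ((0 : Fin (N + 2)) : ℕ) ((1 : Fin (N + 2)) : ℕ) = 1 := by
      unfold TT
      rw [if_pos]
      left
      simp
    have h7 : ((0 : Fin (N + 2)) : ℕ) = 0 := rfl
    rw [h2, h6, h7, Nat.sub_zero, mul_one] at h5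
    have hsq : ((-1 : ℂ) ^ (N + 1)) * (-1) ^ (N + 1) = 1 := by
      rw [← mul_pow]
      norm_num
    have h8 : ((-1 : ℂ) ^ (N + 2)) = -(-1) ^ (N + 1) := by ring
    rw [h8] at h5
    linear_combination ((-1) ^ (N + 1)) * h5 - (lam + Real.pi / Complex.sin (Real.pi * μ)) * hsq
  obtain ⟨E, hE⟩ := EE_const h0 h1 ha hn m
  have h2 := hE z hz
  have h3 := hE I (mem_Dm_of_im _ _ (by simp))
  unfold EE at h2
  rw [h2, ← h3]
  ext l k
  rw [hlam, hlv, Matrix.smul_apply]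
  unfold EC
  rw [Matrix.of_apply, smul_eq_mul]
  ring

/-- `sin (π μ)` in terms of `zt μ` -/
theorem pi_div_sin {μ : ℝ} (h0 : 0 < μ) (h1 : μ < 1) :
    Real.pi / Complex.sin (Real.pi * μ) = 2 * Real.pi * I / (zt μ - (zt μ)⁻¹) := by
  have h2 := sin_pos' h0 h1
  have h3 : Complex.sin (Real.pi * μ) = (Real.sin (Real.pi * μ) : ℂ) := by
    rw [ofReal_sin, ofReal_mul]
  have h4 : Complex.sin (Real.pi * μ) ≠ 0 := by
    rw [h3]
    exact ofReal_ne_zero.2 h2.ne'
  rw [zt_sub_inv]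
  field_simp

end Pool.Agent.Helper67K9.SE
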