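import Mathlib

/-!
# Generation of the special linear Lie algebra by nilpotent matrices of rank one
-/

set_option autoImplicit false

open Matrix

namespace Pool.Agent.Helper67K9.SE

variable {n : ℕ}

/-- the vectors -/
noncomputable def wv (ζ : ℂ) (k i : Fin n) : ℂ := if i < k then ζ⁻¹ else if k < i then ζ else 0

/-- the matrices of rank one -/
noncomputable def Mr (ζ : ℂ) (i j : Fin n) : Matrix (Fin n) (Fin n) ℂ := vecMulVec (wv ζ i) (Pi.single j 1)

theorem Mr_mul (ζ : ℂ) (i j k l : Fin n) : Mr ζ i j * Mr ζ k l = wv ζ k j • Mr ζ i l := by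
  unfold Mr
  rw [vecMulVec_mul_vecMulVec, single_one_dotProduct]
  ext a b
  simp [vecMulVec_apply, mul_left_comm]

theorem wv_self (ζ : ℂ) (k : Fin n) : wv ζ k k = 0 := by simp [wv]

theorem wv_lt (ζ : ℂ) {k i : Fin n} (h : i < k) : wv ζ k i = ζ⁻¹ := by simp [wv, h]

theorem wv_gt (ζ : ℂ) {k i : Fin n} (h : k < i) : wv ζ k i = ζ := by simp [wv, h, h.not_gt]

theorem wv_span {ζ : ℂ} (h0 : ζ ≠ 0) (hn : 2 ≤ n)
    (hS : ∑ l ∈ Finset.range (n - 1), ((ζ⁻¹) ^ 2) ^ (l + 1) ≠ 0) (V : Submodule ℂ (Fin n → ℂ))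
    (hV : ∀ k, wv ζ k ∈ V) (x : Fin n → ℂ) : x ∈ V := by
  classical
  have hz : (⟨0, by omega⟩ : Fin n) = ⟨0, by omega⟩ := rfl
  set o : Fin n := ⟨0, by omega⟩ with ho
  set e : Fin n → (Fin n → ℂ) := fun i => Pi.single i 1 with he
  -- consecutive vectors
  have h1 : ∀ (i : ℕ) (hi : i + 1 < n), e ⟨i + 1, hi⟩ - (ζ⁻¹) ^ 2 • e ⟨i, by omega⟩ ∈ V := by
    intro i hi
    have h2 : wv ζ ⟨i + 1, hi⟩ - wv ζ ⟨i, by omega⟩ = ζ⁻¹ • e ⟨i, by omega⟩ - ζ • e ⟨i + 1, hi⟩ := by
      funext j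
      simp only [he, Pi.sub_apply, Pi.smul_apply, smul_eq_mul]
      rcases lt_trichotomy (j : ℕ) i with h | h | h
      · have a1 : j < (⟨i + 1, hi⟩ : Fin n) := by rw [Fin.lt_def]; simp only; omega
        have a2 : j < (⟨i, by omega⟩ : Fin n) := by rw [Fin.lt_def]; simp only; omega
        rw [wv_lt ζ a1, wv_lt ζ a2, Pi.single_eq_of_ne a2.ne, Pi.single_eq_of_ne a1.ne]
        ring
      · have a0 : j = (⟨i, by omega⟩ : Fin n) := Fin.ext h
        have a1 : j < (⟨i + 1, hi⟩ : Fin n) := by rw [Fin.lt_def]; simp only; omega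
        rw [wv_lt ζ a1, Pi.single_eq_of_ne a1.ne, a0, wv_self, Pi.single_eq_same]
        ring
      · rcases eq_or_ne (j : ℕ) (i + 1) with h' | h'
        · have a0 : j = (⟨i + 1, hi⟩ : Fin n) := Fin.ext h'
          have a1 : (⟨i, by omega⟩ : Fin n) < j := by rw [Fin.lt_def]; simp only; omega
          rw [wv_gt ζ a1, Pi.single_eq_of_ne a1.ne', a0, wv_self, Pi.single_eq_same]
          ring
        · have a1 : (⟨i + 1, hi⟩ : Fin n) < j := by rw [Fin.lt_def]; simp only; omega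
          have a2 : (⟨i, by omega⟩ : Fin n) < j := by rw [Fin.lt_def]; simp only; omega
          rw [wv_gt ζ a1, wv_gt ζ a2, Pi.single_eq_of_ne a1.ne', Pi.single_eq_of_ne a2.ne']
          ring
    have h3 := V.smul_mem (-ζ⁻¹) (V.sub_mem (hV ⟨i + 1, hi⟩) (hV ⟨i, by omega⟩))
    rw [h2] at h3
    convert h3 using 1
    rw [smul_sub, smul_smul, smul_smul]
    have : -ζ⁻¹ * ζ = -1 := by field_simp
    rw [this]
    module
  have h2 : ∀ (i : ℕ) (hi : i < n), e ⟨i, hi⟩ - ((ζ⁻¹) ^ 2) ^ i • e o ∈ V := by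
    intro i
    induction i with
    | zero =>
      intro hi
      rw [pow_zero, one_smul, ho, sub_self]
      exact V.zero_mem
    | succ i ih =>
      intro hi
      have h3 := V.add_mem (h1 i hi) (V.smul_mem ((ζ⁻¹) ^ 2) (ih (by omega)))
      convert h3 using 1
      rw [smul_sub, smul_smul, ← pow_succ']
      module
  have h3 : e o ∈ V := by
    have h4 : wv ζ o = ∑ l : Fin n, (if l = o then 0 else ζ) • e l := by
      funext j
      rw [Finset.sum_apply, Finset.sum_eq_single j]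
      · simp only [Pi.smul_apply, he, Pi.single_eq_same, smul_eq_mul, mul_one]
        by_cases hj : j = o
        · rw [hj, wv_self, if_pos rfl]
        · rw [if_neg hj, wv_gt]
          rw [Fin.lt_def, ho]
          have : (j : ℕ) ≠ 0 := fun h => hj (Fin.ext h)
          simp only; omega
      · intro b _ hb
        simp [he, Pi.single_eq_of_ne hb.symm]
      · intro h
        exact absurd (Finset.mem_univ _) h
    have h5 : (∑ l : Fin n, (if l = o then 0 else ζ) * ((ζ⁻¹) ^ 2) ^ (l : ℕ)) • e o ∈ V := by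
      have h6 : wv ζ o - ∑ l : Fin n, (if l = o then 0 else ζ) • (e l - ((ζ⁻¹) ^ 2) ^ (l : ℕ) • e o) ∈ V :=
        V.sub_mem (hV o) (V.sum_mem fun l _ => V.smul_mem _ (h2 l l.2))
      convert h6 using 1
      rw [h4, ← Finset.sum_sub_distrib, Finset.sum_smul]
      refine Finset.sum_congr rfl fun l _ => ?_
      module
    have h7 : (∑ l : Fin n, (if l = o then 0 else ζ) * ((ζ⁻¹) ^ 2) ^ (l : ℕ)) ≠ 0 := by
      have h8 : (∑ l : Fin n, (if l = o then 0 else ζ) * ((ζ⁻¹) ^ 2) ^ (l : ℕ)) =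
          ζ * ∑ l ∈ Finset.range (n - 1), ((ζ⁻¹) ^ 2) ^ (l + 1) := by
        obtain ⟨k, rfl⟩ : ∃ k, n = k + 1 := ⟨n - 1, by omega⟩
        have h9 : o = 0 := rfl
        rw [Fin.sum_univ_succ, h9, if_pos rfl, zero_mul, zero_add, Finset.mul_sum, Nat.add_sub_cancel,
          Finset.sum_range]
        refine Finset.sum_congr rfl fun l _ => ?_
        rw [if_neg (Fin.succ_ne_zero l), Fin.val_succ]
      rw [h8]
      exact mul_ne_zero h0 hS
    have h8 := V.smul_mem (∑ l : Fin n, (if l = o then 0 else ζ) * ((ζ⁻¹) ^ 2) ^ (l : ℕ))⁻¹ h5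
    rwa [smul_smul, inv_mul_cancel₀ h7, one_smul] at h8
  have h4 : ∀ i : Fin n, e i ∈ V := by
    intro i
    have h5 := V.add_mem (h2 i i.2) (V.smul_mem (((ζ⁻¹) ^ 2) ^ (i : ℕ)) h3)
    rwa [sub_add_cancel] at h5
  have h5 : x = ∑ i, x i • e i := by
    funext j
    rw [Finset.sum_apply, Finset.sum_eq_single j]
    · simp [he]
    · intro b _ hb
      simp [he, Pi.single_eq_of_ne hb.symm]
    · intro h
      exact absurd (Finset.mem_univ _) h
  rw [h5]
  exact V.sum_mem fun i _ => V.smul_mem _ (h4 i)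

/-- **The elementary matrices are in the Lie algebra generated by the nilpotent matrices.** -/
theorem sl_gen {ζ : ℂ} (h0 : ζ ≠ 0) (hn : 2 ≤ n) (h2 : 3 ≤ n → ζ ^ 2 ≠ -1)
    (hS : ∑ l ∈ Finset.range (n - 1), ((ζ⁻¹) ^ 2) ^ (l + 1) ≠ 0) (L : Submodule ℂ (Matrix (Fin n) (Fin n) ℂ))
    (hL : ∀ X ∈ L, ∀ Y ∈ L, X * Y - Y * X ∈ L) (hN : ∀ k, Mr ζ k k ∈ L) (i j : Fin n) (hij : i ≠ j) :
    Matrix.single i j 1 ∈ L := by
  classical
  have hζ : ζ * ζ⁻¹ = 1 := mul_inv_cancel₀ h0
  have hA : ∀ l m : Fin n, l < m → ζ⁻¹ • Mr ζ l m - ζ • Mr ζ m l ∈ L := by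
    intro l m hlm
    have h := hL _ (hN l) _ (hN m)
    rw [Mr_mul, Mr_mul, wv_lt ζ hlm, wv_gt ζ hlm] at h
    exact h
  have hB : ∀ l m k : Fin n, l < m → m < k → Mr ζ k m - Mr ζ k l ∈ L := by
    intro l m k hlm hmk
    have h3 : 3 ≤ n := by
      have a1 : (l : ℕ) < m := hlm
      have a2 : (m : ℕ) < k := hmk
      have a3 := k.2
      omega
    have h4 : (1 + ζ ^ 2) ≠ 0 := fun h => h2 h3 (by linear_combination h)
    have h := hL _ (hN k) _ (hA l m hlm)
    rw [mul_sub, sub_mul, mul_smul_comm, mul_smul_comm, smul_mul_assoc, smul_mul_assoc, Mr_mul, Mr_mul, Mr_mul, Mr_mul,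
      wv_gt ζ (hlm.trans hmk), wv_lt ζ hmk, wv_gt ζ hmk, wv_lt ζ (hlm.trans hmk)] at h
    have h5 := L.smul_mem (1 + ζ ^ 2)⁻¹ (L.sub_mem (L.add_mem h (L.smul_mem ζ⁻¹ (hA l k (hlm.trans hmk))))
      (L.smul_mem ζ (hA m k hmk)))
    convert h5 using 1
    rw [eq_comm, inv_smul_eq_iff₀ h4]
    have e1 : ζ⁻¹ * ζ = 1 := inv_mul_cancel₀ h0
    have e2 : ζ * ζ⁻¹ = 1 := hζ
    simp only [smul_sub, smul_smul, e1, e2]
    module
  have hC : ∀ l m k : Fin n, l < m → m < k → Mr ζ k l - Mr ζ m l ∈ L := by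
    intro l m k hlm hmk
    have h3 : 3 ≤ n := by
      have a1 : (l : ℕ) < m := hlm
      have a2 : (m : ℕ) < k := hmk
      have a3 := k.2
      omega
    have h4 : (1 + ζ ^ 2) ≠ 0 := fun h => h2 h3 (by linear_combination h)
    have h := hL _ (hN l) _ (hA m k hmk)
    rw [mul_sub, sub_mul, mul_smul_comm, mul_smul_comm, smul_mul_assoc, smul_mul_assoc, Mr_mul, Mr_mul, Mr_mul, Mr_mul,
      wv_gt ζ (hlm.trans hmk), wv_lt ζ hlm, wv_gt ζ hlm, wv_lt ζ (hlm.trans hmk)] at h
    have h5 := L.smul_mem (1 + ζ ^ 2)⁻¹ (L.add_mem (L.sub_mem h (L.smul_mem ζ⁻¹ (hA l k (hlm.trans hmk))))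
      (L.smul_mem ζ (hA l m hlm)))
    convert h5 using 1
    rw [eq_comm, inv_smul_eq_iff₀ h4]
    have e1 : ζ⁻¹ * ζ = 1 := inv_mul_cancel₀ h0
    have e2 : ζ * ζ⁻¹ = 1 := hζ
    simp only [smul_sub, smul_smul, e1, e2]
    module
  set o : Fin n := ⟨0, by omega⟩ with ho
  set u : Fin n := ⟨1, by omega⟩ with hu
  have hD : ∀ i j : Fin n, j < i → Mr ζ i j - Mr ζ u o ∈ L := by
    intro i j hji
    have h3 : Mr ζ i j - Mr ζ i o ∈ L := by
      rcases eq_or_ne j o with h | h
      · rw [h, sub_self]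
        exact L.zero_mem
      · refine hB o j i ?_ hji
        rw [Fin.lt_def, ho]
        have : (j : ℕ) ≠ 0 := fun h' => h (Fin.ext h')
        simp only; omega
    have h4 : Mr ζ i o - Mr ζ u o ∈ L := by
      rcases eq_or_ne i u with h | h
      · rw [h, sub_self]
        exact L.zero_mem
      · refine hC o u i (by rw [Fin.lt_def]; simp [ho, hu]) ?_
        rw [Fin.lt_def, hu]
        have a1 : (i : ℕ) ≠ 1 := fun h' => h (Fin.ext h')
        have a2 : (j : ℕ) < i := hji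
        simp only; omega
    have h5 := L.add_mem h3 h4
    rwa [sub_add_sub_cancel] at h5
  have hE : ∀ i j : Fin n, i < j → Mr ζ i j - ζ ^ 2 • Mr ζ u o ∈ L := by
    intro i j hlt
    have h3 := L.add_mem (L.smul_mem ζ (hA i j hlt)) (L.smul_mem (ζ ^ 2) (hD j i hlt))
    convert h3 using 1
    simp only [smul_sub, smul_smul, hζ]
    module
  have hQ : ∀ (x : Fin n → ℂ) (j : Fin n), vecMulVec x (Pi.single j 1) - (ζ * x j) • Mr ζ u o ∈ L := by
    intro x j
    let V : Submodule ℂ (Fin n → ℂ) :=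
      { carrier := {x | vecMulVec x (Pi.single j 1) - (ζ * x j) • Mr ζ u o ∈ L}
        zero_mem' := by
          show vecMulVec (0 : Fin n → ℂ) (Pi.single j 1) - (ζ * (0 : Fin n → ℂ) j) • Mr ζ u o ∈ L
          have : vecMulVec (0 : Fin n → ℂ) (Pi.single j (1 : ℂ)) = 0 := by
            ext a b; simp [vecMulVec_apply]
          rw [this, Pi.zero_apply, mul_zero, zero_smul, sub_zero]
          exact L.zero_mem
        add_mem' := by
          intro x y hx hy
          show vecMulVec (x + y) (Pi.single j 1) - (ζ * (x + y) j) • Mr ζ u o ∈ L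
          have h := L.add_mem hx hy
          convert h using 1
          rw [add_vecMulVec, Pi.add_apply]
          module
        smul_mem' := by
          intro c x hx
          show vecMulVec (c • x) (Pi.single j 1) - (ζ * (c • x) j) • Mr ζ u o ∈ L
          have h := L.smul_mem c hx
          convert h using 1
          rw [smul_vecMulVec, Pi.smul_apply, smul_eq_mul]
          module }
    refine wv_span h0 hn hS V (fun k => ?_) x
    show vecMulVec (wv ζ k) (Pi.single j 1) - (ζ * wv ζ k j) • Mr ζ u o ∈ L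
    rcases lt_trichotomy j k with h | h | h
    · rw [wv_lt ζ h, hζ, one_smul]
      exact hD k j h
    · subst h
      rw [wv_self, mul_zero, zero_smul, sub_zero]
      exact hN j
    · rw [wv_gt ζ h, ← sq]
      exact hE k j h
  have h3 := hQ (Pi.single i 1) j
  rw [Pi.single_eq_of_ne hij.symm, mul_zero, zero_smul, sub_zero] at h3
  convert h3 using 1
  ext a b
  rw [Matrix.single_apply, vecMulVec_apply, Pi.single_apply, Pi.single_apply]
  by_cases ha : i = a
  · by_cases hb : j = b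
    · simp [ha, hb]
    · simp [ha, hb, Ne.symm hb]
  · simp [ha, Ne.symm ha, eq_comm]

/-- **Tuples of matrices: the components separate.** -/
theorem sl_gen_tuple {ι : Type} [Fintype ι] [DecidableEq ι] {ζ : ι → ℂ} (h0 : ∀ r, ζ r ≠ 0) (hn : 2 ≤ n)
    (h1 : ∀ r, ζ r - (ζ r)⁻¹ ≠ 0) (h2 : 3 ≤ n → ∀ r, ζ r ^ 2 ≠ -1)
    (hS : ∀ r, ∑ l ∈ Finset.range (n - 1), (((ζ r)⁻¹) ^ 2) ^ (l + 1) ≠ 0)
    (hinj : Function.Injective fun r => (ζ r - (ζ r)⁻¹) ^ 2)
    (L : Submodule ℂ (ι → Matrix (Fin n) (Fin n) ℂ)) (hL : ∀ X ∈ L, ∀ Y ∈ L, X * Y - Y * X ∈ L)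
    (hN : ∀ k, (fun r => (ζ r - (ζ r)⁻¹) • Mr (ζ r) k k) ∈ L) (r : ι) (i j : Fin n) (hij : i ≠ j) :
    Pi.single r (Matrix.single i j 1) ∈ L := by
  classical
  -- one component
  have key : ∀ k : Fin n, Pi.single r (Mr (ζ r) k k) ∈ L := by
    intro k
    obtain ⟨k', hk'⟩ : ∃ k' : Fin n, k' ≠ k := by
      rcases eq_or_ne k ⟨0, by omega⟩ with h | h
      · refine ⟨⟨1, by omega⟩, ?_⟩
        rw [h]
        simp [Fin.ext_iff]
      · exact ⟨⟨0, by omega⟩, Ne.symm h⟩
    have hsq : ∀ ζ : ℂ, Mr ζ k k * Mr ζ k k = 0 := by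
      intro ζ
      rw [Mr_mul, wv_self, zero_smul]
    have hmid : ∀ ζ : ℂ, ζ ≠ 0 → Mr ζ k k * Mr ζ k' k' * Mr ζ k k = Mr ζ k k := by
      intro ζ hζ
      rw [Mr_mul, smul_mul_assoc, Mr_mul, smul_smul]
      have : wv ζ k' k * wv ζ k k' = 1 := by
        rcases lt_or_gt_of_ne hk' with h | h
        · rw [wv_gt ζ h, wv_lt ζ h, mul_inv_cancel₀ hζ]
        · rw [wv_lt ζ h, wv_gt ζ h, inv_mul_cancel₀ hζ]
      rw [this, one_smul]
    set c : ι → ℂ := fun r => ζ r - (ζ r)⁻¹ with hc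
    have hpol : ∀ f : Polynomial ℂ, (fun r => (f.eval (c r ^ 2) * c r) • Mr (ζ r) k k) ∈ L := by
      intro f
      induction f using Polynomial.induction_on' with
      | add f g hf hg =>
        have h := L.add_mem hf hg
        convert h using 1
        funext s
        simp only [Polynomial.eval_add, Pi.add_apply]
        module
      | monomial d b =>
        induction d with
        | zero =>
          have h := L.smul_mem b (hN k)
          convert h using 1
          funext s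
          simp only [Polynomial.eval_monomial, pow_zero, mul_one, Pi.smul_apply, smul_smul]
          rfl
        | succ d ih =>
          have h := hL _ (hN k) _ (hL _ ih _ (hN k'))
          have h' := L.smul_mem (-(1 / 2) : ℂ) h
          convert h' using 1
          funext s
          simp only [Pi.smul_apply, Pi.sub_apply, Pi.mul_apply, Polynomial.eval_monomial]
          have e1 := hsq (ζ s)
          have e2 := hmid (ζ s) (h0 s)
          set A := Mr (ζ s) k k
          set B := Mr (ζ s) k' k'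
          have e3 : A * A * B = 0 := by rw [e1, zero_mul]
          have e4 : B * A * A = 0 := by rw [mul_assoc, e1, mul_zero]
          simp only [smul_mul_assoc, mul_smul_comm, mul_sub, sub_mul, smul_smul]
          rw [← mul_assoc A A B, e3, ← mul_assoc A B A, e2, e4]
          simp only [hc]
          module
    obtain ⟨f, hf⟩ : ∃ f : Polynomial ℂ, ∀ s, f.eval (c s ^ 2) = if s = r then (c r)⁻¹ else 0 := by
      refine ⟨Lagrange.interpolate Finset.univ (fun s => c s ^ 2) (fun s => if s = r then (c r)⁻¹ else 0), fun s => ?_⟩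
      exact Lagrange.eval_interpolate_at_node _ (hinj.injOn) (Finset.mem_univ s)
    have h := hpol f
    convert h using 1
    funext s
    by_cases hs : s = r
    · subst hs
      rw [Pi.single_eq_same, hf, if_pos rfl, inv_mul_cancel₀ (h1 s), one_smul]
    · rw [Pi.single_eq_of_ne hs, hf, if_neg hs, zero_mul, zero_smul]
  let Lr : Submodule ℂ (Matrix (Fin n) (Fin n) ℂ) :=
    L.comap (LinearMap.single ℂ (fun _ : ι => Matrix (Fin n) (Fin n) ℂ) r)
  have hLr : ∀ X, X ∈ Lr ↔ Pi.single r X ∈ L := fun X => Iff.rfl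
  refine (hLr _).1 (sl_gen (h0 r) hn (fun h => h2 h r) (hS r) Lr ?_ (fun k => (hLr _).2 (key k)) i j hij)
  intro X hX Y hY
  rw [hLr] at hX hY ⊢
  have h := hL _ hX _ hY
  rw [← Pi.single_mul, ← Pi.single_mul, ← Pi.single_sub] at h
  exact h

end Pool.Agent.Helper67K9.SE
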