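import Pool.Agent.Helper67K9.SE.Inv2

/-!
# The bilinear relations, III: the value of the constant, by a collision
-/

set_option autoImplicit false

open Complex Set MeasureTheory Filter Topology

namespace Pool.Agent.Helper67K9.SE

open Pool.Agent.Y118.HP (ee seg Dm isOpen_Dm InGap mem_Dm_of_im ee_self ee_succAbove ee_im ee_slit seg_slit_lt
  seg_slit_gt continuous_ee differentiable_ee eq_zero_of_open isPreconnected_Dm er er_strictMono ee_ofReal)

section gen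

variable {n : ℕ}

theorem diffOn_gen {U : Set ℂ} (hU : IsOpen U) {κ : Fin (n + 1) → ℝ} (hκ : ∀ i, -1 < κ i) (l : Fin n)
    {K : ℝ → ℂ → ℂ} (hc : ContinuousOn (fun p : ℝ × ℂ => K p.1 p.2) (Icc 0 1 ×ˢ U))
    (hd : ∀ s ∈ Icc (0 : ℝ) 1, DifferentiableOn ℂ (K s) U) :
    DifferentiableOn ℂ (fun z => ∫ s in Ioo (0 : ℝ) 1, (wt κ l s : ℂ) * K s z) U := by
  intro z0 hz0
  obtain ⟨r, hr, hball⟩ := Metric.nhds_basis_closedBall.mem_iff.1 (hU.mem_nhds hz0)
  obtain ⟨M, hM⟩ := (isCompact_Icc.prod (isCompact_closedBall z0 r)).exists_bound_of_continuousOn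
    (hc.mono (prod_mono le_rfl hball))
  have hcz : ∀ z ∈ U, ContinuousOn (fun s => K s z) (Icc 0 1) := by
    intro z hz
    exact ContinuousOn.comp (f := fun s : ℝ => (s, z)) hc (by fun_prop) fun s hs => ⟨hs, hz⟩
  have key := MP27fa52.diffOn_integral (U := Metric.ball z0 r) Metric.isOpen_ball
    (volume.restrict (Ioo 0 1)) (fun z s => (wt κ l s : ℂ) * K s z)
    (fun s => wt κ l s * M) ((wt_integrableOn hκ l).mul_const M)
    (fun z hz => (integrable_wt_mul hκ l (hcz z (hball (Metric.ball_subset_closedBall hz)))).aestronglyMeasurable)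
    (by
      filter_upwards [ae_restrict_mem measurableSet_Ioo] with s hs
      intro z hz
      exact (((hd s ⟨hs.1.le, hs.2.le⟩).mono ((Metric.ball_subset_closedBall).trans hball) z hz).const_mul _))
    (by
      filter_upwards [ae_restrict_mem measurableSet_Ioo] with s hs
      intro z hz
      rw [norm_mul, norm_real, Real.norm_eq_abs, abs_of_nonneg (wt_nonneg κ l hs.1.le hs.2.le)]
      exact mul_le_mul_of_nonneg_left (hM (s, z) ⟨⟨hs.1.le, hs.2.le⟩, Metric.ball_subset_closedBall hz⟩)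
        (wt_nonneg κ l hs.1.le hs.2.le))
  exact ((key z0 (Metric.mem_ball_self hr)).differentiableAt
    (Metric.isOpen_ball.mem_nhds (Metric.mem_ball_self hr))).differentiableWithinAt

end gen

variable {N : ℕ} {a : Fin (N + 2) → ℝ}

theorem FP0_eq (κ : Fin (N + 3) → ℝ) (s : ℝ) (z : ℂ) : FP κ a 0 0 s z =
    ∏ i : Fin (N + 1), ((a i.succ : ℂ) - seg z (a 0) s) ^ ((κ i.succ.succ : ℝ) : ℂ) := by
  have e0 : ee a 0 z (Fin.castSucc 0) = z := ee_zero_zero a z
  have e1 : ee a 0 z (Fin.succ 0) = a 0 := ee_zero_succ a z 0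
  unfold FP
  rw [e0, e1, Fin.prod_univ_succ, Fin.prod_univ_succ]
  have h0 : fac κ (ee a 0 z) 0 0 (seg z (a 0) s) = 1 := by
    unfold fac
    rw [if_neg (by simp), if_neg (by simp)]
  have h1 : fac κ (ee a 0 z) 0 (Fin.succ 0) (seg z (a 0) s) = 1 := by
    unfold fac
    rw [if_neg (by simp), if_neg (by simp)]
  rw [h0, h1, one_mul, one_mul]
  refine Finset.prod_congr rfl fun i _ => ?_
  unfold fac
  rw [if_neg (by simp), if_pos (by rw [Fin.succ_lt_succ_iff]; exact Fin.succ_pos i), ee_zero_succ]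

theorem FP1_eq (κ : Fin (N + 3) → ℝ) (s : ℝ) (z : ℂ) : FP κ a 0 1 s z =
    (seg (a 0) (a 1) s - z) ^ ((κ 0 : ℝ) : ℂ) *
    ∏ i : Fin N, ((a i.succ.succ : ℂ) - seg (a 0) (a 1) s) ^ ((κ i.succ.succ.succ : ℝ) : ℂ) := by
  have e0 : ee a 0 z (Fin.castSucc 1) = a 0 := ee_zero_succ a z 0
  have e1 : ee a 0 z (Fin.succ 1) = a 1 := ee_zero_succ a z 1
  unfold FP
  rw [e0, e1, Fin.prod_univ_succ, Fin.prod_univ_succ, Fin.prod_univ_succ]
  have h0 : fac κ (ee a 0 z) 1 0 (seg (a 0) (a 1) s) = (seg (a 0) (a 1) s - z) ^ ((κ 0 : ℝ) : ℂ) := by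
    unfold fac
    rw [if_pos (by rw [Fin.lt_def]; simp), ee_zero_zero]
  have h1 : fac κ (ee a 0 z) 1 (Fin.succ 0) (seg (a 0) (a 1) s) = 1 := by
    unfold fac
    rw [if_neg (by rw [Fin.lt_def]; simp only [Fin.val_succ, Fin.val_castSucc, Fin.val_one, Fin.val_zero]; omega),
      if_neg (by rw [Fin.lt_def]; simp only [Fin.val_succ, Fin.val_one, Fin.val_zero]; omega)]
  have h2 : fac κ (ee a 0 z) 1 (Fin.succ (Fin.succ 0)) (seg (a 0) (a 1) s) = 1 := by
    unfold fac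
    rw [if_neg (by rw [Fin.lt_def]; simp only [Fin.val_succ, Fin.val_castSucc, Fin.val_one, Fin.val_zero]; omega),
      if_neg (by rw [Fin.lt_def]; simp only [Fin.val_succ, Fin.val_one, Fin.val_zero]; omega)]
  rw [h0, h1, h2, one_mul, one_mul]
  congr 1

theorem kap0_zero (μ : ℝ) : kap μ (0 : Fin (N + 3)) 0 = -μ := kap_self μ 0

theorem kap0_succ (μ : ℝ) (i : Fin (N + 2)) : kap μ (0 : Fin (N + 3)) i.succ = μ - 1 := kap_ne μ (Fin.succ_ne_zero i)

theorem castSucc_one' : (Fin.castSucc 1 : Fin (N + 3)) = Fin.succ 0 := rfl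

theorem PM0_eq (μ : ℝ) (z : ℂ) (c : Fin (N + 2)) : PM μ a 0 z 0 c = YY (kap μ 0) a 0 0 c z := by
  have h3 : PM μ a 0 z 0 c = perC (kap μ 0) (ee a 0 z) 0 (c : ℕ) := rfl
  have h4 : kap μ (0 : Fin (N + 3)) (Fin.castSucc 0) + kap μ (0 : Fin (N + 3)) (Fin.succ 0) + 1 = 0 := by
    rw [Fin.castSucc_zero, kap0_zero, kap0_succ]
    ring
  rw [h3, perC_eq_Ioo, h4, ofReal_zero, cpow_zero, one_mul]
  rfl

theorem PM1_eq (μ : ℝ) (z : ℂ) (d : Fin (N + 2)) : PM (1 - μ) a 0 z 1 d =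
    ((a 1 : ℂ) - a 0) ^ ((1 - 2 * μ : ℝ) : ℂ) * YY (kap (1 - μ) 0) a 0 1 d z := by
  have h3 : PM (1 - μ) a 0 z 1 d = perC (kap (1 - μ) 0) (ee a 0 z) 1 (d : ℕ) := rfl
  have h4 : kap (1 - μ) (0 : Fin (N + 3)) (Fin.castSucc 1) + kap (1 - μ) (0 : Fin (N + 3)) (Fin.succ 1) + 1 =
      1 - 2 * μ := by
    rw [castSucc_one', kap0_succ, kap0_succ]
    ring
  have e0 : ee a 0 z (Fin.castSucc 1) = a 0 := ee_zero_succ a z 0
  have e1 : ee a 0 z (Fin.succ 1) = a 1 := ee_zero_succ a z 1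
  rw [h3, perC_eq_Ioo, h4, e0, e1]
  unfold YY KK
  rw [e0, e1]

/-- the coefficients of the polynomial paired with the second row -/
noncomputable def Rr (μ : ℝ) (a : Fin (N + 2) → ℝ) (z : ℂ) (d : Fin (N + 2)) : ℂ :=
  ∑ c : Fin (N + 2), YY (kap μ 0) a 0 0 c z * KM μ a z c d

theorem E01_eq {μ : ℝ} (h0 : 0 < μ) (h1 : μ < 1) (ha : StrictMono a) {z : ℂ} (hz : z ∈ Dm a 0) : EE μ a 0 z 0 1 =
    ((a 1 : ℂ) - a 0) ^ ((1 - 2 * μ : ℝ) : ℂ) * ∫ s in Ioo (0 : ℝ) 1, (wt (n := N + 2) (kap (1 - μ) 0) 1 s : ℂ) *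
      (FP (kap (1 - μ) 0) a 0 1 s z * ∑ d : Fin (N + 2), Rr μ a z d * seg (a 0) (a 1) s ^ (d : ℕ)) := by
  have e0 : ee a 0 z (Fin.castSucc 1) = a 0 := ee_zero_succ a z 0
  have e1 : ee a 0 z (Fin.succ 1) = a 1 := ee_zero_succ a z 1
  have h2 : EE μ a 0 z 0 1 = ∑ d : Fin (N + 2), Rr μ a z d * PM (1 - μ) a 0 z 1 d := by
    unfold EE
    rw [Matrix.mul_apply]
    refine Finset.sum_congr rfl fun d _ => ?_
    rw [Matrix.mul_apply, Matrix.transpose_apply]
    unfold Rr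
    congr 1
    refine Finset.sum_congr rfl fun c _ => ?_
    rw [PM0_eq]
  rw [h2]
  simp only [PM1_eq]
  have h3 : ∑ d : Fin (N + 2), Rr μ a z d * (((a 1 : ℂ) - a 0) ^ ((1 - 2 * μ : ℝ) : ℂ) *
      YY (kap (1 - μ) 0) a 0 1 d z) = ((a 1 : ℂ) - a 0) ^ ((1 - 2 * μ : ℝ) : ℂ) *
        ∑ d : Fin (N + 2), YY (kap (1 - μ) 0) a 0 1 d z * Rr μ a z d := by
    rw [Finset.mul_sum]
    refine Finset.sum_congr rfl fun d _ => ?_
    ring
  rw [h3]
  congr 1
  unfold YY
  rw [sum_int (fun d : Fin (N + 2) => int_KK (μ := 1 - μ) (m := 0) (l := 1) (by linarith) (by linarith) ha hz (d : ℕ))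
    fun d => Rr μ a z d]
  refine integral_congr_ae (Eventually.of_forall fun s => ?_)
  simp only [KK_eq, e0, e1]
  rw [Finset.mul_sum, Finset.mul_sum]
  refine Finset.sum_congr rfl fun d _ => ?_
  ring

theorem YY0_eq (κ : Fin (N + 3) → ℝ) (c : ℕ) (z : ℂ) : YY κ a 0 0 c z =
    ∫ s in Ioo (0 : ℝ) 1, (wt κ 0 s : ℂ) * (seg z (a 0) s ^ c *
      ∏ i : Fin (N + 1), ((a i.succ : ℂ) - seg z (a 0) s) ^ ((κ i.succ.succ : ℝ) : ℂ)) := by
  have e0 : ee a 0 z (Fin.castSucc 0) = z := ee_zero_zero a z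
  have e1 : ee a 0 z (Fin.succ 0) = a 0 := ee_zero_succ a z 0
  unfold YY
  refine integral_congr_ae (Eventually.of_forall fun s => ?_)
  simp only [KK_eq, e0, e1, FP0_eq]

/-- the integrals over the collapsing segment are analytic at the collision -/
theorem differentiableOn_YY0 {κ : Fin (N + 3) → ℝ} (hκ : ∀ i, -1 < κ i) (ha : StrictMono a) (c : ℕ) :
    DifferentiableOn ℂ (fun z => YY κ a 0 0 c z) {z : ℂ | z.re < a 1} := by
  simp only [YY0_eq]
  have hslit : ∀ z ∈ {z : ℂ | z.re < a 1}, ∀ s ∈ Icc (0 : ℝ) 1, ∀ i : Fin (N + 1),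
      (a i.succ : ℂ) - seg z (a 0) s ∈ slitPlane := by
    intro z hz s hs i
    left
    have h1 : a 0 < a 1 := ha (by rw [Fin.lt_def]; simp)
    have h2 : a 1 ≤ a i.succ := ha.monotone (by rw [Fin.le_def]; simp)
    have h3 : z.re < a 1 := hz
    unfold seg
    simp only [sub_re, ofReal_re, add_re, mul_re, one_re, ofReal_im, sub_im, one_im]
    have h4 := hs.1
    have h5 := hs.2
    rcases eq_or_lt_of_le h4 with rfl | h6
    · linarith
    · nlinarith
  refine diffOn_gen (isOpen_lt continuous_re continuous_const) hκ 0 ?_ ?_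
  · rintro ⟨s, z⟩ ⟨hs, hz⟩
    refine ContinuousAt.continuousWithinAt ?_
    have hseg : Continuous fun p : ℝ × ℂ => seg p.2 (a 0) p.1 := by
      unfold seg
      fun_prop
    refine (hseg.continuousAt.pow c).mul (tendsto_finsetProd _ fun i _ => ?_)
    exact ContinuousAt.cpow (continuousAt_const.sub hseg.continuousAt) continuousAt_const (hslit z hz s hs i)
  · intro s hs z hz
    refine DifferentiableAt.differentiableWithinAt ?_
    have hseg : Differentiable ℂ fun z : ℂ => seg z (a 0) s := by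
      unfold seg
      fun_prop
    refine (hseg.differentiableAt.pow c).mul (DifferentiableAt.fun_finsetProd fun i _ => ?_)
    exact DifferentiableAt.cpow_const ((differentiableAt_const _).sub hseg.differentiableAt) (hslit z hz s hs i)

theorem seg_self (p : ℂ) (s : ℝ) : seg p p s = p := by unfold seg; ring

/-- the integrals at the collision -/
theorem YY0_coll (κ : Fin (N + 3) → ℝ) (c : ℕ) : YY κ a 0 0 c (a 0) = (a 0 : ℂ) ^ c * YY κ a 0 0 0 (a 0) := by
  rw [YY0_eq, YY0_eq, ← integral_const_mul]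
  refine integral_congr_ae (Eventually.of_forall fun s => ?_)
  simp only [seg_self, pow_zero]
  ring

theorem Rr_coll (μ : ℝ) (d : Fin (N + 2)) : Rr μ a (a 0) d = -(1 - μ) * YY (kap μ 0) a 0 0 0 (a 0) * qk a d (a 0) := by
  unfold Rr
  have h1 := sum_left0 (n := N + 2) (μ : ℂ) a (by omega) (a 0) d
  rw [Finset.sum_range] at h1
  have h2 : ∀ c : Fin (N + 2), YY (kap μ 0) a 0 0 c (a 0) * KM μ a (a 0) c d =
      YY (kap μ 0) a 0 0 0 (a 0) * ((a 0 : ℂ) ^ (c : ℕ) * kq μ a (a 0) c d) := by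
    intro c
    rw [YY0_coll]
    unfold KM
    rw [Matrix.of_apply]
    ring
  rw [Finset.sum_congr rfl fun c _ => h2 c, ← Finset.mul_sum, h1]
  ring

theorem Rr_diff {μ : ℝ} (h0 : 0 < μ) (h1 : μ < 1) (ha : StrictMono a) (d : Fin (N + 2)) :
    DifferentiableAt ℂ (fun z => Rr μ a z d) (a 0) := by
  unfold Rr
  refine DifferentiableAt.fun_sum fun c _ => DifferentiableAt.mul ?_ (hasDerivAt_KM μ a _ c d).differentiableAt
  have h2 := differentiableOn_YY0 (kap_gt h0 h1 0) ha (c : ℕ)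
  refine h2.differentiableAt ((isOpen_lt continuous_re continuous_const).mem_nhds ?_)
  show ((a 0 : ℝ) : ℂ).re < a 1
  rw [ofReal_re]
  exact ha (by rw [Fin.lt_def]; simp)

/-- the product over the other points -/
noncomputable def P0 (a : Fin (N + 2) → ℝ) : Polynomial ℂ := ∏ i : Fin (N + 1), (Polynomial.X - Polynomial.C (a i.succ : ℂ))

theorem Pa_P0 (a : Fin (N + 2) → ℝ) : Pa a = (Polynomial.X - Polynomial.C (a 0 : ℂ)) * P0 a := by
  unfold Pa P0
  rw [Fin.prod_univ_succ]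

/-- the polynomial at the collision -/
theorem sum_qk (y : ℂ) (hy : y ≠ a 0) : ∑ d : Fin (N + 2), qk a d (a 0) * y ^ (d : ℕ) =
    (y - a 0) * (Polynomial.derivative (P0 a)).eval y := by
  have h1 := Pa_deriv_eval_sum a y
  have h2 := dd_spec (n := N + 2) (g := Pa a) (Pa_natDegree a).le y (a 0)
  have h3 : (Pa a).eval ((a 0 : ℝ) : ℂ) = 0 := by
    rw [Pa_P0, Polynomial.eval_mul]
    simp
  have h4 : (Pa a).eval y = (y - a 0) * (P0 a).eval y := by
    rw [Pa_P0, Polynomial.eval_mul]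
    simp
  have h5 : (Polynomial.derivative (Pa a)).eval y = (P0 a).eval y + (y - a 0) * (Polynomial.derivative (P0 a)).eval y := by
    rw [Pa_P0, Polynomial.derivative_mul]
    simp
  rw [h3, sub_zero, h4] at h2
  have h6 := mul_left_cancel₀ (sub_ne_zero.2 hy) h2
  have h7 : ∑ d : Fin (N + 2), qk a d (a 0) * y ^ (d : ℕ) =
      ∑ k : Fin (N + 2), y ^ (k : ℕ) * (Polynomial.derivative (Pa a)).coeff k -
      ∑ k : Fin (N + 2), y ^ (k : ℕ) * dd (N + 2) (Pa a) k (a 0) := by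
    rw [← Finset.sum_sub_distrib]
    refine Finset.sum_congr rfl fun k _ => ?_
    unfold qk
    ring
  rw [h7, ← h1, ← h6, h5]
  ring

end Pool.Agent.Helper67K9.SE
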