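import Pool.Agent.Helper67K9.SE.Lim

/-!
# The bilinear relations, IV: the limit
-/

set_option autoImplicit false

open Complex Set MeasureTheory Filter Topology

namespace Pool.Agent.Helper67K9.SE

open Pool.Agent.Y118.HP (ee seg Dm isOpen_Dm InGap mem_Dm_of_im ee_self ee_succAbove ee_im ee_slit seg_slit_lt
  seg_slit_gt continuous_ee differentiable_ee eq_zero_of_open isPreconnected_Dm er er_strictMono ee_ofReal)

variable {N : ℕ} {a : Fin (N + 2) → ℝ}

/-- the real parametrisation of the second segment -/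
noncomputable def yr (a : Fin (N + 2) → ℝ) (s : ℝ) : ℝ := (1 - s) * a 0 + s * a 1

theorem seg_yr (s : ℝ) : seg (a 0) (a 1) s = (yr a s : ℂ) := by
  unfold seg yr
  push_cast
  ring

theorem a01 (ha : StrictMono a) : a 0 < a 1 := ha (by rw [Fin.lt_def]; simp)

theorem yr_sub (s : ℝ) : yr a s - a 0 = s * (a 1 - a 0) := by unfold yr; ring

theorem sub_yr (s : ℝ) : a 1 - yr a s = (1 - s) * (a 1 - a 0) := by unfold yr; ring

theorem continuous_yr : Continuous (yr a) := by unfold yr; fun_prop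

/-- the factors of the further points -/
noncomputable def HH (μ : ℝ) (a : Fin (N + 2) → ℝ) (s : ℝ) : ℝ := ∏ i : Fin N, (a i.succ.succ - yr a s) ^ (-μ)

theorem far_pos (ha : StrictMono a) (i : Fin N) {s : ℝ} (hs1 : s ≤ 1) : 0 < a i.succ.succ - yr a s := by
  have h1 := a01 ha
  have h2 : a 1 < a i.succ.succ := ha (by rw [Fin.lt_def]; simp)
  have h3 : yr a s ≤ a 1 := by
    have := sub_yr (a := a) s
    nlinarith
  linarith

theorem FP1_real {μ : ℝ} (ha : StrictMono a) {s : ℝ} (hs1 : s ≤ 1) (z : ℂ) :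
    FP (kap (1 - μ) 0) a 0 1 s z = ((yr a s : ℂ) - z) ^ ((μ - 1 : ℝ) : ℂ) * (HH μ a s : ℂ) := by
  rw [FP1_eq, seg_yr, kap0_zero]
  have e1 : (-(1 - μ) : ℝ) = μ - 1 := by ring
  rw [e1]
  congr 1
  unfold HH
  rw [ofReal_prod]
  refine Finset.prod_congr rfl fun i _ => ?_
  have h1 := far_pos ha i hs1
  rw [kap0_succ, show (1 - μ - 1 : ℝ) = -μ by ring, ofReal_cpow h1.le, ofReal_sub]

theorem continuousOn_HH (μ : ℝ) (ha : StrictMono a) : ContinuousOn (HH μ a) (Icc 0 1) := by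
  unfold HH
  refine continuousOn_finsetProd _ fun i _ => ?_
  refine ContinuousOn.rpow_const ((continuous_const.sub continuous_yr).continuousOn) fun s hs => ?_
  exact Or.inl (far_pos ha i hs.2).ne'

theorem HH_nonneg {μ : ℝ} (ha : StrictMono a) {s : ℝ} (hs1 : s ≤ 1) : 0 ≤ HH μ a s :=
  Finset.prod_nonneg fun i _ => Real.rpow_nonneg (far_pos ha i hs1).le _

theorem mem_Dm_left (ha : StrictMono a) {t : ℝ} (ht : t < a 0) : (t : ℂ) ∈ Dm a 0 := by
  refine InGap.mem_Dm fun i => ⟨fun h => ?_, fun _ => ?_⟩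
  · exact absurd h (by simp)
  · exact ht.trans_le (ha.monotone (Fin.zero_le i))

/-- the limit of the pairing at the collision -/
theorem tendsto_E01 {μ : ℝ} (h0 : 0 < μ) (h1 : μ < 1) (ha : StrictMono a) :
    Tendsto (fun t : ℝ => ∫ s in Ioo (0 : ℝ) 1, (wt (n := N + 2) (kap (1 - μ) 0) 1 s : ℂ) *
      (FP (kap (1 - μ) 0) a 0 1 s t * ∑ d : Fin (N + 2), Rr μ a t d * seg (a 0) (a 1) s ^ (d : ℕ))) (𝓝[<] (a 0))
      (𝓝 (∫ s in Ioo (0 : ℝ) 1, (wt (n := N + 2) (kap (1 - μ) 0) 1 s : ℂ) *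
      (FP (kap (1 - μ) 0) a 0 1 s (a 0) * ∑ d : Fin (N + 2), Rr μ a (a 0) d * seg (a 0) (a 1) s ^ (d : ℕ)))) := by
  have hL := a01 ha
  have hκ' : ∀ i, -1 < kap (1 - μ) (0 : Fin (N + 3)) i := kap_gt (by linarith) (by linarith) 0
  -- constants
  obtain ⟨M1, hM1⟩ := isCompact_Icc.exists_bound_of_continuousOn (continuousOn_HH μ ha)
  obtain ⟨M2, hM2⟩ := (isCompact_Icc (a := (0 : ℝ)) (b := 1)).exists_bound_of_continuousOn
    (f := fun s : ℝ => (Polynomial.derivative (P0 a)).eval (yr a s : ℂ))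
    ((Polynomial.continuous _).comp (continuous_ofReal.comp continuous_yr)).continuousOn
  obtain ⟨M3, hM3⟩ := (isCompact_Icc (a := (0 : ℝ)) (b := 1)).exists_bound_of_continuousOn
    (f := fun s : ℝ => ∑ d : Fin (N + 2), ‖(yr a s : ℂ)‖ ^ (d : ℕ))
    ((continuous_finsetSum _ fun d _ => ((continuous_ofReal.comp continuous_yr).norm).pow _).continuousOn)
  have hR : ∃ C : ℝ, 0 ≤ C ∧ ∀ᶠ t : ℝ in 𝓝[<] (a 0), ∀ d : Fin (N + 2), ‖Rr μ a t d - Rr μ a (a 0) d‖ ≤ C * (a 0 - t) := by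
    have h2 : ∀ d : Fin (N + 2), ∃ C : ℝ, 0 ≤ C ∧
        ∀ᶠ t : ℝ in 𝓝[<] (a 0), ‖Rr μ a t d - Rr μ a (a 0) d‖ ≤ C * (a 0 - t) := by
      intro d
      have h3 := (Rr_diff h0 h1 ha d).isBigO_sub
      obtain ⟨C, hC0, hC⟩ := h3.exists_nonneg
      refine ⟨C, hC0, ?_⟩
      have h4 : Tendsto (fun t : ℝ => (t : ℂ)) (𝓝[<] (a 0)) (𝓝 ((a 0 : ℝ) : ℂ)) :=
        (continuous_ofReal.tendsto (a 0)).mono_left nhdsWithin_le_nhds
      have h5 := h4.eventually hC.bound
      filter_upwards [h5, self_mem_nhdsWithin] with t ht ht'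
      refine ht.trans (le_of_eq ?_)
      have ht'' : t < a 0 := ht'
      rw [← ofReal_sub, norm_real, Real.norm_eq_abs, abs_of_neg (by linarith)]
      ring
    choose C hC0 hC using h2
    refine ⟨∑ d, C d, Finset.sum_nonneg fun d _ => hC0 d, ?_⟩
    filter_upwards [eventually_all.2 hC, self_mem_nhdsWithin] with t ht ht' d
    have ht'' : t < a 0 := ht'
    refine (ht d).trans (mul_le_mul_of_nonneg_right ?_ (by linarith))
    exact Finset.single_le_sum (fun d _ => hC0 d) (Finset.mem_univ d)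
  obtain ⟨C, hC0, hC⟩ := hR
  set B0 : ℝ := ‖-(1 - (μ : ℂ)) * YY (kap μ 0) a 0 0 0 (a 0)‖ with hB0
  have hsum0 : ∀ s ∈ Ioo (0 : ℝ) 1, ∑ d : Fin (N + 2), Rr μ a (a 0) d * (yr a s : ℂ) ^ (d : ℕ) =
      (-(1 - (μ : ℂ)) * YY (kap μ 0) a 0 0 0 (a 0)) * (((yr a s : ℂ) - a 0) *
        (Polynomial.derivative (P0 a)).eval (yr a s : ℂ)) := by
    intro s hs
    have hne : (yr a s : ℂ) ≠ a 0 := by
      rw [Ne, ofReal_inj]
      have := yr_sub (a := a) s
      have h3 : 0 < s * (a 1 - a 0) := mul_pos hs.1 (by linarith)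
      intro h4
      rw [h4, sub_self] at this
      linarith
    rw [← sum_qk _ hne, Finset.mul_sum]
    refine Finset.sum_congr rfl fun d _ => ?_
    rw [Rr_coll]
    ring
  refine tendsto_integral_filter_of_dominated_convergence
    (fun s => wt (n := N + 2) (kap (1 - μ) 0) 1 s * (M1 * (B0 * M2 + C * M3) * (a 1 - a 0 + 1) ^ μ)) ?_ ?_ ?_ ?_
  · filter_upwards [self_mem_nhdsWithin] with t ht
    have ht' : t < a 0 := ht
    refine (integrable_wt_mul hκ' 1 ?_).aestronglyMeasurable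
    refine (continuousOn_FP _ ha 1 (mem_Dm_left ha ht')).mul ?_
    exact (continuous_finsetSum _ fun d _ => continuous_const.mul ((continuous_seg _ _).pow _)).continuousOn
  · filter_upwards [hC, self_mem_nhdsWithin, Ioo_mem_nhdsLT (sub_one_lt (a 0))] with t hCt ht ht2
    have ht' : t < a 0 := ht
    filter_upwards [ae_restrict_mem measurableSet_Ioo] with s hs
    have hsI : s ∈ Icc (0 : ℝ) 1 := ⟨hs.1.le, hs.2.le⟩
    have hM1' := hM1 s hsI
    have hM2' := hM2 s hsI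
    have hM3' := hM3 s hsI
    have hM20 : 0 ≤ M2 := (norm_nonneg _).trans hM2'
    have hM30 : 0 ≤ M3 := (norm_nonneg _).trans hM3'
    have hM10 : 0 ≤ M1 := (norm_nonneg _).trans hM1'
    have hy1 : yr a s - a 0 = s * (a 1 - a 0) := yr_sub s
    have hy2 : 0 ≤ yr a s - a 0 := by rw [hy1]; exact mul_nonneg hs.1.le (by linarith)
    have hy3 : yr a s - a 0 ≤ a 1 - a 0 := by rw [hy1]; nlinarith [hs.2]
    have hyt : 0 < yr a s - t := by linarith
    rw [norm_mul, norm_real, Real.norm_eq_abs, abs_of_nonneg (wt_nonneg _ _ hs.1.le hs.2.le)]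
    refine mul_le_mul_of_nonneg_left ?_ (wt_nonneg _ _ hs.1.le hs.2.le)
    rw [norm_mul, FP1_real ha hs.2.le, norm_mul, norm_cpow_real, norm_real]
    have e1 : ‖(yr a s : ℂ) - (t : ℂ)‖ = yr a s - t := by
      rw [← ofReal_sub, norm_real, Real.norm_eq_abs, abs_of_pos hyt]
    rw [e1, seg_yr]
    have h5 : ‖∑ d : Fin (N + 2), Rr μ a t d * (yr a s : ℂ) ^ (d : ℕ)‖ ≤ (B0 * M2 + C * M3) * (yr a s - t) := by
      have h6 : ∑ d : Fin (N + 2), Rr μ a t d * (yr a s : ℂ) ^ (d : ℕ) =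
          ∑ d : Fin (N + 2), Rr μ a (a 0) d * (yr a s : ℂ) ^ (d : ℕ) +
          ∑ d : Fin (N + 2), (Rr μ a t d - Rr μ a (a 0) d) * (yr a s : ℂ) ^ (d : ℕ) := by
        rw [← Finset.sum_add_distrib]
        refine Finset.sum_congr rfl fun d _ => ?_
        ring
      rw [h6, hsum0 s hs]
      refine (norm_add_le _ _).trans ?_
      have h7 : ‖(-(1 - (μ : ℂ)) * YY (kap μ 0) a 0 0 0 (a 0)) * (((yr a s : ℂ) - a 0) *
          (Polynomial.derivative (P0 a)).eval (yr a s : ℂ))‖ ≤ B0 * M2 * (yr a s - t) := by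
        rw [norm_mul, ← hB0, norm_mul]
        have e2 : ‖(yr a s : ℂ) - ((a 0 : ℝ) : ℂ)‖ = yr a s - a 0 := by
          rw [← ofReal_sub, norm_real, Real.norm_eq_abs, abs_of_nonneg hy2]
        rw [e2]
        have h8 : (yr a s - a 0) * ‖(Polynomial.derivative (P0 a)).eval (yr a s : ℂ)‖ ≤ (yr a s - t) * M2 :=
          mul_le_mul (by linarith) hM2' (norm_nonneg _) hyt.le
        calc B0 * ((yr a s - a 0) * ‖(Polynomial.derivative (P0 a)).eval (yr a s : ℂ)‖) ≤ B0 * ((yr a s - t) * M2) :=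
              mul_le_mul_of_nonneg_left h8 (norm_nonneg _)
          _ = B0 * M2 * (yr a s - t) := by ring
      have h9 : ‖∑ d : Fin (N + 2), (Rr μ a t d - Rr μ a (a 0) d) * (yr a s : ℂ) ^ (d : ℕ)‖ ≤
          C * M3 * (yr a s - t) := by
        refine (norm_sum_le _ _).trans ?_
        have h10 : ∀ d : Fin (N + 2), ‖(Rr μ a t d - Rr μ a (a 0) d) * (yr a s : ℂ) ^ (d : ℕ)‖ ≤
            C * (a 0 - t) * ‖(yr a s : ℂ)‖ ^ (d : ℕ) := by
          intro d
          rw [norm_mul, norm_pow]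
          exact mul_le_mul_of_nonneg_right (hCt d) (by positivity)
        refine (Finset.sum_le_sum fun d _ => h10 d).trans ?_
        rw [← Finset.mul_sum]
        have h11 : ∑ d : Fin (N + 2), ‖(yr a s : ℂ)‖ ^ (d : ℕ) ≤ M3 := (le_abs_self _).trans hM3'
        calc C * (a 0 - t) * ∑ d : Fin (N + 2), ‖(yr a s : ℂ)‖ ^ (d : ℕ) ≤ C * (a 0 - t) * M3 :=
              mul_le_mul_of_nonneg_left h11 (mul_nonneg hC0 (by linarith))
          _ ≤ C * (yr a s - t) * M3 :=
              mul_le_mul_of_nonneg_right (mul_le_mul_of_nonneg_left (by linarith) hC0) hM30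
          _ = C * M3 * (yr a s - t) := by ring
      linarith
    have h12 : (yr a s - t) ^ (μ - 1) * (yr a s - t) = (yr a s - t) ^ μ := by
      rw [Real.rpow_sub_one hyt.ne']
      field_simp
    have h13 : (yr a s - t) ^ μ ≤ (a 1 - a 0 + 1) ^ μ := by
      refine Real.rpow_le_rpow hyt.le ?_ h0.le
      have := ht2.1
      linarith
    have hBM : 0 ≤ B0 * M2 + C * M3 := add_nonneg (mul_nonneg (norm_nonneg _) hM20) (mul_nonneg hC0 hM30)
    calc (yr a s - t) ^ (μ - 1) * ‖HH μ a s‖ * ‖∑ d : Fin (N + 2), Rr μ a t d * (yr a s : ℂ) ^ (d : ℕ)‖ ≤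
          (yr a s - t) ^ (μ - 1) * M1 * ((B0 * M2 + C * M3) * (yr a s - t)) := by
          refine mul_le_mul (mul_le_mul_of_nonneg_left hM1' (Real.rpow_nonneg hyt.le _)) h5 (norm_nonneg _) ?_
          exact mul_nonneg (Real.rpow_nonneg hyt.le _) hM10
      _ = M1 * (B0 * M2 + C * M3) * ((yr a s - t) ^ (μ - 1) * (yr a s - t)) := by ring
      _ = M1 * (B0 * M2 + C * M3) * (yr a s - t) ^ μ := by rw [h12]
      _ ≤ M1 * (B0 * M2 + C * M3) * (a 1 - a 0 + 1) ^ μ :=
          mul_le_mul_of_nonneg_left h13 (mul_nonneg hM10 hBM)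
  · exact (wt_integrableOn hκ' 1).mul_const _
  · filter_upwards [ae_restrict_mem measurableSet_Ioo] with s hs
    have hy1 : yr a s - a 0 = s * (a 1 - a 0) := yr_sub s
    have hy2 : 0 < yr a s - a 0 := by rw [hy1]; exact mul_pos hs.1 (by linarith)
    have h4 : Tendsto (fun t : ℝ => (t : ℂ)) (𝓝[<] (a 0)) (𝓝 ((a 0 : ℝ) : ℂ)) :=
      (continuous_ofReal.tendsto (a 0)).mono_left nhdsWithin_le_nhds
    refine Tendsto.const_mul _ (Tendsto.mul ?_ ?_)
    · simp only [FP1_real ha hs.2.le]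
      refine Tendsto.mul_const _ ?_
      have h5 : ContinuousAt (fun z : ℂ => ((yr a s : ℂ) - z) ^ ((μ - 1 : ℝ) : ℂ)) ((a 0 : ℝ) : ℂ) := by
        refine ContinuousAt.cpow (continuousAt_const.sub continuousAt_id) continuousAt_const ?_
        left
        rw [← ofReal_sub, ofReal_re]
        exact hy2
      exact h5.tendsto.comp h4
    · refine tendsto_finsetSum _ fun d _ => Tendsto.mul_const _ ?_
      exact (Rr_diff h0 h1 ha d).continuousAt.tendsto.comp h4

end Pool.Agent.Helper67K9.SE
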