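import Pool.Agent.Helper67K9.SE.Lim2

/-!
# The bilinear relations, V: the value
-/

set_option autoImplicit false

open Complex Set MeasureTheory Filter Topology

namespace Pool.Agent.Helper67K9.SE

open Pool.Agent.Y118.HP (ee seg Dm isOpen_Dm InGap mem_Dm_of_im ee_self ee_succAbove ee_im ee_slit seg_slit_lt
  seg_slit_gt continuous_ee differentiable_ee eq_zero_of_open isPreconnected_Dm er er_strictMono ee_ofReal)

/-- the value of the beta integral -/
theorem beta_val {μ : ℝ} (h0 : 0 < μ) (h1 : μ < 1) :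
    ∫ s in Ioo (0 : ℝ) 1, ((s ^ (-μ) * (1 - s) ^ (μ - 1) : ℝ) : ℂ) = Real.pi / Complex.sin (Real.pi * μ) := by
  have h2 := Complex.Gamma_mul_Gamma_eq_betaIntegral (s := ((1 - μ : ℝ) : ℂ)) (t := ((μ : ℝ) : ℂ))
    (by rw [ofReal_re]; linarith) (by rw [ofReal_re]; exact h0)
  have h3 : ((1 - μ : ℝ) : ℂ) + ((μ : ℝ) : ℂ) = 1 := by push_cast; ring
  rw [h3, Complex.Gamma_one, one_mul] at h2
  have h4 := Complex.Gamma_mul_Gamma_one_sub ((μ : ℝ) : ℂ)
  have h5 : ((1 - μ : ℝ) : ℂ) = 1 - ((μ : ℝ) : ℂ) := by push_cast; ring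
  rw [h5, mul_comm] at h2
  rw [← h4, h2, Complex.betaIntegral, intervalIntegral.integral_of_le zero_le_one, integral_Ioc_eq_integral_Ioo]
  refine setIntegral_congr_fun measurableSet_Ioo fun s hs => ?_
  have e1 : (1 - (μ : ℂ) - 1) = ((-μ : ℝ) : ℂ) := by push_cast; ring
  have e2 : ((μ : ℂ) - 1) = ((μ - 1 : ℝ) : ℂ) := by push_cast; ring
  have e3 : (1 - (s : ℂ)) = ((1 - s : ℝ) : ℂ) := by push_cast; ring
  rw [e1, e2, e3, ofReal_mul, ofReal_cpow hs.1.le, ofReal_cpow (by linarith [hs.2])]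

variable {N : ℕ} {a : Fin (N + 2) → ℝ}

/-- the product of the distances to the other points -/
noncomputable def gg (a : Fin (N + 2) → ℝ) (s : ℝ) : ℝ := ∏ i : Fin (N + 1), (a i.succ - yr a s)

/-- the value of the integral over the collapsed segment -/
theorem YY0_val {μ : ℝ} (h0 : 0 < μ) (h1 : μ < 1) (ha : StrictMono a) : YY (kap μ 0) a 0 0 0 (a 0) =
    ((gg a 0 ^ (μ - 1) : ℝ) : ℂ) * (Real.pi / Complex.sin (Real.pi * μ)) := by
  rw [← beta_val h0 h1, ← integral_const_mul, YY0_eq]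
  refine setIntegral_congr_fun measurableSet_Ioo fun s hs => ?_
  have hpos : ∀ i : Fin (N + 1), 0 < a i.succ - a 0 := fun i => sub_pos.2 (ha (Fin.succ_pos i))
  have hg : gg a 0 = ∏ i : Fin (N + 1), (a i.succ - a 0) := by
    unfold gg yr
    refine Finset.prod_congr rfl fun i _ => ?_
    ring
  simp only [seg_self, pow_zero, one_mul]
  rw [hg, ← Real.finsetProd_rpow _ _ fun i _ => (hpos i).le, ofReal_prod]
  have h2 : ∏ i : Fin (N + 1), ((a i.succ : ℂ) - a 0) ^ ((kap μ (0 : Fin (N + 3)) i.succ.succ : ℝ) : ℂ) =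
      ∏ i : Fin (N + 1), (((a i.succ - a 0) ^ (μ - 1) : ℝ) : ℂ) := by
    refine Finset.prod_congr rfl fun i _ => ?_
    rw [kap0_succ, ofReal_cpow (hpos i).le, ofReal_sub (a i.succ) (a 0)]
  rw [h2]
  have h3 : wt (kap μ (0 : Fin (N + 3))) 0 s = s ^ (-μ) * (1 - s) ^ (μ - 1) := by
    unfold wt
    rw [Fin.castSucc_zero, kap0_zero, kap0_succ]
  rw [h3]
  ring

theorem gg_factor (ha : StrictMono a) {s : ℝ} (hs1 : s ≤ 1) (μ : ℝ) :
    gg a s ^ (-μ) = (1 - s) ^ (-μ) * (a 1 - a 0) ^ (-μ) * HH μ a s := by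
  have hL := a01 ha
  unfold gg HH
  rw [Fin.prod_univ_succ]
  have e1 : a (Fin.succ 0) - yr a s = (1 - s) * (a 1 - a 0) := sub_yr s
  rw [e1, Real.mul_rpow (mul_nonneg (by linarith) (by linarith)) (Finset.prod_nonneg fun i _ => (far_pos ha i hs1).le),
    Real.mul_rpow (by linarith) (by linarith), Real.finsetProd_rpow _ _ fun i _ => (far_pos ha i hs1).le]

/-- the real polynomial -/
noncomputable def P0r (a : Fin (N + 2) → ℝ) : Polynomial ℝ := ∏ i : Fin (N + 1), (Polynomial.X - Polynomial.C (a i.succ))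

theorem P0_map (a : Fin (N + 2) → ℝ) : P0 a = (P0r a).map Complex.ofRealHom := by
  unfold P0 P0r
  rw [Polynomial.map_prod]
  simp

theorem P0_deriv_real (x : ℝ) : (Polynomial.derivative (P0 a)).eval (x : ℂ) =
    (((Polynomial.derivative (P0r a)).eval x : ℝ) : ℂ) := by
  rw [P0_map, Polynomial.derivative_map, Polynomial.eval_map]
  exact Polynomial.eval₂_at_apply Complex.ofRealHom x

theorem gg_eq (s : ℝ) : gg a s = (-1) ^ (N + 1) * (P0r a).eval (yr a s) := by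
  unfold gg P0r
  rw [Polynomial.eval_prod]
  have h1 : ((-1 : ℝ) ^ (N + 1)) = ∏ _i : Fin (N + 1), (-1 : ℝ) := by simp
  rw [h1, ← Finset.prod_mul_distrib]
  refine Finset.prod_congr rfl fun i _ => ?_
  simp

theorem hasDerivAt_gg (s : ℝ) : HasDerivAt (gg a)
    ((-1) ^ (N + 1) * ((Polynomial.derivative (P0r a)).eval (yr a s) * (a 1 - a 0))) s := by
  have h1 : HasDerivAt (yr a) (a 1 - a 0) s := by
    unfold yr
    have h2 := (((hasDerivAt_id s).const_sub 1).mul_const (a 0)).add ((hasDerivAt_id s).mul_const (a 1))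
    refine h2.congr_deriv ?_
    ring
  have h2 : HasDerivAt (fun s => (P0r a).eval (yr a s)) ((Polynomial.derivative (P0r a)).eval (yr a s) * (a 1 - a 0)) s :=
    HasDerivAt.comp s ((P0r a).hasDerivAt _) h1
  have h3 := h2.const_mul ((-1 : ℝ) ^ (N + 1))
  have e : (fun s => (-1) ^ (N + 1) * (P0r a).eval (yr a s)) = gg a := funext fun s => (gg_eq s).symm
  rwa [e] at h3

theorem gg_pos (ha : StrictMono a) {s : ℝ} (hs1 : s < 1) : 0 < gg a s := by
  unfold gg
  refine Finset.prod_pos fun i _ => ?_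
  have h1 : a 1 ≤ a i.succ := ha.monotone (by rw [Fin.le_def]; simp)
  have h2 := sub_yr (a := a) s
  have h3 : 0 < (1 - s) * (a 1 - a 0) := mul_pos (by linarith) (by linarith [a01 ha])
  linarith

theorem gg_one : gg a 1 = 0 := by
  unfold gg
  refine Finset.prod_eq_zero (Finset.mem_univ 0) ?_
  have e1 : a (Fin.succ 0) - yr a 1 = (1 - 1) * (a 1 - a 0) := sub_yr 1
  rw [e1]
  ring

/-- the value of the limit -/
theorem limit_val {μ : ℝ} (h0 : 0 < μ) (h1 : μ < 1) (ha : StrictMono a) :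
    ((a 1 : ℂ) - a 0) ^ ((1 - 2 * μ : ℝ) : ℂ) * ∫ s in Ioo (0 : ℝ) 1, (wt (n := N + 2) (kap (1 - μ) 0) 1 s : ℂ) *
      (FP (kap (1 - μ) 0) a 0 1 s (a 0) * ∑ d : Fin (N + 2), Rr μ a (a 0) d * seg (a 0) (a 1) s ^ (d : ℕ)) =
    (-1) ^ (N + 1) * (Real.pi / Complex.sin (Real.pi * μ)) := by
  have hL := a01 ha
  have hL0 : 0 < a 1 - a 0 := by linarith
  -- the primitive
  set h' : ℝ → ℝ := fun s => (-1) ^ (N + 1) * ((Polynomial.derivative (P0r a)).eval (yr a s) * (a 1 - a 0)) *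
    (1 - μ) * gg a s ^ (-μ) with hh'
  have hder : ∀ s ∈ Ioo (0 : ℝ) 1, HasDerivAt (fun s => gg a s ^ (1 - μ)) (h' s) s := by
    intro s hs
    have h2 := (hasDerivAt_gg (a := a) s).rpow_const (p := 1 - μ) (Or.inl (gg_pos ha hs.2).ne')
    refine h2.congr_deriv ?_
    rw [hh']
    simp only
    rw [show (1 - μ - 1 : ℝ) = -μ by ring]
  have hcont : ContinuousOn (fun s => gg a s ^ (1 - μ)) (Icc 0 1) := by
    refine Continuous.continuousOn ?_
    refine (Real.continuous_rpow_const (by linarith)).comp ?_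
    exact (continuous_iff_continuousAt.2 fun s => (hasDerivAt_gg s).continuousAt)
  have hint : IntervalIntegrable h' volume 0 1 := by
    rw [intervalIntegrable_iff_integrableOn_Ioo_of_le zero_le_one]
    set κ'' : Fin (N + 3) → ℝ := fun i => if i = Fin.succ 1 then -μ else 0 with hκ''
    have hκ : ∀ i, -1 < κ'' i := by
      intro i
      rw [hκ'']
      simp only
      split_ifs <;> linarith
    have h2 : ContinuousOn (fun s : ℝ => (((-1) ^ (N + 1) * ((Polynomial.derivative (P0r a)).eval (yr a s) *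
        (a 1 - a 0)) * (1 - μ) * ((a 1 - a 0) ^ (-μ) * HH μ a s) : ℝ) : ℂ)) (Icc 0 1) := by
      refine continuous_ofReal.comp_continuousOn ?_
      refine ContinuousOn.mul ?_ (continuousOn_const.mul (continuousOn_HH μ ha))
      refine Continuous.continuousOn ?_
      exact (continuous_const.mul (((Polynomial.continuous _).comp continuous_yr).mul continuous_const)).mul
        continuous_const
    have h3 := (integrable_wt_mul hκ 1 h2).re
    refine h3.congr ?_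
    filter_upwards [ae_restrict_mem measurableSet_Ioo] with s hs
    have h4 : wt κ'' 1 s = (1 - s) ^ (-μ) := by
      unfold wt
      have e1 : κ'' (Fin.castSucc 1) = 0 := by
        rw [hκ'']
        simp only
        rw [if_neg]
        exact (Fin.castSucc_lt_succ (i := (1 : Fin (N + 2)))).ne
      have e2 : κ'' (Fin.succ 1) = -μ := by
        simp [hκ'']
      rw [e1, e2, Real.rpow_zero, one_mul]
    rw [h4, ← ofReal_mul]
    have h5 : ∀ x : ℝ, RCLike.re ((x : ℝ) : ℂ) = x := fun x => ofReal_re x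
    rw [h5, hh']
    simp only
    rw [gg_factor ha hs.2.le]
    ring
  have hFTC := intervalIntegral.integral_eq_sub_of_hasDerivAt_of_le zero_le_one hcont hder hint
  rw [gg_one, Real.zero_rpow (by linarith), zero_sub, intervalIntegral.integral_of_le zero_le_one,
    integral_Ioc_eq_integral_Ioo] at hFTC
  -- the integrand
  have key : ((a 1 : ℂ) - a 0) ^ ((1 - 2 * μ : ℝ) : ℂ) * ∫ s in Ioo (0 : ℝ) 1,
      (wt (n := N + 2) (kap (1 - μ) 0) 1 s : ℂ) *
      (FP (kap (1 - μ) 0) a 0 1 s (a 0) * ∑ d : Fin (N + 2), Rr μ a (a 0) d * seg (a 0) (a 1) s ^ (d : ℕ)) =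
      (-(-1) ^ (N + 1) * YY (kap μ 0) a 0 0 0 (a 0)) * ∫ s in Ioo (0 : ℝ) 1, (h' s : ℂ) := by
    rw [← integral_const_mul, ← integral_const_mul]
    refine setIntegral_congr_fun measurableSet_Ioo fun s hs => ?_
    have hs' : 0 < 1 - s := by linarith [hs.2]
    have hy1 : yr a s - a 0 = s * (a 1 - a 0) := yr_sub s
    have hy2 : 0 < yr a s - a 0 := by rw [hy1]; exact mul_pos hs.1 hL0
    have hne : (yr a s : ℂ) ≠ a 0 := by
      rw [Ne, ofReal_inj]
      intro h4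
      rw [h4, sub_self] at hy2
      exact lt_irrefl _ hy2
    have hsum : ∑ d : Fin (N + 2), Rr μ a (a 0) d * seg (a 0) (a 1) s ^ (d : ℕ) =
        (-(1 - (μ : ℂ)) * YY (kap μ 0) a 0 0 0 (a 0)) * (((yr a s : ℂ) - a 0) *
          (Polynomial.derivative (P0 a)).eval (yr a s : ℂ)) := by
      rw [← sum_qk _ hne, Finset.mul_sum]
      refine Finset.sum_congr rfl fun d _ => ?_
      rw [Rr_coll, seg_yr]
      ring
    have hwt : wt (n := N + 2) (kap (1 - μ) 0) 1 s = s ^ (-μ) * (1 - s) ^ (-μ) := by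
      unfold wt
      rw [castSucc_one', kap0_succ, kap0_succ, show (1 - μ - 1 : ℝ) = -μ by ring]
    have hreal : (a 1 - a 0) ^ (1 - 2 * μ) * (s ^ (-μ) * (1 - s) ^ (-μ) * ((yr a s - a 0) ^ (μ - 1) * HH μ a s *
        (yr a s - a 0))) = (a 1 - a 0) * gg a s ^ (-μ) := by
      rw [gg_factor ha hs.2.le, hy1]
      have e1 : (s * (a 1 - a 0)) ^ (μ - 1) * (s * (a 1 - a 0)) = s ^ μ * (a 1 - a 0) ^ μ := by
        rw [Real.rpow_sub_one (mul_pos hs.1 hL0).ne', div_mul_cancel₀ _ (mul_pos hs.1 hL0).ne',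
          Real.mul_rpow hs.1.le hL0.le]
      have e2 : s ^ (-μ) * s ^ μ = 1 := by
        rw [← Real.rpow_add hs.1, neg_add_cancel, Real.rpow_zero]
      have e3 : (a 1 - a 0) ^ (1 - 2 * μ) * (a 1 - a 0) ^ μ = (a 1 - a 0) * (a 1 - a 0) ^ (-μ) := by
        have e5 : (a 1 - a 0) * (a 1 - a 0) ^ (-μ) = (a 1 - a 0) ^ (1 : ℝ) * (a 1 - a 0) ^ (-μ) := by
          rw [Real.rpow_one]
        rw [e5, ← Real.rpow_add hL0, ← Real.rpow_add hL0]
        congr 1
        ring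
      calc (a 1 - a 0) ^ (1 - 2 * μ) * (s ^ (-μ) * (1 - s) ^ (-μ) * ((s * (a 1 - a 0)) ^ (μ - 1) * HH μ a s *
          (s * (a 1 - a 0)))) = (a 1 - a 0) ^ (1 - 2 * μ) * (s ^ (-μ) * (1 - s) ^ (-μ) *
            (((s * (a 1 - a 0)) ^ (μ - 1) * (s * (a 1 - a 0))) * HH μ a s)) := by ring
        _ = ((a 1 - a 0) ^ (1 - 2 * μ) * (a 1 - a 0) ^ μ) * (s ^ (-μ) * s ^ μ) * ((1 - s) ^ (-μ) * HH μ a s) := by
          rw [e1]; ring
        _ = (a 1 - a 0) * (a 1 - a 0) ^ (-μ) * ((1 - s) ^ (-μ) * HH μ a s) := by rw [e2, e3, mul_one]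
        _ = _ := by ring
    have hcx : ((a 1 : ℂ) - a 0) ^ ((1 - 2 * μ : ℝ) : ℂ) = (((a 1 - a 0) ^ (1 - 2 * μ) : ℝ) : ℂ) := by
      rw [ofReal_cpow hL0.le, ofReal_sub (a 1) (a 0)]
    have hcy : ((yr a s : ℂ) - ((a 0 : ℝ) : ℂ)) ^ ((μ - 1 : ℝ) : ℂ) = (((yr a s - a 0) ^ (μ - 1) : ℝ) : ℂ) := by
      rw [ofReal_cpow hy2.le, ofReal_sub (yr a s) (a 0)]
    rw [hsum, FP1_real ha hs.2.le, hcx, hcy, hwt, P0_deriv_real]
    have hreal' := congrArg (fun x : ℝ => (x : ℂ)) hreal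
    simp only [ofReal_mul] at hreal'
    have hsq : ((-1 : ℂ) ^ (N + 1)) * (-1) ^ (N + 1) = 1 := by
      rw [← mul_pow]
      norm_num
    rw [hh']
    simp only
    push_cast at hreal' ⊢
    linear_combination (-(1 - (μ : ℂ)) * YY (kap μ 0) a 0 0 0 (a 0) *
      (((Polynomial.derivative (P0r a)).eval (yr a s) : ℝ) : ℂ)) * hreal' +
      (YY (kap μ 0) a 0 0 0 (a 0) * (((Polynomial.derivative (P0r a)).eval (yr a s) : ℝ) : ℂ) *
        ((a 1 : ℂ) - a 0) * (1 - (μ : ℂ)) * ((gg a s ^ (-μ) : ℝ) : ℂ)) * hsq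
  rw [key]
  have hI : ∫ s in Ioo (0 : ℝ) 1, (h' s : ℂ) = ((-gg a 0 ^ (1 - μ) : ℝ) : ℂ) := by
    rw [← hFTC]
    exact integral_ofReal
  rw [hI, YY0_val h0 h1 ha]
  have hg0 : 0 < gg a 0 := gg_pos ha zero_lt_one
  have e4 : gg a 0 ^ (μ - 1) * gg a 0 ^ (1 - μ) = 1 := by
    rw [← Real.rpow_add hg0, show μ - 1 + (1 - μ) = 0 by ring, Real.rpow_zero]
  have e4' : ((gg a 0 ^ (μ - 1) : ℝ) : ℂ) * ((gg a 0 ^ (1 - μ) : ℝ) : ℂ) = 1 := by
    rw [← ofReal_mul, e4, ofReal_one]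
  rw [ofReal_neg]
  linear_combination ((-1) ^ (N + 1) * (Real.pi / Complex.sin (Real.pi * μ)) : ℂ) * e4'

end Pool.Agent.Helper67K9.SE
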