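import Pool.Agent.Helper67K9.SE.FullF
import Pool.Agent.Y890.MV.TorExc

/-!
# Relations between the periods of products of families of superelliptic curves
-/

set_option autoImplicit false
set_option linter.unusedSectionVars false

open Matrix Filter NumberField

namespace Pool.Agent.Helper67K9.SE

open Pool.Agent.Y118.HP (ee seg Dm isOpen_Dm InGap mem_Dm_of_im isPreconnected_Dm)
open Pool.Agent.Y890.MV
open Pool.Agent.Y890.SP (Qbar ioQ ioQ_coe)
open Pool.Agent.Y124 (Cov)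

/-! ### Polynomials as sums over exponents -/

section poly

variable {σ : Type} [Fintype σ] [DecidableEq σ] {R S : Type} [CommRing R] [CommRing S]

/-- exponents -/
noncomputable def fs {k : ℕ} (l : σ → Fin (k + 1)) : σ →₀ ℕ := Finsupp.equivFunOnFinite.symm fun y => (l y : ℕ)

theorem fs_apply {k : ℕ} (l : σ → Fin (k + 1)) (y : σ) : fs l y = l y := rfl

theorem fs_inj {k : ℕ} : Function.Injective (fs (σ := σ) (k := k)) := by
  intro l l' h
  funext y
  have h1 := DFunLike.congr_fun h y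
  rw [fs_apply, fs_apply] at h1
  exact Fin.ext h1

theorem ev_sum (φ : R →+* S) (v : σ → S) {k : ℕ} {P : MvPolynomial σ R} (hP : P.totalDegree ≤ k) :
    MvPolynomial.eval₂ φ v P = ∑ l : σ → Fin (k + 1), φ (P.coeff (fs l)) * ∏ y, v y ^ (l y : ℕ) := by
  classical
  rw [MvPolynomial.eval₂_eq']
  have h1 : ∑ l : σ → Fin (k + 1), φ (P.coeff (fs l)) * ∏ y, v y ^ (l y : ℕ) =
      ∑ d ∈ Finset.univ.image (fs (σ := σ) (k := k)), φ (P.coeff d) * ∏ y, v y ^ d y := by
    rw [Finset.sum_image fun a _ b _ h => fs_inj h]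
    rfl
  rw [h1]
  refine Finset.sum_subset ?_ ?_
  · intro d hd
    have h2 : ∀ y, d y ≤ k := by
      intro y
      have h3 := MvPolynomial.le_totalDegree hd
      have h4 : d y ≤ d.sum fun _ e => e := by
        by_cases h5 : y ∈ d.support
        · exact Finset.single_le_sum (f := fun i => d i) (fun _ _ => Nat.zero_le _) h5
        · rw [Finsupp.notMem_support_iff.1 h5]
          exact Nat.zero_le _
      exact h4.trans (h3.trans hP)
    rw [Finset.mem_image]
    refine ⟨fun y => ⟨d y, Nat.lt_succ_of_le (h2 y)⟩, Finset.mem_univ _, ?_⟩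
    ext y
    rfl
  · intro d _ hd
    rw [MvPolynomial.notMem_support_iff.1 hd, map_zero, zero_mul]

/-- exponents of one more variable -/
noncomputable def fo {k : ℕ} (l : σ → Fin (k + 1)) (a : Fin (k + 1)) : Option σ →₀ ℕ := fs (σ := Option σ) fun o => o.elim a l

theorem ev_sum_option (φ : R →+* S) (w : S) (v : σ → S) {k : ℕ} {P : MvPolynomial (Option σ) R}
    (hP : P.totalDegree ≤ k) : MvPolynomial.eval₂ φ (fun o : Option σ => o.elim w v) P =
      ∑ l : σ → Fin (k + 1), (∑ a : Fin (k + 1), w ^ (a : ℕ) * φ (P.coeff (fo l a))) * ∏ y, v y ^ (l y : ℕ) := by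
  classical
  rw [ev_sum φ _ hP]
  let e : (Fin (k + 1) × (σ → Fin (k + 1))) ≃ (Option σ → Fin (k + 1)) :=
    { toFun := fun p o => o.elim p.1 p.2
      invFun := fun L => (L none, fun s => L (some s))
      left_inv := fun p => rfl
      right_inv := fun L => by
        funext o
        cases o <;> rfl }
  rw [← e.sum_comp, Fintype.sum_prod_type, Finset.sum_comm]
  refine Finset.sum_congr rfl fun l _ => ?_
  rw [Finset.sum_mul]
  refine Finset.sum_congr rfl fun a _ => ?_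
  rw [Fintype.prod_option]
  show φ (P.coeff (fo l a)) * (w ^ (a : ℕ) * ∏ y, v y ^ (l y : ℕ)) = _
  ring

end poly

variable {B : Type} [Fintype B] [DecidableEq B] (F : B → Fam)

/-- the periods at a point -/
noncomputable def perP (x : B → ℂ) : ∀ b, Fin (F b).e → Matrix (Fin (F b).n) (Fin (F b).n) ℂ :=
  fun b r => PM ((F b).μ r) (F b).a (F b).m (x b)

/-- the periods of the dual exponents at a point -/
noncomputable def perQ (x : B → ℂ) : ∀ b, Fin (F b).e → Matrix (Fin (F b).n) (Fin (F b).n) ℂ :=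
  fun b r => PM (1 - (F b).μ r) (F b).a (F b).m (x b)

theorem pt_per (x : B → ℂ) : pt F (perP F x) (perQ F x) = fun q => ff F q x := by
  funext q
  obtain ⟨b, q | q⟩ := q <;> rfl

/-- the torsor with given determinants and multiplier `2 π i` -/
def Tor1 (x : B → ℂ) (Y Y' : ∀ b, Fin (F b).e → Matrix (Fin (F b).n) (Fin (F b).n) ℂ) : Prop :=
  ∀ b r, (Y b r).det = (perP F x b r).det ∧ Y b r * KM ((F b).μ r) (F b).a (x b) * (Y' b r).transpose =
    (tp / (zt ((F b).μ r) - (zt ((F b).μ r))⁻¹)) • EC (zt ((F b).μ r)) (F b).m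

/-- the torsor -/
def Tor2 (x : B → ℂ) (Y Y' : ∀ b, Fin (F b).e → Matrix (Fin (F b).n) (Fin (F b).n) ℂ) (lam : ℂ) : Prop :=
  lam ≠ 0 ∧ (∀ b r, Y b r * KM ((F b).μ r) (F b).a (x b) * (Y' b r).transpose =
    (lam / (zt ((F b).μ r) - (zt ((F b).μ r))⁻¹)) • EC (zt ((F b).μ r)) (F b).m) ∧
  ∀ q : MvPolynomial (Option (Jx F)) Qbar,
    MvPolynomial.aeval (fun o : Option (Jx F) => o.elim tp fun j => (perP F x j.1 j.2).det) q = 0 →
    MvPolynomial.aeval (fun o : Option (Jx F) => o.elim lam fun j => (Y j.1 j.2).det) q = 0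

/-- polynomials of bounded degree and size -/
def Small {σ : Type} {K : Type} [Field K] [NumberField K] (k : ℕ) (T : ℝ) (P : MvPolynomial σ (𝓞 K)) : Prop :=
  P.totalDegree ≤ k ∧ ∀ s (φ : K →+* ℂ), ‖φ (algebraMap (𝓞 K) K (P.coeff s))‖ ≤ T ^ k

/-- all relations of bounded degree and size are generic -/
def Gen (k : ℕ) (K : Type) [Field K] [NumberField K] (io : K →+* ℂ) (ξ : Fin k → ℂ) (T : ℝ) (x : B → ℂ) : Prop :=
  (∀ P : Fin k → MvPolynomial (Ix F) (𝓞 K), (∀ a, Small k T (P a)) →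
    ∑ a, ξ a * MvPolynomial.eval₂ (io.comp (algebraMap (𝓞 K) K)) (pt F (perP F x) (perQ F x)) (P a) = 0 →
    ∀ Y Y', Tor1 F x Y Y' → ∑ a, ξ a * MvPolynomial.eval₂ (io.comp (algebraMap (𝓞 K) K)) (pt F Y Y') (P a) = 0) ∧
  ((∀ b i, IsAlgebraic ℚ ((F b).a i : ℂ)) → (∀ b r, ∃ q : ℚ, (F b).μ r = q) →
    ∀ P : MvPolynomial (Option (Ix F)) (𝓞 K), Small k T P →
    MvPolynomial.eval₂ (io.comp (algebraMap (𝓞 K) K)) (fun o : Option (Ix F) => o.elim tp
      (pt F (perP F x) (perQ F x))) P = 0 →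
    ∀ Y Y' lam, Tor2 F x Y Y' lam →
      MvPolynomial.eval₂ (io.comp (algebraMap (𝓞 K) K)) (fun o : Option (Ix F) => o.elim lam (pt F Y Y')) P = 0)

/-- the exceptional points -/
def Exc (k : ℕ) (K : Type) [Field K] [NumberField K] (io : K →+* ℂ) (ξ : Fin k → ℂ) (T : ℝ) : Set (B → K) :=
  {e | (∀ b, Y120.HtLe K T (e b)) ∧ (fun b => io (e b)) ∈ InnerM (UF F) k ∧ ¬ Gen F k K io ξ T (fun b => io (e b))}

theorem exc_sub (k : ℕ) (hk : 0 < k) (K : Type) [Field K] [NumberField K] (io : K →+* ℂ) (ξ : Fin k → ℂ) (T : ℝ) :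
    Exc F k K io ξ T ⊆ ExcT k (ff F) (TF F) (InnerM (UF F) k) K io ξ (k : ℝ) T ∪
      ExcT k (ff F) (TF F) (InnerM (UF F) k) K io (fun a : Fin (k + 1) => tp ^ (a : ℕ)) (k : ℝ) T := by
  classical
  rintro e ⟨h1, h2, h3⟩
  by_contra hcon
  rw [Set.mem_union, not_or] at hcon
  obtain ⟨h4, h5⟩ := hcon
  apply h3
  have hx := innerM_sub _ hk h2
  set x : B → ℂ := fun b => io (e b) with hxd
  have hper : pt F (perP F x) (perQ F x) = fun q => ff F q x := pt_per F x
  have hdet : ∀ b r, (perP F x b r).det = (F b).c r := fun b r => (F b).c_spec r (hx b)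
  refine ⟨fun P hP h6 Y Y' hY => ?_, fun hA hμ P hP h6 Y Y' lam hY => ?_⟩
  · have key : ∀ v : Ix F → ℂ, ∑ a, ξ a * MvPolynomial.eval₂ (io.comp (algebraMap (𝓞 K) K)) v (P a) =
        ∑ l : Ix F → Fin (k + 1), (∑ a, ξ a * io (algebraMap (𝓞 K) K ((P a).coeff (fs l)))) * ∏ y, v y ^ (l y : ℕ) := by
      intro v
      have h7 : ∀ a, MvPolynomial.eval₂ (io.comp (algebraMap (𝓞 K) K)) v (P a) =
          ∑ l : Ix F → Fin (k + 1), io (algebraMap (𝓞 K) K ((P a).coeff (fs l))) * ∏ y, v y ^ (l y : ℕ) := fun a =>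
        ev_sum _ v (hP a).1
      simp only [h7, Finset.mul_sum, Finset.sum_mul]
      rw [Finset.sum_comm]
      refine Finset.sum_congr rfl fun l _ => Finset.sum_congr rfl fun a _ => ?_
      ring
    rw [key]
    rw [key, hper] at h6
    by_contra hne
    refine h4 ⟨h1, h2, fun l a => (P a).coeff (fs l), fun l a φ => ?_, h6, fun h8 => hne (h8 _ ?_)⟩
    · rw [Real.rpow_natCast]
      exact (hP a).2 _ φ
    · intro b r
      obtain ⟨h9, h10⟩ := hY b r
      have e1 : mtr (fun q : Fin (F b).e × Fin (F b).n × Fin (F b).n =>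
          (fun s => pt F Y Y' ⟨b, s⟩) (Sum.inl q)) r = Y b r := by
        ext i j
        rfl
      have e2 : mtr (fun q : Fin (F b).e × Fin (F b).n × Fin (F b).n =>
          (fun s => pt F Y Y' ⟨b, s⟩) (Sum.inr q)) r = Y' b r := by
        ext i j
        rfl
      rw [e1, e2]
      exact ⟨by rw [h9, hdet], by rw [h10, Fam.E_eq]⟩
  · have key : ∀ (w : ℂ) (v : Ix F → ℂ), MvPolynomial.eval₂ (io.comp (algebraMap (𝓞 K) K))
        (fun o : Option (Ix F) => o.elim w v) P = ∑ l : Ix F → Fin (k + 1),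
          (∑ a : Fin (k + 1), w ^ (a : ℕ) * io (algebraMap (𝓞 K) K (P.coeff (fo l a)))) * ∏ y, v y ^ (l y : ℕ) := fun w v =>
      ev_sum_option _ w v hP.1
    rw [key]
    rw [key, hper] at h6
    obtain ⟨hlam, hY1, hY2⟩ := hY
    refine full_F F (fun b i => Al_iff.2 (hA b i)) hμ io e (fun l a => algebraMap (𝓞 K) K (P.coeff (fo l a))) ?_ hlam hY1 ?_
    · by_contra hne
      refine h5 ⟨h1, h2, fun l a => P.coeff (fo l a), fun l a φ => ?_, h6, fun h8 => hne h8⟩
      rw [Real.rpow_natCast]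
      exact hP.2 _ φ
    · simp only [hdet] at hY2
      exact hY2

/-- **Sparsity of the exceptional points.** -/
theorem main_exc [Nonempty B] :
    ∃ (ω : ℝ → ℕ) (T₀ : ℝ), Tendsto ω atTop atTop ∧ Monotone ω ∧ ∀ T, T₀ ≤ T → 0 < ω T ∧
      ∀ (K : Type) [Field K] [NumberField K], Module.finrank ℚ K ≤ ω T → ∀ (io : K →+* ℂ) (ξ : Fin (ω T) → ℂ),
        Cov ⌊T ^ ((ω T : ℝ)⁻¹)⌋₊ ⌊T ^ ((ω T : ℝ)⁻¹)⌋₊
          ((fun (e : B → K) j => io (e j)) '' Exc F (ω T) K io ξ T) ∧
        (Exc F (ω T) K io ξ T).Finite ∧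
        ((Exc F (ω T) K io ξ T).ncard : ℝ) ≤
          T ^ ((ω T : ℝ)⁻¹) * ({x : K | Y120.HtLe K T x}.ncard : ℝ) ^ (Fintype.card B - 1) := by
  classical
  refine omega_gen (fun k => Fin k → ℂ) (fun k K _ _ io ξ T => Exc F k K io ξ T)
    (fun k K _ _ io ξ T s hs => hs.1) ?_
  intro k ε hε
  rcases Nat.eq_zero_or_pos k with hk | hk
  · refine ⟨0, 0, 2, le_rfl, le_rfl, ?_⟩
    intro K _ _ hK
    have h1 : 0 < Module.finrank ℚ K := Module.finrank_pos
    omega
  obtain ⟨D, C, T₀, hC, hT₀, H⟩ := excT_cov (UF_conn F) (UF_open F) (UF_nonempty F) (ff_an F) (torM_F F)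
    (InnerM (UF F) k) (innerM_compact _ _) (innerM_sub _ hk) k (Fin k) k (k : ℝ) ε hε
  obtain ⟨D', C', T₀', hC', hT₀', H'⟩ := excT_cov (UF_conn F) (UF_open F) (UF_nonempty F) (ff_an F) (torM_F F)
    (InnerM (UF F) k) (innerM_compact _ _) (innerM_sub _ hk) k (Fin (k + 1)) k (k : ℝ) ε hε
  refine ⟨max D D', C + C', max T₀ T₀', by positivity, le_max_of_le_left hT₀, fun K _ _ hK io ξ T hT0 => ?_⟩
  have h1 := (H K hK io ξ T ((le_max_left _ _).trans hT0)).mono (le_max_left D D') le_rfl le_rfl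
  have h2 := (H' K hK io (fun a : Fin (k + 1) => tp ^ (a : ℕ)) T ((le_max_right _ _).trans hT0)).mono
    (le_max_right D D') le_rfl le_rfl
  have h3 := h1.union h2
  rw [← Set.image_union] at h3
  refine h3.mono le_rfl ?_ (Set.image_mono (exc_sub F k hk K io ξ T))
  have hT : (0 : ℝ) < T := by
    have := (le_max_left T₀ T₀').trans hT0
    linarith
  have h4 : (0 : ℝ) ≤ C * T ^ ε := by positivity
  have h5 : (0 : ℝ) ≤ C' * T ^ ε := by positivity
  apply Nat.le_floor
  push_cast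
  have h6 := Nat.floor_le h4
  have h7 := Nat.floor_le h5
  linarith

end Pool.Agent.Helper67K9.SE
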