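import Pool.Agent.Helper67K9.SE.Conn
import Pool.Agent.Y118.HP.FI

/-!
# The differential equation of the periods
-/

set_option autoImplicit false

open Complex Set MeasureTheory Filter Topology

namespace Pool.Agent.Helper67K9.SE

open Pool.Agent.Y118.HP (ee seg Dm isOpen_Dm InGap mem_Dm_of_im ee_self ee_succAbove ee_im ee_slit seg_slit_lt
  seg_slit_gt continuous_ee differentiable_ee eq_zero_of_open)

variable {n : ℕ}

/-- logarithmic derivatives of products -/
theorem hasDerivAt_prod_log {𝕜 : Type*} [NontriviallyNormedField 𝕜] [NormedAlgebra 𝕜 ℂ] {τ : Type*} (S : Finset τ)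
    {f : τ → 𝕜 → ℂ} {g : τ → ℂ} {x : 𝕜} (h : ∀ i ∈ S, HasDerivAt (f i) (f i x * g i) x) :
    HasDerivAt (fun y => ∏ i ∈ S, f i y) ((∏ i ∈ S, f i x) * ∑ i ∈ S, g i) x := by
  classical
  induction S using Finset.induction_on with
  | empty =>
    simp only [Finset.prod_empty, Finset.sum_empty, mul_zero]
    exact hasDerivAt_const _ _
  | insert i S hi ih =>
    simp only [Finset.prod_insert hi, Finset.sum_insert hi]
    have h1 := h i (Finset.mem_insert_self i S)
    have h2 := ih fun k hk => h k (Finset.mem_insert_of_mem hk)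
    refine (h1.mul h2).congr_deriv ?_
    ring

theorem seg_sub_left (p q : ℂ) (s : ℝ) : seg p q s - p = s * (q - p) := by unfold seg; ring

theorem seg_sub_right (p q : ℂ) (s : ℝ) : seg p q s - q = -(1 - s) * (q - p) := by unfold seg; ring

theorem hasDerivAt_seg (p q : ℂ) (s : ℝ) : HasDerivAt (fun s : ℝ => seg p q s) (q - p) s := by
  unfold seg
  have h1 : HasDerivAt (fun s : ℝ => (s : ℂ)) 1 s := by
    simpa using (hasDerivAt_id s).ofReal_comp
  have h2 := ((h1.const_sub 1).mul_const p).add (h1.mul_const q)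
  refine h2.congr_deriv ?_
  ring

theorem cpow_sub_one_eq {w : ℂ} (hw : w ≠ 0) (c : ℂ) : w ^ (c - 1) = w ^ c / w := by
  rw [cpow_sub _ _ hw, cpow_one]

theorem cpow_comp {f : ℝ → ℂ} {f' : ℂ} {s : ℝ} (c : ℂ) (hf : HasDerivAt f f' s) (h : f s ∈ slitPlane) :
    HasDerivAt (fun s : ℝ => f s ^ c) (f s ^ c * (c * f' / f s)) s := by
  have h1 : HasDerivAt (fun w : ℂ => w ^ c) (c * f s ^ (c - 1) * 1) (f s) := (hasDerivAt_id (f s)).cpow_const h
  refine (HasDerivAt.comp s h1 hf).congr_deriv ?_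
  rw [cpow_sub_one_eq (slitPlane_ne_zero h)]
  ring

theorem seg_ne {a : Fin n → ℝ} (ha : StrictMono a) {m : Fin (n + 1)} {z : ℂ} (hz : z ∈ Dm a m) (l : Fin n)
    {s : ℝ} (hs : s ∈ Ioo (0 : ℝ) 1) (i : Fin (n + 1)) :
    seg (ee a m z l.castSucc) (ee a m z l.succ) s - ee a m z i ≠ 0 := by
  have hpq := slitPlane_ne_zero (ee_slit ha hz (Fin.castSucc_lt_succ (i := l)))
  have hs0 : (s : ℂ) ≠ 0 := ofReal_ne_zero.2 hs.1.ne'
  have hs1 : (1 - s : ℂ) ≠ 0 := by
    have : (1 - s : ℝ) ≠ 0 := by linarith [hs.2]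
    exact_mod_cast this
  rcases lt_trichotomy i l.castSucc with h | h | h
  · exact slitPlane_ne_zero (seg_slit_lt ha hz h hs.1.le hs.2.le)
  · rw [h, seg_sub_left]
    exact mul_ne_zero hs0 hpq
  · rcases eq_or_lt_of_le (Fin.castSucc_lt_iff_succ_le.1 h) with h' | h'
    · rw [← h', seg_sub_right]
      exact mul_ne_zero (neg_ne_zero.2 hs1) hpq
    · have h1 := slitPlane_ne_zero (seg_slit_gt ha hz h' hs.1.le hs.2.le)
      intro h2
      apply h1
      rw [← neg_sub, h2, neg_zero]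

/-- the logarithmic derivative of the factors, along the segment -/
theorem hasDerivAt_fac_s (κ : Fin (n + 1) → ℝ) {a : Fin n → ℝ} (ha : StrictMono a) {m : Fin (n + 1)} {z : ℂ}
    (hz : z ∈ Dm a m) (l : Fin n) (i : Fin (n + 1)) {s : ℝ} (hs : s ∈ Ioo (0 : ℝ) 1) :
    HasDerivAt (fun s : ℝ => fac κ (ee a m z) l i (seg (ee a m z l.castSucc) (ee a m z l.succ) s))
      (fac κ (ee a m z) l i (seg (ee a m z l.castSucc) (ee a m z l.succ) s) *
        (if i = l.castSucc ∨ i = l.succ then 0 else (ee a m z l.succ - ee a m z l.castSucc) *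
          (κ i / (seg (ee a m z l.castSucc) (ee a m z l.succ) s - ee a m z i)))) s := by
  have hne := seg_ne ha hz l hs i
  have hseg := hasDerivAt_seg (ee a m z l.castSucc) (ee a m z l.succ) s
  unfold fac
  by_cases h1 : i < l.castSucc
  · have h2 : ¬ (i = l.castSucc ∨ i = l.succ) := by
      rintro (h | h)
      · exact h1.ne h
      · exact (h1.trans Fin.castSucc_lt_succ).ne h
    simp only [if_pos h1, if_neg h2]
    have h3 := cpow_comp (κ i : ℂ) (hseg.sub_const (ee a m z i)) (seg_slit_lt ha hz h1 hs.1.le hs.2.le)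
    refine h3.congr_deriv ?_
    ring
  · by_cases h1' : l.succ < i
    · have h2 : ¬ (i = l.castSucc ∨ i = l.succ) := by
        rintro (h | h)
        · exact (Fin.castSucc_lt_succ.trans h1').ne' h
        · exact h1'.ne' h
      simp only [if_neg h1, if_pos h1', if_neg h2]
      have h3 := cpow_comp (κ i : ℂ) (hseg.const_sub (ee a m z i)) (seg_slit_gt ha hz h1' hs.1.le hs.2.le)
      refine h3.congr_deriv ?_
      have e : ee a m z i - seg (ee a m z l.castSucc) (ee a m z l.succ) s =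
        -(seg (ee a m z l.castSucc) (ee a m z l.succ) s - ee a m z i) := by ring
      rw [e, div_neg]
      ring
    · have h2 : i = l.castSucc ∨ i = l.succ := by
        rcases eq_or_lt_of_le (not_lt.1 h1) with h | h
        · exact Or.inl h.symm
        · right
          exact le_antisymm (not_lt.1 h1') (Fin.castSucc_lt_iff_succ_le.1 h)
      simp only [if_neg h1, if_neg h1', if_pos h2, mul_zero]
      exact hasDerivAt_const _ _

theorem hasDerivAt_wt (κ : Fin (n + 1) → ℝ) (l : Fin n) {s : ℝ} (hs : s ∈ Ioo (0 : ℝ) 1) :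
    HasDerivAt (fun s : ℝ => (wt κ l s : ℂ)) ((wt κ l s : ℂ) * (κ l.castSucc / s - κ l.succ / (1 - s))) s := by
  have h1 : HasDerivAt (fun s : ℝ => s ^ κ l.castSucc) (κ l.castSucc * s ^ (κ l.castSucc - 1)) s := by
    simpa using Real.hasDerivAt_rpow_const (Or.inl hs.1.ne')
  have hs' : 1 - s ≠ 0 := by linarith [hs.2]
  have h2 : HasDerivAt (fun s : ℝ => (1 - s) ^ κ l.succ) (-1 * κ l.succ * (1 - s) ^ (κ l.succ - 1)) s :=
    HasDerivAt.rpow_const ((hasDerivAt_id s).const_sub 1) (Or.inl hs')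
  have h3 := (h1.mul h2).ofReal_comp
  refine h3.congr_deriv ?_
  rw [Real.rpow_sub_one hs.1.ne', Real.rpow_sub_one hs']
  unfold wt
  have e1 : (s : ℂ) ≠ 0 := ofReal_ne_zero.2 hs.1.ne'
  have e2 : (1 - s : ℂ) ≠ 0 := by exact_mod_cast hs'
  push_cast
  field_simp
  ring

/-- the weight function along the segment -/
noncomputable def WW (κ : Fin (n + 1) → ℝ) (a : Fin n → ℝ) (m : Fin (n + 1)) (l : Fin n) (s : ℝ) (z : ℂ) : ℂ :=
  (wt κ l s : ℂ) * ∏ i, fac κ (ee a m z) l i (seg (ee a m z l.castSucc) (ee a m z l.succ) s)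

theorem hasDerivAt_WW (κ : Fin (n + 1) → ℝ) {a : Fin n → ℝ} (ha : StrictMono a) {m : Fin (n + 1)} {z : ℂ}
    (hz : z ∈ Dm a m) (l : Fin n) {s : ℝ} (hs : s ∈ Ioo (0 : ℝ) 1) :
    HasDerivAt (fun s : ℝ => WW κ a m l s z) (WW κ a m l s z * ((ee a m z l.succ - ee a m z l.castSucc) *
      ∑ i, κ i / (seg (ee a m z l.castSucc) (ee a m z l.succ) s - ee a m z i))) s := by
  have h1 := (hasDerivAt_wt κ l hs).mul (hasDerivAt_prod_log Finset.univ fun i _ => hasDerivAt_fac_s κ ha hz l i hs)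
  refine h1.congr_deriv ?_
  set p := ee a m z l.castSucc with hp
  set q := ee a m z l.succ with hq
  have hpq : q - p ≠ 0 := slitPlane_ne_zero (ee_slit ha hz (Fin.castSucc_lt_succ (i := l)))
  have e1 : (s : ℂ) ≠ 0 := ofReal_ne_zero.2 hs.1.ne'
  have e2 : (1 - s : ℂ) ≠ 0 := by
    have : (1 - s : ℝ) ≠ 0 := by linarith [hs.2]
    exact_mod_cast this
  have h2 : ∀ i : Fin (n + 1), (q - p) * ((κ i : ℂ) / (seg p q s - ee a m z i)) =
      (if i = l.castSucc ∨ i = l.succ then 0 else (q - p) * ((κ i : ℂ) / (seg p q s - ee a m z i))) +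
      ((if i = l.castSucc then (κ l.castSucc / s : ℂ) else 0) +
        (if i = l.succ then (-(κ l.succ / (1 - s)) : ℂ) else 0)) := by
    intro i
    have hne : l.castSucc ≠ l.succ := (Fin.castSucc_lt_succ (i := l)).ne
    by_cases h3 : i = l.castSucc
    · subst h3
      rw [if_pos (Or.inl rfl), if_pos rfl, if_neg hne, ← hp, seg_sub_left]
      field_simp
      ring
    · by_cases h4 : i = l.succ
      · subst h4
        rw [if_pos (Or.inr rfl), if_neg h3, if_pos rfl, ← hq, seg_sub_right]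
        field_simp
        ring
      · rw [if_neg (by tauto), if_neg h3, if_neg h4]
        ring
  have h3 : (q - p) * ∑ i, (κ i : ℂ) / (seg p q s - ee a m z i) =
      (κ l.castSucc / s - κ l.succ / (1 - s)) +
      ∑ i, (if i = l.castSucc ∨ i = l.succ then 0 else (q - p) * ((κ i : ℂ) / (seg p q s - ee a m z i))) := by
    rw [Finset.mul_sum, Finset.sum_congr rfl fun i _ => h2 i, Finset.sum_add_distrib, Finset.sum_add_distrib,
      Finset.sum_ite_eq' Finset.univ, Finset.sum_ite_eq' Finset.univ, if_pos (Finset.mem_univ _),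
      if_pos (Finset.mem_univ _)]
    ring
  rw [h3]
  unfold WW
  ring

/-- the polynomial with the zeros `a i` -/
noncomputable def Pa (a : Fin n → ℝ) : Polynomial ℂ := ∏ i, (Polynomial.X - Polynomial.C (a i : ℂ))

theorem Pa_eval (a : Fin n → ℝ) (x : ℂ) : (Pa a).eval x = ∏ i, (x - a i) := by
  unfold Pa
  rw [Polynomial.eval_prod]
  simp

theorem Pa_deriv_eval (a : Fin n → ℝ) {x : ℂ} (hx : ∀ i, x - a i ≠ 0) :
    (Polynomial.derivative (Pa a)).eval x = (Pa a).eval x * ∑ i, 1 / (x - a i) := by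
  have h1 : HasDerivAt (fun y : ℂ => ∏ i, (y - a i)) ((∏ i, (x - a i)) * ∑ i, 1 / (x - a i)) x := by
    refine hasDerivAt_prod_log Finset.univ fun i _ => ?_
    refine ((hasDerivAt_id x).sub_const (a i : ℂ)).congr_deriv ?_
    rw [mul_one_div_cancel (hx i)]
  have h2 := (Pa a).hasDerivAt x
  have h3 : (fun y => (Pa a).eval y) = fun y : ℂ => ∏ i, (y - a i) := funext fun y => Pa_eval a y
  rw [h3] at h2
  rw [h2.unique h1, Pa_eval]

theorem Pa_natDegree (a : Fin n → ℝ) : (Pa a).natDegree = n := by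
  unfold Pa
  rw [Polynomial.natDegree_prod_of_monic _ _ fun i _ => Polynomial.monic_X_sub_C _]
  simp

theorem Pa_monic (a : Fin n → ℝ) : (Pa a).Monic := by
  unfold Pa
  exact Polynomial.monic_prod_of_monic _ _ fun i _ => Polynomial.monic_X_sub_C _

theorem sum_kap (μ : ℝ) (a : Fin n → ℝ) (m : Fin (n + 1)) (z x : ℂ) :
    ∑ i, (kap μ m i : ℂ) / (x - ee a m z i) = -μ / (x - z) + (μ - 1) * ∑ i : Fin n, 1 / (x - a i) := by
  rw [Fin.sum_univ_succAbove _ m, ee_self, kap_self, Finset.mul_sum]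
  push_cast
  congr 1
  refine Finset.sum_congr rfl fun i _ => ?_
  rw [ee_succAbove, kap_ne μ (Fin.succAbove_ne m i)]
  push_cast
  ring

/-- the exact form -/
theorem hasDerivAt_exact (μ : ℝ) {a : Fin n → ℝ} (ha : StrictMono a) {m : Fin (n + 1)} {z : ℂ}
    (hz : z ∈ Dm a m) (l : Fin n) {s : ℝ} (hs : s ∈ Ioo (0 : ℝ) 1) :
    HasDerivAt (fun s : ℝ => WW (kap μ m) a m l s z * (Pa a).eval (seg (ee a m z l.castSucc) (ee a m z l.succ) s))
      ((ee a m z l.succ - ee a m z l.castSucc) * μ * (WW (kap μ m) a m l s z *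
        ((Polynomial.derivative (Pa a)).eval (seg (ee a m z l.castSucc) (ee a m z l.succ) s) -
          (Pa a).eval (seg (ee a m z l.castSucc) (ee a m z l.succ) s) /
          (seg (ee a m z l.castSucc) (ee a m z l.succ) s - z)))) s := by
  have h1 := hasDerivAt_WW (kap μ m) ha hz l hs
  have h2 : HasDerivAt (fun s : ℝ => (Pa a).eval (seg (ee a m z l.castSucc) (ee a m z l.succ) s))
      ((Polynomial.derivative (Pa a)).eval (seg (ee a m z l.castSucc) (ee a m z l.succ) s) *
        (ee a m z l.succ - ee a m z l.castSucc)) s :=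
    HasDerivAt.comp s ((Pa a).hasDerivAt _) (hasDerivAt_seg _ _ s)
  refine (h1.mul h2).congr_deriv ?_
  set x := seg (ee a m z l.castSucc) (ee a m z l.succ) s with hx
  have h3 : ∀ i : Fin n, x - a i ≠ 0 := by
    intro i
    have := seg_ne ha hz l hs (m.succAbove i)
    rwa [ee_succAbove] at this
  rw [sum_kap, Pa_deriv_eval a h3]
  ring

end Pool.Agent.Helper67K9.SE
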