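import Pool.Agent.Helper67K9.SE.Ode

/-!
# The differential equation of the periods, II: fixed segments
-/

set_option autoImplicit false

open Complex Set MeasureTheory Filter Topology

namespace Pool.Agent.Helper67K9.SE

open Pool.Agent.Y118.HP (ee seg Dm isOpen_Dm InGap mem_Dm_of_im ee_self ee_succAbove ee_im ee_slit seg_slit_lt
  seg_slit_gt continuous_ee differentiable_ee eq_zero_of_open)

variable {n : ℕ}

theorem ee_const (a : Fin n → ℝ) {m k : Fin (n + 1)} (h : k ≠ m) (z z' : ℂ) : ee a m z k = ee a m z' k := by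
  obtain ⟨i, rfl⟩ := Fin.exists_succAbove_eq h
  rw [ee_succAbove, ee_succAbove]

theorem integrable_wt_mul {κ : Fin (n + 1) → ℝ} (hκ : ∀ i, -1 < κ i) (l : Fin n) {f : ℝ → ℂ}
    (hf : ContinuousOn f (Icc 0 1)) : Integrable (fun s : ℝ => (wt κ l s : ℂ) * f s) (volume.restrict (Ioo 0 1)) := by
  obtain ⟨M, hM⟩ := isCompact_Icc.exists_bound_of_continuousOn hf
  refine Integrable.mono' ((wt_integrableOn hκ l).mul_const M) ?_ ?_
  · refine ContinuousOn.aestronglyMeasurable ?_ measurableSet_Ioo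
    exact (continuous_ofReal.comp_continuousOn (continuousOn_wt κ l)).mul (hf.mono Ioo_subset_Icc_self)
  · filter_upwards [ae_restrict_mem measurableSet_Ioo] with s hs
    rw [norm_mul, norm_real, Real.norm_eq_abs, abs_of_nonneg (wt_nonneg κ l hs.1.le hs.2.le)]
    exact mul_le_mul_of_nonneg_left (hM s ⟨hs.1.le, hs.2.le⟩) (wt_nonneg κ l hs.1.le hs.2.le)

/-- the product of the regular factors -/
noncomputable def FP (κ : Fin (n + 1) → ℝ) (a : Fin n → ℝ) (m : Fin (n + 1)) (l : Fin n) (s : ℝ) (z : ℂ) : ℂ :=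
  ∏ i, fac κ (ee a m z) l i (seg (ee a m z l.castSucc) (ee a m z l.succ) s)

theorem WW_eq (κ : Fin (n + 1) → ℝ) (a : Fin n → ℝ) (m : Fin (n + 1)) (l : Fin n) (s : ℝ) (z : ℂ) :
    WW κ a m l s z = (wt κ l s : ℂ) * FP κ a m l s z := rfl

theorem KK_eq (κ : Fin (n + 1) → ℝ) (a : Fin n → ℝ) (m : Fin (n + 1)) (l : Fin n) (j : ℕ) (s : ℝ) (z : ℂ) :
    KK κ a m l j s z = seg (ee a m z l.castSucc) (ee a m z l.succ) s ^ j * FP κ a m l s z := rfl

theorem continuousAt_FP (κ : Fin (n + 1) → ℝ) {a : Fin n → ℝ} (ha : StrictMono a) {m : Fin (n + 1)} (l : Fin n)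
    {u : ℝ} (hu0 : 0 ≤ u) (hu1 : u ≤ 1) {z : ℂ} (hz : z ∈ Dm a m) :
    ContinuousAt (fun p : ℝ × ℂ => FP κ a m l p.1 p.2) (u, z) := by
  have h := continuousAt_KK κ ha l 0 hu0 hu1 hz
  have e : (fun p : ℝ × ℂ => KK κ a m l 0 p.1 p.2) = fun p : ℝ × ℂ => FP κ a m l p.1 p.2 := by
    funext p
    rw [KK_eq, pow_zero, one_mul]
  rwa [e] at h

theorem continuousOn_FP (κ : Fin (n + 1) → ℝ) {a : Fin n → ℝ} (ha : StrictMono a) {m : Fin (n + 1)} (l : Fin n)
    {z : ℂ} (hz : z ∈ Dm a m) : ContinuousOn (fun s : ℝ => FP κ a m l s z) (Icc 0 1) := by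
  intro s hs
  refine ContinuousAt.continuousWithinAt ?_
  have h1 := continuousAt_FP κ ha l hs.1 hs.2 hz
  have h2 : ContinuousAt (fun s : ℝ => (s, z)) s := by fun_prop
  exact ContinuousAt.comp (f := fun s : ℝ => (s, z)) (g := fun p : ℝ × ℂ => FP κ a m l p.1 p.2) h1 h2

theorem continuous_seg (p q : ℂ) : Continuous fun s : ℝ => seg p q s := by
  unfold seg
  have h3 : Continuous fun s : ℝ => (s : ℂ) := continuous_ofReal
  exact ((continuous_const.sub h3).mul continuous_const).add (h3.mul continuous_const)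

section fixed

variable {a : Fin n → ℝ} {m : Fin (n + 1)} {l : Fin n}

theorem seg_sub_ne (ha : StrictMono a) (h1 : l.castSucc ≠ m) (h2 : l.succ ≠ m) {z : ℂ} (hz : z ∈ Dm a m) {u : ℝ}
    (hu0 : 0 ≤ u) (hu1 : u ≤ 1) : seg (ee a m z l.castSucc) (ee a m z l.succ) u - z ≠ 0 := by
  rcases lt_or_gt_of_ne h1 with h | h
  · have h3 : l.succ < m := lt_of_le_of_ne (Fin.castSucc_lt_iff_succ_le.1 h) h2
    have h4 := slitPlane_ne_zero (seg_slit_gt ha hz h3 hu0 hu1)
    rw [ee_self] at h4
    intro h5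
    apply h4
    rw [← neg_sub, h5, neg_zero]
  · have h4 := slitPlane_ne_zero (seg_slit_lt ha hz h hu0 hu1)
    rwa [ee_self] at h4

theorem seg_const (h1 : l.castSucc ≠ m) (h2 : l.succ ≠ m) (u : ℝ) (z z' : ℂ) :
    seg (ee a m z l.castSucc) (ee a m z l.succ) u = seg (ee a m z' l.castSucc) (ee a m z' l.succ) u := by
  rw [ee_const a h1 z z', ee_const a h2 z z']

/-- the derivative with respect to the moving point -/
theorem hasDerivAt_FP (μ : ℝ) (ha : StrictMono a) (h1 : l.castSucc ≠ m) (h2 : l.succ ≠ m) {z : ℂ} (hz : z ∈ Dm a m)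
    {u : ℝ} (hu0 : 0 ≤ u) (hu1 : u ≤ 1) : HasDerivAt (fun z => FP (kap μ m) a m l u z)
      (FP (kap μ m) a m l u z * (μ / (seg (ee a m z l.castSucc) (ee a m z l.succ) u - z))) z := by
  have hne := seg_sub_ne ha h1 h2 hz hu0 hu1
  set x := seg (ee a m z l.castSucc) (ee a m z l.succ) u with hx
  have hxc : ∀ z', seg (ee a m z' l.castSucc) (ee a m z' l.succ) u = x := fun z' => seg_const h1 h2 u z' z
  have e : (fun z => FP (kap μ m) a m l u z) = fun z => ∏ i, fac (kap μ m) (ee a m z) l i x := by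
    funext z'
    unfold FP
    rw [hxc]
  rw [e]
  have key : HasDerivAt (fun z => ∏ i, fac (kap μ m) (ee a m z) l i x)
      ((∏ i, fac (kap μ m) (ee a m z) l i x) * ∑ i, if i = m then (μ / (x - z) : ℂ) else 0) z := by
    refine hasDerivAt_prod_log Finset.univ fun i _ => ?_
    by_cases him : i = m
    · subst him
      rw [if_pos rfl]
      rcases lt_or_gt_of_ne h1 with h | h
      · have h3 : l.succ < i := lt_of_le_of_ne (Fin.castSucc_lt_iff_succ_le.1 h) h2
        have h4 := seg_slit_gt ha hz h3 hu0 hu1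
        rw [ee_self, ← hx] at h4
        have e1 : (fun z => fac (kap μ i) (ee a i z) l i x) = fun z => (z - x) ^ ((kap μ i i : ℝ) : ℂ) := by
          funext z'
          unfold fac
          rw [if_neg (not_lt.2 h.le), if_pos h3, ee_self]
        have e2 : fac (kap μ i) (ee a i z) l i x = (z - x) ^ ((kap μ i i : ℝ) : ℂ) := congrFun e1 z
        rw [e1, e2]
        refine (((hasDerivAt_id z).sub_const x).cpow_const h4).congr_deriv ?_
        rw [id, cpow_sub_one_eq (slitPlane_ne_zero h4), kap_self]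
        have e3 : z - x = -(x - z) := by ring
        rw [e3, div_neg]
        push_cast
        ring
      · have h4 := seg_slit_lt ha hz h hu0 hu1
        rw [ee_self, ← hx] at h4
        have e1 : (fun z => fac (kap μ i) (ee a i z) l i x) = fun z => (x - z) ^ ((kap μ i i : ℝ) : ℂ) := by
          funext z'
          unfold fac
          rw [if_pos h, ee_self]
        have e2 : fac (kap μ i) (ee a i z) l i x = (x - z) ^ ((kap μ i i : ℝ) : ℂ) := congrFun e1 z
        rw [e1, e2]
        refine (((hasDerivAt_id z).const_sub x).cpow_const h4).congr_deriv ?_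
        rw [id, cpow_sub_one_eq (slitPlane_ne_zero h4), kap_self]
        push_cast
        ring
    · rw [if_neg him, mul_zero]
      have e1 : (fun z => fac (kap μ m) (ee a m z) l i x) = fun _ => fac (kap μ m) (ee a m z) l i x := by
        funext z'
        unfold fac
        rw [ee_const a him z' z]
      rw [e1]
      exact hasDerivAt_const _ _
  refine key.congr_deriv ?_
  rw [Finset.sum_ite_eq' Finset.univ, if_pos (Finset.mem_univ _)]
  unfold FP
  rw [hxc]

/-- the integrals without the constant -/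
noncomputable def YY (κ : Fin (n + 1) → ℝ) (a : Fin n → ℝ) (m : Fin (n + 1)) (l : Fin n) (j : ℕ) (z : ℂ) : ℂ :=
  ∫ s in Ioo (0 : ℝ) 1, (wt κ l s : ℂ) * KK κ a m l j s z

/-- the integral with a pole at the moving point -/
noncomputable def JJ (κ : Fin (n + 1) → ℝ) (a : Fin n → ℝ) (m : Fin (n + 1)) (l : Fin n) (j : ℕ) (z : ℂ) : ℂ :=
  ∫ s in Ioo (0 : ℝ) 1, (wt κ l s : ℂ) * (KK κ a m l j s z *
    (1 / (seg (ee a m z l.castSucc) (ee a m z l.succ) s - z)))

theorem hasDerivAt_YY {μ : ℝ} (h0 : 0 < μ) (h1' : μ < 1) (ha : StrictMono a) (h1 : l.castSucc ≠ m) (h2 : l.succ ≠ m)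
    (j : ℕ) {z : ℂ} (hz : z ∈ Dm a m) :
    HasDerivAt (fun z => YY (kap μ m) a m l j z) (μ * JJ (kap μ m) a m l j z) z := by
  set κ := kap μ m with hκd
  have hκ : ∀ i, -1 < κ i := kap_gt h0 h1' m
  have hKK : ∀ z' ∈ Dm a m, ∀ u : ℝ, 0 ≤ u → u ≤ 1 → HasDerivAt (fun z => KK κ a m l j u z)
      (KK κ a m l j u z' * (μ / (seg (ee a m z' l.castSucc) (ee a m z' l.succ) u - z'))) z' := by
    intro z' hz' u hu0 hu1
    have h3 := hasDerivAt_FP μ ha h1 h2 hz' hu0 hu1
    have e : (fun z => KK κ a m l j u z) =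
        fun z => seg (ee a m z' l.castSucc) (ee a m z' l.succ) u ^ j * FP κ a m l u z := by
      funext w
      rw [KK_eq, seg_const h1 h2 u w z']
    rw [e]
    refine (h3.const_mul _).congr_deriv ?_
    rw [KK_eq]
    ring
  have hcont : ContinuousOn (fun p : ℝ × ℂ => KK κ a m l j p.1 p.2 *
      (μ / (seg (ee a m p.2 l.castSucc) (ee a m p.2 l.succ) p.1 - p.2))) (Icc 0 1 ×ˢ Dm a m) := by
    rintro ⟨u, w⟩ ⟨hu, hw⟩
    refine ContinuousAt.continuousWithinAt ?_
    refine (continuousAt_KK κ ha l j hu.1 hu.2 hw).mul ?_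
    refine ContinuousAt.div continuousAt_const ?_ (seg_sub_ne ha h1 h2 hw hu.1 hu.2)
    have hseg : Continuous fun p : ℝ × ℂ => seg (ee a m p.2 l.castSucc) (ee a m p.2 l.succ) p.1 := by
      unfold seg
      have h1 : Continuous fun p : ℝ × ℂ => ee a m p.2 l.castSucc :=
        (continuous_ee a m l.castSucc).comp continuous_snd
      have h2 : Continuous fun p : ℝ × ℂ => ee a m p.2 l.succ :=
        (continuous_ee a m l.succ).comp continuous_snd
      have h3 : Continuous fun p : ℝ × ℂ => (p.1 : ℂ) := continuous_ofReal.comp continuous_fst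
      exact ((continuous_const.sub h3).mul h1).add (h3.mul h2)
    exact (hseg.sub continuous_snd).continuousAt
  obtain ⟨r, hr, hball⟩ := Metric.nhds_basis_closedBall.mem_iff.1 ((isOpen_Dm a m).mem_nhds hz)
  obtain ⟨M, hM⟩ := (isCompact_Icc.prod (isCompact_closedBall z r)).exists_bound_of_continuousOn
    (hcont.mono (prod_mono le_rfl hball))
  have hKc : ∀ w ∈ Dm a m, ContinuousOn (fun s : ℝ => KK κ a m l j s w) (Icc 0 1) := by
    intro w hw
    have h3 := continuousOn_FP κ ha l hw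
    have e : (fun s : ℝ => KK κ a m l j s w) =
        fun s : ℝ => seg (ee a m w l.castSucc) (ee a m w l.succ) s ^ j * FP κ a m l s w := rfl
    rw [e]
    exact (((continuous_seg _ _).pow j).continuousOn).mul h3
  have hJc : ContinuousOn (fun s : ℝ => KK κ a m l j s z *
      (μ / (seg (ee a m z l.castSucc) (ee a m z l.succ) s - z))) (Icc 0 1) := by
    refine (hKc z hz).mul ?_
    refine ContinuousOn.div continuousOn_const (((continuous_seg _ _).sub continuous_const).continuousOn) ?_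
    intro s hs
    exact seg_sub_ne ha h1 h2 hz hs.1 hs.2
  have key := hasDerivAt_integral_of_dominated_loc_of_deriv_le (μ := volume.restrict (Ioo (0 : ℝ) 1))
    (F := fun z s => (wt κ l s : ℂ) * KK κ a m l j s z)
    (F' := fun z s => (wt κ l s : ℂ) * (KK κ a m l j s z *
      (μ / (seg (ee a m z l.castSucc) (ee a m z l.succ) s - z))))
    (x₀ := z) (s := Metric.ball z r) (bound := fun s => wt κ l s * M) (Metric.ball_mem_nhds z hr) ?_ ?_ ?_ ?_ ?_ ?_
  · refine key.2.congr_deriv ?_
    unfold JJ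
    rw [← integral_const_mul]
    refine integral_congr_ae (Eventually.of_forall fun s => ?_)
    simp only
    ring
  · filter_upwards [(isOpen_Dm a m).mem_nhds hz] with w hw
    exact (integrable_wt_mul hκ l (hKc w hw)).aestronglyMeasurable
  · exact integrable_wt_mul hκ l (hKc z hz)
  · exact (integrable_wt_mul hκ l hJc).aestronglyMeasurable
  · filter_upwards [ae_restrict_mem measurableSet_Ioo] with s hs
    intro w hw
    rw [norm_mul, norm_real, Real.norm_eq_abs, abs_of_nonneg (wt_nonneg κ l hs.1.le hs.2.le)]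
    exact mul_le_mul_of_nonneg_left (hM (s, w) ⟨⟨hs.1.le, hs.2.le⟩, Metric.ball_subset_closedBall hw⟩)
      (wt_nonneg κ l hs.1.le hs.2.le)
  · exact (wt_integrableOn hκ l).mul_const M
  · filter_upwards [ae_restrict_mem measurableSet_Ioo] with s hs
    intro w hw
    exact (hKK w (hball (Metric.ball_subset_closedBall hw)) s hs.1.le hs.2.le).const_mul _

end fixed

end Pool.Agent.Helper67K9.SE
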