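import Pool.Agent.Helper67K9.SE.Ode2

/-!
# The differential equation of the periods, III: the equation for fixed segments
-/

set_option autoImplicit false

open Complex Set MeasureTheory Filter Topology

namespace Pool.Agent.Helper67K9.SE

open Pool.Agent.Y118.HP (ee seg Dm isOpen_Dm InGap mem_Dm_of_im ee_self ee_succAbove ee_im ee_slit seg_slit_lt
  seg_slit_gt continuous_ee differentiable_ee eq_zero_of_open)

variable {n : ℕ}

section fixed

variable {a : Fin n → ℝ} {m : Fin (n + 1)} {l : Fin n}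

/-- the polynomial vanishes at both ends of the segment -/
theorem Pa_factor (h1 : l.castSucc ≠ m) (h2 : l.succ ≠ m) (z : ℂ) :
    ∃ S : Finset (Fin n), ∀ x : ℂ, (Pa a).eval x =
      (x - ee a m z l.castSucc) * ((x - ee a m z l.succ) * ∏ i ∈ S, (x - a i)) := by
  classical
  obtain ⟨i1, h3⟩ := Fin.exists_succAbove_eq h1
  obtain ⟨i2, h4⟩ := Fin.exists_succAbove_eq h2
  have hne : i2 ≠ i1 := by
    rintro rfl
    exact (Fin.castSucc_lt_succ (i := l)).ne (h3.symm.trans h4)
  refine ⟨(Finset.univ.erase i1).erase i2, fun x => ?_⟩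
  rw [Pa_eval, ← Finset.mul_prod_erase _ _ (Finset.mem_univ i1),
    ← Finset.mul_prod_erase (Finset.univ.erase i1) _ (Finset.mem_erase.2 ⟨hne, Finset.mem_univ i2⟩), ← h3, ← h4,
    ee_succAbove, ee_succAbove]

/-- the integral of the exact form vanishes -/
theorem exact_zero {μ : ℝ} (h0 : 0 < μ) (h1' : μ < 1) (ha : StrictMono a) (h1 : l.castSucc ≠ m) (h2 : l.succ ≠ m)
    {z : ℂ} (hz : z ∈ Dm a m) :
    ∫ s in Ioo (0 : ℝ) 1, WW (kap μ m) a m l s z *
        ((Polynomial.derivative (Pa a)).eval (seg (ee a m z l.castSucc) (ee a m z l.succ) s) -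
          (Pa a).eval (seg (ee a m z l.castSucc) (ee a m z l.succ) s) /
          (seg (ee a m z l.castSucc) (ee a m z l.succ) s - z)) = 0 := by
  obtain ⟨S, hS⟩ := Pa_factor (a := a) h1 h2 z
  set κ := kap μ m with hκd
  set p := ee a m z l.castSucc with hp
  set q := ee a m z l.succ with hq
  have hκ : ∀ i, -1 < κ i := kap_gt h0 h1' m
  have hpq : q - p ≠ 0 := slitPlane_ne_zero (ee_slit ha hz (Fin.castSucc_lt_succ (i := l)))
  have hκ1 : κ l.castSucc = μ - 1 := kap_ne μ h1
  have hκ2 : κ l.succ = μ - 1 := kap_ne μ h2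
  -- the continuous extension
  set Φ : ℝ → ℂ := fun s => ((s ^ μ * (1 - s) ^ μ : ℝ) : ℂ) * (FP κ a m l s z *
    (-(q - p) ^ 2 * ∏ i ∈ S, (seg p q s - a i))) with hΦ
  have hΦc : ContinuousOn Φ (Icc 0 1) := by
    refine ContinuousOn.mul ?_ ((continuousOn_FP κ ha l hz).mul ?_)
    · refine Continuous.continuousOn ?_
      refine continuous_ofReal.comp ?_
      refine Continuous.mul ?_ ?_
      · exact Real.continuous_rpow_const h0.le
      · exact (Real.continuous_rpow_const h0.le).comp (by fun_prop)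
    · refine Continuous.continuousOn (continuous_const.mul ?_)
      exact continuous_finsetProd _ fun i _ => (continuous_seg _ _).sub continuous_const
  have hΦe : ∀ s ∈ Ioo (0 : ℝ) 1, Φ s = WW κ a m l s z * (Pa a).eval (seg p q s) := by
    intro s hs
    have hs' : 0 < 1 - s := by linarith [hs.2]
    rw [hS, seg_sub_left, seg_sub_right, hΦ, WW_eq]
    simp only
    unfold wt
    rw [hκ1, hκ2, Real.rpow_sub_one hs.1.ne', Real.rpow_sub_one hs'.ne']
    have e1 : (s : ℂ) ≠ 0 := ofReal_ne_zero.2 hs.1.ne'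
    have e2 : (1 - s : ℂ) ≠ 0 := by
      have : (1 - s : ℝ) ≠ 0 := hs'.ne'
      exact_mod_cast this
    push_cast
    field_simp
  set Dv : ℝ → ℂ := fun s => (q - p) * μ * (WW κ a m l s z *
        ((Polynomial.derivative (Pa a)).eval (seg p q s) - (Pa a).eval (seg p q s) / (seg p q s - z))) with hDv
  have hder : ∀ s ∈ Ioo (0 : ℝ) 1, HasDerivAt Φ (Dv s) s := by
    intro s hs
    refine (hasDerivAt_exact μ ha hz l hs).congr_of_eventuallyEq ?_
    filter_upwards [isOpen_Ioo.mem_nhds hs] with u hu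
    exact hΦe u hu
  have hint : Integrable Dv (volume.restrict (Ioo 0 1)) := by
    refine Integrable.const_mul ?_ _
    have h3 : ContinuousOn (fun s => FP κ a m l s z * ((Polynomial.derivative (Pa a)).eval (seg p q s) -
        (Pa a).eval (seg p q s) / (seg p q s - z))) (Icc 0 1) := by
      refine (continuousOn_FP κ ha l hz).mul (ContinuousOn.sub ?_ (ContinuousOn.div ?_ ?_ ?_))
      · exact ((Polynomial.continuous _).comp (continuous_seg _ _)).continuousOn
      · exact ((Polynomial.continuous _).comp (continuous_seg _ _)).continuousOn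
      · exact ((continuous_seg _ _).sub continuous_const).continuousOn
      · intro s hs
        exact seg_sub_ne ha h1 h2 hz hs.1 hs.2
    refine (integrable_wt_mul hκ l h3).congr (Eventually.of_forall fun s => ?_)
    simp only [WW_eq]
    ring
  have hII : IntervalIntegrable Dv volume 0 1 := by
    rw [intervalIntegrable_iff_integrableOn_Ioo_of_le zero_le_one]
    exact hint
  have key := intervalIntegral.integral_eq_sub_of_hasDerivAt_of_le zero_le_one hΦc hder hII
  have hΦ0 : Φ 0 = 0 := by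
    simp only [hΦ, Real.zero_rpow h0.ne', zero_mul, ofReal_zero]
  have hΦ1 : Φ 1 = 0 := by
    simp only [hΦ, sub_self, Real.zero_rpow h0.ne', zero_mul, mul_zero, ofReal_zero]
  rw [hΦ0, hΦ1, sub_self, intervalIntegral.integral_of_le zero_le_one, integral_Ioc_eq_integral_Ioo, hDv,
    integral_const_mul] at key
  have hμ : (μ : ℂ) ≠ 0 := ofReal_ne_zero.2 h0.ne'
  exact (mul_eq_zero.1 key).resolve_left (mul_ne_zero hpq hμ)

end fixed

/-- the coefficients of the divided differences -/
noncomputable def dd (n : ℕ) (g : Polynomial ℂ) (k : ℕ) (z : ℂ) : ℂ :=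
  ∑ r ∈ Finset.range (n + 1), if k < r then g.coeff r * z ^ (r - 1 - k) else 0

theorem dd_spec {n : ℕ} {g : Polynomial ℂ} (hg : g.natDegree ≤ n) (x z : ℂ) :
    g.eval x - g.eval z = (x - z) * ∑ k : Fin n, x ^ (k : ℕ) * dd n g k z := by
  rw [Polynomial.eval_eq_sum_range' (Nat.lt_succ_of_le hg) x, Polynomial.eval_eq_sum_range' (Nat.lt_succ_of_le hg) z,
    ← Finset.sum_sub_distrib]
  have h1 : ∀ r ∈ Finset.range (n + 1), g.coeff r * x ^ r - g.coeff r * z ^ r =
      (x - z) * ∑ k ∈ Finset.range n, x ^ k * (if k < r then g.coeff r * z ^ (r - 1 - k) else 0) := by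
    intro r hr
    have hr' : r ≤ n := Nat.lt_succ_iff.1 (Finset.mem_range.1 hr)
    rw [← mul_sub, ← geom_sum₂_mul, ← Finset.sum_subset (Finset.range_subset_range.2 hr')]
    · rw [mul_comm (x - z), Finset.sum_mul, Finset.sum_mul, Finset.mul_sum]
      refine Finset.sum_congr rfl fun k hk => ?_
      rw [if_pos (Finset.mem_range.1 hk)]
      ring
    · intro k _ hk
      rw [if_neg (by simpa using hk), mul_zero]
  rw [Finset.sum_congr rfl h1, ← Finset.mul_sum, Finset.sum_comm, Finset.sum_range]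
  congr 1
  refine Finset.sum_congr rfl fun k _ => ?_
  rw [← Finset.mul_sum]
  rfl

theorem dd_diag {n : ℕ} {g : Polynomial ℂ} (hg : g.natDegree ≤ n) (z : ℂ) :
    ∑ k : Fin n, z ^ (k : ℕ) * dd n g k z = (Polynomial.derivative g).eval z := by
  have h1 : HasDerivAt (fun x : ℂ => (x - z) * ∑ k : Fin n, x ^ (k : ℕ) * dd n g k z)
      (∑ k : Fin n, z ^ (k : ℕ) * dd n g k z) z := by
    have h2 : DifferentiableAt ℂ (fun x : ℂ => ∑ k : Fin n, x ^ (k : ℕ) * dd n g k z) z := by fun_prop
    refine (((hasDerivAt_id z).sub_const z).mul h2.hasDerivAt).congr_deriv ?_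
    simp
  have h2 : HasDerivAt (fun x : ℂ => g.eval x - g.eval z) ((Polynomial.derivative g).eval z) z :=
    (g.hasDerivAt z).sub_const _
  have h3 : (fun x : ℂ => g.eval x - g.eval z) = fun x : ℂ => (x - z) * ∑ k : Fin n, x ^ (k : ℕ) * dd n g k z :=
    funext fun x => dd_spec hg x z
  rw [h3] at h2
  exact h1.unique h2

theorem dd_X_pow {n j : ℕ} (hj : j < n) (k : ℕ) (z : ℂ) :
    dd n (Polynomial.X ^ j) k z = if k < j then z ^ (j - 1 - k) else 0 := by
  unfold dd
  rw [Finset.sum_eq_single j]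
  · simp
  · intro r _ hr
    rw [Polynomial.coeff_X_pow, if_neg hr, zero_mul, ite_self]
  · intro h
    exact absurd (Finset.mem_range.2 (by omega)) h

/-- the coefficients of the polynomial in the equation -/
noncomputable def qk (a : Fin n → ℝ) (k : ℕ) (z : ℂ) : ℂ := (Polynomial.derivative (Pa a)).coeff k - dd n (Pa a) k z

/-- the matrix of the differential equation -/
noncomputable def MM (μ : ℝ) (a : Fin n → ℝ) (z : ℂ) : Matrix (Fin n) (Fin n) ℂ :=
  Matrix.of fun k j => μ * (z ^ (j : ℕ) / (Pa a).eval z * qk a k z + dd n (Polynomial.X ^ (j : ℕ)) k z)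

theorem Pa_deriv_eval_sum (a : Fin n → ℝ) (x : ℂ) :
    (Polynomial.derivative (Pa a)).eval x = ∑ k : Fin n, x ^ (k : ℕ) * (Polynomial.derivative (Pa a)).coeff k := by
  rcases Nat.eq_zero_or_pos n with h | h
  · subst h
    simp [Pa]
  · have h1 : (Polynomial.derivative (Pa a)).natDegree < n := by
      have h2 := Polynomial.natDegree_derivative_lt (p := Pa a) (by rw [Pa_natDegree]; omega)
      rwa [Pa_natDegree] at h2
    rw [Polynomial.eval_eq_sum_range' h1 x, Finset.sum_range]
    exact Finset.sum_congr rfl fun k _ => mul_comm _ _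

theorem MM_trace (μ : ℝ) (a : Fin n → ℝ) (z : ℂ) : (MM μ a z).trace = 0 := by
  unfold Matrix.trace MM
  simp only [Matrix.diag_apply, Matrix.of_apply]
  rw [← Finset.mul_sum, Finset.sum_add_distrib]
  have h1 : ∑ j : Fin n, dd n (Polynomial.X ^ (j : ℕ)) j z = 0 := by
    refine Finset.sum_eq_zero fun j _ => ?_
    rw [dd_X_pow j.2, if_neg (lt_irrefl _)]
  have h2 : ∑ j : Fin n, z ^ (j : ℕ) / (Pa a).eval z * qk a j z = 0 := by
    have h3 : ∀ j : Fin n, z ^ (j : ℕ) / (Pa a).eval z * qk a j z =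
        (z ^ (j : ℕ) * (Polynomial.derivative (Pa a)).coeff j - z ^ (j : ℕ) * dd n (Pa a) j z) / (Pa a).eval z := by
      intro j
      unfold qk
      ring
    rw [Finset.sum_congr rfl fun j _ => h3 j, ← Finset.sum_div, Finset.sum_sub_distrib, ← Pa_deriv_eval_sum,
      dd_diag (Pa_natDegree a).le, sub_self, zero_div]
  rw [h1, h2]
  ring

section fixed

variable {a : Fin n → ℝ} {m : Fin (n + 1)} {l : Fin n}

theorem sum_int {ρ : Measure ℝ} {F : Fin n → ℝ → ℂ} (hF : ∀ k, Integrable (F k) ρ) (c : Fin n → ℂ) :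
    ∑ k, (∫ s, F k s ∂ρ) * c k = ∫ s, ∑ k, F k s * c k ∂ρ := by
  rw [integral_finsetSum _ fun k _ => (hF k).mul_const (c k)]
  exact Finset.sum_congr rfl fun k _ => (integral_mul_const _ _).symm

theorem int_KK {μ : ℝ} (h0 : 0 < μ) (h1' : μ < 1) (ha : StrictMono a) {z : ℂ} (hz : z ∈ Dm a m) (j : ℕ) :
    Integrable (fun s : ℝ => (wt (kap μ m) l s : ℂ) * KK (kap μ m) a m l j s z) (volume.restrict (Ioo 0 1)) :=
  integrable_wt_mul (kap_gt h0 h1' m) l ((((continuous_seg _ _).pow j).continuousOn).mul (continuousOn_FP _ ha l hz))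

theorem int_J {μ : ℝ} (h0 : 0 < μ) (h1' : μ < 1) (ha : StrictMono a) (h1 : l.castSucc ≠ m) (h2 : l.succ ≠ m)
    {z : ℂ} (hz : z ∈ Dm a m) (j : ℕ) :
    Integrable (fun s : ℝ => (wt (kap μ m) l s : ℂ) * (KK (kap μ m) a m l j s z *
      (1 / (seg (ee a m z l.castSucc) (ee a m z l.succ) s - z)))) (volume.restrict (Ioo 0 1)) := by
  refine integrable_wt_mul (kap_gt h0 h1' m) l ?_
  refine ((((continuous_seg _ _).pow j).continuousOn).mul (continuousOn_FP _ ha l hz)).mul ?_
  refine ContinuousOn.div continuousOn_const (((continuous_seg _ _).sub continuous_const).continuousOn) ?_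
  intro s hs
  exact seg_sub_ne ha h1 h2 hz hs.1 hs.2

theorem JJ_eq {μ : ℝ} (h0 : 0 < μ) (h1' : μ < 1) (ha : StrictMono a) (h1 : l.castSucc ≠ m) (h2 : l.succ ≠ m)
    {z : ℂ} (hz : z ∈ Dm a m) (g : Polynomial ℂ) (hg : g.natDegree ≤ n) :
    ∫ s in Ioo (0 : ℝ) 1, (wt (kap μ m) l s : ℂ) * (FP (kap μ m) a m l s z *
      (g.eval (seg (ee a m z l.castSucc) (ee a m z l.succ) s) /
        (seg (ee a m z l.castSucc) (ee a m z l.succ) s - z))) =
    g.eval z * JJ (kap μ m) a m l 0 z + ∑ k : Fin n, YY (kap μ m) a m l k z * dd n g k z := by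
  unfold JJ YY
  rw [← integral_const_mul, sum_int (fun k : Fin n => int_KK h0 h1' ha hz (k : ℕ)) fun k : Fin n => dd n g k z,
    ← integral_add]
  · refine setIntegral_congr_fun measurableSet_Ioo fun s hs => ?_
    have hne := seg_sub_ne ha h1 h2 hz hs.1.le hs.2.le
    have h4 := dd_spec hg (seg (ee a m z l.castSucc) (ee a m z l.succ) s) z
    simp only [KK_eq, pow_zero, one_mul]
    set x := seg (ee a m z l.castSucc) (ee a m z l.succ) s with hx
    have h5 : g.eval x = g.eval z + (x - z) * ∑ k : Fin n, x ^ (k : ℕ) * dd n g k z := by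
      rw [← h4]; ring
    have h6 : ∑ k : Fin n, (wt (kap μ m) l s : ℂ) * (x ^ (k : ℕ) * FP (kap μ m) a m l s z) * dd n g k z =
        (wt (kap μ m) l s : ℂ) * FP (kap μ m) a m l s z * ∑ k : Fin n, x ^ (k : ℕ) * dd n g k z := by
      rw [Finset.mul_sum]
      refine Finset.sum_congr rfl fun k _ => ?_
      ring
    rw [h6, h5]
    field_simp
  · exact (int_J h0 h1' ha h1 h2 hz 0).const_mul _
  · exact integrable_finsetSum _ fun k _ => (int_KK h0 h1' ha hz k).mul_const _

/-- the differential equation of the integrals over fixed segments -/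
theorem ode_YY {μ : ℝ} (h0 : 0 < μ) (h1' : μ < 1) (ha : StrictMono a) (h1 : l.castSucc ≠ m) (h2 : l.succ ≠ m)
    {z : ℂ} (hz : z ∈ Dm a m) (j : Fin n) :
    HasDerivAt (fun z => YY (kap μ m) a m l j z) (∑ k : Fin n, YY (kap μ m) a m l k z * MM μ a z k j) z := by
  refine (hasDerivAt_YY h0 h1' ha h1 h2 j hz).congr_deriv ?_
  have hP : (Pa a).eval z ≠ 0 := by
    rw [Pa_eval, Finset.prod_ne_zero_iff]
    intro i _
    rcases lt_or_ge i.castSucc m with h | h
    · have h3 := slitPlane_ne_zero (ee_slit ha hz ((Fin.succAbove_lt_iff_castSucc_lt m i).2 h))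
      rwa [ee_self, ee_succAbove] at h3
    · have h3 := slitPlane_ne_zero (ee_slit ha hz ((Fin.lt_succAbove_iff_le_castSucc m i).2 h))
      rw [ee_self, ee_succAbove] at h3
      intro h4
      apply h3
      rw [← neg_sub, h4, neg_zero]
  -- the pole part
  have hX : JJ (kap μ m) a m l j z = z ^ (j : ℕ) * JJ (kap μ m) a m l 0 z +
      ∑ k : Fin n, YY (kap μ m) a m l k z * dd n (Polynomial.X ^ (j : ℕ)) k z := by
    have h3 := JJ_eq h0 h1' ha h1 h2 hz (Polynomial.X ^ (j : ℕ)) (by rw [Polynomial.natDegree_X_pow]; exact j.2.le)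
    rw [Polynomial.eval_pow, Polynomial.eval_X] at h3
    rw [← h3]
    unfold JJ
    refine integral_congr_ae (Eventually.of_forall fun s => ?_)
    simp only [KK_eq, Polynomial.eval_pow, Polynomial.eval_X]
    ring
  have hE : (Pa a).eval z * JJ (kap μ m) a m l 0 z = ∑ k : Fin n, YY (kap μ m) a m l k z * qk a k z := by
    have h3 := JJ_eq h0 h1' ha h1 h2 hz (Pa a) (Pa_natDegree a).le
    have h4 := exact_zero h0 h1' ha h1 h2 hz
    have h5 : ∫ s in Ioo (0 : ℝ) 1, (wt (kap μ m) l s : ℂ) * (FP (kap μ m) a m l s z *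
        (Polynomial.derivative (Pa a)).eval (seg (ee a m z l.castSucc) (ee a m z l.succ) s)) =
        ∑ k : Fin n, YY (kap μ m) a m l k z * (Polynomial.derivative (Pa a)).coeff k := by
      unfold YY
      rw [sum_int (fun k : Fin n => int_KK h0 h1' ha hz (k : ℕ)) fun k : Fin n =>
        (Polynomial.derivative (Pa a)).coeff k]
      refine integral_congr_ae (Eventually.of_forall fun s => ?_)
      simp only [KK_eq]
      rw [Pa_deriv_eval_sum, Finset.mul_sum, Finset.mul_sum]
      refine Finset.sum_congr rfl fun k _ => ?_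
      ring
    have hc1 : ContinuousOn (fun s : ℝ => FP (kap μ m) a m l s z *
        (Polynomial.derivative (Pa a)).eval (seg (ee a m z l.castSucc) (ee a m z l.succ) s)) (Icc 0 1) :=
      (continuousOn_FP _ ha l hz).mul ((Polynomial.continuous _).comp (continuous_seg _ _)).continuousOn
    have hc2 : ContinuousOn (fun s : ℝ => FP (kap μ m) a m l s z *
        ((Pa a).eval (seg (ee a m z l.castSucc) (ee a m z l.succ) s) /
          (seg (ee a m z l.castSucc) (ee a m z l.succ) s - z))) (Icc 0 1) := by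
      refine (continuousOn_FP _ ha l hz).mul (ContinuousOn.div ?_ ?_ ?_)
      · exact ((Polynomial.continuous _).comp (continuous_seg _ _)).continuousOn
      · exact ((continuous_seg _ _).sub continuous_const).continuousOn
      · intro s hs
        exact seg_sub_ne ha h1 h2 hz hs.1 hs.2
    have h6 := integral_sub (integrable_wt_mul (kap_gt h0 h1' m) l hc1) (integrable_wt_mul (kap_gt h0 h1' m) l hc2)
    have h7 : ∫ s in Ioo (0 : ℝ) 1, ((wt (kap μ m) l s : ℂ) * (FP (kap μ m) a m l s z *
        (Polynomial.derivative (Pa a)).eval (seg (ee a m z l.castSucc) (ee a m z l.succ) s)) -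
        (wt (kap μ m) l s : ℂ) * (FP (kap μ m) a m l s z *
        ((Pa a).eval (seg (ee a m z l.castSucc) (ee a m z l.succ) s) /
          (seg (ee a m z l.castSucc) (ee a m z l.succ) s - z)))) = 0 := by
      rw [← h4]
      refine integral_congr_ae (Eventually.of_forall fun s => ?_)
      simp only [WW_eq]
      ring
    rw [h7, h5, h3] at h6
    unfold qk
    simp only [mul_sub, Finset.sum_sub_distrib]
    linear_combination h6
  rw [hX]
  have h8 : JJ (kap μ m) a m l 0 z = (∑ k : Fin n, YY (kap μ m) a m l k z * qk a k z) / (Pa a).eval z := by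
    rw [eq_div_iff hP, ← hE]
    ring
  rw [h8, Finset.sum_div, Finset.mul_sum, ← Finset.sum_add_distrib, Finset.mul_sum]
  refine Finset.sum_congr rfl fun k _ => ?_
  unfold MM
  rw [Matrix.of_apply]
  ring

end fixed

end Pool.Agent.Helper67K9.SE
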