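import Pool.Agent.Helper67K9.SE.Ode3

/-!
# The differential equation of the periods, IV: all segments, and the determinant
-/

set_option autoImplicit false

open Complex Set MeasureTheory Filter Topology

namespace Pool.Agent.Helper67K9.SE

open Pool.Agent.Y118.HP (ee seg Dm isOpen_Dm InGap mem_Dm_of_im ee_self ee_succAbove ee_im ee_slit seg_slit_lt
  seg_slit_gt continuous_ee differentiable_ee eq_zero_of_open isPreconnected_Dm)

variable {n : ℕ}

theorem Pa_ne {a : Fin n → ℝ} (ha : StrictMono a) {m : Fin (n + 1)} {z : ℂ} (hz : z ∈ Dm a m) :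
    (Pa a).eval z ≠ 0 := by
  rw [Pa_eval, Finset.prod_ne_zero_iff]
  intro i _
  rcases lt_or_ge i.castSucc m with h | h
  · have h3 := slitPlane_ne_zero (ee_slit ha hz ((Fin.succAbove_lt_iff_castSucc_lt m i).2 h))
    rwa [ee_self, ee_succAbove] at h3
  · have h3 := slitPlane_ne_zero (ee_slit ha hz ((Fin.lt_succAbove_iff_le_castSucc m i).2 h))
    rw [ee_self, ee_succAbove] at h3
    intro h4
    apply h3
    rw [← neg_sub, h4, neg_zero]

theorem PM_fixed {μ : ℝ} {a : Fin n → ℝ} {m : Fin (n + 1)} {l : Fin n} (h1 : l.castSucc ≠ m)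
    (h2 : l.succ ≠ m) : ∃ c : ℂ, ∀ (j : Fin n) (z : ℂ), PM μ a m z l j = c * YY (kap μ m) a m l j z := by
  refine ⟨(ee a m 0 l.succ - ee a m 0 l.castSucc) ^ ((kap μ m l.castSucc + kap μ m l.succ + 1 : ℝ) : ℂ),
    fun j z => ?_⟩
  have h3 : PM μ a m z l j = perC (kap μ m) (ee a m z) l (j : ℕ) := rfl
  rw [h3, perC_eq_Ioo, ee_const a h1 z 0, ee_const a h2 z 0]
  unfold YY KK
  rw [ee_const a h1 0 0]
  congr 1
  refine integral_congr_ae (Eventually.of_forall fun s => ?_)
  simp only
  rw [seg_const h1 h2 s z 0]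

/-- the equation for fixed segments -/
theorem ode_fixed {μ : ℝ} (h0 : 0 < μ) (h1' : μ < 1) {a : Fin n → ℝ} (ha : StrictMono a) {m : Fin (n + 1)} {l : Fin n}
    (h1 : l.castSucc ≠ m) (h2 : l.succ ≠ m) {z : ℂ} (hz : z ∈ Dm a m) (j : Fin n) :
    HasDerivAt (fun z => PM μ a m z l j) ((PM μ a m z * MM μ a z) l j) z := by
  obtain ⟨c, hc⟩ := PM_fixed (μ := μ) (a := a) h1 h2
  have h3 : (fun z => PM μ a m z l j) = fun z => c * YY (kap μ m) a m l j z := funext fun z => hc j z
  rw [h3]
  refine ((ode_YY h0 h1' ha h1 h2 hz j).const_mul c).congr_deriv ?_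
  rw [Matrix.mul_apply, Finset.mul_sum]
  refine Finset.sum_congr rfl fun k _ => ?_
  rw [hc]
  ring

/-- the defect of the equation -/
noncomputable def Df (μ : ℝ) (a : Fin n → ℝ) (m : Fin (n + 1)) (l j : Fin n) (z : ℂ) : ℂ :=
  deriv (fun z => PM μ a m z l j) z - (PM μ a m z * MM μ a z) l j

theorem differentiableOn_PM {μ : ℝ} (h0 : 0 < μ) (h1' : μ < 1) {a : Fin n → ℝ} (ha : StrictMono a) (m : Fin (n + 1))
    (l j : Fin n) : DifferentiableOn ℂ (fun z => PM μ a m z l j) (Dm a m) :=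
  differentiableOn_perC (kap_gt h0 h1' m) ha m l j

theorem differentiableOn_dd (g : Polynomial ℂ) (k : ℕ) (U : Set ℂ) : DifferentiableOn ℂ (fun z => dd n g k z) U := by
  unfold dd
  refine DifferentiableOn.fun_sum fun r _ => ?_
  split_ifs
  · exact (differentiable_const _).mul (differentiable_id.pow _) |>.differentiableOn
  · exact differentiableOn_const _

theorem differentiableOn_MM (μ : ℝ) {a : Fin n → ℝ} (ha : StrictMono a) (m : Fin (n + 1)) (k j : Fin n) :
    DifferentiableOn ℂ (fun z => MM μ a z k j) (Dm a m) := by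
  unfold MM qk
  simp only [Matrix.of_apply]
  refine (differentiableOn_const _).mul (DifferentiableOn.add (DifferentiableOn.mul ?_ ?_) (differentiableOn_dd _ _ _))
  · refine DifferentiableOn.div (differentiable_id.pow _).differentiableOn ?_ fun z hz => Pa_ne ha hz
    exact (Pa a).differentiable.differentiableOn
  · exact (differentiableOn_const _).sub (differentiableOn_dd _ _ _)

theorem differentiableOn_Df {μ : ℝ} (h0 : 0 < μ) (h1' : μ < 1) {a : Fin n → ℝ} (ha : StrictMono a) (m : Fin (n + 1))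
    (l j : Fin n) : DifferentiableOn ℂ (Df μ a m l j) (Dm a m) := by
  unfold Df
  refine ((differentiableOn_PM h0 h1' ha m l j).deriv (isOpen_Dm a m)).sub ?_
  simp only [Matrix.mul_apply]
  refine DifferentiableOn.fun_sum fun k _ => ?_
  exact (differentiableOn_PM h0 h1' ha m l k).mul (differentiableOn_MM μ ha m k j)

theorem Df_fixed {μ : ℝ} (h0 : 0 < μ) (h1' : μ < 1) {a : Fin n → ℝ} (ha : StrictMono a) {m : Fin (n + 1)} {l : Fin n}
    (h1 : l.castSucc ≠ m) (h2 : l.succ ≠ m) {z : ℂ} (hz : z ∈ Dm a m) (j : Fin n) : Df μ a m l j z = 0 := by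
  unfold Df
  rw [(ode_fixed h0 h1' ha h1 h2 hz j).deriv, sub_self]

/-- linear relations between the rows are linear relations between the defects -/
theorem Df_linear {μ : ℝ} (h0 : 0 < μ) (h1' : μ < 1) {a : Fin n → ℝ} (ha : StrictMono a) {m1 m2 : Fin (n + 1)}
    {l1 l2 l3 : Fin n} {c : ℂ} {V : Set ℂ} (hV : IsOpen V) (hV2 : V ⊆ Dm a m2)
    (h : ∀ z ∈ V, ∀ j, PM μ a m1 z l1 j = PM μ a m2 z l2 j + c * PM μ a m2 z l3 j) {z : ℂ} (hz : z ∈ V) (j : Fin n) :
    Df μ a m1 l1 j z = Df μ a m2 l2 j z + c * Df μ a m2 l3 j z := by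
  have hd : ∀ m l, z ∈ Dm a m → DifferentiableAt ℂ (fun z => PM μ a m z l j) z := fun m l hm =>
    (differentiableOn_PM h0 h1' ha m l j).differentiableAt ((isOpen_Dm a m).mem_nhds hm)
  have h1 : (fun z => PM μ a m1 z l1 j) =ᶠ[𝓝 z] fun z => PM μ a m2 z l2 j + c * PM μ a m2 z l3 j := by
    filter_upwards [hV.mem_nhds hz] with w hw
    exact h w hw j
  unfold Df
  rw [h1.deriv_eq, deriv_fun_add (hd m2 l2 (hV2 hz)) ((hd m2 l3 (hV2 hz)).const_mul c), deriv_const_mul_field]
  simp only [Matrix.mul_apply]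
  have h2 : ∑ x, PM μ a m1 z l1 x * MM μ a z x j = ∑ x, PM μ a m2 z l2 x * MM μ a z x j +
      c * ∑ x, PM μ a m2 z l3 x * MM μ a z x j := by
    rw [Finset.mul_sum, ← Finset.sum_add_distrib]
    refine Finset.sum_congr rfl fun x _ => ?_
    rw [h z hz x]
    ring
  rw [h2]
  ring

theorem Df_upper {μ : ℝ} (h0 : 0 < μ) (h1' : μ < 1) {a : Fin n → ℝ} (ha : StrictMono a) (k l j : Fin n) {z : ℂ}
    (hz : 0 < z.im) : Df μ a k.succ l j z = Df μ a k.castSucc l j z +
      cf k l (-zt μ) (zt μ)⁻¹ * Df μ a k.castSucc k j z :=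
  Df_linear h0 h1' ha (V := {z : ℂ | 0 < z.im}) (isOpen_lt continuous_const continuous_im)
    (fun _ hw => mem_Dm_of_im _ _ (ne_of_gt hw))
    (fun _ hw j => conn_upper h0 h1' ha k hw j l) hz j

theorem Df_lower {μ : ℝ} (h0 : 0 < μ) (h1' : μ < 1) {a : Fin n → ℝ} (ha : StrictMono a) (k l j : Fin n) {z : ℂ}
    (hz : z.im < 0) : Df μ a k.succ l j z = Df μ a k.castSucc l j z +
      cf k l (-(zt μ)⁻¹) (zt μ) * Df μ a k.castSucc k j z :=
  Df_linear h0 h1' ha (V := {z : ℂ | z.im < 0}) (isOpen_lt continuous_im continuous_const)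
    (fun _ hw => mem_Dm_of_im _ _ (ne_of_lt hw))
    (fun _ hw j => conn_lower h0 h1' ha k hw j l) hz j

theorem zero_of_upper {a : Fin n → ℝ} (ha : StrictMono a) (m : Fin (n + 1)) {f : ℂ → ℂ}
    (hf : DifferentiableOn ℂ f (Dm a m)) (h : ∀ z : ℂ, 0 < z.im → f z = 0) : ∀ z ∈ Dm a m, f z = 0 :=
  eq_zero_of_open ha m hf (V := {z : ℂ | 0 < z.im})
    (isOpen_lt continuous_const continuous_im) (z0 := I) (by simp) (mem_Dm_of_im a m (by simp)) h

theorem zero_of_lower {a : Fin n → ℝ} (ha : StrictMono a) (m : Fin (n + 1)) {f : ℂ → ℂ}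
    (hf : DifferentiableOn ℂ f (Dm a m)) (h : ∀ z : ℂ, z.im < 0 → f z = 0) : ∀ z ∈ Dm a m, f z = 0 :=
  eq_zero_of_open ha m hf (V := {z : ℂ | z.im < 0})
    (isOpen_lt continuous_im continuous_const) (z0 := -I) (by simp) (mem_Dm_of_im a m (by simp)) h

/-- `zt μ - (zt μ)⁻¹ = 2 i sin (π μ)` -/
theorem zt_sub_inv (μ : ℝ) : zt μ - (zt μ)⁻¹ = 2 * I * Complex.sin (Real.pi * μ) := by
  unfold zt
  rw [inv_neg, ← exp_neg, neg_neg, Complex.sin]
  have e1 : -((Real.pi : ℂ) * μ) * I = -((Real.pi : ℂ) * μ * I) := by ring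
  rw [e1]
  linear_combination (exp ((Real.pi : ℂ) * μ * I) - exp (-((Real.pi : ℂ) * μ * I))) * I_sq

theorem sin_pos' {μ : ℝ} (h0 : 0 < μ) (h1 : μ < 1) : 0 < Real.sin (Real.pi * μ) := by
  apply Real.sin_pos_of_pos_of_lt_pi
  · positivity
  · nlinarith [Real.pi_pos]

theorem zt_sub_inv_ne {μ : ℝ} (h0 : 0 < μ) (h1 : μ < 1) : zt μ - (zt μ)⁻¹ ≠ 0 := by
  rw [zt_sub_inv]
  have h2 := sin_pos' h0 h1
  have h3 : Complex.sin (Real.pi * μ) = (Real.sin (Real.pi * μ) : ℂ) := by
    rw [ofReal_sin, ofReal_mul]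
  rw [h3]
  exact mul_ne_zero (mul_ne_zero two_ne_zero I_ne_zero) (ofReal_ne_zero.2 h2.ne')

/-- the equation at interior positions -/
theorem Df_interior {μ : ℝ} (h0 : 0 < μ) (h1' : μ < 1) {a : Fin n → ℝ} (ha : StrictMono a) (k : Fin n)
    (hk : 0 < (k : ℕ)) (l j : Fin n) : ∀ z ∈ Dm a k.castSucc, Df μ a k.castSucc l j z = 0 := by
  obtain ⟨k, hk'⟩ := k
  obtain ⟨k0, rfl⟩ : ∃ k0, k = k0 + 1 := ⟨k - 1, by simp only at hk; omega⟩
  set K : Fin n := ⟨k0 + 1, hk'⟩ with hK
  set L : Fin n := ⟨k0, by omega⟩ with hL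
  have hLs : L.succ = K.castSucc := rfl
  have hcf : ∀ α β : ℂ, cf K L α β = α := by
    intro α β
    unfold cf
    rw [if_pos rfl]
  have hfix : ∀ z ∈ Dm a K.succ, Df μ a K.succ L j z = 0 := by
    intro z hz
    refine Df_fixed h0 h1' ha ?_ ?_ hz j
    · intro h
      have := congrArg Fin.val h
      simp only [hK, hL, Fin.val_castSucc, Fin.val_succ] at this
      omega
    · intro h
      have := congrArg Fin.val h
      simp only [hK, hL, Fin.val_succ] at this
      omega
  have hu : ∀ z ∈ Dm a K.castSucc, Df μ a K.castSucc L j z + -zt μ * Df μ a K.castSucc K j z = 0 := by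
    refine zero_of_upper ha _ ((differentiableOn_Df h0 h1' ha _ L j).add
      ((differentiableOn_Df h0 h1' ha _ K j).const_mul _)) fun z hz => ?_
    have h1 := Df_upper h0 h1' ha K L j hz
    rw [hcf, hfix z (mem_Dm_of_im _ _ hz.ne')] at h1
    exact h1.symm
  have hl : ∀ z ∈ Dm a K.castSucc, Df μ a K.castSucc L j z + -(zt μ)⁻¹ * Df μ a K.castSucc K j z = 0 := by
    refine zero_of_lower ha _ ((differentiableOn_Df h0 h1' ha _ L j).add
      ((differentiableOn_Df h0 h1' ha _ K j).const_mul _)) fun z hz => ?_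
    have h1 := Df_lower h0 h1' ha K L j hz
    rw [hcf, hfix z (mem_Dm_of_im _ _ hz.ne)] at h1
    exact h1.symm
  intro z hz
  have h1 := hu z hz
  have h2 := hl z hz
  have h3 : Df μ a K.castSucc K j z = 0 := by
    have h4 : (zt μ - (zt μ)⁻¹) * Df μ a K.castSucc K j z = 0 := by linear_combination h2 - h1
    exact (mul_eq_zero.1 h4).resolve_left (zt_sub_inv_ne h0 h1')
  by_cases hlK : l = K
  · rw [hlK]
    exact h3
  · by_cases hlL : l = L
    · rw [hlL]
      rw [h3, mul_zero, add_zero] at h1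
      exact h1
    · refine Df_fixed h0 h1' ha ?_ ?_ hz j
      · intro h
        exact hlK (Fin.castSucc_injective _ h)
      · intro h
        rw [← hLs] at h
        exact hlL (Fin.succ_injective _ h)

/-- the equation for all segments -/
theorem Df_zero {μ : ℝ} (h0 : 0 < μ) (h1' : μ < 1) {a : Fin n → ℝ} (ha : StrictMono a) (hn : 2 ≤ n) (m : Fin (n + 1))
    (l j : Fin n) : ∀ z ∈ Dm a m, Df μ a m l j z = 0 := by
  rcases Fin.eq_castSucc_or_eq_last m with ⟨k, rfl⟩ | rfl
  · by_cases hk : 0 < (k : ℕ)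
    · exact Df_interior h0 h1' ha k hk l j
    · have hk0 : (k : ℕ) = 0 := by omega
      intro z hz
      by_cases hlk : l = k
      · subst hlk
        set L : Fin n := ⟨1, by omega⟩ with hL
        have hcf : ∀ α β : ℂ, cf l L α β = β := by
          intro α β
          unfold cf
          rw [if_neg (by simp only [hL]; omega), if_pos (by simp only [hL]; omega)]
        have hLs : l.succ = L.castSucc := Fin.ext (by simp [hL, hk0])
        have h3 : ∀ z ∈ Dm a l.castSucc, (zt μ)⁻¹ * Df μ a l.castSucc l j z = 0 := by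
          refine zero_of_upper ha _ ((differentiableOn_Df h0 h1' ha _ l j).const_mul _) fun z hz => ?_
          have h1 := Df_upper h0 h1' ha l L j hz
          rw [hcf, hLs, Df_interior h0 h1' ha L (by simp [hL]) L j z (mem_Dm_of_im _ _ hz.ne')] at h1
          have h2 : Df μ a l.castSucc L j z = 0 := by
            refine Df_fixed h0 h1' ha ?_ ?_ (mem_Dm_of_im _ _ hz.ne') j
            · intro h
              have := congrArg Fin.val h
              simp [hL, hk0] at this
            · intro h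
              have := congrArg Fin.val h
              simp [hL, hk0] at this
          rw [h2, zero_add] at h1
          exact h1.symm
        exact (mul_eq_zero.1 (h3 z hz)).resolve_left (inv_ne_zero (zt_ne μ))
      · refine Df_fixed h0 h1' ha ?_ ?_ hz j
        · intro h
          exact hlk (Fin.castSucc_injective _ h)
        · intro h
          have := congrArg Fin.val h
          simp [hk0] at this
  · obtain ⟨n', rfl⟩ : ∃ n', n = n' + 1 := ⟨n - 1, by omega⟩
    have hlast : (Fin.last (n' + 1)) = (Fin.last n').succ := rfl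
    intro z hz
    by_cases hl : l = Fin.last n'
    · subst hl
      have h3 : ∀ z ∈ Dm a (Fin.last (n' + 1)), Df μ a (Fin.last (n' + 1)) (Fin.last n') j z = 0 := by
        refine zero_of_upper ha _ (differentiableOn_Df h0 h1' ha _ _ j) fun z hz => ?_
        have h1 := Df_upper h0 h1' ha (Fin.last n') (Fin.last n') j hz
        have hcf : ∀ α β : ℂ, cf (Fin.last n') (Fin.last n') α β = 0 := by
          intro α β
          unfold cf
          rw [if_neg (by omega), if_neg (by omega)]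
        rw [hcf, zero_mul, add_zero, Df_interior h0 h1' ha (Fin.last n') (by simp only [Fin.val_last]; omega) _ j z
          (mem_Dm_of_im _ _ hz.ne')] at h1
        rw [hlast]
        exact h1
      exact h3 z hz
    · refine Df_fixed h0 h1' ha ?_ ?_ hz j
      · exact (Fin.castSucc_lt_last l).ne
      · rw [hlast]
        intro h
        exact hl (Fin.succ_injective _ h)

/-- **The differential equation of the periods.** -/
theorem ode {μ : ℝ} (h0 : 0 < μ) (h1' : μ < 1) {a : Fin n → ℝ} (ha : StrictMono a) (hn : 2 ≤ n) (m : Fin (n + 1))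
    {z : ℂ} (hz : z ∈ Dm a m) (l j : Fin n) :
    HasDerivAt (fun z => PM μ a m z l j) ((PM μ a m z * MM μ a z) l j) z := by
  have h1 := (differentiableOn_PM h0 h1' ha m l j).differentiableAt ((isOpen_Dm a m).mem_nhds hz)
  have h2 := Df_zero h0 h1' ha hn m l j z hz
  unfold Df at h2
  rw [← sub_eq_zero.1 h2]
  exact h1.hasDerivAt

/-- the derivative of a determinant -/
theorem hasDerivAt_det {A : ℂ → Matrix (Fin n) (Fin n) ℂ} {A' : Matrix (Fin n) (Fin n) ℂ} {z : ℂ}
    (h : ∀ l j, HasDerivAt (fun z => A z l j) (A' l j) z) :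
    HasDerivAt (fun z => (A z).det) (∑ j, ((A z).updateCol j fun l => A' l j).det) z := by
  simp only [Matrix.det_apply]
  have h1 : ∀ σ : Equiv.Perm (Fin n), HasDerivAt (fun z => Equiv.Perm.sign σ • ∏ i, A z (σ i) i)
      (Equiv.Perm.sign σ • ∑ j, (∏ i ∈ Finset.univ.erase j, A z (σ i) i) • A' (σ j) j) z := fun σ =>
    (HasDerivAt.fun_finsetProd fun i _ => h (σ i) i).const_smul _
  refine (HasDerivAt.fun_sum fun σ _ => h1 σ).congr_deriv ?_
  have h2 : ∀ (j : Fin n) (σ : Equiv.Perm (Fin n)), (∏ i ∈ Finset.univ.erase j, A z (σ i) i) • A' (σ j) j =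
      ∏ i, (A z).updateCol j (fun l => A' l j) (σ i) i := by
    intro j σ
    rw [← Finset.mul_prod_erase _ _ (Finset.mem_univ j), Matrix.updateCol_self, smul_eq_mul, mul_comm]
    congr 1
    refine Finset.prod_congr rfl fun i hi => ?_
    rw [Matrix.updateCol_ne (Finset.ne_of_mem_erase hi)]
  simp only [h2, Finset.smul_sum]
  rw [Finset.sum_comm]

/-- the determinant of a solution of a system with trace zero is constant -/
theorem hasDerivAt_det_zero {A : ℂ → Matrix (Fin n) (Fin n) ℂ} {B : Matrix (Fin n) (Fin n) ℂ} {z : ℂ}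
    (h : ∀ l j, HasDerivAt (fun z => A z l j) ((A z * B) l j) z) (hB : B.trace = 0) :
    HasDerivAt (fun z => (A z).det) 0 z := by
  refine (hasDerivAt_det h).congr_deriv ?_
  have h1 : ∀ j, ((A z).updateCol j fun l => (A z * B) l j).det = B j j * (A z).det := by
    intro j
    have h2 := Matrix.det_updateCol_sum (A z) j fun i => B i j
    rw [smul_eq_mul] at h2
    rw [← h2]
    congr 2
    funext l
    rw [Matrix.mul_apply]
    exact Finset.sum_congr rfl fun i _ => mul_comm _ _
  rw [Finset.sum_congr rfl fun j _ => h1 j, ← Finset.sum_mul]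
  have h3 : ∑ j, B j j = B.trace := rfl
  rw [h3, hB, zero_mul]

/-- **The determinants of the periods are constant.** -/
theorem det_const {μ : ℝ} (h0 : 0 < μ) (h1' : μ < 1) {a : Fin n → ℝ} (ha : StrictMono a) (hn : 2 ≤ n)
    (m : Fin (n + 1)) : ∃ c : ℂ, ∀ z ∈ Dm a m, (PM μ a m z).det = c := by
  have h1 : ∀ z ∈ Dm a m, HasDerivAt (fun z => (PM μ a m z).det) 0 z := fun z hz =>
    hasDerivAt_det_zero (fun l j => ode h0 h1' ha hn m hz l j) (MM_trace μ a z)
  obtain ⟨t, ht⟩ := Pool.Agent.Y118.HP.exists_inGap ha m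
  refine ⟨(PM μ a m t).det, fun z hz => ?_⟩
  have h2 : DifferentiableOn ℂ (fun z => (PM μ a m z).det) (Dm a m) := fun z hz =>
    (h1 z hz).differentiableAt.differentiableWithinAt
  have h3 : EqOn (deriv fun z => (PM μ a m z).det) 0 (Dm a m) := fun z hz => (h1 z hz).deriv
  exact (isOpen_Dm a m).is_const_of_deriv_eq_zero (isPreconnected_Dm ha m) h2 h3 hz ht.mem_Dm

end Pool.Agent.Helper67K9.SE
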