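import Pool.Agent.Helper67K9.SE.Det

/-!
# The polarisation: the bilinear relations between the exponents `μ` and `1 - μ`
-/

set_option autoImplicit false

open Complex Set MeasureTheory Filter Topology

namespace Pool.Agent.Helper67K9.SE

open Pool.Agent.Y118.HP (ee seg Dm isOpen_Dm InGap mem_Dm_of_im ee_self ee_succAbove ee_im ee_slit seg_slit_lt
  seg_slit_gt continuous_ee differentiable_ee eq_zero_of_open isPreconnected_Dm er er_strictMono ee_ofReal)

variable {n : ℕ}

/-- the entries of the polarisation, on natural numbers -/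
noncomputable def kq (μ : ℂ) (a : Fin n → ℝ) (z : ℂ) (c d : ℕ) : ℂ :=
  (μ * (c + d) - d) * (Pa a).coeff (c + d + 1) - z * ((μ * (c + d + 2) - d - 1) * (Pa a).coeff (c + d + 2))

/-- the polarisation -/
noncomputable def KM (μ : ℝ) (a : Fin n → ℝ) (z : ℂ) : Matrix (Fin n) (Fin n) ℂ :=
  Matrix.of fun c d => kq μ a z c d

/-- telescoping -/
theorem tel (u v : ℕ → ℂ) (z : ℂ) (hv : ∀ k, n ≤ k + 1 → v k = 0)
    (h : ∀ k, v k = u (k + 1) + z * v (k + 1)) (k : ℕ) :
    ∑ j ∈ Finset.range n, (if k < j then z ^ (j - 1 - k) * u j else 0) = v k := by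
  by_cases hk : n ≤ k + 1
  · rw [hv k hk]
    refine Finset.sum_eq_zero fun j hj => ?_
    rw [if_neg]
    have := Finset.mem_range.1 hj
    omega
  · have hk' : k + 1 < n := by omega
    -- downward induction
    have key : ∀ t : ℕ, ∀ k, k + 1 + t = n → ∑ j ∈ Finset.range n, (if k < j then z ^ (j - 1 - k) * u j else 0) = v k := by
      intro t
      induction t with
      | zero =>
        intro k hk
        rw [hv k (by omega)]
        refine Finset.sum_eq_zero fun j hj => ?_
        rw [if_neg]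
        have := Finset.mem_range.1 hj
        omega
      | succ t ih =>
        intro k hk
        rw [h k, ← ih (k + 1) (by omega), Finset.mul_sum]
        have h1 : ∀ j ∈ Finset.range n, (if k < j then z ^ (j - 1 - k) * u j else 0) =
            (if j = k + 1 then u (k + 1) else 0) + z * (if k + 1 < j then z ^ (j - 1 - (k + 1)) * u j else 0) := by
          intro j _
          by_cases h2 : j = k + 1
          · subst h2
            rw [if_pos (by omega), if_pos rfl, if_neg (by omega)]
            have : k + 1 - 1 - k = 0 := by omega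
            rw [this, pow_zero]
            ring
          · by_cases h3 : k + 1 < j
            · rw [if_pos (by omega), if_neg h2, if_pos h3]
              have : j - 1 - k = j - 1 - (k + 1) + 1 := by omega
              rw [this, pow_succ]
              ring
            · rw [if_neg (by omega), if_neg h2, if_neg h3]
              ring
        rw [Finset.sum_congr rfl h1, Finset.sum_add_distrib, Finset.sum_ite_eq' (Finset.range n),
          if_pos (Finset.mem_range.2 (by omega))]
    exact key (n - (k + 1)) k (by omega)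

theorem tel0 (hn : 1 ≤ n) (u v : ℕ → ℂ) (z : ℂ) (hv : ∀ k, n ≤ k + 1 → v k = 0)
    (h : ∀ k, v k = u (k + 1) + z * v (k + 1)) :
    ∑ j ∈ Finset.range n, z ^ j * u j = u 0 + z * v 0 := by
  rw [← tel u v z hv h 0, Finset.mul_sum]
  have h1 : ∀ j ∈ Finset.range n, z ^ j * u j =
      (if j = 0 then u 0 else 0) + z * (if 0 < j then z ^ (j - 1 - 0) * u j else 0) := by
    intro j _
    by_cases h2 : j = 0
    · subst h2
      simp
    · have h3 : 0 < j := Nat.pos_of_ne_zero h2
      rw [if_neg h2, if_pos h3]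
      have : j = j - 1 - 0 + 1 := by omega
      conv_lhs => rw [this, pow_succ]
      rw [← this]
      ring
  rw [Finset.sum_congr rfl h1, Finset.sum_add_distrib, Finset.sum_ite_eq' (Finset.range n),
    if_pos (Finset.mem_range.2 (by omega))]

theorem Pa_coeff_zero (a : Fin n → ℝ) {i : ℕ} (hi : n < i) : (Pa a).coeff i = 0 :=
  Polynomial.coeff_eq_zero_of_natDegree_lt (by rw [Pa_natDegree]; exact hi)

theorem dd_rec {g : Polynomial ℂ} (hg : g.natDegree ≤ n) (k : ℕ) (z : ℂ) :
    dd n g k z = g.coeff (k + 1) + z * dd n g (k + 1) z := by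
  unfold dd
  rw [Finset.mul_sum]
  have h1 : ∀ r ∈ Finset.range (n + 1), (if k < r then g.coeff r * z ^ (r - 1 - k) else 0) =
      (if r = k + 1 then g.coeff (k + 1) else 0) + z * (if k + 1 < r then g.coeff r * z ^ (r - 1 - (k + 1)) else 0) := by
    intro r _
    by_cases h2 : r = k + 1
    · subst h2
      rw [if_pos (by omega), if_pos rfl, if_neg (by omega)]
      have : k + 1 - 1 - k = 0 := by omega
      rw [this, pow_zero]
      ring
    · by_cases h3 : k + 1 < r
      · rw [if_pos (by omega), if_neg h2, if_pos h3]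
        have : r - 1 - k = r - 1 - (k + 1) + 1 := by omega
        rw [this, pow_succ]
        ring
      · rw [if_neg (by omega), if_neg h2, if_neg h3]
        ring
  rw [Finset.sum_congr rfl h1, Finset.sum_add_distrib, Finset.sum_ite_eq' (Finset.range (n + 1))]
  by_cases h2 : k + 1 ∈ Finset.range (n + 1)
  · rw [if_pos h2]
  · rw [if_neg h2, Polynomial.coeff_eq_zero_of_natDegree_lt]
    have := Finset.mem_range.not.1 h2
    omega

theorem dd_big {g : Polynomial ℂ} {k : ℕ} (hk : n ≤ k) (z : ℂ) : dd n g k z = 0 := by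
  unfold dd
  refine Finset.sum_eq_zero fun r hr => ?_
  rw [if_neg]
  have := Finset.mem_range.1 hr
  omega

/-- the left sums -/
theorem sum_left (μ : ℂ) (a : Fin n → ℝ) (z : ℂ) (k d : ℕ) :
    ∑ j ∈ Finset.range n, (if k < j then z ^ (j - 1 - k) * kq μ a z j d else 0) =
      (μ * (k + d + 1) - d) * (Pa a).coeff (k + d + 2) + (1 - μ) * (z * dd n (Pa a) (k + d + 2) z) := by
  refine tel (fun j => kq μ a z j d) (fun k => (μ * (k + d + 1) - d) * (Pa a).coeff (k + d + 2) +
    (1 - μ) * (z * dd n (Pa a) (k + d + 2) z)) z ?_ ?_ k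
  · intro k hk
    rw [Pa_coeff_zero a (by omega), dd_big (by omega)]
    ring
  · intro k
    have e1 : k + 1 + d + 1 = k + d + 2 := by omega
    have e2 : k + 1 + d + 2 = k + d + 3 := by omega
    have h1 := dd_rec (n := n) (Pa_natDegree a).le (k + d + 2) z
    unfold kq
    rw [e1, e2, h1]
    push_cast
    ring

/-- the right sums -/
theorem sum_right (μ : ℂ) (a : Fin n → ℝ) (z : ℂ) (k d : ℕ) :
    ∑ j ∈ Finset.range n, (if d < j then z ^ (j - 1 - d) * kq μ a z k j else 0) =
      (μ * (k + d + 1) - d - 1) * (Pa a).coeff (k + d + 2) - μ * (z * dd n (Pa a) (k + d + 2) z) := by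
  refine tel (fun j => kq μ a z k j) (fun d => (μ * (k + d + 1) - d - 1) * (Pa a).coeff (k + d + 2) -
    μ * (z * dd n (Pa a) (k + d + 2) z)) z ?_ ?_ d
  · intro d hd
    rw [Pa_coeff_zero a (by omega), dd_big (by omega)]
    ring
  · intro d
    have e1 : k + (d + 1) + 1 = k + d + 2 := by omega
    have e2 : k + (d + 1) + 2 = k + d + 3 := by omega
    have h1 := dd_rec (n := n) (Pa_natDegree a).le (k + d + 2) z
    unfold kq
    rw [e1, e2, h1]
    push_cast
    ring

theorem sum_left0 (μ : ℂ) (a : Fin n → ℝ) (hn : 1 ≤ n) (z : ℂ) (d : ℕ) :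
    ∑ j ∈ Finset.range n, z ^ j * kq μ a z j d = -(1 - μ) * qk a d z := by
  rw [tel0 hn (fun j => kq μ a z j d) (fun k => (μ * (k + d + 1) - d) * (Pa a).coeff (k + d + 2) +
    (1 - μ) * (z * dd n (Pa a) (k + d + 2) z)) z]
  · have h1 := dd_rec (n := n) (Pa_natDegree a).le d z
    have h2 := dd_rec (n := n) (Pa_natDegree a).le (d + 1) z
    have e1 : 0 + d + 1 = d + 1 := by omega
    have e2 : 0 + d + 2 = d + 1 + 1 := by omega
    unfold kq qk
    rw [Polynomial.coeff_derivative, h1, h2, e1, e2]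
    push_cast
    ring
  · intro k hk
    rw [Pa_coeff_zero a (by omega), dd_big (by omega)]
    ring
  · intro k
    have e1 : k + 1 + d + 1 = k + d + 2 := by omega
    have e2 : k + 1 + d + 2 = k + d + 3 := by omega
    have h1 := dd_rec (n := n) (Pa_natDegree a).le (k + d + 2) z
    unfold kq
    rw [e1, e2, h1]
    push_cast
    ring

theorem sum_right0 (μ : ℂ) (a : Fin n → ℝ) (hn : 1 ≤ n) (z : ℂ) (k : ℕ) :
    ∑ j ∈ Finset.range n, z ^ j * kq μ a z k j = μ * qk a k z := by
  rw [tel0 hn (fun j => kq μ a z k j) (fun d => (μ * (k + d + 1) - d - 1) * (Pa a).coeff (k + d + 2) -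
    μ * (z * dd n (Pa a) (k + d + 2) z)) z]
  · have h1 := dd_rec (n := n) (Pa_natDegree a).le k z
    have h2 := dd_rec (n := n) (Pa_natDegree a).le (k + 1) z
    have e1 : k + 0 + 1 = k + 1 := by omega
    have e2 : k + 0 + 2 = k + 1 + 1 := by omega
    unfold kq qk
    rw [Polynomial.coeff_derivative, h1, h2, e1, e2]
    push_cast
    ring
  · intro d hd
    rw [Pa_coeff_zero a (by omega), dd_big (by omega)]
    ring
  · intro d
    have e1 : k + (d + 1) + 1 = k + d + 2 := by omega
    have e2 : k + (d + 1) + 2 = k + d + 3 := by omega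
    have h1 := dd_rec (n := n) (Pa_natDegree a).le (k + d + 2) z
    unfold kq
    rw [e1, e2, h1]
    push_cast
    ring

/-- the derivative of the polarisation -/
noncomputable def dK (μ : ℝ) (a : Fin n → ℝ) : Matrix (Fin n) (Fin n) ℂ :=
  Matrix.of fun c d => -((μ * ((c : ℕ) + (d : ℕ) + 2) - (d : ℕ) - 1) * (Pa a).coeff ((c : ℕ) + (d : ℕ) + 2))

theorem hasDerivAt_KM (μ : ℝ) (a : Fin n → ℝ) (z : ℂ) (c d : Fin n) :
    HasDerivAt (fun z => KM μ a z c d) (dK μ a c d) z := by
  unfold KM dK kq
  simp only [Matrix.of_apply]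
  refine (((hasDerivAt_id z).mul_const _).const_sub _).congr_deriv ?_
  ring

/-- **The differential equation of the polarisation.** -/
theorem pol_ode (μ : ℝ) (a : Fin n → ℝ) (z : ℂ) :
    MM μ a z * KM μ a z + dK μ a + KM μ a z * (MM (1 - μ) a z).transpose = 0 := by
  rcases Nat.eq_zero_or_pos n with hn | hn
  · subst hn
    exact Subsingleton.elim _ _
  ext k d
  rw [Matrix.add_apply, Matrix.add_apply, Matrix.mul_apply, Matrix.mul_apply, Matrix.zero_apply]
  have h1 : ∑ j, MM μ a z k j * KM μ a z j d =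
      μ * (qk a k z / (Pa a).eval z * ∑ j ∈ Finset.range n, z ^ j * kq μ a z j d +
        ∑ j ∈ Finset.range n, (if (k : ℕ) < j then z ^ (j - 1 - (k : ℕ)) * kq μ a z j d else 0)) := by
    rw [Finset.sum_range, Finset.sum_range, Finset.mul_sum, ← Finset.sum_add_distrib, Finset.mul_sum]
    refine Finset.sum_congr rfl fun j _ => ?_
    unfold MM KM
    rw [Matrix.of_apply, Matrix.of_apply, dd_X_pow j.2]
    split_ifs <;> ring
  have h2 : ∑ j, KM μ a z k j * (MM (1 - μ) a z).transpose j d =
      (1 - μ) * (qk a d z / (Pa a).eval z * ∑ j ∈ Finset.range n, z ^ j * kq μ a z k j +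
        ∑ j ∈ Finset.range n, (if (d : ℕ) < j then z ^ (j - 1 - (d : ℕ)) * kq μ a z k j else 0)) := by
    rw [Finset.sum_range, Finset.sum_range, Finset.mul_sum, ← Finset.sum_add_distrib, Finset.mul_sum]
    refine Finset.sum_congr rfl fun j _ => ?_
    unfold MM KM
    rw [Matrix.transpose_apply, Matrix.of_apply, Matrix.of_apply, dd_X_pow j.2]
    push_cast
    split_ifs <;> ring
  rw [h1, h2, sum_left, sum_right, sum_left0 _ _ hn, sum_right0 _ _ hn]
  unfold dK
  rw [Matrix.of_apply]
  ring

theorem hasDerivAt_mul_entry {A B : ℂ → Matrix (Fin n) (Fin n) ℂ} {A' B' : Matrix (Fin n) (Fin n) ℂ} {z : ℂ}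
    (hA : ∀ i j, HasDerivAt (fun z => A z i j) (A' i j) z) (hB : ∀ i j, HasDerivAt (fun z => B z i j) (B' i j) z)
    (i j : Fin n) : HasDerivAt (fun z => (A z * B z) i j) ((A' * B z + A z * B') i j) z := by
  simp only [Matrix.mul_apply, Matrix.add_apply]
  refine (HasDerivAt.fun_sum fun k _ => (hA i k).mul (hB k j)).congr_deriv ?_
  rw [Finset.sum_add_distrib]

/-- the pairing -/
noncomputable def EE (μ : ℝ) (a : Fin n → ℝ) (m : Fin (n + 1)) (z : ℂ) : Matrix (Fin n) (Fin n) ℂ :=
  PM μ a m z * KM μ a z * (PM (1 - μ) a m z).transpose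

/-- **The pairings are constant.** -/
theorem EE_const {μ : ℝ} (h0 : 0 < μ) (h1' : μ < 1) {a : Fin n → ℝ} (ha : StrictMono a) (hn : 2 ≤ n)
    (m : Fin (n + 1)) : ∃ E : Matrix (Fin n) (Fin n) ℂ, ∀ z ∈ Dm a m, EE μ a m z = E := by
  have h1 : ∀ z ∈ Dm a m, ∀ i j, HasDerivAt (fun z => EE μ a m z i j) 0 z := by
    intro z hz i j
    have hA := hasDerivAt_mul_entry (A := fun z => PM μ a m z) (B := fun z => KM μ a z)
      (ode h0 h1' ha hn m hz) (hasDerivAt_KM μ a z)
    have hB : ∀ i j, HasDerivAt (fun z => (PM (1 - μ) a m z).transpose i j)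
        ((PM (1 - μ) a m z * MM (1 - μ) a z).transpose i j) z := fun i j =>
      ode (by linarith) (by linarith) ha hn m hz j i
    refine (hasDerivAt_mul_entry hA hB i j).congr_deriv ?_
    have h2 : PM μ a m z * MM μ a z * KM μ a z + PM μ a m z * dK μ a =
        PM μ a m z * (MM μ a z * KM μ a z + dK μ a) := by
      rw [Matrix.mul_add, Matrix.mul_assoc]
    have h3 : (PM μ a m z * MM μ a z * KM μ a z + PM μ a m z * dK μ a) * (PM (1 - μ) a m z).transpose +
        PM μ a m z * KM μ a z * (PM (1 - μ) a m z * MM (1 - μ) a z).transpose = 0 := by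
      rw [Matrix.transpose_mul, ← Matrix.mul_assoc (PM μ a m z * KM μ a z), h2, ← Matrix.add_mul,
        Matrix.mul_assoc (PM μ a m z) (KM μ a z), ← Matrix.mul_add, pol_ode, Matrix.mul_zero, Matrix.zero_mul]
    rw [h3, Matrix.zero_apply]
  obtain ⟨t, ht⟩ := Pool.Agent.Y118.HP.exists_inGap ha m
  refine ⟨EE μ a m t, fun z hz => ?_⟩
  ext i j
  have h2 : DifferentiableOn ℂ (fun z => EE μ a m z i j) (Dm a m) := fun z hz =>
    (h1 z hz i j).differentiableAt.differentiableWithinAt
  have h3 : EqOn (deriv fun z => EE μ a m z i j) 0 (Dm a m) := fun z hz => (h1 z hz i j).deriv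
  exact (isOpen_Dm a m).is_const_of_deriv_eq_zero (isPreconnected_Dm ha m) h2 h3 hz ht.mem_Dm

end Pool.Agent.Helper67K9.SE
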