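import Pool.Agent.Helper67K9.SE.Tor2
import Pool.Agent.Helper67K9.SE.Full

/-!
# Products of families of superelliptic periods
-/

set_option autoImplicit false
set_option linter.unusedSectionVars false

open Matrix

namespace Pool.Agent.Helper67K9.SE

open Pool.Agent.Y118.HP (ee seg Dm isOpen_Dm InGap mem_Dm_of_im isPreconnected_Dm)
open Pool.Agent.Y890.MV (evX evM evM_eq TorM USig fSig TSig pj USig_open fSig_an)

/-- a family of periods: `n` real points `a`, a gap `m` between them, real exponents `μ` -/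
structure Fam where
  n : ℕ
  e : ℕ
  a : Fin n → ℝ
  m : Fin (n + 1)
  μ : Fin e → ℝ
  two : 2 ≤ n
  mono : StrictMono a
  good : Good n μ

variable {B : Type} [Fintype B] [DecidableEq B] (F : B → Fam)

/-- the indices of the periods of one family -/
abbrev I1 (f : Fam) : Type := (Fin f.e × Fin f.n × Fin f.n) ⊕ (Fin f.e × Fin f.n × Fin f.n)

/-- the indices of the periods -/
abbrev Ix : Type := Σ b, I1 (F b)

/-- the domain -/
def UF : Set (B → ℂ) := {x | ∀ b, x b ∈ Dm (F b).a (F b).m}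

/-- the periods -/
noncomputable def ff (q : Ix F) (x : B → ℂ) : ℂ := fA (F q.1).μ (F q.1).a (F q.1).m q.2 (fun _ => x q.1)

/-- the determinant of the period matrix, a constant -/
theorem Fam.det_const (f : Fam) (r : Fin f.e) : ∃ c : ℂ, ∀ z ∈ Dm f.a f.m, (PM (f.μ r) f.a f.m z).det = c :=
  SE.det_const (f.good.unit r).1 (f.good.unit r).2 f.mono f.two f.m

/-- the value of the determinant -/
noncomputable def Fam.c (f : Fam) (r : Fin f.e) : ℂ := (f.det_const r).choose

theorem Fam.c_spec (f : Fam) (r : Fin f.e) {z : ℂ} (hz : z ∈ Dm f.a f.m) : (PM (f.μ r) f.a f.m z).det = f.c r :=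
  (f.det_const r).choose_spec z hz

theorem I_mem (f : Fam) : Complex.I ∈ Dm f.a f.m := mem_Dm_of_im _ _ (by simp)

theorem Fam.c_ne (f : Fam) (r : Fin f.e) : f.c r ≠ 0 := by
  rw [← f.c_spec r (I_mem f)]
  exact det_ne (f.good.unit r).1 (f.good.unit r).2 f.mono f.two f.m (I_mem f)

/-- the constant matrix of the bilinear relation -/
noncomputable def Fam.E (f : Fam) (r : Fin f.e) : Matrix (Fin f.n) (Fin f.n) ℂ :=
  (Real.pi / Complex.sin (Real.pi * f.μ r) : ℂ) • EC (zt (f.μ r)) f.m

/-- the torsor with the actual constants -/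
def TF (x : B → ℂ) : Set (Ix F → ℂ) :=
  {Y | ∀ b, (fun s => Y ⟨b, s⟩) ∈ TA (F b).μ (F b).a (F b).c (F b).E (fun _ => x b)}

theorem UF_open : IsOpen (UF F) := by
  have h1 : UF F = ⋂ b, (fun x : B → ℂ => x b) ⁻¹' Dm (F b).a (F b).m := by
    ext x
    simp [UF]
  rw [h1]
  exact isOpen_iInter_of_finite fun b => (isOpen_Dm _ _).preimage (continuous_apply b)

theorem UF_conn : IsPreconnected (UF F) := by
  have h1 : UF F = Set.univ.pi fun b => Dm (F b).a (F b).m := by
    ext x
    simp [UF]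
  rw [h1]
  exact isPreconnected_univ_pi fun b => isPreconnected_Dm (F b).mono _

theorem UF_nonempty : (UF F).Nonempty := ⟨fun _ => Complex.I, fun b => I_mem (F b)⟩

theorem fh_an {n : ℕ} {ι : Type} {μ : ι → ℝ} (hμ : ∀ r, 0 < μ r ∧ μ r < 1) {a : Fin n → ℝ} (ha : StrictMono a)
    (m : Fin (n + 1)) (q : ι × Fin n × Fin n) (x : B → ℂ) (b : B) (hx : x b ∈ Dm a m) :
    AnalyticAt ℂ (fun x : B → ℂ => PM (μ q.1) a m (x b) q.2.1 q.2.2) x := by
  have h1 : AnalyticAt ℂ (fun z => PM (μ q.1) a m z q.2.1 q.2.2) (x b) :=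
    (differentiableOn_PM (hμ q.1).1 (hμ q.1).2 ha m q.2.1 q.2.2).analyticAt ((isOpen_Dm a m).mem_nhds hx)
  exact AnalyticAt.comp' (f := fun x : B → ℂ => x b) h1
    ((ContinuousLinearMap.proj (R := ℂ) (φ := fun _ : B => ℂ) b).analyticAt x)

theorem ff_an (q : Ix F) : AnalyticOnNhd ℂ (ff F q) (UF F) := by
  intro x hx
  obtain ⟨b, s | s⟩ := q
  · exact fh_an (F b).good.unit (F b).mono (F b).m s x b (hx b)
  · refine fh_an (μ := fun r => 1 - (F b).μ r) (fun r => ?_) (F b).mono (F b).m s x b (hx b)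
    have := (F b).good.unit r
    exact ⟨by linarith, by linarith⟩

/-- **The torsor of a product.** -/
theorem torM_F : TorM (UF F) (ff F) (TF F) := by
  have h1 : ∀ b, TorM (X := Unit) (Um (F b).a (F b).m) (fA (F b).μ (F b).a (F b).m)
      (TA (F b).μ (F b).a (F b).c (F b).E) := fun b =>
    (torP_all (F b).two (F b).good (F b).mono (F b).m fun r z hz => (F b).c_spec r hz).torM
  have h2 := TorM.sig (X' := fun _ : B => Unit) h1
  have h3 := torM_equiv (Equiv.sigmaPUnit B) h2
  exact h3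

end Pool.Agent.Helper67K9.SE
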