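import Pool.Agent.Y890.MV.Tor
import Pool.Agent.H463R3.PSLn
import Pool.Agent.Helper67K9.SE.Lie

/-!
# Relations and their invariance: from the Lie algebra to the group
-/

set_option autoImplicit false

open Matrix Polynomial

namespace Pool.Agent.Helper67K9.SE

open Pool.Agent.Y890.MV (evX)

/-- tuples of matrices -/
abbrev Tup (ι : Type) (n : ℕ) : Type := ι → Matrix (Fin n) (Fin n) ℂ

/-- polynomials in the entries, with coefficients in the ring of polynomials in one variable -/
abbrev Pl (ι : Type) (n : ℕ) : Type := MvPolynomial (ι × Fin n × Fin n) (MvPolynomial Unit ℂ)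

variable {n : ℕ} {ι : Type}

/-- the value of a relation -/
noncomputable def ev (p : Pl ι n) (z : ℂ) (Y : Tup ι n) : ℂ :=
  evX (fun _ : Unit => z) (fun q : ι × Fin n × Fin n => Y q.1 q.2.1 q.2.2) p

theorem ev_eq (p : Pl ι n) (z : ℂ) (Y : Tup ι n) : ev p z Y =
    MvPolynomial.eval₂Hom (MvPolynomial.eval fun _ : Unit => z) (fun q : ι × Fin n × Fin n => Y q.1 q.2.1 q.2.2) p :=
  rfl

/-- substitution `Y ↦ g Y` -/
noncomputable def sb (g : Tup ι n) (p : Pl ι n) : Pl ι n :=
  MvPolynomial.aeval (R := MvPolynomial Unit ℂ) (S₁ := Pl ι n)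
    (fun q : ι × Fin n × Fin n => ∑ k, MvPolynomial.C (MvPolynomial.C (g q.1 q.2.1 k)) * MvPolynomial.X (q.1, k, q.2.2)) p

theorem ev_sb (g : Tup ι n) (p : Pl ι n) (z : ℂ) (Y : Tup ι n) : ev (sb g p) z Y = ev p z (g * Y) := by
  have h : (MvPolynomial.eval₂Hom (MvPolynomial.eval fun _ : Unit => z)
      (fun q : ι × Fin n × Fin n => Y q.1 q.2.1 q.2.2)).comp
      (MvPolynomial.aeval (R := MvPolynomial Unit ℂ) (S₁ := Pl ι n)
        (fun q : ι × Fin n × Fin n => ∑ k, MvPolynomial.C (MvPolynomial.C (g q.1 q.2.1 k)) *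
          MvPolynomial.X (q.1, k, q.2.2))).toRingHom =
      MvPolynomial.eval₂Hom (MvPolynomial.eval fun _ : Unit => z)
        (fun q : ι × Fin n × Fin n => (g * Y) q.1 q.2.1 q.2.2) := by
    refine MvPolynomial.ringHom_ext (fun c => ?_) (fun q => ?_)
    · simp [MvPolynomial.algebraMap_eq]
    · simp [Matrix.mul_apply]
  exact congrArg (fun f => f p) h

/-- the derivation of an infinitesimal substitution -/
noncomputable def Dv (X : Tup ι n) : Derivation (MvPolynomial Unit ℂ) (Pl ι n) (Pl ι n) :=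
  MvPolynomial.mkDerivation (MvPolynomial Unit ℂ) (fun q : ι × Fin n × Fin n =>
    ∑ k, MvPolynomial.C (MvPolynomial.C (X q.1 q.2.1 k)) * MvPolynomial.X (q.1, k, q.2.2))

theorem Dv_X (X : Tup ι n) (q : ι × Fin n × Fin n) : Dv X (MvPolynomial.X q) =
    ∑ k, MvPolynomial.C (MvPolynomial.C (X q.1 q.2.1 k)) * MvPolynomial.X (q.1, k, q.2.2) :=
  MvPolynomial.mkDerivation_X _ _ _

theorem Dv_C (X : Tup ι n) (c : MvPolynomial Unit ℂ) : Dv X (MvPolynomial.C c) = 0 := MvPolynomial.derivation_C _ _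

theorem Dv_add (X Y : Tup ι n) (p : Pl ι n) : Dv (X + Y) p = Dv X p + Dv Y p := by
  have h : Dv (X + Y) = Dv X + Dv Y := by
    refine MvPolynomial.derivation_ext fun q => ?_
    rw [Derivation.add_apply, Dv_X, Dv_X, Dv_X, ← Finset.sum_add_distrib]
    refine Finset.sum_congr rfl fun k _ => ?_
    simp only [Pi.add_apply, Matrix.add_apply, map_add]
    ring
  rw [h, Derivation.add_apply]

theorem Dv_smul (c : ℂ) (X : Tup ι n) (p : Pl ι n) :
    Dv (c • X) p = MvPolynomial.C (MvPolynomial.C c) * Dv X p := by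
  have h : Dv (c • X) = (MvPolynomial.C c : MvPolynomial Unit ℂ) • Dv X := by
    refine MvPolynomial.derivation_ext fun q => ?_
    rw [Derivation.smul_apply, Dv_X, Dv_X, Finset.smul_sum]
    refine Finset.sum_congr rfl fun k _ => ?_
    simp only [Pi.smul_apply, Matrix.smul_apply, smul_eq_mul, map_mul, MvPolynomial.smul_eq_C_mul]
    ring
  rw [h, Derivation.smul_apply, MvPolynomial.smul_eq_C_mul]

theorem Dv_zero (p : Pl ι n) : Dv (0 : Tup ι n) p = 0 := by
  have h := Dv_smul 0 (0 : Tup ι n) p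
  rwa [zero_smul, map_zero, map_zero, zero_mul] at h

theorem Dv_comm (X Y : Tup ι n) (p : Pl ι n) : Dv X (Dv Y p) - Dv Y (Dv X p) = Dv (Y * X - X * Y) p := by
  have h : ⁅Dv X, Dv Y⁆ = Dv (Y * X - X * Y) := by
    refine MvPolynomial.derivation_ext fun q => ?_
    have hprod : ∀ A B : Tup ι n, Dv A (Dv B (MvPolynomial.X q)) =
        ∑ l, MvPolynomial.C (MvPolynomial.C ((B * A) q.1 q.2.1 l)) * MvPolynomial.X (q.1, l, q.2.2) := by
      intro A B
      rw [Dv_X, map_sum]
      have h1 : ∀ k, Dv A (MvPolynomial.C (MvPolynomial.C (B q.1 q.2.1 k)) * MvPolynomial.X (q.1, k, q.2.2)) =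
          ∑ l, MvPolynomial.C (MvPolynomial.C (B q.1 q.2.1 k * A q.1 k l)) * MvPolynomial.X (q.1, l, q.2.2) := by
        intro k
        rw [Derivation.leibniz, Dv_C, Dv_X, smul_zero, add_zero, smul_eq_mul, Finset.mul_sum]
        refine Finset.sum_congr rfl fun l _ => ?_
        rw [map_mul, map_mul]
        ring
      rw [Finset.sum_congr rfl fun k _ => h1 k, Finset.sum_comm]
      refine Finset.sum_congr rfl fun l _ => ?_
      rw [Pi.mul_apply, Matrix.mul_apply, map_sum, map_sum, Finset.sum_mul]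
    rw [Derivation.commutator_apply, hprod, hprod, Dv_X, ← Finset.sum_sub_distrib]
    refine Finset.sum_congr rfl fun l _ => ?_
    simp only [Pi.sub_apply, Matrix.sub_apply, map_sub]
    ring
  rw [← h, Derivation.commutator_apply]

/-- the relation along the line `(1 + s N) Y` -/
noncomputable def Ps (z : ℂ) (Y N : Tup ι n) : Pl ι n →+* ℂ[X] :=
  MvPolynomial.eval₂Hom (Polynomial.C.comp (MvPolynomial.eval fun _ : Unit => z))
    (fun q : ι × Fin n × Fin n => C (Y q.1 q.2.1 q.2.2) + X * C ((N * Y) q.1 q.2.1 q.2.2))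

theorem Ps_eval (z : ℂ) (Y N : Tup ι n) (p : Pl ι n) (s : ℂ) :
    (Ps z Y N p).eval s = ev p z ((1 + s • N) * Y) := by
  have h : (Polynomial.evalRingHom s).comp (Ps z Y N) =
      MvPolynomial.eval₂Hom (MvPolynomial.eval fun _ : Unit => z)
        (fun q : ι × Fin n × Fin n => ((1 + s • N) * Y) q.1 q.2.1 q.2.2) := by
    refine MvPolynomial.ringHom_ext (fun c => ?_) (fun q => ?_)
    · simp [Ps]
    · simp [Ps, add_mul, mul_comm s]
  exact congrArg (fun f => f p) h

theorem Ps_derivative (z : ℂ) (Y : Tup ι n) {N : Tup ι n} (hN : N * N = 0) (p : Pl ι n) :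
    derivative (Ps z Y N p) = Ps z Y N (Dv N p) := by
  induction p using MvPolynomial.induction_on with
  | C a =>
    rw [Dv_C, map_zero]
    simp [Ps]
  | add p q hp hq => rw [map_add, map_add, map_add, map_add, hp, hq]
  | mul_X p q hp =>
    have h1 : derivative (Ps z Y N (MvPolynomial.X q)) = Ps z Y N (Dv N (MvPolynomial.X q)) := by
      rw [Dv_X, map_sum]
      have h2 : ∀ k, Ps z Y N (MvPolynomial.C (MvPolynomial.C (N q.1 q.2.1 k)) * MvPolynomial.X (q.1, k, q.2.2)) =
          C (N q.1 q.2.1 k * Y q.1 k q.2.2) + X * C (N q.1 q.2.1 k * (N * Y) q.1 k q.2.2) := by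
        intro k
        simp only [Ps, map_mul, MvPolynomial.eval₂Hom_C, MvPolynomial.eval₂Hom_X', RingHom.comp_apply,
          MvPolynomial.eval_C]
        ring
      rw [Finset.sum_congr rfl fun k _ => h2 k, Finset.sum_add_distrib, ← Finset.mul_sum, ← map_sum, ← map_sum]
      have h3 : ∑ k, N q.1 q.2.1 k * (N * Y) q.1 k q.2.2 = 0 := by
        have h4 : (N * (N * Y)) q.1 q.2.1 q.2.2 = ∑ k, N q.1 q.2.1 k * (N * Y) q.1 k q.2.2 := by
          rw [Pi.mul_apply, Matrix.mul_apply]
        rw [← h4, ← mul_assoc, hN, zero_mul]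
        rfl
      have h5 : ∑ k, N q.1 q.2.1 k * Y q.1 k q.2.2 = (N * Y) q.1 q.2.1 q.2.2 := by
        rw [Pi.mul_apply, Matrix.mul_apply]
      rw [h3, h5, map_zero, mul_zero, add_zero]
      simp [Ps]
    rw [map_mul, derivative_mul, Derivation.leibniz, map_add, smul_eq_mul, smul_eq_mul, map_mul, map_mul, hp, h1]
    ring

/-- the relations on a set of points -/
def Rl (S : Set (ℂ × Tup ι n)) : Set (Pl ι n) := {p | ∀ x ∈ S, ev p x.1 x.2 = 0}

/-- the monoid of the tuples which preserve the relations -/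
def Mo (S : Set (ℂ × Tup ι n)) : Submonoid (Tup ι n) where
  carrier := {g | ∀ p ∈ Rl S, sb g p ∈ Rl S}
  one_mem' := by
    intro p hp x hx
    rw [ev_sb, one_mul]
    exact hp x hx
  mul_mem' := by
    intro g h hg hh p hp x hx
    have h2 := hh (sb g p) (hg p hp) x hx
    rw [ev_sb, ev_sb] at h2
    rw [ev_sb, mul_assoc]
    exact h2

theorem mem_Mo {S : Set (ℂ × Tup ι n)} {g : Tup ι n} :
    g ∈ Mo S ↔ ∀ p ∈ Rl S, ∀ x ∈ S, ev p x.1 (g * x.2) = 0 := by
  constructor
  · intro h p hp x hx
    have := h p hp x hx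
    rwa [ev_sb] at this
  · intro h p hp x hx
    rw [ev_sb]
    exact h p hp x hx

theorem Rl_add {S : Set (ℂ × Tup ι n)} {p q : Pl ι n} (hp : p ∈ Rl S) (hq : q ∈ Rl S) : p + q ∈ Rl S := by
  intro x hx
  have h1 := hp x hx
  have h2 := hq x hx
  rw [ev_eq] at h1 h2 ⊢
  rw [map_add, h1, h2, add_zero]

theorem Rl_mul {S : Set (ℂ × Tup ι n)} (p : Pl ι n) {q : Pl ι n} (hq : q ∈ Rl S) : p * q ∈ Rl S := by
  intro x hx
  have h2 := hq x hx
  rw [ev_eq] at h2 ⊢
  rw [map_mul, h2, mul_zero]

theorem Rl_sub {S : Set (ℂ × Tup ι n)} {p q : Pl ι n} (hp : p ∈ Rl S) (hq : q ∈ Rl S) : p - q ∈ Rl S := by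
  intro x hx
  have h1 := hp x hx
  have h2 := hq x hx
  rw [ev_eq] at h1 h2 ⊢
  rw [map_sub, h1, h2, sub_zero]

/-- the Lie algebra of the relations -/
def Li (S : Set (ℂ × Tup ι n)) : Submodule ℂ (Tup ι n) where
  carrier := {X | ∀ p ∈ Rl S, Dv X p ∈ Rl S}
  add_mem' := by
    intro X Y hX hY p hp
    rw [Dv_add]
    exact Rl_add (hX p hp) (hY p hp)
  zero_mem' := by
    intro p hp x hx
    rw [Dv_zero, ev_eq, map_zero]
  smul_mem' := by
    intro c X hX p hp
    rw [Dv_smul]
    exact Rl_mul _ (hX p hp)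

theorem Li_bracket {S : Set (ℂ × Tup ι n)} (X : Tup ι n) (hX : X ∈ Li S) (Y : Tup ι n) (hY : Y ∈ Li S) :
    X * Y - Y * X ∈ Li S := by
  intro p hp
  rw [← Dv_comm]
  exact Rl_sub (hY _ (hX p hp)) (hX _ (hY p hp))

theorem Li_of_Mo {S : Set (ℂ × Tup ι n)} {N : Tup ι n} (hN : N * N = 0) (h : 1 + N ∈ Mo S) : N ∈ Li S := by
  have hpow : ∀ r : ℕ, (1 + N) ^ r = 1 + (r : ℂ) • N := by
    intro r
    induction r with
    | zero => simp
    | succ r ih =>
      rw [pow_succ, ih, mul_add, add_mul, add_mul, one_mul, smul_mul_assoc, smul_mul_assoc, hN, smul_zero]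
      push_cast
      rw [mul_one, one_mul]
      module
  intro p hp x hx
  have h0 : Ps x.1 x.2 N p = 0 := by
    apply Polynomial.eq_zero_of_infinite_isRoot
    refine Set.Infinite.mono ?_ (Set.infinite_range_of_injective (f := fun r : ℕ => (r : ℂ)) Nat.cast_injective)
    rintro _ ⟨r, rfl⟩
    show (Ps x.1 x.2 N p).eval (r : ℂ) = 0
    rw [Ps_eval, ← hpow]
    exact mem_Mo.1 (pow_mem h r) p hp x hx
  have h1 := Ps_derivative x.1 x.2 hN p
  rw [h0, map_zero] at h1
  have h2 := Ps_eval x.1 x.2 N (Dv N p) 0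
  rw [← h1, eval_zero, zero_smul, add_zero, one_mul] at h2
  exact h2.symm

theorem Mo_of_Li {S : Set (ℂ × Tup ι n)} {N : Tup ι n} (hN : N * N = 0) (h : N ∈ Li S) (s : ℂ) : 1 + s • N ∈ Mo S := by
  rw [mem_Mo]
  intro p hp x hx
  rw [← Ps_eval]
  have hit : ∀ k : ℕ, derivative^[k] (Ps x.1 x.2 N p) = Ps x.1 x.2 N ((Dv N)^[k] p) := by
    intro k
    induction k with
    | zero => rfl
    | succ k ih =>
      rw [Function.iterate_succ', Function.iterate_succ', Function.comp_apply, Function.comp_apply, ih, Ps_derivative _ _ hN]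
  have hmem : ∀ k : ℕ, (Dv N)^[k] p ∈ Rl S := by
    intro k
    induction k with
    | zero => exact hp
    | succ k ih =>
      rw [Function.iterate_succ', Function.comp_apply]
      exact h _ ih
  have h0 : Ps x.1 x.2 N p = 0 := by
    ext k
    have h1 := hit k
    have h2 := congrArg (Polynomial.eval 0) h1
    rw [Ps_eval, zero_smul, add_zero, one_mul, hmem k x hx, ← Polynomial.coeff_zero_eq_eval_zero,
      Polynomial.coeff_iterate_derivative, zero_add, Nat.descFactorial_self, nsmul_eq_mul] at h2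
    rw [Polynomial.coeff_zero]
    exact (mul_eq_zero.1 h2).resolve_left (by exact_mod_cast k.factorial_ne_zero)
  rw [h0, eval_zero]

/-- **Tuples of matrices of determinant one preserve the relations.** -/
theorem Mo_of_det [Fintype ι] [DecidableEq ι] {S : Set (ℂ × Tup ι n)} (hn : 2 ≤ n)
    (h : ∀ (r : ι) (i j : Fin n), i ≠ j → Pi.single r (Matrix.single i j 1) ∈ Li S) (g : Tup ι n)
    (hg : ∀ r, (g r).det = 1) : g ∈ Mo S := by
  classical
  have : Nontrivial (Fin n) := Fin.nontrivial_iff_two_le.2 hn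
  -- one component
  have h1 : ∀ (r : ι) (A : Matrix.SpecialLinearGroup (Fin n) ℂ), Function.update (1 : Tup ι n) r (A : Matrix _ _ ℂ) ∈ Mo S := by
    intro r A
    induction A using Pool.Agent.H463R3.PSLn.transvection_induction with
    | htransvec i j hij c =>
      have h2 : Function.update (1 : Tup ι n) r
          ((Matrix.SpecialLinearGroup.transvection hij c : Matrix.SpecialLinearGroup (Fin n) ℂ) : Matrix _ _ ℂ) =
          1 + c • (Pi.single r (Matrix.single i j (1 : ℂ)) : Tup ι n) := by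
        funext s
        by_cases hs : s = r
        · subst hs
          rw [Function.update_self, Pi.add_apply, Pi.smul_apply, Pi.single_eq_same,
            Matrix.SpecialLinearGroup.transvection_coe]
          simp
        · rw [Function.update_of_ne hs, Pi.add_apply, Pi.smul_apply, Pi.single_eq_of_ne hs, smul_zero, add_zero]
      rw [h2]
      refine Mo_of_Li ?_ (h r i j hij) c
      rw [← Pi.single_mul, Matrix.single_mul_single_of_ne _ _ _ _ hij.symm, Pi.single_zero]
    | hmul A B hA hB =>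
      have h2 := mul_mem hA hB
      rw [← Function.update_mul, one_mul] at h2
      exact h2
  -- all components
  have h2 : ∀ A : Finset ι, (fun r => if r ∈ A then g r else 1 : Tup ι n) ∈ Mo S := by
    intro A
    induction A using Finset.induction_on with
    | empty =>
      simp only [Finset.notMem_empty, if_false]
      exact one_mem _
    | insert r A hr ih =>
      have h3 := mul_mem (h1 r ⟨g r, hg r⟩) ih
      convert h3 using 1
      funext s
      rw [Pi.mul_apply]
      by_cases hs : s = r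
      · subst hs
        rw [Function.update_self, if_pos (Finset.mem_insert_self _ _), if_neg hr, mul_one]
      · rw [Function.update_of_ne hs, Pi.one_apply, one_mul]
        simp [Finset.mem_insert, hs]
  have h3 := h2 Finset.univ
  simpa using h3

/-- polynomial paths of matrices of determinant one -/
theorem sl_path (hn : 2 ≤ n) (g : Matrix (Fin n) (Fin n) ℂ) (hg : g.det = 1) :
    ∃ G : Matrix (Fin n) (Fin n) ℂ[X], G.map (Polynomial.eval 0) = 1 ∧ G.map (Polynomial.eval 1) = g ∧
      ∀ s, (G.map (Polynomial.eval s)).det = 1 := by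
  classical
  have : Nontrivial (Fin n) := Fin.nontrivial_iff_two_le.2 hn
  have key : ∀ A : Matrix.SpecialLinearGroup (Fin n) ℂ, ∃ G : Matrix (Fin n) (Fin n) ℂ[X],
      G.map (Polynomial.eval 0) = 1 ∧ G.map (Polynomial.eval 1) = (A : Matrix _ _ ℂ) ∧
        ∀ s, (G.map (Polynomial.eval s)).det = 1 := by
    intro A
    induction A using Pool.Agent.H463R3.PSLn.transvection_induction with
    | htransvec i j hij c =>
      have h1 : ∀ s : ℂ, (1 + Matrix.single i j (C c * X) : Matrix (Fin n) (Fin n) ℂ[X]).map (Polynomial.eval s) =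
          (Matrix.SpecialLinearGroup.transvection hij (c * s) : Matrix.SpecialLinearGroup (Fin n) ℂ) := by
        intro s
        rw [Matrix.SpecialLinearGroup.transvection_coe]
        ext a b
        rw [Matrix.map_apply, Matrix.add_apply, Matrix.add_apply, Polynomial.eval_add, Matrix.one_apply, Matrix.one_apply,
          Matrix.single_apply, Matrix.single_apply]
        split_ifs <;> simp
      refine ⟨1 + Matrix.single i j (C c * X), ?_, ?_, fun s => ?_⟩
      · rw [h1, mul_zero, Matrix.SpecialLinearGroup.transvection_coeff_zero]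
        rfl
      · rw [h1, mul_one]
      · rw [h1]
        exact Matrix.SpecialLinearGroup.det_coe _
    | hmul A B hA hB =>
      obtain ⟨G, hG0, hG1, hG⟩ := hA
      obtain ⟨H, hH0, hH1, hH⟩ := hB
      have h1 : ∀ s : ℂ, (G * H).map (Polynomial.eval s) = G.map (Polynomial.eval s) * H.map (Polynomial.eval s) :=
        fun s => Matrix.map_mul (f := Polynomial.evalRingHom s)
      refine ⟨G * H, ?_, ?_, fun s => ?_⟩
      · rw [h1, hG0, hH0, one_mul]
      · rw [h1, hG1, hH1]
        rfl
      · rw [h1, Matrix.det_mul, hG, hH, one_mul]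
  exact key ⟨g, hg⟩

end Pool.Agent.Helper67K9.SE
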