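import Pool.Agent.Helper67K9.SE.Arith
import Pool.Agent.Y890.MV.TorExc

/-!
# The torsors of the superelliptic families
-/

set_option autoImplicit false
set_option linter.unusedSectionVars false

open Matrix Polynomial

namespace Pool.Agent.Helper67K9.SE

open Pool.Agent.Y118.HP (ee seg Dm isOpen_Dm InGap mem_Dm_of_im isPreconnected_Dm)
open Pool.Agent.Y890.MV (evX evM evM_eq TorM)

/-- families with torsors with polynomial sections -/
structure TorP {X σ : Type} [Fintype X] (U : Set (X → ℂ)) (f : σ → (X → ℂ) → ℂ) (Tor : (X → ℂ) → Set (σ → ℂ)) :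
    Prop where
  self : ∀ x ∈ U, (fun s => f s x) ∈ Tor x
  inv : ∀ p : MvPolynomial σ (MvPolynomial X ℂ), (∀ x ∈ U, evM f x p = 0) → ∀ x ∈ U, ∀ Y ∈ Tor x, evX x Y p = 0
  path : ∀ x ∈ U, ∀ Y ∈ Tor x, ∃ γ : σ → ℂ[X], (∀ s, (γ s).eval 0 = f s x) ∧ (∀ s, (γ s).eval 1 = Y s) ∧
    ∀ t, (fun s => (γ s).eval t) ∈ Tor x
  sec : ∀ x0 ∈ U, ∀ Y0 ∈ Tor x0, ∃ v : σ → MvPolynomial X ℂ, (∀ x ∈ U, (fun s => MvPolynomial.eval x (v s)) ∈ Tor x) ∧
      ∀ s, MvPolynomial.eval x0 (v s) = Y0 s

section gen

variable {X σ : Type} [Fintype X] {U : Set (X → ℂ)} {f : σ → (X → ℂ) → ℂ} {Tor : (X → ℂ) → Set (σ → ℂ)}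

theorem TorP.torM (h : TorP U f Tor) : TorM U f Tor := by
  refine ⟨h.self, h.inv, h.path, 1, one_ne_zero, fun x0 hx0 _ Y0 hY0 => ?_⟩
  obtain ⟨v, hv1, hv2⟩ := h.sec x0 hx0 Y0 hY0
  refine ⟨v, fun x hx _ => ?_, fun s => ?_⟩
  · simp only [map_one, div_one]
    exact hv1 x hx
  · rw [map_one, div_one]
    exact hv2 s

theorem evX_hom (x : X → ℂ) (Y : σ → ℂ) (p : MvPolynomial σ (MvPolynomial X ℂ)) :
    evX x Y p = MvPolynomial.eval₂Hom (MvPolynomial.eval x) Y p := rfl

/-- adding polynomial functions of the coordinates -/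
theorem TorP.graph {τ : Type} (h : TorP U f Tor) (Φ : τ → MvPolynomial σ (MvPolynomial X ℂ)) :
    TorP U (Sum.elim f (fun t x => evX x (fun s => f s x) (Φ t)))
      (fun x => {Y | (fun s => Y (Sum.inl s)) ∈ Tor x ∧ ∀ t, Y (Sum.inr t) = evX x (fun s => Y (Sum.inl s)) (Φ t)}) := by
  refine ⟨fun x hx => ⟨h.self x hx, fun t => rfl⟩, ?_, ?_, ?_⟩
  · intro p hp x hx Y hY
    set q : MvPolynomial σ (MvPolynomial X ℂ) := MvPolynomial.aeval (Sum.elim MvPolynomial.X Φ) p with hq
    have hev : ∀ (x : X → ℂ) (Z : σ → ℂ), evX x Z q = evX x (Sum.elim Z fun t => evX x Z (Φ t)) p := by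
      intro x Z
      rw [evX_hom, evX_hom]
      have h1 : (MvPolynomial.eval₂Hom (MvPolynomial.eval x) Z).comp
          (MvPolynomial.aeval (R := MvPolynomial X ℂ) (Sum.elim MvPolynomial.X Φ)).toRingHom =
          MvPolynomial.eval₂Hom (MvPolynomial.eval x) (Sum.elim Z fun t => evX x Z (Φ t)) := by
        refine MvPolynomial.ringHom_ext (fun c => ?_) (fun s => ?_)
        · simp [MvPolynomial.algebraMap_eq]
        · rcases s with s | t
          · simp
          · simp [evX]
      exact congrArg (fun g => g p) h1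
    have h1 : ∀ x ∈ U, evM f x q = 0 := by
      intro x hx
      rw [evM_eq, hev]
      have h2 := hp x hx
      rw [evM_eq] at h2
      rw [← h2]
      congr 1
      funext s
      rcases s with s | t <;> rfl
    have h2 := h.inv q h1 x hx _ hY.1
    rw [hev] at h2
    rw [← h2]
    congr 1
    funext s
    rcases s with s | t
    · rfl
    · exact hY.2 t
  · intro x hx Y hY
    obtain ⟨γ, h0, h1, hγ⟩ := h.path x hx _ hY.1
    set E : MvPolynomial σ (MvPolynomial X ℂ) →+* ℂ[X] :=
      MvPolynomial.eval₂Hom (Polynomial.C.comp (MvPolynomial.eval x)) γ with hE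
    have hev : ∀ (t : ℂ) (p : MvPolynomial σ (MvPolynomial X ℂ)),
        (E p).eval t = evX x (fun s => (γ s).eval t) p := by
      intro t p
      rw [evX_hom]
      have h2 : (Polynomial.evalRingHom t).comp E =
          MvPolynomial.eval₂Hom (MvPolynomial.eval x) (fun s => (γ s).eval t) := by
        refine MvPolynomial.ringHom_ext (fun c => ?_) (fun s => ?_)
        · simp [hE]
        · simp [hE]
      exact congrArg (fun g => g p) h2
    refine ⟨Sum.elim γ fun t => E (Φ t), ?_, ?_, ?_⟩
    · rintro (s | t)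
      · exact h0 s
      · show (E (Φ t)).eval 0 = _
        rw [hev]
        simp only [h0]
        rfl
    · rintro (s | t)
      · exact h1 s
      · show (E (Φ t)).eval 1 = _
        rw [hev]
        simp only [h1]
        exact (hY.2 t).symm
    · intro t
      refine ⟨hγ t, fun u => ?_⟩
      show (E (Φ u)).eval t = _
      rw [hev]
      rfl
  · intro x0 hx0 Y0 hY0
    obtain ⟨v, hv1, hv2⟩ := h.sec x0 hx0 _ hY0.1
    set E : MvPolynomial σ (MvPolynomial X ℂ) →+* MvPolynomial X ℂ :=
      MvPolynomial.eval₂Hom (RingHom.id _) v with hE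
    have hev : ∀ (x : X → ℂ) (p : MvPolynomial σ (MvPolynomial X ℂ)),
        MvPolynomial.eval x (E p) = evX x (fun s => MvPolynomial.eval x (v s)) p := by
      intro x p
      rw [evX_hom]
      have h2 : (MvPolynomial.eval x).comp E =
          MvPolynomial.eval₂Hom (MvPolynomial.eval x) (fun s => MvPolynomial.eval x (v s)) := by
        refine MvPolynomial.ringHom_ext (fun c => ?_) (fun s => ?_)
        · simp [hE]
        · simp [hE]
      exact congrArg (fun g => g p) h2
    refine ⟨Sum.elim v fun t => E (Φ t), ?_, ?_⟩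
    · intro x hx
      refine ⟨hv1 x hx, fun t => ?_⟩
      show MvPolynomial.eval x (E (Φ t)) = _
      rw [hev]
      rfl
    · rintro (s | t)
      · exact hv2 s
      · show MvPolynomial.eval x0 (E (Φ t)) = _
        rw [hev]
        simp only [hv2]
        exact (hY0.2 t).symm

/-- change of the names of the parameters -/
theorem torM_equiv {X' : Type} [Fintype X'] (e : X ≃ X') (h : TorM U f Tor) :
    TorM {x : X' → ℂ | x ∘ e ∈ U} (fun s x => f s (x ∘ e)) (fun x => Tor (x ∘ e)) := by
  have hev : ∀ (x : X' → ℂ) (Y : σ → ℂ) (p : MvPolynomial σ (MvPolynomial X' ℂ)),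
      evX (x ∘ e) Y (MvPolynomial.map (MvPolynomial.rename e.symm).toRingHom p) = evX x Y p := by
    intro x Y p
    rw [evX_hom, evX_hom]
    have h1 : (MvPolynomial.eval₂Hom (MvPolynomial.eval (x ∘ e)) Y).comp
        (MvPolynomial.map (MvPolynomial.rename e.symm).toRingHom) = MvPolynomial.eval₂Hom (MvPolynomial.eval x) Y := by
      refine MvPolynomial.ringHom_ext (fun c => ?_) (fun s => ?_)
      · simp only [RingHom.comp_apply, MvPolynomial.map_C, MvPolynomial.eval₂Hom_C, AlgHom.toRingHom_eq_coe,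
          RingHom.coe_coe, MvPolynomial.eval_rename]
        congr 2
        funext i
        simp
      · simp
    exact congrArg (fun g => g p) h1
  refine ⟨fun x hx => h.self _ hx, ?_, fun x hx Y hY => h.path _ hx Y hY, ?_⟩
  · intro p hp x hx Y hY
    rw [← hev]
    refine h.inv _ ?_ _ hx Y hY
    intro y hy
    have hy' : (y ∘ e.symm) ∘ e = y := by
      funext i
      simp
    have h1 := hp (y ∘ e.symm) (by
      show (y ∘ e.symm) ∘ e ∈ U
      rw [hy']
      exact hy)
    rw [evM_eq] at h1 ⊢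
    rw [← hev] at h1
    simp only [hy'] at h1
    exact h1
  · obtain ⟨c, hc, hs⟩ := h.sec
    refine ⟨MvPolynomial.rename e c, ?_, ?_⟩
    · intro h0
      apply hc
      exact MvPolynomial.rename_injective _ e.injective (by rw [h0, map_zero])
    · intro x0 hx0 hc0 Y0 hY0
      rw [MvPolynomial.eval_rename] at hc0
      obtain ⟨v, hv1, hv2⟩ := hs _ hx0 hc0 Y0 hY0
      refine ⟨fun s => MvPolynomial.rename e (v s), ?_, ?_⟩
      · intro x hx hcx
        rw [MvPolynomial.eval_rename] at hcx
        have h1 := hv1 _ hx hcx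
        simp only [MvPolynomial.eval_rename]
        exact h1
      · intro s
        rw [MvPolynomial.eval_rename, MvPolynomial.eval_rename]
        exact hv2 s

end gen

end Pool.Agent.Helper67K9.SE
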