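import Pool.Agent.Helper67K9.SE.Tor

/-!
# The torsors of the superelliptic families, II
-/

set_option autoImplicit false
set_option linter.unusedSectionVars false

open Matrix Polynomial

namespace Pool.Agent.Helper67K9.SE

open Pool.Agent.Y118.HP (ee seg Dm isOpen_Dm InGap mem_Dm_of_im isPreconnected_Dm)
open Pool.Agent.Y890.MV (evX evM evM_eq TorM)

variable {n : ℕ} {ι : Type}

/-- the conditions on the exponents -/
structure Good (n : ℕ) (μ : ι → ℝ) : Prop where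
  unit : ∀ r, 0 < μ r ∧ μ r < 1
  distinct : ∀ r s, r ≠ s → μ r ≠ μ s ∧ μ r + μ s ≠ 1
  half : 3 ≤ n → ∀ r, μ r ≠ 1 / 2
  inf : ∀ r (k : ℤ), (n - 1 : ℝ) * μ r ≠ k

/-- the domain of the parameter -/
def Um (a : Fin n → ℝ) (m : Fin (n + 1)) : Set (Unit → ℂ) := {x | x () ∈ Dm a m}

/-- the matrix of coordinates -/
def mtr (Y : ι × Fin n × Fin n → ℂ) (r : ι) : Matrix (Fin n) (Fin n) ℂ := Matrix.of fun i j => Y (r, i, j)

/-- the periods of the exponents `μ r` -/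
noncomputable def fh (μ : ι → ℝ) (a : Fin n → ℝ) (m : Fin (n + 1)) (q : ι × Fin n × Fin n) (x : Unit → ℂ) : ℂ :=
  PM (μ q.1) a m (x ()) q.2.1 q.2.2

theorem Mo_good [Fintype ι] [DecidableEq ι] {μ : ι → ℝ} (hn : 2 ≤ n) (hμ : Good n μ) {a : Fin n → ℝ}
    (ha : StrictMono a) (m : Fin (n + 1)) (g : Tup ι n) (hg : ∀ r, (g r).det = 1) : g ∈ Mo (SD μ a m) :=
  Mo_SD hμ.unit ha hn (fun r => zt_sub_inv_ne (hμ.unit r).1 (hμ.unit r).2)
    (fun h3 r => zt_sq_ne (hμ.unit r).1 (hμ.unit r).2 (hμ.half h3 r)) (fun r => zt_sum_ne hn (hμ.inf r))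
    (zt_inj hμ.unit hμ.distinct) m g hg

/-- **The torsor of the half system.** -/
theorem torP_half [Fintype ι] [DecidableEq ι] {μ : ι → ℝ} (hn : 2 ≤ n) (hμ : Good n μ) {a : Fin n → ℝ}
    (ha : StrictMono a) (m : Fin (n + 1)) {c : ι → ℂ} (hc : ∀ r, ∀ z ∈ Dm a m, (PM (μ r) a m z).det = c r) :
    TorP (Um a m) (fh μ a m) (fun _ => {Y | ∀ r, (mtr Y r).det = c r}) := by
  classical
  have hc0 : ∀ r, ∀ z ∈ Dm a m, c r ≠ 0 := by
    intro r z hz
    rw [← hc r z hz]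
    exact det_ne (hμ.unit r).1 (hμ.unit r).2 ha hn m hz
  have hinv : ∀ z ∈ Dm a m, ∀ Y : ι × Fin n × Fin n → ℂ, (∀ r, (mtr Y r).det = c r) → ∀ r,
      (mtr Y r * (PM (μ r) a m z)⁻¹).det = 1 ∧ mtr Y r * (PM (μ r) a m z)⁻¹ * PM (μ r) a m z = mtr Y r := by
    intro z hz Y hY r
    have h1 : IsUnit (PM (μ r) a m z).det := isUnit_iff_ne_zero.2 (by rw [hc r z hz]; exact hc0 r z hz)
    refine ⟨?_, ?_⟩
    · rw [Matrix.det_mul, hY r, Matrix.det_nonsing_inv, hc r z hz, Ring.inverse_eq_inv']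
      exact mul_inv_cancel₀ (hc0 r z hz)
    · rw [Matrix.mul_assoc, Matrix.nonsing_inv_mul _ h1, Matrix.mul_one]
  refine ⟨fun x hx r => hc r _ hx, ?_, ?_, ?_⟩
  · intro p hp x hx Y hY
    have h1 : p ∈ Rl (SD μ a m) := by
      rw [mem_Rl_SD]
      intro z hz
      exact hp (fun _ => z) hz
    have h2 := hinv (x ()) hx Y hY
    have h3 := Mo_good hn hμ ha m (fun r => mtr Y r * (PM (μ r) a m (x ()))⁻¹) fun r => (h2 r).1
    have h4 := mem_Mo.1 h3 p h1 (x (), PMt μ a m (x ())) ⟨hx, rfl⟩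
    simp only at h4
    have e1 : ((fun r => mtr Y r * (PM (μ r) a m (x ()))⁻¹) * PMt μ a m (x ()) : Tup ι n) = fun r => mtr Y r := by
      funext r
      exact (h2 r).2
    rw [e1] at h4
    exact h4
  · intro x hx Y hY
    have h2 := hinv (x ()) hx Y hY
    choose G hG0 hG1 hG using fun r => sl_path hn _ (h2 r).1
    have hev : ∀ (t : ℂ) (q : ι × Fin n × Fin n), (∑ k, G q.1 q.2.1 k *
        Polynomial.C (PM (μ q.1) a m (x ()) k q.2.2)).eval t =
        ((G q.1).map (Polynomial.eval t) * PM (μ q.1) a m (x ())) q.2.1 q.2.2 := by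
      intro t q
      rw [Polynomial.eval_finsetSum, Matrix.mul_apply]
      refine Finset.sum_congr rfl fun k _ => ?_
      rw [Polynomial.eval_mul, Polynomial.eval_C, Matrix.map_apply]
    refine ⟨fun q => ∑ k, G q.1 q.2.1 k * Polynomial.C (PM (μ q.1) a m (x ()) k q.2.2), ?_, ?_, ?_⟩
    · intro q
      rw [hev, hG0, one_mul]
      rfl
    · intro q
      rw [hev, hG1, (h2 q.1).2]
      rfl
    · intro t r
      have e2 : mtr (fun q : ι × Fin n × Fin n => (∑ k, G q.1 q.2.1 k *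
          Polynomial.C (PM (μ q.1) a m (x ()) k q.2.2)).eval t) r =
          (G r).map (Polynomial.eval t) * PM (μ r) a m (x ()) := by
        ext i j
        exact hev t (r, i, j)
      rw [e2, Matrix.det_mul, hG r t, one_mul]
      exact hc r _ hx
  · intro x0 hx0 Y0 hY0
    refine ⟨fun q => MvPolynomial.C (Y0 q), fun x hx r => ?_, fun s => ?_⟩
    · have e3 : mtr (fun s => MvPolynomial.eval x (MvPolynomial.C (Y0 s))) r = mtr Y0 r := by
        ext i j
        simp [mtr]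
      rw [e3]
      exact hY0 r
    · rw [MvPolynomial.eval_C]

/-! ### The dual exponents -/

/-- the polarisation as a matrix of polynomials -/
noncomputable def KP (μ : ℝ) (a : Fin n → ℝ) : Matrix (Fin n) (Fin n) (MvPolynomial Unit ℂ) :=
  Matrix.of fun c d => MvPolynomial.C ((μ * ((c : ℕ) + (d : ℕ)) - (d : ℕ)) * (Pa a).coeff ((c : ℕ) + (d : ℕ) + 1)) -
    MvPolynomial.X () * MvPolynomial.C ((μ * ((c : ℕ) + (d : ℕ) + 2) - (d : ℕ) - 1) *
      (Pa a).coeff ((c : ℕ) + (d : ℕ) + 2))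

theorem KP_eval (μ : ℝ) (a : Fin n → ℝ) (x : Unit → ℂ) : (KP μ a).map (MvPolynomial.eval x) = KM μ a (x ()) := by
  ext c d
  rw [Matrix.map_apply]
  unfold KP KM kq
  rw [Matrix.of_apply, Matrix.of_apply]
  simp

/-- the coordinates as a matrix of variables -/
noncomputable def XM (r : ι) : Matrix (Fin n) (Fin n) (MvPolynomial (ι × Fin n × Fin n) (MvPolynomial Unit ℂ)) :=
  Matrix.of fun i j => MvPolynomial.X (r, i, j)

/-- the dual coordinates in terms of the coordinates -/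
noncomputable def DP (μ : ι → ℝ) (a : Fin n → ℝ) (κ c : ι → ℂ) (E : ι → Matrix (Fin n) (Fin n) ℂ)
    (q : ι × Fin n × Fin n) : MvPolynomial (ι × Fin n × Fin n) (MvPolynomial Unit ℂ) :=
  (((KP (μ q.1) a).adjugate).map (fun w => (MvPolynomial.C w : MvPolynomial (ι × Fin n × Fin n) (MvPolynomial Unit ℂ))) *
    (XM q.1).adjugate * (E q.1).map (fun w => (MvPolynomial.C (MvPolynomial.C (w * (κ q.1)⁻¹ * (c q.1)⁻¹)) :
      MvPolynomial (ι × Fin n × Fin n) (MvPolynomial Unit ℂ))) :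
    Matrix (Fin n) (Fin n) (MvPolynomial (ι × Fin n × Fin n) (MvPolynomial Unit ℂ))) q.2.2 q.2.1

theorem DP_eval (μ : ι → ℝ) (a : Fin n → ℝ) (κ c : ι → ℂ) (E : ι → Matrix (Fin n) (Fin n) ℂ)
    (q : ι × Fin n × Fin n) (x : Unit → ℂ) (Y : ι × Fin n × Fin n → ℂ) : evX x Y (DP μ a κ c E q) =
      ((KM (μ q.1) a (x ())).adjugate * (mtr Y q.1).adjugate * (((κ q.1)⁻¹ * (c q.1)⁻¹) • E q.1)) q.2.2 q.2.1 := by
  set φ : MvPolynomial (ι × Fin n × Fin n) (MvPolynomial Unit ℂ) →+* ℂ :=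
    MvPolynomial.eval₂Hom (MvPolynomial.eval x) Y with hφ
  have h1 : ∀ M : Matrix (Fin n) (Fin n) (MvPolynomial (ι × Fin n × Fin n) (MvPolynomial Unit ℂ)),
      ∀ i j, φ (M i j) = (M.map φ) i j := fun M i j => rfl
  rw [evX_hom, ← hφ]
  unfold DP
  rw [h1, Matrix.map_mul, Matrix.map_mul]
  have e1 : (((KP (μ q.1) a).adjugate).map (fun w => (MvPolynomial.C w :
      MvPolynomial (ι × Fin n × Fin n) (MvPolynomial Unit ℂ)))).map φ = (KM (μ q.1) a (x ())).adjugate := by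
    rw [Matrix.map_map]
    have e2 : (φ ∘ (fun w => (MvPolynomial.C w : MvPolynomial (ι × Fin n × Fin n) (MvPolynomial Unit ℂ))) :
        MvPolynomial Unit ℂ → ℂ) = MvPolynomial.eval x := by
      funext w
      simp [hφ]
    rw [e2, ← KP_eval]
    exact (RingHom.map_adjugate (MvPolynomial.eval x) (KP (μ q.1) a))
  have e2 : ((XM (n := n) q.1).adjugate).map φ = (mtr Y q.1).adjugate := by
    have e3 : (XM (n := n) q.1).map φ = mtr Y q.1 := by
      ext i j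
      rw [Matrix.map_apply]
      unfold XM mtr
      rw [Matrix.of_apply, Matrix.of_apply]
      simp [hφ]
    rw [← e3]
    exact (RingHom.map_adjugate φ (XM q.1))
  have e3 : ((E q.1).map fun w => MvPolynomial.C (σ := ι × Fin n × Fin n) (MvPolynomial.C (σ := Unit)
      (w * (κ q.1)⁻¹ * (c q.1)⁻¹))).map φ = ((κ q.1)⁻¹ * (c q.1)⁻¹) • E q.1 := by
    ext i j
    rw [Matrix.map_apply, Matrix.map_apply, Matrix.smul_apply, smul_eq_mul]
    simp only [hφ, MvPolynomial.eval₂Hom_C, MvPolynomial.eval_C]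
    ring
  rw [e1, e2, e3]

/-- the bilinear relation determines the dual matrix -/
theorem dual_iff {Y Y' K E : Matrix (Fin n) (Fin n) ℂ} {κ c : ℂ} (hK : K.det = κ) (hκ : κ ≠ 0) (hY : Y.det = c)
    (hc : c ≠ 0) : Y * K * Y'.transpose = E ↔
      Y'.transpose = K.adjugate * Y.adjugate * ((κ⁻¹ * c⁻¹) • E) := by
  have hKu : IsUnit K.det := isUnit_iff_ne_zero.2 (by rw [hK]; exact hκ)
  have hYu : IsUnit Y.det := isUnit_iff_ne_zero.2 (by rw [hY]; exact hc)
  have e1 : K.adjugate * Y.adjugate * ((κ⁻¹ * c⁻¹) • E) = K⁻¹ * Y⁻¹ * E := by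
    rw [Matrix.inv_def, Matrix.inv_def, hK, hY, Ring.inverse_eq_inv', Matrix.mul_smul,
      Matrix.smul_mul, Matrix.mul_smul, Matrix.smul_mul, Matrix.smul_mul, smul_smul]
  rw [e1]
  constructor
  · intro h
    rw [← h]
    simp only [Matrix.mul_assoc]
    rw [Matrix.nonsing_inv_mul_cancel_left _ _ hYu, Matrix.nonsing_inv_mul_cancel_left _ _ hKu]
  · intro h
    rw [h]
    simp only [Matrix.mul_assoc]
    rw [Matrix.mul_nonsing_inv_cancel_left _ _ hKu, Matrix.mul_nonsing_inv_cancel_left _ _ hYu]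

/-- all periods -/
noncomputable def fA (μ : ι → ℝ) (a : Fin n → ℝ) (m : Fin (n + 1)) :
    (ι × Fin n × Fin n) ⊕ (ι × Fin n × Fin n) → (Unit → ℂ) → ℂ :=
  Sum.elim (fh μ a m) (fh (fun r => 1 - μ r) a m)

/-- the torsor -/
def TA (μ : ι → ℝ) (a : Fin n → ℝ) (c : ι → ℂ) (E : ι → Matrix (Fin n) (Fin n) ℂ) (x : Unit → ℂ) :
    Set ((ι × Fin n × Fin n) ⊕ (ι × Fin n × Fin n) → ℂ) :=
  {Y | ∀ r, (mtr (fun q => Y (Sum.inl q)) r).det = c r ∧
    mtr (fun q => Y (Sum.inl q)) r * KM (μ r) a (x ()) * (mtr (fun q => Y (Sum.inr q)) r).transpose = E r}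

theorem KM_det_const (μ : ℝ) (a : Fin n → ℝ) (z z' : ℂ) : (KM μ a z).det = (KM μ a z').det := by
  set σ : Equiv.Perm (Fin n) := Fin.revPerm with hσ
  have key : ∀ z : ℂ, Equiv.Perm.sign σ * (KM μ a z).det =
      ∏ i : Fin n, ((μ * (((i : ℕ) : ℂ) + ((n - 1 - (i : ℕ) : ℕ) : ℂ)) - ((n - 1 - (i : ℕ) : ℕ) : ℂ)) *
        (Pa a).coeff ((i : ℕ) + (n - 1 - (i : ℕ)) + 1)) := by
    intro z
    rw [← Matrix.det_permute' σ]
    have h2 : ((KM μ a z).submatrix id σ).BlockTriangular id := by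
      intro i j hij
      have hij' : (j : ℕ) < i := hij
      have hj := j.2
      rw [Matrix.submatrix_apply, id]
      have h3 : ((σ j : Fin n) : ℕ) = n - 1 - j := by
        rw [hσ, Fin.revPerm_apply, Fin.val_rev]
        omega
      unfold KM kq
      rw [Matrix.of_apply, h3, Pa_coeff_zero a (by omega), Pa_coeff_zero a (by omega)]
      ring
    rw [Matrix.det_of_isUpperTriangular h2]
    refine Finset.prod_congr rfl fun i _ => ?_
    have hi := i.2
    rw [Matrix.submatrix_apply, id]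
    have h3 : ((σ i : Fin n) : ℕ) = n - 1 - i := by
      rw [hσ, Fin.revPerm_apply, Fin.val_rev]
      omega
    unfold KM kq
    rw [Matrix.of_apply, h3, Pa_coeff_zero a (i := (i : ℕ) + (n - 1 - i) + 2) (by omega)]
    ring
  have h1 := (key z).trans (key z').symm
  have h2 : ((Equiv.Perm.sign σ : ℤ) : ℂ) ≠ 0 := by
    rcases Int.units_eq_one_or (Equiv.Perm.sign σ) with h | h <;> rw [h] <;> norm_num
  exact mul_left_cancel₀ h2 h1

theorem Good.det {μ : ι → ℝ} (hμ : Good n μ) (a : Fin n → ℝ) (z : ℂ) (r : ι) : (KM (μ r) a z).det ≠ 0 :=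
  KM_det (fun d _ h => hμ.inf r d (by rw [mul_comm]; exact_mod_cast h)) a z

/-- **The torsor of all periods.** -/
theorem torP_all [Fintype ι] [DecidableEq ι] {μ : ι → ℝ} (hn : 2 ≤ n) (hμ : Good n μ) {a : Fin n → ℝ}
    (ha : StrictMono a) (m : Fin (n + 1)) {c : ι → ℂ} (hc : ∀ r, ∀ z ∈ Dm a m, (PM (μ r) a m z).det = c r) :
    TorP (Um a m) (fA μ a m)
      (TA μ a c fun r => (Real.pi / Complex.sin (Real.pi * μ r) : ℂ) • EC (zt (μ r)) m) := by
  classical
  set E : ι → Matrix (Fin n) (Fin n) ℂ := fun r => (Real.pi / Complex.sin (Real.pi * μ r) : ℂ) • EC (zt (μ r)) m with hE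
  set κ : ι → ℂ := fun r => (KM (μ r) a 0).det with hκ
  have hκ0 : ∀ r, κ r ≠ 0 := fun r => hμ.det a 0 r
  have hc0 : ∀ r, ∀ z ∈ Dm a m, c r ≠ 0 := by
    intro r z hz
    rw [← hc r z hz]
    exact det_ne (hμ.unit r).1 (hμ.unit r).2 ha hn m hz
  have h1 := (torP_half hn hμ ha m hc).graph (DP μ a κ c E)
  have hdual : ∀ x ∈ Um a m, ∀ Y Y' : ι × Fin n × Fin n → ℂ, (∀ r, (mtr Y r).det = c r) →
      ((∀ r, mtr Y r * KM (μ r) a (x ()) * (mtr Y' r).transpose = E r) ↔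
        ∀ q, Y' q = evX x Y (DP μ a κ c E q)) := by
    intro x hx Y Y' hY
    have h2 : ∀ r, mtr Y r * KM (μ r) a (x ()) * (mtr Y' r).transpose = E r ↔
        (mtr Y' r).transpose = (KM (μ r) a (x ())).adjugate * (mtr Y r).adjugate * (((κ r)⁻¹ * (c r)⁻¹) • E r) :=
      fun r => dual_iff (KM_det_const (μ r) a (x ()) 0) (hκ0 r) (hY r) (hc0 r _ hx)
    constructor
    · rintro h ⟨r, i, j⟩
      rw [DP_eval]
      have h3 := congrFun (congrFun ((h2 r).1 (h r)) j) i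
      exact h3
    · intro h r
      rw [h2 r]
      ext j i
      have h3 := h (r, i, j)
      rw [DP_eval] at h3
      exact h3
  have hf : ∀ x ∈ Um a m, (fun s => fA μ a m s x) =
      fun s => (Sum.elim (fh μ a m) (fun t x => evX x (fun s => fh μ a m s x) (DP μ a κ c E t))) s x := by
    intro x hx
    funext s
    rcases s with s | q
    · rfl
    · have h3 := (hdual x hx (fun q => fh μ a m q x) (fun q => fh (fun r => 1 - μ r) a m q x) (fun r => hc r _ hx)).1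
        (fun r => legendre (hμ.unit r).1 (hμ.unit r).2 ha hn m hx)
      exact h3 q
  have hTor : ∀ x ∈ Um a m, ∀ Y, Y ∈ TA μ a c E x ↔
      ((fun s => Y (Sum.inl s)) ∈ {Y : ι × Fin n × Fin n → ℂ | ∀ r, (mtr Y r).det = c r} ∧
        ∀ t, Y (Sum.inr t) = evX x (fun s => Y (Sum.inl s)) (DP μ a κ c E t)) := by
    intro x hx Y
    constructor
    · intro hY
      have hY1 : ∀ r, (mtr (fun q => Y (Sum.inl q)) r).det = c r := fun r => (hY r).1
      exact ⟨hY1, (hdual x hx _ (fun q => Y (Sum.inr q)) hY1).1 fun r => (hY r).2⟩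
    · rintro ⟨hY1, hY2⟩ r
      exact ⟨hY1 r, (hdual x hx _ (fun q => Y (Sum.inr q)) hY1).2 hY2 r⟩
  refine ⟨fun x hx => ?_, fun p hp x hx Y hY => ?_, fun x hx Y hY => ?_, fun x0 hx0 Y0 hY0 => ?_⟩
  · refine (hTor x hx _).2 ?_
    have h3 := h1.self x hx
    rw [← hf x hx] at h3
    exact h3
  · refine h1.inv p (fun x hx => ?_) x hx Y ((hTor x hx Y).1 hY)
    rw [evM_eq, ← hf x hx]
    exact hp x hx
  · obtain ⟨γ, g1, g2, g3⟩ := h1.path x hx Y ((hTor x hx Y).1 hY)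
    refine ⟨γ, fun s => ?_, g2, fun t => (hTor x hx _).2 (g3 t)⟩
    rw [g1 s]
    exact (congrFun (hf x hx) s).symm
  · obtain ⟨v, g1, g2⟩ := h1.sec x0 hx0 Y0 ((hTor x0 hx0 Y0).1 hY0)
    exact ⟨v, fun x hx => (hTor x hx _).2 (g1 x hx), g2⟩

end Pool.Agent.Helper67K9.SE
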